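import Pool.Agent.H911.EM.Der

/-!
The centre of a general projection: it is on no secant and on no tangent space.
-/

set_option autoImplicit false

namespace Pool.Agent.H911.EM

open MvPolynomial

variable {K : Type} [Field K] [CharZero K]

theorem par_cone {n d : ℕ} {S : Set (MvPolynomial (Fin (n + 1)) K)} (hS : Sm S d) {Ω : Type}
    [Field Ω] [Algebra K Ω] {x : Fin (n + 1) → Ω} (hx : On S x) :
    ∃ s : Fin (d / 2) ⊕ Unit → Ω, ∀ j, x j ∈ acl K s := by
  by_cases hx0 : x = 0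
  · refine ⟨0, fun j => ?_⟩
    rw [hx0]
    exact zero_mem _
  · obtain ⟨a, ha⟩ : ∃ a, x a ≠ 0 := by
      by_contra hcon
      push Not at hcon
      exact hx0 (funext hcon)
    have h1 : ((x a)⁻¹ • x) a = 1 := by
      rw [Pi.smul_apply, smul_eq_mul, inv_mul_cancel₀ ha]
    obtain ⟨r, hr, -, hr2⟩ := hS.nat _ a h1 (on_smul hS.forms hx (x a)⁻¹)
    obtain ⟨s, hs⟩ := par_pt (w := d / 2) ((x a)⁻¹ • x) (by
      rw [hr]
      exact_mod_cast (by omega : r ≤ d / 2))
    refine ⟨Sum.elim s fun _ => x a, fun j => ?_⟩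
    have h2 : x j = x a * ((x a)⁻¹ • x) j := by
      rw [Pi.smul_apply, smul_eq_mul, mul_inv_cancel_left₀ ha]
    rw [h2]
    exact mul_mem (mem_acl (Sum.elim s fun _ => x a) (Sum.inr ()))
      (acl_mono (fun i => ⟨Sum.inl i, rfl⟩) (hs j))

theorem center_sec {n d : ℕ} {S : Set (MvPolynomial (Fin (n + 2)) K)} (hS : Sm S d)
    (hn : d + 1 ≤ n) : ∃ Δ : MvPolynomial (Fin (n + 2)) K, Δ ≠ 0 ∧
      ∀ (Ω : Type) [Field Ω] [Algebra K Ω] (x u : Fin (n + 2) → Ω), On S x → On S u →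
        aeval (x - u) Δ = 0 := by
  obtain ⟨Δ, hΔ, h⟩ := elim (K := K) (σ := Fin (n + 2)) (τ := Fin (n + 2) ⊕ Fin (n + 2))
    ({G | ∃ F ∈ S, G = rename (fun j => Sum.inr (Sum.inl j)) F} ∪
      {G | ∃ F ∈ S, G = rename (fun j => Sum.inr (Sum.inr j)) F} ∪
      {G | ∃ j, G = X (Sum.inl j) - X (Sum.inr (Sum.inl j)) + X (Sum.inr (Sum.inr j))}) (by
    intro Ω _ _ p z hz hp
    have hx : On S (fun j => z (Sum.inl j)) := by
      intro F hF
      have h1 := hz _ (Or.inl (Or.inl ⟨F, hF, rfl⟩))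
      rw [aeval_rename] at h1
      exact h1
    have hu : On S (fun j => z (Sum.inr j)) := by
      intro F hF
      have h1 := hz _ (Or.inl (Or.inr ⟨F, hF, rfl⟩))
      rw [aeval_rename] at h1
      exact h1
    have hpj : ∀ j, p j = z (Sum.inl j) - z (Sum.inr j) := by
      intro j
      have h1 := hz _ (Or.inr ⟨j, rfl⟩)
      rw [map_add, map_sub, aeval_X, aeval_X, aeval_X] at h1
      have h2 : p j - z (Sum.inl j) + z (Sum.inr j) = 0 := h1
      linear_combination h2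
    obtain ⟨s, hs⟩ := par_cone hS hx
    obtain ⟨t, ht⟩ := par_cone hS hu
    have h1 := count_acl (K := K) (Sum.elim s t) p hp (by
      intro j
      rw [hpj]
      exact sub_mem (acl_mono (fun i => ⟨Sum.inl i, rfl⟩) (hs j))
        (acl_mono (fun i => ⟨Sum.inr i, rfl⟩) (ht j)))
    simp only [Fintype.card_fin, Fintype.card_sum, Fintype.card_unit] at h1
    omega)
  refine ⟨Δ, hΔ, fun Ω _ _ x u hx hu => h Ω (x - u) (Sum.elim x u) ?_⟩
  rintro G ((⟨F, hF, rfl⟩ | ⟨F, hF, rfl⟩) | ⟨j, rfl⟩)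
  · rw [aeval_rename]
    exact hx F hF
  · rw [aeval_rename]
    exact hu F hF
  · rw [map_add, map_sub, aeval_X, aeval_X, aeval_X]
    change (x - u) j - x j + u j = 0
    rw [Pi.sub_apply]
    ring

theorem center_tan {n d : ℕ} {S : Set (MvPolynomial (Fin (n + 2)) K)} (hS : Sm S d)
    (hn : d + 1 ≤ n) (a : Fin (n + 2)) : ∃ Δ : MvPolynomial (Fin (n + 2)) K, Δ ≠ 0 ∧
      ∀ (Ω : Type) [Field Ω] [Algebra K Ω] (x p : Fin (n + 2) → Ω), On S x → x a = 1 →
        p ∈ Tan S x → aeval p Δ = 0 := by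
  obtain ⟨Δ, hΔ, h⟩ := elim (K := K) (σ := Fin (n + 2)) (τ := Fin (n + 2))
    ({G | ∃ F ∈ S, G = rename Sum.inr F} ∪ {X (Sum.inr a) - 1} ∪
      {G | ∃ F ∈ S, G = ∑ j, rename Sum.inr (pderiv j F) * X (Sum.inl j)}) (by
    intro Ω _ _ p z hz hp
    have hx : On S z := by
      intro F hF
      have h1 := hz _ (Or.inl (Or.inl ⟨F, hF, rfl⟩))
      rw [aeval_rename] at h1
      exact h1
    have hza : z a = 1 := by
      have h1 := hz _ (Or.inl (Or.inr rfl))
      rw [map_sub, aeval_X, map_one, sub_eq_zero] at h1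
      exact h1
    have hpT : p ∈ Tan S z := by
      rw [mem_tan]
      intro F hF
      have h1 := hz _ (Or.inr ⟨F, hF, rfl⟩)
      rw [map_sum] at h1
      unfold dv
      rw [← h1]
      refine Finset.sum_congr rfl fun j _ => ?_
      rw [map_mul, aeval_X, aeval_rename]
      rfl
    obtain ⟨r, hr, hr2, -⟩ := hS.nat z a hza hx
    obtain ⟨s, hs⟩ := par_pt (w := r) z (by rw [hr])
    obtain ⟨f, hf⟩ : ∃ f, f = Module.finrank Ω (Tan S z) := ⟨_, rfl⟩
    rw [← hf] at hr2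
    have hE : ∀ G : MvPolynomial (Fin (n + 2)) K, aeval z G ∈ acl K s := by
      intro G
      have h1 : aeval z G ∈ Algebra.adjoin K (Set.range z) := by
        rw [Algebra.adjoin_range_eq_range_aeval]
        exact ⟨G, rfl⟩
      have h2 : Algebra.adjoin K (Set.range z) ≤ (acl K s).toSubalgebra := by
        rw [Algebra.adjoin_le_iff]
        rintro _ ⟨j, rfl⟩
        exact hs j
      exact h2 h1
    obtain ⟨q, hq, c, v, hv⟩ := lin_def (acl K s) (ι := S)
      (fun (F : S) j => (⟨aeval z (pderiv j (F : MvPolynomial (Fin (n + 2)) K)), hE _⟩ : acl K s))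
      (Tan S z) (by
        intro v
        rw [mem_tan]
        exact ⟨fun h F => h F F.2, fun h F hF => h ⟨F, hF⟩⟩)
      hf.ge p hpT
    have h1 := count_acl (K := K) (Sum.elim s c) p hp (by
      intro j
      rw [hv]
      refine sum_mem fun k _ => mul_mem (mem_acl (Sum.elim s c) (Sum.inr k))
        (acl_mono (fun i => ⟨Sum.inl i, rfl⟩) (v k j).2))
    simp only [Fintype.card_fin, Fintype.card_sum] at h1
    omega)
  refine ⟨Δ, hΔ, fun Ω _ _ x p hx hxa hp => h Ω p x ?_⟩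
  rintro G ((⟨F, hF, rfl⟩ | hG) | ⟨F, hF, rfl⟩)
  · rw [aeval_rename]
    exact hx F hF
  · rw [Set.mem_singleton_iff] at hG
    rw [hG, map_sub, aeval_X, map_one]
    change x a - 1 = 0
    rw [hxa, sub_self]
  · have h1 := (mem_tan.1 hp) F hF
    unfold dv at h1
    rw [map_sum, ← h1]
    refine Finset.sum_congr rfl fun j _ => ?_
    rw [map_mul, aeval_X, aeval_rename]
    rfl

/-- the centre -/
theorem exists_center {n d : ℕ} {S : Set (MvPolynomial (Fin (n + 2)) K)} (hS : Sm S d)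
    (hn : d + 1 ≤ n) : ∃ P : Fin (n + 2) → K, P 0 = 1 ∧
      (∀ (Ω : Type) [Field Ω] [Algebra K Ω] (x u : Fin (n + 2) → Ω) (c : Ω), On S x → On S u →
        (x - u = c • fun j => algebraMap K Ω (P j)) → x = u) ∧
      ∀ (Ω : Type) [Field Ω] [Algebra K Ω] (x : Fin (n + 2) → Ω), On S x → x ≠ 0 →
        (fun j => algebraMap K Ω (P j)) ∉ Tan S x := by
  classical
  obtain ⟨Δ₁, h1, h2⟩ := center_sec hS hn
  choose Δ₂ h3 h4 using center_tan hS hn
  obtain ⟨P, hP⟩ : ∃ P : Fin (n + 2) → K, eval P (Δ₁ * (∏ a, Δ₂ a) * X 0) ≠ 0 := by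
    by_contra hcon
    push Not at hcon
    exact mul_ne_zero (mul_ne_zero h1 (Finset.prod_ne_zero_iff.2 fun a _ => h3 a)) (X_ne_zero _)
      (MvPolynomial.funext fun c => by rw [hcon c, map_zero])
  rw [map_mul, map_mul, map_prod, eval_X] at hP
  have hP0 := right_ne_zero_of_mul hP
  have hP1 := left_ne_zero_of_mul (left_ne_zero_of_mul hP)
  have hP2 := Finset.prod_ne_zero_iff.1 (right_ne_zero_of_mul (left_ne_zero_of_mul hP))
  have hev : ∀ (Ω : Type) [Field Ω] [Algebra K Ω] (Δ : MvPolynomial (Fin (n + 2)) K),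
      eval P Δ ≠ 0 → aeval (fun j => algebraMap K Ω (P j)) Δ ≠ 0 := by
    intro Ω _ _ Δ hΔ h5
    apply hΔ
    apply (algebraMap K Ω).injective
    rw [map_zero, ← h5, aeval_def, ← eval₂_id, hom_eval₂]
    rfl
  refine ⟨fun j => (P 0)⁻¹ * P j, inv_mul_cancel₀ hP0, ?_, ?_⟩
  · intro Ω _ _ x u c hx hu hxu
    by_cases hc : c = 0
    · rw [hc, zero_smul] at hxu
      exact sub_eq_zero.1 hxu
    · exfalso
      obtain ⟨d, hd⟩ : ∃ d : Ω, d = c * algebraMap K Ω (P 0)⁻¹ := ⟨_, rfl⟩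
      have hd0 : d ≠ 0 := by
        rw [hd]
        exact mul_ne_zero hc ((map_ne_zero _).2 (inv_ne_zero hP0))
      have h5 : (d⁻¹ • x) - (d⁻¹ • u) = fun j => algebraMap K Ω (P j) := by
        rw [← smul_sub, hxu]
        funext j
        rw [Pi.smul_apply, Pi.smul_apply, map_mul, smul_eq_mul, smul_eq_mul, ← mul_assoc c,
          ← hd, inv_mul_cancel_left₀ hd0]
      have h6 := h2 Ω _ _ (on_smul hS.forms hx d⁻¹) (on_smul hS.forms hu d⁻¹)
      rw [h5] at h6
      exact hev Ω Δ₁ hP1 h6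
  · intro Ω _ _ x hx hx0 hT
    obtain ⟨a, ha⟩ : ∃ a, x a ≠ 0 := by
      by_contra hcon
      push Not at hcon
      exact hx0 (funext hcon)
    have h5 : ((x a)⁻¹ • x) a = 1 := by
      rw [Pi.smul_apply, smul_eq_mul, inv_mul_cancel₀ ha]
    refine hev Ω (Δ₂ a) (hP2 a (Finset.mem_univ a)) (h4 a Ω _ _ (on_smul hS.forms hx (x a)⁻¹) h5 ?_)
    have h6 : (fun j => algebraMap K Ω (P j)) =
        algebraMap K Ω (P 0) • fun j => algebraMap K Ω ((P 0)⁻¹ * P j) := by
      funext j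
      rw [Pi.smul_apply, smul_eq_mul, ← map_mul, mul_inv_cancel_left₀ hP0]
    rw [h6]
    refine Submodule.smul_mem _ _ ?_
    rw [mem_tan] at hT ⊢
    intro F hF
    obtain ⟨e, he⟩ := hS.forms F hF
    rw [dv_smul he, hT F hF, mul_zero]

end Pool.Agent.H911.EM
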