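import Pool.Agent.H911.EM.Image

/-!
A closed set with `Sm S d` (for instance smooth of dimension `d / 2`) can be embedded in `P^N` for every
`N ≥ d + 1`.
-/

set_option autoImplicit false

namespace Pool.Agent.H911.EM

open MvPolynomial

variable {K : Type} [Field K]

theorem Emb.comp {n N M : ℕ} {S : Set (MvPolynomial (Fin (n + 1)) K)}
    {S' : Set (MvPolynomial (Fin (N + 1)) K)} {S'' : Set (MvPolynomial (Fin (M + 1)) K)}
    {A : Fin (N + 1) → MvPolynomial (Fin (n + 1)) K} {A' : Fin (M + 1) → MvPolynomial (Fin (N + 1)) K}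
    (h : Emb S S' A) (h' : Emb S' S'' A') : Emb S S'' (fun i => bind₁ A (A' i)) where
  lin := fun i => bind_hom h.lin (h'.lin i)
  map := by
    intro Ω _ _ x hx
    rw [at_bind]
    exact h'.map Ω _ (h.map Ω x hx)
  zero := by
    intro Ω _ _ x hx hx0
    rw [at_bind] at hx0
    exact h.zero Ω x hx (h'.zero Ω _ (h.map Ω x hx) hx0)
  inv := by
    intro Ω _ _ z hz0 hz
    obtain ⟨k', H', R', hH'h, hR'h, hH', h1, h2⟩ := h'.inv Ω z hz0 hz
    obtain ⟨hz1, hz2⟩ := h1 Ω z hz
    have hz3 : at' R' z ≠ 0 := by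
      intro h3
      rw [h3] at hz2
      have h4 : at' A' (0 : Fin (N + 1) → Ω) = 0 := by
        have h5 := at_smul h'.lin (0 : Ω) (0 : Fin (N + 1) → Ω)
        rw [zero_smul, pow_one, zero_smul] at h5
        exact h5
      rw [h4] at hz2
      exact hz0 ((smul_eq_zero.1 hz2.symm).resolve_left hH')
    obtain ⟨k, H, R, hHh, hRh, hH, h3, h4⟩ := h.inv Ω _ hz3 hz1
    refine ⟨(k' + 1) * k + k', bind₁ R' H * H', fun j => bind₁ R' (R j), ?_, ?_, ?_, ?_, ?_⟩
    · exact (bind_hom hR'h hHh).mul hH'h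
    · intro j
      have h5 := bind_hom hR'h (hRh j)
      have h6 : (k' + 1) * (k + 1) = (k' + 1) * k + k' + 1 := by ring
      rwa [h6] at h5
    · rw [map_mul, bind_at]
      exact mul_ne_zero hH hH'
    · intro Ω' _ _ u hu
      obtain ⟨hu1, hu2⟩ := h1 Ω' u hu
      obtain ⟨hu3, hu4⟩ := h3 Ω' _ hu1
      rw [at_bind, at_bind]
      refine ⟨hu3, ?_⟩
      rw [hu4, at_smul h'.lin, pow_one, hu2, smul_smul, map_mul, bind_at]
    · intro Ω' _ _ x hx
      rw [at_bind, at_bind, h2 Ω' _ (h.map Ω' x hx), at_smul hRh, h4 Ω' x hx, smul_smul, map_mul,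
        bind_at, h2 Ω' _ (h.map Ω' x hx), ev_smul hHh]
      congr 1
      ring

/-- extension by zero -/
theorem exists_ext [CharZero K] {n N d : ℕ} (hnN : n ≤ N)
    {S : Set (MvPolynomial (Fin (n + 1)) K)} (hS : Sm S d) :
    ∃ (S' : Set (MvPolynomial (Fin (N + 1)) K))
      (A : Fin (N + 1) → MvPolynomial (Fin (n + 1)) K), Sm S' d ∧ Emb S S' A := by
  obtain ⟨e, he⟩ : ∃ e : Fin (n + 1) → Fin (N + 1), ∀ j, (e j : ℕ) = j :=
    ⟨fun j => ⟨j, by omega⟩, fun _ => rfl⟩
  obtain ⟨A, hA1, hA2⟩ : ∃ A : Fin (N + 1) → MvPolynomial (Fin (n + 1)) K,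
      (∀ j, A (e j) = X j) ∧ ∀ i : Fin (N + 1), n < (i : ℕ) → A i = 0 := by
    refine ⟨fun i => if h : (i : ℕ) ≤ n then X ⟨i, by omega⟩ else 0, ?_, ?_⟩
    · intro j
      simp only
      rw [dif_pos (by rw [he]; omega)]
      congr 1
      exact Fin.ext (he j)
    · intro i hi
      simp only
      rw [dif_neg (by omega)]
  have hcase : ∀ i : Fin (N + 1), (∃ j, i = e j) ∨ n < (i : ℕ) := by
    intro i
    rcases Nat.lt_or_ge n (i : ℕ) with h | h
    · exact Or.inr h
    · exact Or.inl ⟨⟨i, by omega⟩, Fin.ext (by rw [he])⟩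
  obtain ⟨S', hS'⟩ : ∃ S' : Set (MvPolynomial (Fin (N + 1)) K), S' =
    {G | ∃ F ∈ S, G = bind₁ (fun j => X (e j)) F} ∪ {G | ∃ i : Fin (N + 1), n < (i : ℕ) ∧ G = X i} :=
    ⟨_, rfl⟩
  have hRX : ∀ (Ω : Type) [Field Ω] [Algebra K Ω] (z : Fin (N + 1) → Ω),
      at' (fun j => (X (e j) : MvPolynomial (Fin (N + 1)) K)) z = fun j => z (e j) := by
    intro Ω _ _ z
    funext j
    exact aeval_X _ _
  have hon : ∀ (Ω : Type) [Field Ω] [Algebra K Ω] (z : Fin (N + 1) → Ω), On S' z ↔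
      On S (fun j => z (e j)) ∧ ∀ i : Fin (N + 1), n < (i : ℕ) → z i = 0 := by
    intro Ω _ _ z
    rw [hS']
    constructor
    · intro h
      refine ⟨fun F hF => ?_, fun i hi => ?_⟩
      · have h1 := h _ (Or.inl ⟨F, hF, rfl⟩)
        rw [bind_at, hRX] at h1
        exact h1
      · have h1 := h _ (Or.inr ⟨i, hi, rfl⟩)
        rwa [aeval_X] at h1
    · rintro ⟨h1, h2⟩ G (⟨F, hF, rfl⟩ | ⟨i, hi, rfl⟩)
      · rw [bind_at, hRX]
        exact h1 F hF
      · rw [aeval_X]
        exact h2 i hi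
  have hAe : ∀ (Ω : Type) [Field Ω] [Algebra K Ω] (x : Fin (n + 1) → Ω),
      (∀ j, at' A x (e j) = x j) ∧ ∀ i : Fin (N + 1), n < (i : ℕ) → at' A x i = 0 := by
    intro Ω _ _ x
    constructor
    · intro j
      unfold at'
      rw [hA1, aeval_X]
    · intro i hi
      unfold at'
      rw [hA2 i hi, map_zero]
  refine ⟨S', A, ⟨?_, ?_⟩, ⟨?_, ?_, ?_, ?_⟩⟩
  · rw [hS']
    rintro G (⟨F, hF, rfl⟩ | ⟨i, hi, rfl⟩)
    · obtain ⟨d, hd⟩ := hS.forms F hF
      exact ⟨_, bind_hom (fun j => isHomogeneous_X K _) hd⟩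
    · exact ⟨1, isHomogeneous_X K _⟩
  · intro Ω _ _ z a ha hz
    obtain ⟨hz1, hz2⟩ := (hon Ω z).1 hz
    obtain ⟨b, rfl⟩ : ∃ b, a = e b := by
      rcases hcase a with h | h
      · exact h
      · rw [hz2 a h] at ha
        exact absurd ha zero_ne_one
    obtain ⟨r, hr, hr2, -⟩ := hS.nat (fun j => z (e j)) b ha hz1
    obtain ⟨s, hs⟩ := par_pt (w := r) (fun j => z (e j)) (by rw [hr])
    have h2 := trdeg_acl (K := K) (z := z) (s := s) (by
      intro i
      rcases hcase i with ⟨j, rfl⟩ | h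
      · exact hs j
      · rw [hz2 i h]
        exact zero_mem _)
    rw [Fintype.card_fin] at h2
    have hvz : ∀ v ∈ Tan S' z, ∀ i : Fin (N + 1), n < (i : ℕ) → v i = 0 := by
      intro v hv i hi
      have h1 := (mem_tan.1 hv) (X i) (by rw [hS']; exact Or.inr ⟨i, hi, rfl⟩)
      rwa [dv_X] at h1
    have hmem : ∀ v ∈ Tan S' z, (fun j => v (e j)) ∈ Tan S (fun j => z (e j)) := by
      intro v hv
      rw [mem_tan]
      intro F hF
      have h1 := (mem_tan.1 hv) (bind₁ (fun j => X (e j)) F) (by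
        rw [hS']
        exact Or.inl ⟨F, hF, rfl⟩)
      rw [dv_bind, hRX] at h1
      simp only [dv_X] at h1
      exact h1
    let L : Tan S' z →ₗ[Ω] Tan S (fun j => z (e j)) :=
      { toFun := fun v => ⟨fun j => (v : Fin (N + 1) → Ω) (e j), hmem v v.2⟩
        map_add' := fun u v => rfl
        map_smul' := fun c v => rfl }
    have hinj : Function.Injective L := by
      intro u v huv
      apply Subtype.ext
      funext i
      rcases hcase i with ⟨j, rfl⟩ | h1
      · exact congrFun (congrArg Subtype.val huv) j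
      · rw [hvz u u.2 i h1, hvz v v.2 i h1]
    have hfr := LinearMap.finrank_le_finrank_of_injective hinj
    calc Algebra.trdeg K (Algebra.adjoin K (Set.range z)) +
        (Module.finrank Ω (Tan S' z) : Cardinal)
        ≤ (r : Cardinal) + (Module.finrank Ω (Tan S (fun j => z (e j))) : Cardinal) :=
          add_le_add h2 (by exact_mod_cast hfr)
      _ ≤ ((d + 1 : ℕ) : Cardinal) := by exact_mod_cast hr2
  · intro i
    rcases hcase i with ⟨j, rfl⟩ | h
    · rw [hA1]
      exact isHomogeneous_X K _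
    · rw [hA2 i h]
      exact isHomogeneous_zero _ _ _
  · intro Ω _ _ x hx
    rw [hon]
    refine ⟨?_, (hAe Ω x).2⟩
    have h1 : (fun j => at' A x (e j)) = x := funext (hAe Ω x).1
    rw [h1]
    exact hx
  · intro Ω _ _ x hx h
    funext j
    rw [← (hAe Ω x).1 j, h]
    rfl
  · intro Ω _ _ z hz0 hz
    refine ⟨0, 1, fun j => X (e j), isHomogeneous_one _ _, fun j => isHomogeneous_X K _, ?_, ?_, ?_⟩
    · rw [map_one]
      exact one_ne_zero
    · intro Ω' _ _ u hu
      obtain ⟨hu1, hu2⟩ := (hon Ω' u).1 hu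
      rw [hRX]
      refine ⟨hu1, ?_⟩
      rw [map_one, one_smul]
      funext i
      rcases hcase i with ⟨j, rfl⟩ | h
      · rw [(hAe Ω' _).1]
      · rw [(hAe Ω' _).2 i h, hu2 i h]
    · intro Ω' _ _ x hx
      rw [hRX, map_one, one_smul]
      exact funext (hAe Ω' x).1

/-- the embedding in a space of smaller dimension -/
theorem exists_down [CharZero K] {d : ℕ} : ∀ (r N : ℕ), d + 1 ≤ N →
    ∀ S : Set (MvPolynomial (Fin (N + r + 1)) K), Sm S d →
    ∃ (S' : Set (MvPolynomial (Fin (N + 1)) K))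
      (A : Fin (N + 1) → MvPolynomial (Fin (N + r + 1)) K), Sm S' d ∧ Emb S S' A := by
  intro r
  induction r with
  | zero =>
    intro N hN S hS
    exact exists_ext (le_refl _) hS
  | succ r ih =>
    intro N hN S hS
    obtain ⟨P, h1, h2, h3⟩ := exists_center (n := N + r) hS (by omega)
    have hP : Ctr (n := N + r) S P := ⟨hS.forms, h1, h2, h3⟩
    obtain ⟨S'', A, hS'', hA⟩ := ih N hN (img S (prj P)) (prj_sm hS hP)
    exact ⟨S'', _, hS'', (prj_emb hP).comp hA⟩

/-- **The embedding.** -/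
theorem exists_emb [CharZero K] {n N d : ℕ} (hN : d + 1 ≤ N)
    {S : Set (MvPolynomial (Fin (n + 1)) K)} (hS : Sm S d) :
    ∃ (S' : Set (MvPolynomial (Fin (N + 1)) K))
      (A : Fin (N + 1) → MvPolynomial (Fin (n + 1)) K), Sm S' d ∧ Emb S S' A := by
  rcases Nat.le_total n N with h | h
  · exact exists_ext h hS
  · obtain ⟨r, rfl⟩ : ∃ r, n = N + r := ⟨n - N, by omega⟩
    exact exists_down r N hN S hS

end Pool.Agent.H911.EM
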