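import Pool.Agent.H911.EM.Stm

/-!
Projective varieties: the exceptional sets of the smooth hypersurfaces are those of the embedded varieties.
-/

set_option autoImplicit false

namespace Pool.Agent.H911.EM

open MvPolynomial Metric
open Pool.Agent.W602.GT (SubVar GeneralType)
open Pool.Agent.N254.SQ (IsForm Eqs Gen NotIn LogGeneral OnSpecialQ OnCurvesQ OnDiscsQ OnSpecial
  OnCurves OnDiscs OnSab Component SmoothForm powerForm)
open Pool.Agent.H911.GD (Typ Moves typ_curves typ_discs typ_special typ_sab moves_curves moves_discs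
  moves_special SabQ sab_one special_one curves_one discs_one compat_one one_form notIn_one log_one
  bind_form Excep)

/-- the kinds of exceptional sets of projective varieties -/
structure Kind (P : ∀ n : ℕ, Set (MvPolynomial (Fin (n + 1)) ℂ) →
    Set (MvPolynomial (Fin (n + 1)) ℂ) → MvPolynomial (Fin (n + 1)) ℂ → Prop) : Prop where
  typ : Typ P
  mv : ∀ {n N : ℕ} (A : Fin (N + 1) → MvPolynomial (Fin (n + 1)) ℂ), MvAt P A {1} {1}
  out : ∀ {N : ℕ} {S' : Set (MvPolynomial (Fin (N + 1)) ℂ)} {B : MvPolynomial (Fin (N + 1)) ℂ},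
    Hy S' B → (∀ F ∈ S', IsForm F) → ∀ F ∈ S', P N {B} {1} F

theorem kind_curves : Kind (fun _ S T G => OnCurvesQ S T G) :=
  ⟨typ_curves, fun _ => Moves.mvAt moves_curves one_form one_form,
    fun hB _ F hF => hB.out.onCurves hF⟩

theorem kind_discs : Kind (fun _ S T G => OnDiscsQ S T G) :=
  ⟨typ_discs, fun _ => Moves.mvAt moves_discs one_form one_form,
    fun hB _ F hF => hB.out.onDiscs hB.form hF⟩

theorem kind_special : Kind (fun _ S T G => OnSpecialQ S T G) :=
  ⟨typ_special, fun _ => Moves.mvAt moves_special one_form one_form,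
    fun hB _ F hF => hB.out.onSpecial hF⟩

theorem kind_sab : Kind (fun _ S T G => SabQ S T G) :=
  ⟨typ_sab, fun _ => mvAt_sab, fun hB hS' _ hF => (sab_one _ _).2 (hB.out.onSab hB.form hS' hF)⟩

section

variable {P P₂ : ∀ n : ℕ, Set (MvPolynomial (Fin (n + 1)) ℂ) →
    Set (MvPolynomial (Fin (n + 1)) ℂ) → MvPolynomial (Fin (n + 1)) ℂ → Prop}
  {n N : ℕ} {S : Set (MvPolynomial (Fin (n + 1)) ℂ)} {S' : Set (MvPolynomial (Fin (N + 1)) ℂ)}
  {A : Fin (N + 1) → MvPolynomial (Fin (n + 1)) ℂ} {B : MvPolynomial (Fin (N + 1)) ℂ}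

theorem tr_one (hE : WEmb S S' A) : Tr S S' A {1} {1} :=
  ⟨hE, one_form, one_form, fun _ _ _ y _ => compat_one y A⟩

theorem Kind.model (hP : Kind P) (hE : WEmb S S' A) (hB : Hy S' B)
    {G : MvPolynomial (Fin (N + 1)) ℂ} (hG : IsForm G) :
    P N {B} {1} G ↔ P n S {1} (bind₁ A G) :=
  (tr_one hE).model_iff hP.typ (hP.mv A) hB (hP.out hB hE.forms') hG

theorem Kind.same (hP : Kind P) (hP₂ : Kind P₂) (hE : WEmb S S' A) (hB : Hy S' B) :
    (∀ G, IsForm G → (P N {B} {1} G ↔ P₂ N {B} {1} G)) ↔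
      ∀ G, IsForm G → (P n S {1} G ↔ P₂ n S {1} G) := by
  constructor
  · intro h G hG
    refine (tr_one hE).eq hP.typ (hP.mv A) hP₂.typ (hP₂.mv A) (fun G hG => ?_) hG
    have h1 := hyp_iff' hP.typ hE.forms' one_form hB.form hB.van (hP.out hB hE.forms') hG
    have h2 := hyp_iff' hP₂.typ hE.forms' one_form hB.form hB.van (hP₂.out hB hE.forms') hG
    rw [← h1, ← h2]
    exact h G hG
  · intro h G hG
    rw [hP.model hE hB hG, hP₂.model hE hB hG]
    exact h _ (bind_form hE.lin hG)

/-- from the hypersurface to the variety: exceptional sets and components -/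
theorem Kind.excep (hP : Kind P) (hE : WEmb S S' A) (hB : Hy S' B) (h : Excep P B {1}) :
    ExcepS P S {1} :=
  (tr_one hE).excep hP.typ (hP.mv A) hB (hP.out hB hE.forms') h

theorem special_model (hE : WEmb S S' A) (hB : Hy S' B)
    {G : MvPolynomial (Fin (N + 1)) ℂ} (hG : IsForm G) :
    OnSpecial {B} G ↔ OnSpecial S (bind₁ A G) := by
  have h := kind_special.model hE hB hG
  simp only [special_one] at h
  exact h

theorem curves_model (hE : WEmb S S' A) (hB : Hy S' B)
    {G : MvPolynomial (Fin (N + 1)) ℂ} (hG : IsForm G) :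
    OnCurves {B} G ↔ OnCurves S (bind₁ A G) := by
  have h := kind_curves.model hE hB hG
  simp only [curves_one] at h
  exact h

theorem sab_model (hE : WEmb S S' A) (hB : Hy S' B)
    {G : MvPolynomial (Fin (N + 1)) ℂ} (hG : IsForm G) :
    OnSab {B} G ↔ OnSab S (bind₁ A G) := by
  have h := kind_sab.model hE hB hG
  simp only [sab_one] at h
  exact h

theorem sab_special (hE : WEmb S S' A) (hB : Hy S' B) :
    (∀ G, IsForm G → (OnSab {B} G ↔ OnSpecial {B} G)) ↔
      ∀ G, IsForm G → (OnSab S G ↔ OnSpecial S G) := by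
  have h := kind_sab.same kind_special hE hB
  simp only [sab_one, special_one] at h
  exact h

theorem sab_curves (hE : WEmb S S' A) (hB : Hy S' B) :
    (∀ G, IsForm G → (OnSab {B} G ↔ OnCurves {B} G)) ↔
      ∀ G, IsForm G → (OnSab S G ↔ OnCurves S G) := by
  have h := kind_sab.same kind_curves hE hB
  simp only [sab_one, curves_one] at h
  exact h

/-- nonconstant maps given by holomorphic homogeneous coordinates -/
theorem maps_in (hE : WEmb S S' A) (hB : Hy S' B) {E : Type} [NormedAddCommGroup E]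
    [NormedSpace ℂ E] {F : E → Fin (N + 1) → ℂ} (hF : Differentiable ℂ F)
    (hFB : ∀ z, eval (F z) B = 0) :
    (∀ z w i j, F z i * F w j = F z j * F w i) ∨
      ∀ z, F z ≠ 0 → ∃ x : Fin (n + 1) → ℂ, x ≠ 0 ∧ (∀ p ∈ S, eval x p = 0) ∧ F z = at' A x := by
  by_cases hcon : ∀ z w i j, F z i * F w j = F z j * F w i
  · exact Or.inl hcon
  right
  push Not at hcon
  intro z hz
  obtain ⟨e, he⟩ := hB.form
  have h1 := hB.out.line he hE.forms' hF
    (fun p => by rw [MvPolynomial.map_id]; exact hFB p) hcon z hz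
  obtain ⟨x, hx0, hxS, hxA⟩ := hE.surj ℂ (F z) hz (fun G hG => by
    have h2 := h1 G hG
    rwa [MvPolynomial.map_id] at h2)
  exact ⟨x, hx0, hxS, hxA.symm⟩

end

end Pool.Agent.H911.EM
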