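import Pool.Agent.H911.EM.Ff2
import Pool.Agent.H911.EM.One

/-!
Algebraic notions of hyperbolicity outside of closed subsets, under embeddings.
-/

set_option autoImplicit false

namespace Pool.Agent.H911.EM

open MvPolynomial FF
open Pool.Agent.N254.SQ (Eqs IsForm Gen OnSpecial OnAlgebraic OnBounded OnTori)
open Pool.Agent.W602.GT (coords SubVar GeneralType)
open Pool.Agent.W603.LV (canDeg)
open Pool.Agent.W603.PV (pht)
open Pool.Agent.H911.GD (bind_eval)

variable {n N : ℕ} {S : Set (MvPolynomial (Fin (n + 1)) ℂ)}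
  {S' : Set (MvPolynomial (Fin (N + 1)) ℂ)} {A : Fin (N + 1) → MvPolynomial (Fin (n + 1)) ℂ}
  {B : MvPolynomial (Fin (N + 1)) ℂ}

/-- the closed subset `G = 0` of `V(S)` is the preimage of `V(T')` -/
def CorrA {n N : ℕ} (S : Set (MvPolynomial (Fin (n + 1)) ℂ))
    (A : Fin (N + 1) → MvPolynomial (Fin (n + 1)) ℂ) (G : MvPolynomial (Fin (n + 1)) ℂ)
    (T' : Set (MvPolynomial (Fin (N + 1)) ℂ)) : Prop :=
  ∀ (Ω : Type) [Field Ω] [Algebra ℂ Ω] (x : Fin (n + 1) → Ω), x ≠ 0 → On S x →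
    (aeval x G = 0 ↔ On T' (at' A x))

theorem CorrA.corr {G : MvPolynomial (Fin (n + 1)) ℂ} {T' : Set (MvPolynomial (Fin (N + 1)) ℂ)}
    (h : CorrA S A G T') : Corr S A G T' := fun x hx hxS => h ℂ x hx hxS

/-- a finite set of forms with the same zeros -/
theorem exists_finite (T : Set (MvPolynomial (Fin (N + 1)) ℂ)) :
    ∃ T₁ ⊆ T, T₁.Finite ∧ ∀ (Ω : Type) [Field Ω] [Algebra ℂ Ω] (x : Fin (N + 1) → Ω),
      On T₁ x ↔ On T x := by
  obtain ⟨T₁, hT₁, hT⟩ := Submodule.fg_span_iff_fg_span_finset_subset T |>.1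
    (IsNoetherian.noetherian (Ideal.span T))
  refine ⟨T₁, hT₁, T₁.finite_toSet, fun Ω _ _ x => ⟨fun h F hF => ?_, fun h F hF => h F (hT₁ hF)⟩⟩
  have h1 : Ideal.span (T₁ : Set (MvPolynomial (Fin (N + 1)) ℂ)) ≤
      RingHom.ker (aeval x : MvPolynomial (Fin (N + 1)) ℂ →ₐ[ℂ] Ω) := by
    rw [Ideal.span_le]
    exact fun p hp => h p hp
  have h2 : F ∈ Submodule.span (MvPolynomial (Fin (N + 1)) ℂ) T := Submodule.subset_span hF
  rw [hT] at h2
  exact h1 h2

theorem exists_corrA (hE : WEmb S S' A) {G : MvPolynomial (Fin (n + 1)) ℂ} (hG : IsForm G) :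
    ∃ T' : Set (MvPolynomial (Fin (N + 1)) ℂ), T'.Finite ∧ (∀ F ∈ T', IsForm F) ∧
      CorrA S A G T' := by
  obtain ⟨T', hT', h⟩ := hE.closed {G} (fun F hF => by
    rw [Set.mem_singleton_iff] at hF
    rw [hF]
    exact hG)
  obtain ⟨T₁, hT₁, hfin, h1⟩ := exists_finite T'
  refine ⟨T₁, hfin, fun F hF => hT' F (hT₁ hF), fun Ω _ _ x hx hxS => ?_⟩
  rw [h1, ← h Ω x hx hxS]
  constructor
  · intro h2 F hF
    rw [Set.mem_singleton_iff] at hF
    rw [hF]
    exact h2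
  · intro h2
    exact h2 G rfl

theorem corrA_bind {G : MvPolynomial (Fin (N + 1)) ℂ} : CorrA S A (bind₁ A G) {G} := by
  intro Ω _ _ x _ _
  have h1 : aeval x (bind₁ A G) = aeval (at' A x) G := bind_eval A x G
  rw [h1]
  constructor
  · intro h F hF
    rw [Set.mem_singleton_iff] at hF
    rw [hF]
    exact h
  · intro h
    exact h G rfl

variable {G : MvPolynomial (Fin (n + 1)) ℂ} {T' : Set (MvPolynomial (Fin (N + 1)) ℂ)}

theorem algebraic_corr (hE : WEmb S S' A) (hB : Hy S' B) (hO : CurvesOutside B S')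
    (hC : CorrA S A G T') (hfin : T'.Finite) :
    (∀ G' ∈ T', OnAlgebraic {B} G') ↔ OnAlgebraic S G := by
  classical
  constructor
  · intro h
    choose! α hα using h
    obtain ⟨a, ha⟩ : ∃ a : ℕ, ∀ G' ∈ T', α G' ≤ a := by
      obtain ⟨T₁, rfl⟩ := hfin.exists_finset_coe
      exact ⟨T₁.sup α, fun G' hG' => Finset.le_sup (f := α) hG'⟩
    refine ⟨a, fun E _ _ _ x hx hxS hxG => ?_⟩
    obtain ⟨G', hG', hxG'⟩ : ∃ G' ∈ T', aeval (at' A x) G' ≠ 0 := by
      by_contra hcon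
      push Not at hcon
      exact hxG ((hC E x hx hxS).2 hcon)
    rw [← hE.pht_eq hx hxS]
    refine (hα G' hG' E _ (hE.ne_zero hx hxS) (on_hyp hB (hE.map E x hxS)) hxG').trans ?_
    refine mul_le_mul_of_nonneg_right ?_ (le_max_right _ _)
    exact_mod_cast ha G' hG'
  · rintro ⟨α, hα⟩ G' hG'
    refine ⟨α + 1, fun E _ _ _ z hz hzB hzG => ?_⟩
    have h0 : (0 : ℤ) ≤ max (canDeg ℂ E) 0 := le_max_right _ _
    push_cast
    rw [add_mul, one_mul]
    rcases hO E z hz (hzB B rfl) with h | h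
    · have h1 : (0 : ℤ) ≤ α * max (canDeg ℂ E) 0 := by positivity
      linarith
    · obtain ⟨x, hx, hxS, rfl⟩ := hE.surj E z hz h
      have h1 := hα E x hx hxS (fun h2 => hzG ((hC E x hx hxS).1 h2 G' hG'))
      rw [hE.pht_eq hx hxS]
      linarith

theorem bounded_corr (hE : WEmb S S' A) (hB : Hy S' B) (hO : CurvesOutside B S')
    (hC : CorrA S A G T') (hfin : T'.Finite) :
    (∀ G' ∈ T', OnBounded {B} G') ↔ OnBounded S G := by
  classical
  constructor
  · intro h E _ _ _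
    have h' : ∀ G' ∈ T', ∃ b : ℤ, ∀ y : Fin (N + 1) → E, y ≠ 0 →
        (∀ p ∈ ({B} : Set (MvPolynomial (Fin (N + 1)) ℂ)), aeval y p = 0) → aeval y G' ≠ 0 →
          pht ℂ y ≤ b := fun G' hG' => h G' hG' E
    choose! b hb using h'
    obtain ⟨a, ha⟩ : ∃ a : ℤ, ∀ G' ∈ T', b G' ≤ a := by
      obtain ⟨a, ha⟩ := (hfin.image b).bddAbove
      exact ⟨a, fun G' hG' => ha ⟨G', hG', rfl⟩⟩
    refine ⟨a, fun x hx hxS hxG => ?_⟩
    obtain ⟨G', hG', hxG'⟩ : ∃ G' ∈ T', aeval (at' A x) G' ≠ 0 := by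
      by_contra hcon
      push Not at hcon
      exact hxG ((hC E x hx hxS).2 hcon)
    rw [← hE.pht_eq hx hxS]
    exact (hb G' hG' _ (hE.ne_zero hx hxS) (on_hyp hB (hE.map E x hxS)) hxG').trans (ha G' hG')
  · intro h G' hG' E _ _ _
    obtain ⟨b, hb⟩ := h E
    refine ⟨max b (max (canDeg ℂ E) 0), fun z hz hzB hzG => ?_⟩
    rcases hO E z hz (hzB B rfl) with h | h
    · exact h.trans (le_max_right _ _)
    · obtain ⟨x, hx, hxS, rfl⟩ := hE.surj E z hz h
      have h1 := hb x hx hxS (fun h2 => hzG ((hC E x hx hxS).1 h2 G' hG'))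
      rw [hE.pht_eq hx hxS]
      exact h1.trans (le_max_left _ _)

theorem special_corr (hE : WEmb S S' A) (hB : Hy S' B) (hC : CorrA S A G T') :
    (∀ G' ∈ T', OnSpecial {B} G') ↔ OnSpecial S G := by
  constructor
  · intro h L _ _ w y hw hy
    have hgen : Gen L w y := ⟨hy.ne, hy.gen, hy.dim⟩
    have hyS : On S y := fun p hp => hy.mem ⟨p, hp⟩
    by_cases hgt : GeneralType ℂ L w
    · exact Or.inl hgt
    right
    have h1 := hE.gen hgen hyS
    refine (hC L y hy.ne hyS).2 fun G' hG' => ?_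
    rcases h G' hG' L w (at' A y) hw ⟨h1.ne, fun p => by
      have h2 := p.2
      rw [Set.mem_singleton_iff] at h2
      rw [h2]
      exact hB.van L _ (hE.map L y hyS), h1.gen, h1.dim⟩ with h3 | h3
    · exact absurd h3 hgt
    · exact h3
  · intro h G' hG' L _ _ w z hw hz
    rcases hB.out.sub L w z hw ⟨hz.ne, fun _ => by
      rw [MvPolynomial.map_id]
      exact hz.mem ⟨B, rfl⟩, hz.gen, hz.dim⟩ with h1 | h1
    · exact Or.inl h1
    · obtain ⟨y, hyS, rfl, hy⟩ := hE.gen_surj ⟨hz.ne, hz.gen, hz.dim⟩ (fun F hF => by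
        have h2 := h1 F hF
        rwa [MvPolynomial.map_id] at h2)
      rcases h L w y hw ⟨hy.ne, fun p => hyS p.1 p.2, hy.gen, hy.dim⟩ with h2 | h2
      · exact Or.inl h2
      · exact Or.inr ((hC L y hy.ne hyS).1 h2 G' hG')

end Pool.Agent.H911.EM
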