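import Pool.Agent.H911.EM.WHyp
import Mathlib.RingTheory.Nullstellensatz

/-!
Tangent spaces at complex points.
-/

set_option autoImplicit false

namespace Pool.Agent.H911.EM

open MvPolynomial

/-- specialization: the coordinates in an extension field of `ℂ` can be replaced by complex numbers -/
theorem specialize {σ : Type} [Finite σ] {Ω : Type} [Field Ω] [Algebra ℂ Ω] (z : σ → Ω) :
    ∃ c : σ → ℂ, ∀ F : MvPolynomial σ ℂ, aeval z F = 0 → eval c F = 0 := by
  obtain ⟨I, hI⟩ : ∃ I : Ideal (MvPolynomial σ ℂ),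
      I = RingHom.ker (aeval z : MvPolynomial σ ℂ →ₐ[ℂ] Ω) := ⟨_, rfl⟩
  have hne : I ≠ ⊤ := by
    intro h
    have h1 : (1 : MvPolynomial σ ℂ) ∈ I := by
      rw [h]
      trivial
    rw [hI, RingHom.mem_ker, map_one] at h1
    exact one_ne_zero h1
  obtain ⟨M, hM, hIM⟩ := Ideal.exists_le_maximal I hne
  obtain ⟨c, hc⟩ := isMaximal_iff_eq_vanishingIdeal_singleton (K := ℂ).1 hM
  refine ⟨c, fun F hF => ?_⟩
  have h1 : F ∈ M := hIM (by rw [hI, RingHom.mem_ker]; exact hF)
  rw [hc, mem_vanishingIdeal_singleton_iff] at h1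
  exact h1

/-- linearly independent vectors have a dual family -/
theorem exists_dual {Ω : Type} [Field Ω] {n k : ℕ} {V : Submodule Ω (Fin (n + 1) → Ω)}
    (h : k ≤ Module.finrank Ω V) : ∃ (v : Fin k → Fin (n + 1) → Ω) (u : Fin k → Fin (n + 1) → Ω),
      (∀ i, v i ∈ V) ∧ ∀ i j, ∑ l, v i l * u j l = if i = j then 1 else 0 := by
  classical
  obtain ⟨b⟩ : Nonempty (Module.Basis (Fin (Module.finrank Ω V)) Ω V) :=
    ⟨Module.finBasis Ω V⟩
  obtain ⟨w, hw⟩ : ∃ w : Fin k → V, w = fun i => b (Fin.castLE h i) := ⟨_, rfl⟩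
  have hwl : LinearIndependent Ω w := by
    rw [hw]
    exact b.linearIndependent.comp _ (Fin.castLE_injective h)
  have hwl' : LinearIndependent Ω fun i => (w i : Fin (n + 1) → Ω) :=
    hwl.map' V.subtype (Submodule.ker_subtype V)
  obtain ⟨g, hg⟩ := LinearMap.exists_leftInverse_of_injective
    (Fintype.linearCombination Ω fun i => (w i : Fin (n + 1) → Ω)) (by
      rw [LinearMap.ker_eq_bot]
      exact linearIndependent_iff_injective_fintypeLinearCombination.1 hwl')
  refine ⟨fun i => w i, fun j l => g (Pi.single l 1) j, fun i => (w i).2, fun i j => ?_⟩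
  have h1 : g (w i : Fin (n + 1) → Ω) = Pi.single i 1 := by
    have h2 := LinearMap.congr_fun hg (Pi.single i 1)
    rw [LinearMap.comp_apply, Fintype.linearCombination_apply_single, one_smul,
      LinearMap.id_apply] at h2
    exact h2
  have h2 : (w i : Fin (n + 1) → Ω) = ∑ l, (w i : Fin (n + 1) → Ω) l • Pi.single l (1 : Ω) := by
    funext l
    rw [Finset.sum_apply, Finset.sum_eq_single l]
    · rw [Pi.smul_apply, Pi.single_eq_same, smul_eq_mul, mul_one]
    · intro b _ hb
      rw [Pi.smul_apply, Pi.single_eq_of_ne (Ne.symm hb), smul_zero]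
    · intro h3
      exact absurd (Finset.mem_univ l) h3
  have h3 : g (w i : Fin (n + 1) → Ω) j = ∑ l, (w i : Fin (n + 1) → Ω) l * g (Pi.single l 1) j := by
    conv_lhs => rw [h2]
    rw [map_sum, Finset.sum_apply]
    refine Finset.sum_congr rfl fun l _ => ?_
    rw [map_smul, Pi.smul_apply, smul_eq_mul]
  rw [← h3, h1, Pi.single_apply]
  by_cases hij : i = j
  · rw [if_pos hij, if_pos hij.symm]
  · rw [if_neg hij, if_neg (Ne.symm hij)]

/-- a family with a dual family is linearly independent -/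
theorem finrank_of_dual {Ω : Type} [Field Ω] {n k : ℕ} {V : Submodule Ω (Fin (n + 1) → Ω)}
    {v u : Fin k → Fin (n + 1) → Ω} (hv : ∀ i, v i ∈ V)
    (h : ∀ i j, ∑ l, v i l * u j l = if i = j then 1 else 0) : k ≤ Module.finrank Ω V := by
  classical
  have h1 : LinearIndependent Ω fun i => (⟨v i, hv i⟩ : V) := by
    rw [Fintype.linearIndependent_iff]
    intro c hc j
    have h2 : ∑ i, c i • v i = 0 := by
      have h3 := congrArg (fun x : V => (x : Fin (n + 1) → Ω)) hc
      simp only [Submodule.coe_sum, Submodule.coe_smul, Submodule.coe_zero] at h3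
      exact h3
    have h3 : ∑ l, (∑ i, c i • v i) l * u j l = c j := by
      calc ∑ l, (∑ i, c i • v i) l * u j l = ∑ l, ∑ i, c i * (v i l * u j l) := by
            refine Finset.sum_congr rfl fun l _ => ?_
            rw [Finset.sum_apply, Finset.sum_mul]
            refine Finset.sum_congr rfl fun i _ => ?_
            rw [Pi.smul_apply, smul_eq_mul, mul_assoc]
        _ = ∑ i, c i * ∑ l, v i l * u j l := by
            rw [Finset.sum_comm]
            refine Finset.sum_congr rfl fun i _ => ?_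
            rw [Finset.mul_sum]
        _ = c j := by
            rw [Finset.sum_eq_single j]
            · rw [h, if_pos rfl, mul_one]
            · intro i _ hi
              rw [h, if_neg hi, mul_zero]
            · intro h4
              exact absurd (Finset.mem_univ j) h4
    rw [← h3, h2]
    simp
  have h2 := h1.fintype_card_le_finrank
  rwa [Fintype.card_fin] at h2

/-- the tangent spaces at all points have the dimensions of those at complex points -/
theorem tan_points {n m : ℕ} {S : Set (MvPolynomial (Fin (n + 1)) ℂ)}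
    (h : ∀ x : Fin (n + 1) → ℂ, x ≠ 0 → (∀ F ∈ S, eval x F = 0) →
      Module.finrank ℂ (Tan S x) ≤ m + 1) (Ω : Type) [Field Ω] [Algebra ℂ Ω]
    (x : Fin (n + 1) → Ω) (hx : x ≠ 0) (hS : On S x) : Module.finrank Ω (Tan S x) ≤ m + 1 := by
  classical
  by_contra hcon
  push Not at hcon
  obtain ⟨v, u, hv, hvu⟩ := exists_dual (k := m + 2) (V := Tan S x) hcon
  obtain ⟨a, ha⟩ : ∃ a, x a ≠ 0 := by
    by_contra hc
    push Not at hc
    exact hx (funext hc)
  obtain ⟨z, hz1, hz2, hz3, hz4⟩ : ∃ z : Fin (n + 1) ⊕ ((Fin (m + 2) × Fin (n + 1)) ⊕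
      ((Fin (m + 2) × Fin (n + 1)) ⊕ Unit)) → Ω, (∀ j, z (Sum.inl j) = x j) ∧
        (∀ i j, z (Sum.inr (Sum.inl (i, j))) = v i j) ∧
        (∀ i j, z (Sum.inr (Sum.inr (Sum.inl (i, j)))) = u i j) ∧
        z (Sum.inr (Sum.inr (Sum.inr ()))) = (x a)⁻¹ :=
    ⟨Sum.elim x (Sum.elim (fun p => v p.1 p.2) (Sum.elim (fun p => u p.1 p.2) fun _ => (x a)⁻¹)),
      fun _ => rfl, fun _ _ => rfl, fun _ _ => rfl, rfl⟩
  obtain ⟨c, hc⟩ := specialize z
  have hxi : z ∘ Sum.inl = x := funext hz1
  -- the point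
  have hc1 : c (Sum.inl a) ≠ 0 := by
    have h1 := hc (X (Sum.inl a) * X (Sum.inr (Sum.inr (Sum.inr ()))) - 1) (by
      rw [map_sub, map_mul, aeval_X, aeval_X, hz1, hz4, map_one, mul_inv_cancel₀ ha, sub_self])
    rw [map_sub, map_mul, eval_X, eval_X, map_one, sub_eq_zero] at h1
    exact left_ne_zero_of_mul_eq_one h1
  have hc2 : ∀ F ∈ S, eval (c ∘ Sum.inl) F = 0 := by
    intro F hF
    have h1 := hc (rename Sum.inl F) (by rw [aeval_rename, hxi]; exact hS F hF)
    rwa [eval_rename] at h1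
  have hc3 : ∀ i, (fun j => c (Sum.inr (Sum.inl (i, j)))) ∈ Tan S (c ∘ Sum.inl) := by
    intro i
    rw [mem_tan]
    intro F hF
    have h1 := hc (∑ j, rename Sum.inl (pderiv j F) * X (Sum.inr (Sum.inl (i, j)))) (by
      rw [map_sum]
      have h2 := mem_tan.1 (hv i) F hF
      unfold dv at h2
      rw [← h2]
      refine Finset.sum_congr rfl fun j _ => ?_
      rw [map_mul, aeval_X, hz2, aeval_rename, hxi])
    rw [map_sum] at h1
    unfold dv
    rw [← h1]
    refine Finset.sum_congr rfl fun j _ => ?_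
    rw [map_mul, eval_X, eval_rename]
    rfl
  have hc4 : ∀ i j, ∑ l, c (Sum.inr (Sum.inl (i, l))) * c (Sum.inr (Sum.inr (Sum.inl (j, l)))) =
      if i = j then 1 else 0 := by
    intro i j
    have h1 := hc (∑ l, X (Sum.inr (Sum.inl (i, l))) * X (Sum.inr (Sum.inr (Sum.inl (j, l)))) -
      C (if i = j then 1 else 0)) (by
      rw [map_sub, map_sum, sub_eq_zero]
      have h2 := hvu i j
      rw [aeval_C]
      have h3 : algebraMap ℂ Ω (if i = j then 1 else 0) = if i = j then 1 else 0 := by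
        split_ifs
        · rw [map_one]
        · rw [map_zero]
      rw [h3, ← h2]
      refine Finset.sum_congr rfl fun l _ => ?_
      rw [map_mul, aeval_X, aeval_X, hz2, hz3])
    rw [map_sub, map_sum, eval_C, sub_eq_zero] at h1
    rw [← h1]
    refine Finset.sum_congr rfl fun l _ => ?_
    rw [map_mul, eval_X, eval_X]
  have h1 := h (c ∘ Sum.inl) (fun h0 => hc1 (congrFun h0 a)) hc2
  have h2 := finrank_of_dual (v := fun i j => c (Sum.inr (Sum.inl (i, j))))
    (u := fun i j => c (Sum.inr (Sum.inr (Sum.inl (i, j))))) hc3 hc4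
  omega

/-- a polynomial which vanishes at the complex points vanishes at all points -/
theorem van_points {n : ℕ} {S : Set (MvPolynomial (Fin (n + 1)) ℂ)}
    {B : MvPolynomial (Fin (n + 1)) ℂ}
    (h : ∀ x : Fin (n + 1) → ℂ, (∀ F ∈ S, eval x F = 0) → eval x B = 0) (Ω : Type) [Field Ω]
    [Algebra ℂ Ω] (x : Fin (n + 1) → Ω) (hS : On S x) : aeval x B = 0 := by
  by_contra hx
  obtain ⟨z, hz1, hz2⟩ : ∃ z : Fin (n + 1) ⊕ Unit → Ω, z ∘ Sum.inl = x ∧
      z (Sum.inr ()) = (aeval x B)⁻¹ := ⟨Sum.elim x fun _ => (aeval x B)⁻¹, rfl, rfl⟩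
  obtain ⟨c, hc⟩ := specialize z
  have h1 := h (c ∘ Sum.inl) fun F hF => by
    have h2 := hc (rename Sum.inl F) (by rw [aeval_rename, hz1]; exact hS F hF)
    rwa [eval_rename] at h2
  have h2 := hc (rename Sum.inl B * X (Sum.inr ()) - 1) (by
    rw [map_sub, map_mul, aeval_rename, hz1, aeval_X, hz2, map_one, mul_inv_cancel₀ hx, sub_self])
  rw [map_sub, map_mul, eval_rename, h1, zero_mul, map_one, zero_sub, neg_eq_zero] at h2
  exact one_ne_zero h2

/-- closed sets with small tangent spaces at their complex points -/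
theorem sm_points {n m : ℕ} {S : Set (MvPolynomial (Fin (n + 1)) ℂ)}
    (hS : ∀ F ∈ S, ∃ e, F.IsHomogeneous e)
    (h : ∀ x : Fin (n + 1) → ℂ, x ≠ 0 → (∀ F ∈ S, eval x F = 0) →
      Module.finrank ℂ (Tan S x) ≤ m + 1) : Sm S (2 * m) where
  forms := hS
  bd := by
    intro Ω _ _ x a hxa hx
    have hx0 : x ≠ 0 := by
      intro h0
      rw [h0] at hxa
      exact zero_ne_one hxa
    have h1 := tan_points h Ω x hx0 hx
    obtain ⟨r, hr, h2⟩ := dim_tan (K := ℂ) hS x a hxa hx
    rw [hr]
    have h3 : r + Module.finrank Ω (Tan S x) ≤ 2 * m + 1 := by omega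
    exact_mod_cast h3

end Pool.Agent.H911.EM
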