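import Pool.Agent.H911.EM.Hyp

/-!
Holomorphic curves and points under embeddings.
-/

set_option autoImplicit false

namespace Pool.Agent.H911.EM

open MvPolynomial Filter Topology

variable {K : Type} [Field K] {n N : ℕ} {S : Set (MvPolynomial (Fin (n + 1)) K)}
  {S' : Set (MvPolynomial (Fin (N + 1)) K)} {A : Fin (N + 1) → MvPolynomial (Fin (n + 1)) K}

/-- linear forms -/
theorem lin_smul {Ω : Type} [Field Ω] [Algebra K Ω] (hA : ∀ i, (A i).IsHomogeneous 1) (c : Ω)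
    (x : Fin (n + 1) → Ω) : at' A (c • x) = c • at' A x := by
  rw [at_smul hA, pow_one]

/-- the embedding is injective -/
theorem Emb.uniq (hE : Emb S S' A) {Ω : Type} [Field Ω] [Algebra K Ω] {x x' : Fin (n + 1) → Ω}
    (hx : On S x) (hx' : On S x') {c : Ω} (h : at' A x' = c • at' A x) : x' = c • x := by
  by_cases hz : at' A x = 0
  · have h1 := hE.zero Ω x hx hz
    rw [hz, smul_zero] at h
    rw [hE.zero Ω x' hx' h, h1, smul_zero]
  by_cases hc : c = 0
  · rw [hc, zero_smul] at h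
    rw [hE.zero Ω x' hx' h, hc, zero_smul]
  obtain ⟨k, H, R, hH, hR, h0, -, h2⟩ := hE.inv Ω (at' A x) hz (hE.map Ω x hx)
  have h3 := h2 Ω x hx
  have h4 := h2 Ω x' hx'
  rw [h, at_smul hR, ev_smul hH, h3] at h4
  have h5 : (c ^ k * aeval (at' A x) H) ≠ 0 := mul_ne_zero (pow_ne_zero _ hc) h0
  funext j
  have h6 := congrFun h4 j
  simp only [Pi.smul_apply, smul_eq_mul] at h6 ⊢
  apply mul_left_cancel₀ h5
  rw [← h6, pow_succ]
  ring

/-- the preimage of a point -/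
theorem Emb.preim (hS : ∀ F ∈ S, ∃ e, F.IsHomogeneous e) (hE : Emb S S' A) {Ω : Type} [Field Ω]
    [Algebra K Ω] {z : Fin (N + 1) → Ω} (hz : z ≠ 0) (hzS : On S' z) :
    ∃ x : Fin (n + 1) → Ω, x ≠ 0 ∧ On S x ∧ at' A x = z := by
  obtain ⟨k, H, R, hH, hR, h0, h1, -⟩ := hE.inv Ω z hz hzS
  obtain ⟨h2, h3⟩ := h1 Ω z hzS
  have h4 : at' A ((aeval z H)⁻¹ • at' R z) = z := by
    rw [lin_smul hE.lin, h3, smul_smul, inv_mul_cancel₀ h0, one_smul]
  refine ⟨(aeval z H)⁻¹ • at' R z, ?_, on_smul hS h2 _, h4⟩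
  intro h5
  apply hz
  rw [← h4, h5]
  have h6 := lin_smul (A := A) hE.lin (0 : Ω) (0 : Fin (n + 1) → Ω)
  rw [smul_zero, zero_smul] at h6
  exact h6

/-- points over subfields: the map is injective on projective points -/
theorem Emb.ne_zero (hE : Emb S S' A) {Ω : Type} [Field Ω] [Algebra K Ω] {x : Fin (n + 1) → Ω}
    (hx : x ≠ 0) (hxS : On S x) : at' A x ≠ 0 := fun h => hx (hE.zero Ω x hxS h)

theorem diff_aeval [Algebra K ℂ] (P : MvPolynomial (Fin (n + 1)) K) {g : ℂ → Fin (n + 1) → ℂ}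
    {U : Set ℂ} (hg : DifferentiableOn ℂ g U) :
    DifferentiableOn ℂ (fun z => aeval (g z) P) U := by
  have hgj : ∀ j, DifferentiableOn ℂ (fun z => g z j) U := fun j => differentiableOn_pi.1 hg j
  induction P using MvPolynomial.induction_on with
  | C c =>
    simp only [← algebraMap_eq, AlgHom.commutes]
    exact differentiableOn_const _
  | add p q hp hq =>
    simp only [map_add]
    exact hp.add hq
  | mul_X p j hp =>
    simp only [map_mul, aeval_X]
    exact hp.mul (hgj j)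

theorem diff_at [Algebra K ℂ] (R : Fin (N + 1) → MvPolynomial (Fin (n + 1)) K)
    {g : ℂ → Fin (n + 1) → ℂ} {U : Set ℂ} (hg : DifferentiableOn ℂ g U) :
    DifferentiableOn ℂ (fun z => at' R (g z)) U := by
  rw [differentiableOn_pi]
  intro i
  exact diff_aeval (R i) hg

/-- holomorphic maps to the image can be lifted -/
theorem Emb.lift_on [Algebra K ℂ] (hS : ∀ F ∈ S, ∃ e, F.IsHomogeneous e) (hE : Emb S S' A)
    {U : Set ℂ} (hU : IsOpen U) {g : ℂ → Fin (N + 1) → ℂ} (hg : DifferentiableOn ℂ g U)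
    (hg0 : ∀ z ∈ U, g z ≠ 0) (hgS : ∀ z ∈ U, On S' (g z)) :
    ∃ f : ℂ → Fin (n + 1) → ℂ, DifferentiableOn ℂ f U ∧
      ∀ z ∈ U, f z ≠ 0 ∧ On S (f z) ∧ at' A (f z) = g z := by
  classical
  choose! f hf0 hfS hfA using fun (z : ℂ) (hz : z ∈ U) => hE.preim hS (hg0 z hz) (hgS z hz)
  refine ⟨f, ?_, fun z hz => ⟨hf0 z hz, hfS z hz, hfA z hz⟩⟩
  intro z₀ hz₀
  obtain ⟨k, H, R, hH, hR, h0, -, h2⟩ := hE.inv ℂ (g z₀) (hg0 z₀ hz₀) (hgS z₀ hz₀)
  have hdH := diff_aeval H hg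
  have hdR := diff_at R hg
  have hnear : ∀ᶠ z in 𝓝 z₀, aeval (g z) H ≠ 0 := by
    have h3 : ContinuousAt (fun z => aeval (g z) H) z₀ :=
      (hdH.differentiableAt (hU.mem_nhds hz₀)).continuousAt
    exact h3.eventually_ne h0
  have heq : f =ᶠ[𝓝 z₀] fun z => (aeval (g z) H)⁻¹ • at' R (g z) := by
    filter_upwards [hnear, hU.mem_nhds hz₀] with z hz1 hz2
    have h3 := h2 ℂ (f z) (hfS z hz2)
    rw [hfA z hz2] at h3
    rw [h3, smul_smul, inv_mul_cancel₀ hz1, one_smul]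
  have h4 : DifferentiableAt ℂ (fun z => (aeval (g z) H)⁻¹ • at' R (g z)) z₀ := by
    have h5 := hdH.differentiableAt (hU.mem_nhds hz₀)
    have h6 := hdR.differentiableAt (hU.mem_nhds hz₀)
    exact (h5.fun_inv h0).fun_smul h6
  exact (h4.congr_of_eventuallyEq heq).differentiableWithinAt

/-- entire curves in the image can be lifted -/
theorem Emb.lift [Algebra K ℂ] (hS : ∀ F ∈ S, ∃ e, F.IsHomogeneous e) (hE : Emb S S' A)
    {g : ℂ → Fin (N + 1) → ℂ} (hg : Differentiable ℂ g) (hg0 : ∀ z, g z ≠ 0)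
    (hgS : ∀ z, On S' (g z)) :
    ∃ f : ℂ → Fin (n + 1) → ℂ, Differentiable ℂ f ∧
      ∀ z, f z ≠ 0 ∧ On S (f z) ∧ at' A (f z) = g z := by
  obtain ⟨f, hf, h⟩ := hE.lift_on hS isOpen_univ hg.differentiableOn (fun z _ => hg0 z)
    (fun z _ => hgS z)
  exact ⟨f, differentiableOn_univ.1 hf, fun z => h z (Set.mem_univ z)⟩

theorem diff_at_entire [Algebra K ℂ] (R : Fin (N + 1) → MvPolynomial (Fin (n + 1)) K)
    {g : ℂ → Fin (n + 1) → ℂ} (hg : Differentiable ℂ g) :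
    Differentiable ℂ (fun z => at' R (g z)) :=
  differentiableOn_univ.1 (diff_at R hg.differentiableOn)

end Pool.Agent.H911.EM
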