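import Pool.Agent.H911.EM.Elim
import Pool.Graph.R_pool_sql_team_seeded_63374d34.N254.SQ.Geo

/-!
Smooth closed subsets of a projective space and closed embeddings by forms.
-/

set_option autoImplicit false

namespace Pool.Agent.H911.EM

open MvPolynomial

variable {K : Type} [Field K]

/-- the point `x` is on the cone `S = 0` -/
def On {n : ℕ} (S : Set (MvPolynomial (Fin (n + 1)) K)) {Ω : Type} [Field Ω] [Algebra K Ω]
    (x : Fin (n + 1) → Ω) : Prop := ∀ F ∈ S, aeval x F = 0

/-- the derivative of `F` at `x` in the direction `v` -/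
noncomputable def dv {n : ℕ} (F : MvPolynomial (Fin (n + 1)) K) {Ω : Type} [Field Ω] [Algebra K Ω]
    (x v : Fin (n + 1) → Ω) : Ω := ∑ j, aeval x (pderiv j F) * v j

/-- the tangent space of the cone `S = 0` at `x` -/
def Tan {n : ℕ} (S : Set (MvPolynomial (Fin (n + 1)) K)) {Ω : Type} [Field Ω] [Algebra K Ω]
    (x : Fin (n + 1) → Ω) : Submodule Ω (Fin (n + 1) → Ω) where
  carrier := {v | ∀ F ∈ S, dv F x v = 0}
  add_mem' := by
    intro u v hu hv F hF
    have h1 := hu F hF
    have h2 := hv F hF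
    unfold dv at h1 h2 ⊢
    simp only [Pi.add_apply, mul_add, Finset.sum_add_distrib]
    rw [h1, h2, add_zero]
  zero_mem' := by
    intro F hF
    unfold dv
    simp
  smul_mem' := by
    intro c v hv F hF
    have h1 := hv F hF
    unfold dv at h1 ⊢
    simp only [Pi.smul_apply, smul_eq_mul]
    have h2 : ∀ j, (aeval x (pderiv j F) : Ω) * (c * v j) = c * (aeval x (pderiv j F) * v j) :=
      fun j => by ring
    simp only [h2, ← Finset.mul_sum]
    rw [h1, mul_zero]

theorem mem_tan {n : ℕ} {S : Set (MvPolynomial (Fin (n + 1)) K)} {Ω : Type} [Field Ω]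
    [Algebra K Ω] {x v : Fin (n + 1) → Ω} : v ∈ Tan S x ↔ ∀ F ∈ S, dv F x v = 0 := Iff.rfl

/-- The closed set `S = 0` is defined by forms, and for all its points `x` over extension fields the
dimension of `x` (the transcendence degree of the field generated by its inhomogeneous coordinates) and
the dimension of the projective tangent space at `x` have a sum of at most `d`. For instance it is
smooth of dimension `w` with `2 w ≤ d`, or all its tangent spaces are of dimension at most `d / 2`. -/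
structure Sm {n : ℕ} (S : Set (MvPolynomial (Fin (n + 1)) K)) (d : ℕ) : Prop where
  forms : ∀ F ∈ S, ∃ e, F.IsHomogeneous e
  bd : ∀ (Ω : Type) [Field Ω] [Algebra K Ω] (x : Fin (n + 1) → Ω) (a : Fin (n + 1)), x a = 1 →
    On S x → Algebra.trdeg K (Algebra.adjoin K (Set.range x)) +
      (Module.finrank Ω (Tan S x) : Cardinal) ≤ ((d + 1 : ℕ) : Cardinal)

/-- the values of a family of polynomials -/
noncomputable def at' {n N : ℕ} (A : Fin (N + 1) → MvPolynomial (Fin (n + 1)) K) {Ω : Type}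
    [Field Ω] [Algebra K Ω] (x : Fin (n + 1) → Ω) : Fin (N + 1) → Ω := fun i => aeval x (A i)

/-- the linear forms `A` embed the closed set `S = 0` as the closed set `S' = 0` -/
structure Emb {n N : ℕ} (S : Set (MvPolynomial (Fin (n + 1)) K))
    (S' : Set (MvPolynomial (Fin (N + 1)) K))
    (A : Fin (N + 1) → MvPolynomial (Fin (n + 1)) K) : Prop where
  lin : ∀ i, (A i).IsHomogeneous 1
  map : ∀ (Ω : Type) [Field Ω] [Algebra K Ω] (x : Fin (n + 1) → Ω), On S x → On S' (at' A x)
  zero : ∀ (Ω : Type) [Field Ω] [Algebra K Ω] (x : Fin (n + 1) → Ω), On S x → at' A x = 0 → x = 0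
  inv : ∀ (Ω : Type) [Field Ω] [Algebra K Ω] (z : Fin (N + 1) → Ω), z ≠ 0 → On S' z →
    ∃ (k : ℕ) (H : MvPolynomial (Fin (N + 1)) K) (R : Fin (n + 1) → MvPolynomial (Fin (N + 1)) K),
      H.IsHomogeneous k ∧ (∀ j, (R j).IsHomogeneous (k + 1)) ∧ aeval z H ≠ 0 ∧
      (∀ (Ω' : Type) [Field Ω'] [Algebra K Ω'] (u : Fin (N + 1) → Ω'), On S' u →
        On S (at' R u) ∧ at' A (at' R u) = aeval u H • u) ∧
      ∀ (Ω' : Type) [Field Ω'] [Algebra K Ω'] (x : Fin (n + 1) → Ω'), On S x →
        at' R (at' A x) = aeval (at' A x) H • x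

section lemmas

variable {n : ℕ} {Ω : Type} [Field Ω] [Algebra K Ω]

theorem ev_smul {F : MvPolynomial (Fin (n + 1)) K} {e : ℕ} (hF : F.IsHomogeneous e) (c : Ω)
    (x : Fin (n + 1) → Ω) : aeval (c • x) F = c ^ e * aeval x F :=
  Pool.Agent.N254.SQ.eval₂_scale (algebraMap K Ω) hF c x

theorem on_smul {S : Set (MvPolynomial (Fin (n + 1)) K)} (hS : ∀ F ∈ S, ∃ e, F.IsHomogeneous e)
    {x : Fin (n + 1) → Ω} (hx : On S x) (c : Ω) : On S (c • x) := by
  intro F hF
  obtain ⟨e, he⟩ := hS F hF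
  rw [ev_smul he, hx F hF, mul_zero]

theorem on_of_smul {S : Set (MvPolynomial (Fin (n + 1)) K)} (hS : ∀ F ∈ S, ∃ e, F.IsHomogeneous e)
    {x : Fin (n + 1) → Ω} {c : Ω} (hc : c ≠ 0) (hx : On S (c • x)) : On S x := by
  have h1 := on_smul hS hx c⁻¹
  rwa [smul_smul, inv_mul_cancel₀ hc, one_smul] at h1

theorem dv_smul {F : MvPolynomial (Fin (n + 1)) K} {e : ℕ} (hF : F.IsHomogeneous e) (c : Ω)
    (x v : Fin (n + 1) → Ω) : dv F (c • x) v = c ^ (e - 1) * dv F x v := by
  unfold dv
  rw [Finset.mul_sum]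
  refine Finset.sum_congr rfl fun j _ => ?_
  rw [ev_smul hF.pderiv, mul_assoc]

theorem dv_euler {F : MvPolynomial (Fin (n + 1)) K} {e : ℕ} (hF : F.IsHomogeneous e)
    (x : Fin (n + 1) → Ω) : dv F x x = e * aeval x F := by
  have h1 := congrArg (aeval x) hF.sum_X_mul_pderiv
  rw [map_sum, map_nsmul, nsmul_eq_mul] at h1
  rw [← h1]
  unfold dv
  refine Finset.sum_congr rfl fun j _ => ?_
  rw [map_mul, aeval_X, mul_comm]

theorem dv_add (F G : MvPolynomial (Fin (n + 1)) K) (x v : Fin (n + 1) → Ω) :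
    dv (F + G) x v = dv F x v + dv G x v := by
  unfold dv
  rw [← Finset.sum_add_distrib]
  refine Finset.sum_congr rfl fun j _ => ?_
  rw [map_add, map_add, add_mul]

theorem dv_mul (F G : MvPolynomial (Fin (n + 1)) K) (x v : Fin (n + 1) → Ω) :
    dv (F * G) x v = aeval x F * dv G x v + aeval x G * dv F x v := by
  unfold dv
  rw [Finset.mul_sum, Finset.mul_sum, ← Finset.sum_add_distrib]
  refine Finset.sum_congr rfl fun j _ => ?_
  rw [pderiv_mul, map_add, map_mul, map_mul]
  ring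

theorem dv_C (c : K) (x v : Fin (n + 1) → Ω) : dv (C c) x v = 0 := by
  unfold dv
  refine Finset.sum_eq_zero fun j _ => ?_
  rw [pderiv_C, map_zero, zero_mul]

theorem dv_X (i : Fin (n + 1)) (x v : Fin (n + 1) → Ω) :
    dv (X i : MvPolynomial (Fin (n + 1)) K) x v = v i := by
  unfold dv
  rw [Finset.sum_eq_single i]
  · rw [pderiv_X_self, map_one, one_mul]
  · intro j _ hj
    rw [pderiv_X_of_ne (Ne.symm hj), map_zero, zero_mul]
  · intro h
    exact absurd (Finset.mem_univ i) h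

theorem dv_lin (F : MvPolynomial (Fin (n + 1)) K) (x u v : Fin (n + 1) → Ω) (c : Ω) :
    dv F x (u + c • v) = dv F x u + c * dv F x v := by
  unfold dv
  rw [Finset.mul_sum, ← Finset.sum_add_distrib]
  refine Finset.sum_congr rfl fun j _ => ?_
  rw [Pi.add_apply, Pi.smul_apply, smul_eq_mul]
  ring

/-- the value of a composition -/
theorem bind_at {N : ℕ} (R : Fin (n + 1) → MvPolynomial (Fin (N + 1)) K)
    (F : MvPolynomial (Fin (n + 1)) K) (x : Fin (N + 1) → Ω) :
    aeval x (bind₁ R F) = aeval (at' R x) F := by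
  rw [aeval_bind₁]
  rfl

theorem at_bind {N M : ℕ} (R : Fin (n + 1) → MvPolynomial (Fin (N + 1)) K)
    (A : Fin (M + 1) → MvPolynomial (Fin (n + 1)) K) (x : Fin (N + 1) → Ω) :
    at' (fun i => bind₁ R (A i)) x = at' A (at' R x) := by
  funext i
  exact bind_at R (A i) x

/-- the chain rule -/
theorem dv_bind {N : ℕ} (R : Fin (n + 1) → MvPolynomial (Fin (N + 1)) K)
    (F : MvPolynomial (Fin (n + 1)) K) (x v : Fin (N + 1) → Ω) :
    dv (bind₁ R F) x v = dv F (at' R x) (fun j => dv (R j) x v) := by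
  induction F using MvPolynomial.induction_on with
  | C c => rw [← algebraMap_eq, AlgHom.commutes, algebraMap_eq, dv_C, algebraMap_eq, dv_C]
  | add p q hp hq => rw [map_add, dv_add, dv_add, hp, hq]
  | mul_X p j hp => rw [map_mul, dv_mul, dv_mul, hp, bind_at, bind₁_X_right, dv_X, aeval_X]; rfl

theorem bind_hom {N : ℕ} {R : Fin (n + 1) → MvPolynomial (Fin (N + 1)) K} {t e : ℕ}
    (hR : ∀ i, (R i).IsHomogeneous t) {G : MvPolynomial (Fin (n + 1)) K} (hG : G.IsHomogeneous e) :
    (bind₁ R G).IsHomogeneous (t * e) := hG.aeval R hR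

theorem tan_smul {S : Set (MvPolynomial (Fin (n + 1)) K)} (hS : ∀ F ∈ S, ∃ e, F.IsHomogeneous e)
    {x : Fin (n + 1) → Ω} {c : Ω} (hc : c ≠ 0) : Tan S (c • x) = Tan S x := by
  ext v
  rw [mem_tan, mem_tan]
  refine forall_congr' fun F => forall_congr' fun hF => ?_
  obtain ⟨e, he⟩ := hS F hF
  rw [dv_smul he]
  exact ⟨fun h => (mul_eq_zero.1 h).resolve_left (pow_ne_zero _ hc), fun h => by rw [h, mul_zero]⟩

theorem at_smul {N : ℕ} {R : Fin (N + 1) → MvPolynomial (Fin (n + 1)) K} {t : ℕ}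
    (hR : ∀ i, (R i).IsHomogeneous t) (c : Ω) (x : Fin (n + 1) → Ω) :
    at' R (c • x) = c ^ t • at' R x := by
  funext i
  exact ev_smul (hR i) c x

end lemmas

end Pool.Agent.H911.EM
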