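import Pool.Agent.H911.EM.Param

/-!
The dimension is at most the dimension of the tangent space.
-/

set_option autoImplicit false

namespace Pool.Agent.H911.EM

open MvPolynomial
open Pool.Agent.H911.QR (hatc hatc_adjoin hatc_aeval exists_basis)

/-- the ring `Ω + Ω ε` -/
def Dual (Ω : Type) [Field Ω] : Type := TrivSqZeroExt Ω Ω

noncomputable instance (Ω : Type) [Field Ω] : CommRing (Dual Ω) :=
  inferInstanceAs (CommRing (TrivSqZeroExt Ω Ω))

/-- the value at `ε = 0` -/
noncomputable def dfst (Ω : Type) [Field Ω] : Dual Ω →+* Ω :=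
  (TrivSqZeroExt.fstHom Ω Ω Ω).toRingHom

/-- the coefficient of `ε` -/
def dsnd {Ω : Type} [Field Ω] (a : Dual Ω) : Ω := TrivSqZeroExt.snd a

/-- the constants -/
noncomputable def dinl (Ω : Type) [Field Ω] : Ω →+* Dual Ω := TrivSqZeroExt.inlHom Ω Ω

/-- `a + b ε` -/
def dmk {Ω : Type} [Field Ω] (a b : Ω) : Dual Ω := (a, b)

theorem dfst_inl {Ω : Type} [Field Ω] (a : Ω) : dfst Ω (dinl Ω a) = a := rfl

theorem dfst_mk {Ω : Type} [Field Ω] (a b : Ω) : dfst Ω (dmk a b) = a := rfl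

theorem dsnd_mk {Ω : Type} [Field Ω] (a b : Ω) : dsnd (dmk a b) = b := rfl

theorem dsnd_mul {Ω : Type} [Field Ω] (a b : Dual Ω) :
    dsnd (a * b) = dfst Ω a * dsnd b + dfst Ω b * dsnd a := by
  refine (TrivSqZeroExt.snd_mul (R := Ω) (M := Ω) a b).trans ?_
  change dfst Ω a * dsnd b + dsnd a * dfst Ω b = _
  ring

theorem dsnd_add {Ω : Type} [Field Ω] (a b : Dual Ω) : dsnd (a + b) = dsnd a + dsnd b := rfl

theorem dunit {Ω : Type} [Field Ω] (a : Dual Ω) (h : dfst Ω a ≠ 0) : IsUnit a :=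
  (TrivSqZeroExt.isUnit_iff_isUnit_fst (R := Ω) (M := Ω) (x := a)).2 (isUnit_iff_ne_zero.2 h)

theorem dker {Ω : Type} [Field Ω] : (RingHom.ker (dfst Ω)) ^ 2 = ⊥ := by
  rw [eq_bot_iff, pow_two, Ideal.mul_le]
  intro a ha b hb
  rw [RingHom.mem_ker] at ha hb
  rw [Ideal.mem_bot]
  refine TrivSqZeroExt.ext ?_ ?_
  · change dfst Ω (a * b) = 0
    rw [map_mul, ha, zero_mul]
  · change dsnd (a * b) = 0
    rw [dsnd_mul, ha, hb, zero_mul, zero_mul, add_zero]

variable {K : Type} [Field K] {Ω : Type} [Field Ω] [Algebra K Ω]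

/-- values at `x + ε v` -/
theorem dual_eval {n : ℕ} (F : MvPolynomial (Fin (n + 1)) K) (x v : Fin (n + 1) → Ω) :
    dfst Ω (eval₂ ((dinl Ω).comp (algebraMap K Ω)) (fun j => dmk (x j) (v j)) F) = aeval x F ∧
    dsnd (eval₂ ((dinl Ω).comp (algebraMap K Ω)) (fun j => dmk (x j) (v j)) F) = dv F x v := by
  induction F using MvPolynomial.induction_on with
  | C c =>
    rw [eval₂_C, dv_C, aeval_C]
    exact ⟨rfl, rfl⟩
  | add p q hp hq =>
    rw [eval₂_add, map_add, dsnd_add, hp.1, hp.2, hq.1, hq.2, dv_add, map_add]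
    exact ⟨rfl, rfl⟩
  | mul_X p j hp =>
    rw [eval₂_mul, eval₂_X, map_mul, dsnd_mul, hp.1, hp.2, dv_mul, dv_X, map_mul, aeval_X,
      dfst_mk, dsnd_mk]
    exact ⟨rfl, rfl⟩

theorem der_pt [CharZero K] {n : ℕ} (x : Fin (n + 1) → Ω) {σ : Type} [Finite σ]
    (f : σ → Fin (n + 1)) (hf : IsTranscendenceBasis K (fun s => hatc K x (f s))) (i : σ) :
    ∃ v : Fin (n + 1) → Ω, v (f i) = 1 ∧ (∀ s, s ≠ i → v (f s) = 0) ∧
      ∀ F : MvPolynomial (Fin (n + 1)) K, aeval x F = 0 → dv F x v = 0 := by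
  classical
  obtain ⟨t, ht⟩ : ∃ t : σ → Ω, t = fun s => x (f s) := ⟨_, rfl⟩
  have hind : AlgebraicIndependent K t := by
    rw [ht]
    exact hf.1.map' (f := (Algebra.adjoin K (Set.range x)).val) Subtype.val_injective
  obtain ⟨ψ, hψ⟩ : ∃ ψ : MvPolynomial σ K →+* Dual Ω, ψ = eval₂Hom ((dinl Ω).comp (algebraMap K Ω))
    (fun s => dmk (t s) (if s = i then 1 else 0)) := ⟨_, rfl⟩
  have hψ1 : (dfst Ω).comp ψ = (aeval t : MvPolynomial σ K →ₐ[K] Ω).toRingHom := by
    rw [hψ]
    ext a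
    · change dfst Ω (eval₂Hom _ _ (C a)) = aeval t (C a)
      rw [eval₂Hom_C, aeval_C]
      rfl
    · change dfst Ω (eval₂Hom _ _ (X a)) = aeval t (X a)
      rw [eval₂Hom_X', aeval_X]
      rfl
  have hunit : ∀ y : nonZeroDivisors (MvPolynomial σ K), IsUnit (ψ y) := by
    intro y
    apply dunit
    have h1 : dfst Ω (ψ y) = aeval t (y : MvPolynomial σ K) := RingHom.congr_fun hψ1 _
    rw [h1]
    intro h2
    exact nonZeroDivisors.coe_ne_zero y ((algebraicIndependent_iff.1 hind) _ h2)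
  obtain ⟨E₀, hE₀⟩ : ∃ E₀ : IntermediateField K Ω, E₀ = IntermediateField.adjoin K (Set.range t) :=
    ⟨_, rfl⟩
  obtain ⟨e, he⟩ : ∃ e : FractionRing (MvPolynomial σ K) ≃ₐ[K] E₀, ∀ p : MvPolynomial σ K,
      (e (algebraMap _ _ p) : Ω) = aeval t p := by
    subst hE₀
    exact ⟨hind.aevalEquivField, fun p => hind.aevalEquivField_algebraMap_apply_coe p⟩
  obtain ⟨φ, hφ⟩ : ∃ φ : E₀ →+* Dual Ω, φ = (IsLocalization.lift
      (M := nonZeroDivisors (MvPolynomial σ K)) (S := FractionRing (MvPolynomial σ K)) hunit).comp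
      (e.symm : E₀ →+* FractionRing (MvPolynomial σ K)) := ⟨_, rfl⟩
  have hφe : ∀ p : MvPolynomial σ K, φ (e (algebraMap _ _ p)) = ψ p := by
    intro p
    rw [hφ, RingHom.comp_apply]
    change IsLocalization.lift _ (e.symm (e (algebraMap _ _ p))) = ψ p
    rw [AlgEquiv.symm_apply_apply, IsLocalization.lift_eq]
  have hφ1 : ∀ c : E₀, dfst Ω (φ c) = (c : Ω) := by
    have h1 : ((dfst Ω).comp φ).comp (e : FractionRing (MvPolynomial σ K) →+* E₀) =
        (algebraMap E₀ Ω).comp (e : FractionRing (MvPolynomial σ K) →+* E₀) := by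
      refine IsLocalization.ringHom_ext (nonZeroDivisors (MvPolynomial σ K)) ?_
      ext p
      · change dfst Ω (φ (e (algebraMap _ _ (C p)))) = (e (algebraMap _ _ (C p)) : Ω)
        rw [hφe, he]
        exact RingHom.congr_fun hψ1 _
      · change dfst Ω (φ (e (algebraMap _ _ (X p)))) = (e (algebraMap _ _ (X p)) : Ω)
        rw [hφe, he]
        exact RingHom.congr_fun hψ1 _
    intro c
    obtain ⟨q, rfl⟩ := e.surjective c
    exact RingHom.congr_fun h1 q
  have hφK : φ.comp (algebraMap K E₀) = (dinl Ω).comp (algebraMap K Ω) := by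
    ext c
    have h1 : algebraMap K E₀ c = e (algebraMap _ _ (C c : MvPolynomial σ K)) := by
      apply Subtype.ext
      rw [he, aeval_C]
      rfl
    rw [RingHom.comp_apply, h1, hφe, hψ]
    exact eval₂Hom_C _ _ _
  -- the algebraic closure
  obtain ⟨E, hE⟩ : ∃ E : IntermediateField E₀ Ω, E = algebraicClosure E₀ Ω := ⟨_, rfl⟩
  have halg : Algebra.IsAlgebraic E₀ E := by
    rw [hE]
    infer_instance
  have hchar : CharZero E₀ := charZero_of_injective_algebraMap (algebraMap K E₀).injective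
  have hsep : Algebra.IsSeparable E₀ E := inferInstance
  have het : Algebra.FormallyEtale E₀ E := Algebra.FormallyEtale.of_isSeparable E₀ E
  have hsm : Algebra.FormallySmooth E₀ E := inferInstance
  have hxE : ∀ j, x j ∈ E := by
    intro j
    rw [hE, mem_algebraicClosure_iff]
    obtain ⟨p, hp0, hp⟩ : IsAlgebraic (Algebra.adjoin K (Set.range fun s => x (f s))) (x j) :=
      basis_acl x f hf j
    have hle : Algebra.adjoin K (Set.range fun s => x (f s)) ≤ E₀.toSubalgebra := by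
      rw [hE₀, ht]
      exact IntermediateField.algebra_adjoin_le_adjoin K _
    refine ⟨p.map (Subalgebra.inclusion hle).toRingHom, ?_, ?_⟩
    · rw [Ne, Polynomial.map_eq_zero_iff (Subalgebra.inclusion_injective hle)]
      exact hp0
    · rw [Polynomial.aeval_def, Polynomial.eval₂_map]
      exact hp
  let _ : Algebra E₀ (Dual Ω) := φ.toAlgebra
  let g : Dual Ω →ₐ[E₀] Ω := { dfst Ω with commutes' := fun c => hφ1 c }
  have hgs : Function.Surjective g := fun a => ⟨dinl Ω a, rfl⟩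
  have hnil : IsNilpotent (RingHom.ker (g : Dual Ω →+* Ω)) := ⟨2, dker⟩
  obtain ⟨h, hh⟩ : ∃ h : E →ₐ[E₀] Dual Ω, ∀ c, dfst Ω (h c) = (c : Ω) :=
    ⟨Algebra.FormallySmooth.liftOfSurjective E.val g hgs hnil,
      fun c => Algebra.FormallySmooth.liftOfSurjective_apply E.val g hgs hnil c⟩
  have hft : ∀ s, dsnd (h ⟨x (f s), hxE (f s)⟩) = if s = i then 1 else 0 := by
    intro s
    have h1 : (⟨x (f s), hxE (f s)⟩ : E) =
        algebraMap E₀ E (e (algebraMap _ _ (X s : MvPolynomial σ K))) := by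
      apply Subtype.ext
      change x (f s) = ((e (algebraMap _ _ (X s : MvPolynomial σ K)) : E₀) : Ω)
      rw [he, aeval_X, ht]
    have h2 : h (algebraMap E₀ E (e (algebraMap _ _ (X s : MvPolynomial σ K)))) =
        φ (e (algebraMap _ _ (X s : MvPolynomial σ K))) := h.commutes _
    rw [h1, h2, hφe, hψ, eval₂Hom_X', dsnd_mk]
  refine ⟨fun j => dsnd (h ⟨x j, hxE j⟩), ?_, ?_, ?_⟩
  · have h1 := hft i
    rwa [if_pos rfl] at h1
  · intro s hs
    have h1 := hft s
    rwa [if_neg hs] at h1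
  · intro F hF
    have h1 := (dual_eval F x fun j => dsnd (h ⟨x j, hxE j⟩)).2
    rw [← h1]
    have h2 : (fun j => dmk (x j) (dsnd (h ⟨x j, hxE j⟩))) = fun j => h ⟨x j, hxE j⟩ := by
      funext j
      refine TrivSqZeroExt.ext ?_ rfl
      exact (hh ⟨x j, hxE j⟩).symm
    have h3 : (dinl Ω).comp (algebraMap K Ω) = (h : E →+* Dual Ω).comp
        ((algebraMap E₀ E).comp (algebraMap K E₀)) := by
      rw [← hφK]
      ext c
      exact (h.commutes (algebraMap K E₀ c)).symm
    have h4 : eval₂ ((dinl Ω).comp (algebraMap K Ω))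
        (fun j => dmk (x j) (dsnd (h ⟨x j, hxE j⟩))) F =
        h (eval₂ ((algebraMap E₀ E).comp (algebraMap K E₀)) (fun j => ⟨x j, hxE j⟩) F) := by
      rw [h2, h3]
      exact (hom_eval₂ F _ (h : E →+* Dual Ω) _).symm
    have h5 : eval₂ ((algebraMap E₀ E).comp (algebraMap K E₀))
        (fun j => (⟨x j, hxE j⟩ : E)) F = 0 := by
      apply Subtype.ext
      change (algebraMap E Ω) _ = _
      rw [hom_eval₂]
      exact hF
    rw [h4, h5, map_zero]
    rfl

/-- the dimension of a point is less than the dimension of the tangent space of the cone -/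
theorem dim_tan [CharZero K] {n : ℕ} {S : Set (MvPolynomial (Fin (n + 1)) K)}
    (hS : ∀ F ∈ S, ∃ e, F.IsHomogeneous e) (x : Fin (n + 1) → Ω) (a : Fin (n + 1)) (ha : x a = 1)
    (hx : On S x) : ∃ r : ℕ, Algebra.trdeg K (Algebra.adjoin K (Set.range x)) = r ∧
      r + 1 ≤ Module.finrank Ω (Tan S x) := by
  classical
  obtain ⟨σ, f, hf, hfb⟩ := exists_basis K x
  have hσ : Finite σ := Finite.of_injective f hf
  have hfin := Fintype.ofFinite σ
  refine ⟨Fintype.card σ, ?_, ?_⟩
  · rw [← hfb.cardinalMk_eq_trdeg, Cardinal.mk_fintype]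
  choose v hv1 hv2 hv3 using fun i => der_pt x f hfb i
  have hva : ∀ i, v i a = 0 := by
    intro i
    have h1 := hv3 i (X a - C 1) (by rw [map_sub, aeval_X, aeval_C, map_one, ha, sub_self])
    rw [sub_eq_add_neg, dv_add, dv_X, ← C_neg, dv_C, add_zero] at h1
    exact h1
  have hvT : ∀ i, v i ∈ Tan S x := fun i => mem_tan.2 fun F hF => hv3 i F (hx F hF)
  have hxT : x ∈ Tan S x := mem_tan.2 fun F hF => by
    obtain ⟨e, he⟩ := hS F hF
    rw [dv_euler he, hx F hF, mul_zero]
  have hind : LinearIndependent Ω (fun o : Option σ =>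
      (o.elim ⟨x, hxT⟩ fun i => ⟨v i, hvT i⟩ : Tan S x)) := by
    rw [Fintype.linearIndependent_iff]
    intro g hg
    have h1 : ∀ j, g none * x j + ∑ i, g (some i) * v i j = 0 := by
      intro j
      have h2 := congrFun (congrArg Subtype.val hg) j
      rw [Fintype.sum_option, Submodule.coe_add, Submodule.coe_sum, Pi.add_apply,
        Finset.sum_apply] at h2
      exact h2
    have h0 : g none = 0 := by
      have h2 := h1 a
      rw [ha, mul_one, Finset.sum_eq_zero (fun i _ => by rw [hva i, mul_zero]), add_zero] at h2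
      exact h2
    intro o
    rcases o with _ | i
    · exact h0
    · have h2 := h1 (f i)
      rw [h0, zero_mul, zero_add, Finset.sum_eq_single i, hv1 i, mul_one] at h2
      · exact h2
      · intro k _ hk
        rw [hv2 k i (Ne.symm hk), mul_zero]
      · intro h
        exact absurd (Finset.mem_univ i) h
  have h3 := hind.fintype_card_le_finrank
  rwa [Fintype.card_option] at h3

theorem Sm.nat [CharZero K] {n d : ℕ} {S : Set (MvPolynomial (Fin (n + 1)) K)} (hS : Sm S d)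
    (x : Fin (n + 1) → Ω) (a : Fin (n + 1)) (ha : x a = 1) (hx : On S x) :
    ∃ r : ℕ, Algebra.trdeg K (Algebra.adjoin K (Set.range x)) = r ∧
      r + Module.finrank Ω (Tan S x) ≤ d + 1 ∧ 2 * r ≤ d := by
  obtain ⟨r, hr, h1⟩ := dim_tan hS.forms x a ha hx
  have h2 := hS.bd Ω x a ha hx
  rw [hr] at h2
  have h3 : r + Module.finrank Ω (Tan S x) ≤ d + 1 := by exact_mod_cast h2
  exact ⟨r, hr, h3, by omega⟩

end Pool.Agent.H911.EM
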