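import Pool.Agent.H911.QR.Alg

/-!
Elimination and counting of parameters over an arbitrary field.
-/

set_option autoImplicit false

namespace Pool.Agent.H911.EM

open MvPolynomial
open Pool.Agent.H911.QR (hatc hatc_adjoin hatc_aeval exists_basis)

/-- If the parameters `p` of the solutions `(p, z)` of a system over extension fields are always
algebraically dependent, then they satisfy one nontrivial equation. -/
theorem elim {K : Type} [Field K] {σ τ : Type} (𝒮 : Set (MvPolynomial (σ ⊕ τ) K))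
    (h : ∀ (Ω : Type) [Field Ω] [Algebra K Ω] (p : σ → Ω) (z : τ → Ω),
      (∀ F ∈ 𝒮, aeval (Sum.elim p z) F = 0) → ¬ AlgebraicIndependent K p) :
    ∃ Δ : MvPolynomial σ K, Δ ≠ 0 ∧ ∀ (Ω : Type) [Field Ω] [Algebra K Ω] (p : σ → Ω) (z : τ → Ω),
      (∀ F ∈ 𝒮, aeval (Sum.elim p z) F = 0) → aeval p Δ = 0 := by
  classical
  by_cases hex : ∃ Δ : MvPolynomial σ K, Δ ≠ 0 ∧ rename Sum.inl Δ ∈ Ideal.span 𝒮
  · obtain ⟨Δ, hΔ, hm⟩ := hex
    refine ⟨Δ, hΔ, fun Ω _ _ p z hz => ?_⟩
    have h1 : Ideal.span 𝒮 ≤ RingHom.ker (aeval (Sum.elim p z) : MvPolynomial (σ ⊕ τ) K →ₐ[K] Ω) := by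
      rw [Ideal.span_le]
      intro F hF
      exact hz F hF
    have h2 := h1 hm
    rw [RingHom.mem_ker, aeval_rename] at h2
    exact h2
  · exfalso
    push Not at hex
    obtain ⟨M, hM⟩ : ∃ M : Submonoid (MvPolynomial (σ ⊕ τ) K), M =
      (nonZeroDivisors (MvPolynomial σ K)).map
        (rename Sum.inl : MvPolynomial σ K →ₐ[K] MvPolynomial (σ ⊕ τ) K) := ⟨_, rfl⟩
    have hdis : Disjoint ((Ideal.span 𝒮 : Ideal (MvPolynomial (σ ⊕ τ) K)) :
        Set (MvPolynomial (σ ⊕ τ) K)) (M : Set (MvPolynomial (σ ⊕ τ) K)) := by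
      rw [Set.disjoint_left]
      intro a ha hb
      rw [hM] at hb
      obtain ⟨Δ, hΔ, rfl⟩ := hb
      exact hex Δ (nonZeroDivisors.ne_zero hΔ) ha
    obtain ⟨P, hP, hIP, hdis2⟩ := Ideal.exists_le_prime_disjoint _ _ hdis
    obtain ⟨q, hq⟩ : ∃ q : MvPolynomial (σ ⊕ τ) K →ₐ[K] FractionRing (MvPolynomial (σ ⊕ τ) K ⧸ P),
        ∀ F, q F = algebraMap _ (FractionRing (MvPolynomial (σ ⊕ τ) K ⧸ P)) (Ideal.Quotient.mk P F) :=
      ⟨(IsScalarTower.toAlgHom K (MvPolynomial (σ ⊕ τ) K ⧸ P) _).comp (Ideal.Quotient.mkₐ K P),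
        fun F => rfl⟩
    have hq0 : ∀ F, q F = 0 → F ∈ P := by
      intro F hF
      rw [hq, map_eq_zero_iff _ (IsFractionRing.injective _ _), Ideal.Quotient.eq_zero_iff_mem] at hF
      exact hF
    have hqm : ∀ F, F ∈ P → q F = 0 := by
      intro F hF
      rw [hq, Ideal.Quotient.eq_zero_iff_mem.2 hF, map_zero]
    have hqe : ∀ F, aeval (Sum.elim (fun i => q (X (Sum.inl i))) fun j => q (X (Sum.inr j))) F =
        q F := by
      intro F
      have h1 : (Sum.elim (fun i => q (X (Sum.inl i))) fun j => q (X (Sum.inr j))) =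
          fun k => q (X k) := by
        funext k
        rcases k with k | k <;> rfl
      rw [h1]
      have h2 : aeval (fun k => q (X k)) = q := by
        apply MvPolynomial.algHom_ext
        intro i
        rw [aeval_X]
      rw [h2]
    refine h _ (fun i => q (X (Sum.inl i))) (fun j => q (X (Sum.inr j))) (fun F hF => ?_) ?_
    · rw [hqe]
      exact hqm F (hIP (Ideal.subset_span hF))
    · rw [algebraicIndependent_iff]
      intro Δ hΔ
      by_contra hΔ0
      have h1 : q (rename Sum.inl Δ) = 0 := by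
        rw [← hqe, aeval_rename]
        exact hΔ
      have h2 := hq0 _ h1
      exact Set.disjoint_left.1 hdis2 h2 (by
        rw [hM]
        exact ⟨Δ, mem_nonZeroDivisors_of_ne_zero hΔ0, rfl⟩)

/-- The number of algebraically independent elements is at most the number of parameters. -/
theorem count {K : Type} [Field K] {Ω : Type} [Field Ω] [Algebra K Ω] {ι κ : Type} [Fintype ι]
    [Fintype κ] (s : ι → Ω) (p : κ → Ω) (hp : AlgebraicIndependent K p)
    (h : ∀ k, IsAlgebraic (Algebra.adjoin K (Set.range s)) (p k)) :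
    Fintype.card κ ≤ Fintype.card ι := by
  obtain ⟨A, hA⟩ : ∃ A : Subalgebra (Algebra.adjoin K (Set.range s)) Ω, A =
    Subalgebra.algebraicClosure (Algebra.adjoin K (Set.range s)) Ω := ⟨_, rfl⟩
  have hmem : ∀ k, p k ∈ A := by
    intro k
    rw [hA]
    exact h k
  have halg : Algebra.IsAlgebraic (Algebra.adjoin K (Set.range s)) A := by
    rw [hA]
    infer_instance
  have hinj : FaithfulSMul (Algebra.adjoin K (Set.range s)) A := by
    rw [faithfulSMul_iff_algebraMap_injective]
    intro a b hab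
    have h2 : ((algebraMap (Algebra.adjoin K (Set.range s)) A a : A) : Ω) =
        ((algebraMap (Algebra.adjoin K (Set.range s)) A b : A) : Ω) := by rw [hab]
    exact Subtype.ext h2
  have h1 : Algebra.trdeg K A ≤ Cardinal.mk ι := by
    have h2 := trdeg_add_eq K (Algebra.adjoin K (Set.range s)) (A := A)
    rw [trdeg_eq_zero (R := Algebra.adjoin K (Set.range s)), add_zero] at h2
    rw [← h2]
    have hsur : Function.Surjective (aeval (hatc K s) : MvPolynomial ι K →ₐ[K]
        Algebra.adjoin K (Set.range s)) := by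
      rw [← AlgHom.range_eq_top, ← Algebra.adjoin_range_eq_range_aeval, hatc_adjoin]
    have h3 := trdeg_le_of_surjective _ hsur
    rw [MvPolynomial.trdeg_of_isDomain, Cardinal.lift_id] at h3
    exact h3
  have h2 : AlgebraicIndependent K (fun k => (⟨p k, hmem k⟩ : A)) := by
    refine AlgebraicIndependent.of_comp (A.val.restrictScalars K) ?_
    exact hp
  have h3 := h2.cardinalMk_le_trdeg
  have h4 := h3.trans h1
  rw [Cardinal.mk_fintype, Cardinal.mk_fintype] at h4
  exact_mod_cast h4

end Pool.Agent.H911.EM
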