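import Pool.Agent.H911.EM.Point
import Pool.Agent.H911.GD.Final2

/-!
Exceptional sets under weak embeddings.
-/

set_option autoImplicit false

namespace Pool.Agent.H911.EM

open MvPolynomial
open Pool.Agent.N254.SQ (Eqs IsForm Gen NotIn ValueNotIn LogGeneral OnSpecialQ OnCurvesQ OnDiscsQ
  Component OnSab SmoothForm powerForm qf_mul ce_general)
open Pool.Agent.W602.GT (coords SubVar GeneralType)
open Pool.Agent.H911.GD (Pair Compat Regular Typ Moves typ_comp typ_con bind_form bind_hom bind_eval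
  transfer_log transfer_notIn SabQ sab_pull sab_push sab_one typ_curves typ_discs typ_special
  moves_curves moves_discs moves_special typ_sab)

/-- the exceptional sets `P` are compatible with the projection `A` -/
structure MvAt {n N : ℕ} (P : ∀ n : ℕ, Set (MvPolynomial (Fin (n + 1)) ℂ) →
    Set (MvPolynomial (Fin (n + 1)) ℂ) → MvPolynomial (Fin (n + 1)) ℂ → Prop)
    (A : Fin (N + 1) → MvPolynomial (Fin (n + 1)) ℂ) (T : Set (MvPolynomial (Fin (n + 1)) ℂ))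
    (T' : Set (MvPolynomial (Fin (N + 1)) ℂ)) : Prop where
  pull : ∀ {L : Type} [Field L] [Algebra ℂ L] {y : Fin (n + 1) → L} {z : Fin (N + 1) → L}
    {R : Fin (n + 1) → MvPolynomial (Fin (N + 1)) ℂ} {H : MvPolynomial (Fin (N + 1)) ℂ},
    Pair y z A R H → Compat y A T T' → ∀ G, IsForm G → P N (Eqs z) T' G →
      P n (Eqs y) T (bind₁ A (G * H))
  push : ∀ {L : Type} [Field L] [Algebra ℂ L] {y : Fin (n + 1) → L} {z : Fin (N + 1) → L}
    {R : Fin (n + 1) → MvPolynomial (Fin (N + 1)) ℂ} {H : MvPolynomial (Fin (N + 1)) ℂ},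
    Pair y z A R H → Compat y A T T' → ∀ G, IsForm G → P n (Eqs y) T G →
      P N (Eqs z) T' (bind₁ R G * H)

section

variable {P : ∀ n : ℕ, Set (MvPolynomial (Fin (n + 1)) ℂ) →
    Set (MvPolynomial (Fin (n + 1)) ℂ) → MvPolynomial (Fin (n + 1)) ℂ → Prop}
  {n N : ℕ} {A : Fin (N + 1) → MvPolynomial (Fin (n + 1)) ℂ}
  {T : Set (MvPolynomial (Fin (n + 1)) ℂ)} {T' : Set (MvPolynomial (Fin (N + 1)) ℂ)}

theorem Moves.mvAt (hM : Moves P) (hT : ∀ F ∈ T, IsForm F) (hT' : ∀ F ∈ T', IsForm F) :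
    MvAt P A T T' :=
  ⟨fun hP hC G hG h => hM.pull hP hT hT' hC G hG h,
    fun hP hC G hG h => hM.push hP hT hT' hC G hG h⟩

theorem mvAt_sab : MvAt (fun _ S T G => SabQ S T G) A {1} {1} :=
  ⟨fun hP _ _ _ h => (sab_one _ _).2 (sab_pull hP ((sab_one _ _).1 h)),
    fun hP _ _ _ h => (sab_one _ _).2 (sab_push hP ((sab_one _ _).1 h))⟩

end

/-- the data of the transfer -/
structure Tr {n N : ℕ} (S : Set (MvPolynomial (Fin (n + 1)) ℂ))
    (S' : Set (MvPolynomial (Fin (N + 1)) ℂ)) (A : Fin (N + 1) → MvPolynomial (Fin (n + 1)) ℂ)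
    (T : Set (MvPolynomial (Fin (n + 1)) ℂ)) (T' : Set (MvPolynomial (Fin (N + 1)) ℂ)) :
    Prop where
  emb : WEmb S S' A
  forms : ∀ F ∈ T, IsForm F
  forms' : ∀ F ∈ T', IsForm F
  compat : ∀ (L : Type) [Field L] [Algebra ℂ L] (y : Fin (n + 1) → L), On S y → Compat y A T T'

section

variable {P : ∀ n : ℕ, Set (MvPolynomial (Fin (n + 1)) ℂ) →
    Set (MvPolynomial (Fin (n + 1)) ℂ) → MvPolynomial (Fin (n + 1)) ℂ → Prop}
  {n N : ℕ} {S : Set (MvPolynomial (Fin (n + 1)) ℂ)} {S' : Set (MvPolynomial (Fin (N + 1)) ℂ)}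
  {A : Fin (N + 1) → MvPolynomial (Fin (n + 1)) ℂ}
  {T : Set (MvPolynomial (Fin (n + 1)) ℂ)} {T' : Set (MvPolynomial (Fin (N + 1)) ℂ)}

/-- restriction to a closed subvariety -/
theorem Typ.sub (hP : Typ P) {m : ℕ} {S₁ T₁ : Set (MvPolynomial (Fin (m + 1)) ℂ)}
    (hS : ∀ F ∈ S₁, IsForm F) {L : Type} [Field L] [Algebra ℂ L] {z : Fin (m + 1) → L}
    (hz : On S₁ z) {G : MvPolynomial (Fin (m + 1)) ℂ} (h : P m S₁ T₁ G) : P m (Eqs z) T₁ G :=
  hP.mono m S₁ (Eqs z) T₁ (fun _ _ _ _ hx p hp => hx p ⟨hS p hp, hz p hp⟩) G h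

theorem Tr.pull (hX : Tr S S' A T T') (hP : Typ P) (hM : MvAt P A T T')
    {G : MvPolynomial (Fin (N + 1)) ℂ} (hG : IsForm G) (h : P N S' T' G) :
    P n S T (bind₁ A G) := by
  refine hP.coord n S T _ (bind_form hX.emb.lin hG) fun j => ?_
  by_contra hn
  obtain ⟨e, he⟩ := id hG
  have h1 : (bind₁ A G * X j).IsHomogeneous (1 * e + 1) :=
    (bind_hom hX.emb.lin he).mul (isHomogeneous_X _ _)
  obtain ⟨L, iF, iA, w, y, hw, hgen, hGy, hnot, hSy, hc⟩ :=
    typ_comp hP hX.emb.forms hX.forms h1 (by omega) hn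
  rw [map_mul, bind_eval] at hGy
  obtain ⟨R, H, hPr⟩ := hX.emb.pair hgen.ne hSy
  have h2 : P N (Eqs (at' A y)) T' G := Typ.sub hP hX.emb.forms' (hX.emb.map L y hSy) h
  obtain ⟨h4, h5⟩ := hPr.pull_ne hG (left_ne_zero_of_mul hGy)
  exact typ_con hP hc h4 h5 (hM.pull hPr (hX.compat L y hSy) G hG h2)

theorem Tr.push (hX : Tr S S' A T T') (hP : Typ P) (hM : MvAt P A T T')
    {G : MvPolynomial (Fin (n + 1)) ℂ} (hG : IsForm G) (h : P n S T G)
    {G' : MvPolynomial (Fin (N + 1)) ℂ} (hG' : IsForm G')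
    (hv : ∀ (Ω : Type) [Field Ω] [Algebra ℂ Ω] (x : Fin (n + 1) → Ω), x ≠ 0 → On S x →
      aeval x G = 0 → aeval (at' A x) G' = 0) :
    P N S' T' G' := by
  refine hP.coord N S' T' _ hG' fun j => ?_
  by_contra hn
  obtain ⟨e, he⟩ := id hG'
  have h1 : (G' * X j).IsHomogeneous (e + 1) := he.mul (isHomogeneous_X _ _)
  obtain ⟨L, iF, iA, w, z, hw, hgen, hGz, hnot, hSz, hc⟩ :=
    typ_comp hP hX.emb.forms' hX.forms' h1 (by omega) hn
  rw [map_mul] at hGz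
  obtain ⟨y, hyS, rfl, hgy⟩ := hX.emb.gen_surj hgen hSz
  obtain ⟨R, H, hPr⟩ := hX.emb.pair hgy.ne hyS
  have h2 : P n (Eqs y) T G := Typ.sub hP hX.emb.forms hyS h
  obtain ⟨h4, h5⟩ := hPr.push_ne hG fun h0 => left_ne_zero_of_mul hGz (hv L y hgy.ne hyS h0)
  exact typ_con hP hc h4 h5 (hM.push hPr (hX.compat L y hyS) G hG h2)

/-- emptiness of the exceptional set -/
theorem Tr.one_iff (hX : Tr S S' A T T') (hP : Typ P) (hM : MvAt P A T T') :
    P n S T 1 ↔ P N S' T' 1 := by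
  constructor
  · intro h
    refine hX.push hP hM ⟨0, isHomogeneous_one _ _⟩ h ⟨0, isHomogeneous_one _ _⟩ ?_
    intro Ω _ _ x _ _ hx
    rw [map_one] at hx
    exact absurd hx one_ne_zero
  · intro h
    have h1 := hX.pull hP hM ⟨0, isHomogeneous_one _ _⟩ h
    rwa [map_one] at h1

/-- from the closed set to the hypersurface -/
theorem hyp_iff' (hP : Typ P) (hS' : ∀ F ∈ S', IsForm F) (hT' : ∀ F ∈ T', IsForm F)
    {B : MvPolynomial (Fin (N + 1)) ℂ} (hB : IsForm B)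
    (hBS : ∀ (Ω : Type) [Field Ω] [Algebra ℂ Ω] (x : Fin (N + 1) → Ω), On S' x → aeval x B = 0)
    (hout : ∀ F ∈ S', P N {B} T' F) {G : MvPolynomial (Fin (N + 1)) ℂ} (hG : IsForm G) :
    P N {B} T' G ↔ P N S' T' G := by
  constructor
  · refine fun h => hP.mono N {B} S' T' (fun L _ _ x hx p hp => ?_) G h
    rw [Set.mem_singleton_iff] at hp
    rw [hp]
    exact hBS L x hx
  · intro h
    refine hP.coord N {B} T' _ hG fun j => ?_
    by_contra hn
    obtain ⟨e, he⟩ := id hG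
    have h1 : (G * X j).IsHomogeneous (e + 1) := he.mul (isHomogeneous_X _ _)
    obtain ⟨L, iF, iA, w, z, hw, hgen, hGz, hnot, hSz, hc⟩ :=
      typ_comp hP (fun p hp => by
        rw [Set.mem_singleton_iff] at hp
        rw [hp]
        exact hB) hT' h1 (by omega) hn
    rw [map_mul] at hGz
    have hz : On S' z := fun F hF => hc.1 F (hS' F hF) (hout F hF)
    exact typ_con hP hc hG (left_ne_zero_of_mul hGz) (Typ.sub hP hS' hz h)

/-- components -/
theorem Tr.component (hX : Tr S S' A T T') (hP : Typ P) (hM : MvAt P A T T') {L : Type} [Field L]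
    [Algebra ℂ L] {y : Fin (n + 1) → L} (hy : y ≠ 0) (hyS : On S y)
    (hc : Component (P n S T) y) : Component (P N S' T') (at' A y) := by
  obtain ⟨hc1, H, hH, hHy, hc2⟩ := hc
  obtain ⟨T₂, hT₂, h2⟩ := hX.emb.closed {H} (fun F hF => by
    rw [Set.mem_singleton_iff] at hF
    rw [hF]
    exact hH)
  obtain ⟨H', hH', hH'y⟩ : ∃ H' ∈ T₂, aeval (at' A y) H' ≠ 0 := by
    by_contra hcon
    push Not at hcon
    exact hHy ((h2 L y hy hyS).2 hcon H rfl)
  refine ⟨fun G hG hIG => ?_, H', hT₂ H' hH', hH'y, fun F hF hFy => ?_⟩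
  · have h3 := hc1 _ (bind_form hX.emb.lin hG) (hX.pull hP hM hG hIG)
    rwa [bind_eval] at h3
  · have h3 := hc2 _ (bind_form hX.emb.lin hF) (by rw [bind_eval]; exact hFy)
    refine hX.push hP hM (qf_mul (bind_form hX.emb.lin hF) hH) h3 (qf_mul hF (hT₂ H' hH')) ?_
    intro Ω _ _ x hx hxS hx0
    rw [map_mul, bind_eval] at hx0
    rw [map_mul]
    rcases mul_eq_zero.1 hx0 with h4 | h4
    · have h5 : aeval (at' A x) F = 0 := h4
      rw [h5, zero_mul]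
    · have h5 := (h2 Ω x hx hxS).1 (fun F hF => by
        rw [Set.mem_singleton_iff] at hF
        rw [hF]
        exact h4) H' hH'
      rw [h5, mul_zero]

/-- a form which vanishes on the closed subvariety with generic point `z`, times the equation of the
rest -/
theorem comp_con (hP : Typ P) {m : ℕ} {S₁ T₁ : Set (MvPolynomial (Fin (m + 1)) ℂ)}
    {P₂ : ∀ n : ℕ, Set (MvPolynomial (Fin (n + 1)) ℂ) →
      Set (MvPolynomial (Fin (n + 1)) ℂ) → MvPolynomial (Fin (n + 1)) ℂ → Prop}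
    (heq : ∀ G, IsForm G → (P m S₁ T₁ G ↔ P₂ m S₁ T₁ G)) {L : Type} [Field L] [Algebra ℂ L]
    {z : Fin (m + 1) → L} (hc : Component (P₂ m S₁ T₁) z) {G : MvPolynomial (Fin (m + 1)) ℂ}
    (hG : IsForm G) (hGz : aeval z G ≠ 0) (h : P m (Eqs z) T₁ G) : False := by
  obtain ⟨hc1, H, hH, hHz, hc2⟩ := hc
  have h1 := hP.restr m S₁ T₁ L z G H hG hH (fun F hF hFz =>
    (heq _ (qf_mul hF hH)).2 (hc2 F hF hFz)) h
  have h2 := hc1 _ (qf_mul hG hH) ((heq _ (qf_mul hG hH)).1 h1)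
  rw [map_mul] at h2
  exact mul_ne_zero hGz hHz h2

/-- equality of exceptional sets -/
theorem Tr.imp (hX : Tr S S' A T T') {P₂ : ∀ n : ℕ, Set (MvPolynomial (Fin (n + 1)) ℂ) →
      Set (MvPolynomial (Fin (n + 1)) ℂ) → MvPolynomial (Fin (n + 1)) ℂ → Prop} (hP : Typ P)
    (hM : MvAt P A T T') (hP₂ : Typ P₂) (hM₂ : MvAt P₂ A T T')
    (heq : ∀ G, IsForm G → (P N S' T' G ↔ P₂ N S' T' G)) {G : MvPolynomial (Fin (n + 1)) ℂ}
    (hG : IsForm G) (h : P n S T G) : P₂ n S T G := by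
  refine hP₂.coord n S T _ hG fun j => ?_
  by_contra hn
  obtain ⟨e, he⟩ := id hG
  have h1 : (G * X j).IsHomogeneous (e + 1) := he.mul (isHomogeneous_X _ _)
  obtain ⟨L, iF, iA, w, y, hw, hgen, hGy, hnot, hSy, hc⟩ :=
    typ_comp hP₂ hX.emb.forms hX.forms h1 (by omega) hn
  rw [map_mul] at hGy
  obtain ⟨R, H, hPr⟩ := hX.emb.pair hgen.ne hSy
  obtain ⟨h4, h5⟩ := hPr.push_ne hG (left_ne_zero_of_mul hGy)
  exact comp_con hP heq (hX.component hP₂ hM₂ hgen.ne hSy hc) h4 h5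
    (hM.push hPr (hX.compat L y hSy) G hG (Typ.sub hP hX.emb.forms hSy h))

theorem Tr.eq (hX : Tr S S' A T T') {P₂ : ∀ n : ℕ, Set (MvPolynomial (Fin (n + 1)) ℂ) →
      Set (MvPolynomial (Fin (n + 1)) ℂ) → MvPolynomial (Fin (n + 1)) ℂ → Prop} (hP : Typ P)
    (hM : MvAt P A T T') (hP₂ : Typ P₂) (hM₂ : MvAt P₂ A T T')
    (heq : ∀ G, IsForm G → (P N S' T' G ↔ P₂ N S' T' G)) {G : MvPolynomial (Fin (n + 1)) ℂ}
    (hG : IsForm G) : P n S T G ↔ P₂ n S T G :=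
  ⟨hX.imp hP hM hP₂ hM₂ heq hG, hX.imp hP₂ hM₂ hP hM (fun G hG => (heq G hG).symm) hG⟩

/-- no component is of log general type -/
theorem Tr.no (hX : Tr S S' A T T') (hP : Typ P) (hM : MvAt P A T T')
    (hno : ∀ (L : Type) [Field L] [Algebra ℂ L] (w : ℕ) (z : Fin (N + 1) → L), 1 ≤ w →
      Gen L w z → On S' z → NotIn T' z → LogGeneral T' L w z → ¬ Component (P N S' T') z)
    (L : Type) [Field L] [Algebra ℂ L] (w : ℕ) (y : Fin (n + 1) → L) (hw : 1 ≤ w)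
    (hy : Gen L w y) (hyS : On S y) (hyT : NotIn T y) (hlog : LogGeneral T L w y) :
    ¬ Component (P n S T) y := by
  intro hc
  obtain ⟨R, H, hPr⟩ := hX.emb.pair hy.ne hyS
  have hC := hX.compat L y hyS
  exact hno L w (at' A y) hw (hX.emb.gen hy hyS) (hX.emb.map L y hyS)
    (transfer_notIn hPr hy.ne hC hyT)
    ((transfer_log hPr hy.ne hX.forms hX.forms' hC).2 hlog)
    (hX.component hP hM hy.ne hyS hc)

end

/-- the generic closed subset of a variety of log general type -/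
theorem exists_form_of_no {P : ∀ n : ℕ, Set (MvPolynomial (Fin (n + 1)) ℂ) →
      Set (MvPolynomial (Fin (n + 1)) ℂ) → MvPolynomial (Fin (n + 1)) ℂ → Prop} (hP : Typ P)
    {n : ℕ} {T : Set (MvPolynomial (Fin (n + 1)) ℂ)} {L : Type} [Field L] [Algebra ℂ L]
    {y : Fin (n + 1) → L}
    (hno : ¬ Component (P n (Eqs y) T) y) : ∃ G, IsForm G ∧ aeval y G ≠ 0 ∧ P n (Eqs y) T G := by
  by_contra hcon
  push Not at hcon
  refine hno ⟨fun G hG hPG => ?_, 1, ⟨0, isHomogeneous_one _ _⟩, ?_, fun G hG hGy => ?_⟩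
  · by_contra h
    exact hcon G hG h hPG
  · rw [map_one]
    exact one_ne_zero
  · rw [mul_one]
    exact hP.van n (Eqs y) T G hG fun _ _ _ x hx => hx G ⟨hG, hGy⟩

end Pool.Agent.H911.EM
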