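import Pool.Agent.H911.EM.WHyp

/-!
Rational points, entire curves and smooth hypersurfaces: definitions and transfer.
-/

set_option autoImplicit false

namespace Pool.Agent.H911.EM

open MvPolynomial
open scoped LinearAlgebra.Projectivization
open Pool.Agent.N254.SQ (powerFormOver SmoothOver projPoints)

section defs

variable {K : Type} [Field K] {ι : Type} {n : ℕ}

/-- `X_σ` is hyperbolic (in Brody's form, which is equivalent to Kobayashi's for closed subsets of
projective spaces), where `X` is the closed subset of `P^n` over `K` given by the forms `F i`: every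
holomorphic map from the complex plane to `X_σ`, given by entire functions without common zeros, is
constant. -/
def Hyperbolic (σ : K →+* ℂ) (F : ι → MvPolynomial (Fin (n + 1)) K) : Prop :=
  ∀ f : ℂ → Fin (n + 1) → ℂ, Differentiable ℂ f → (∀ z, f z ≠ 0) →
    (∀ z i, eval₂ σ (f z) (F i) = 0) → ∀ z w, ∃ c : ℂ, f w = c • f z

/-- The kernel of the Jacobian matrix at the point `x` with values in the extension field `Ω`: the
tangent space of the cone over `X`. Its dimension is one more than the dimension of the Zariski tangent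
space of `X ⊗ Ω` at `x`. -/
noncomputable def tangentSpace (F : ι → MvPolynomial (Fin (n + 1)) K) {Ω : Type} [Field Ω]
    [Algebra K Ω] (x : Fin (n + 1) → Ω) : Submodule Ω (Fin (n + 1) → Ω) :=
  LinearMap.ker (Matrix.of fun (i : ι) (j : Fin (n + 1)) =>
    (aeval x (pderiv j (F i)) : Ω)).mulVecLin

/-- All tangent spaces of `X`, at the points over all extension fields of `K`, are of dimension at most
`m`. For instance `X` is smooth of dimension at most `m`. -/
def TangentDim (F : ι → MvPolynomial (Fin (n + 1)) K) (m : ℕ) : Prop :=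
  ∀ (Ω : Type) [Field Ω] [Algebra K Ω] (x : Fin (n + 1) → Ω), x ≠ 0 → (∀ i, aeval x (F i) = 0) →
    Module.finrank Ω (tangentSpace F x) ≤ m + 1

/-- `δ(X) ≤ d`: for all points `x` of `X` over extension fields of `K` (with one coordinate `1`) the sum of
the transcendence degree of the field generated by the coordinates and of the dimension of the
tangent space of `X` at `x` is at most `d`. -/
def Delta (F : ι → MvPolynomial (Fin (n + 1)) K) (d : ℕ) : Prop :=
  ∀ (Ω : Type) [Field Ω] [Algebra K Ω] (x : Fin (n + 1) → Ω) (a : Fin (n + 1)), x a = 1 →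
    (∀ i, aeval x (F i) = 0) → Algebra.trdeg K (Algebra.adjoin K (Set.range x)) +
      (Module.finrank Ω (tangentSpace F x) : Cardinal) ≤ ((d + 1 : ℕ) : Cardinal)

/-- `dim X ≤ m`: the transcendence degree of the field generated by the (inhomogeneous) coordinates of
any point of `X` over an extension field of `K` is at most `m`. There is no condition on the
singularities. -/
def Dim (F : ι → MvPolynomial (Fin (n + 1)) K) (m : ℕ) : Prop :=
  ∀ (Ω : Type) [Field Ω] [Algebra K Ω] (x : Fin (n + 1) → Ω) (a : Fin (n + 1)), x a = 1 →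
    (∀ i, aeval x (F i) = 0) →
      Algebra.trdeg K (Algebra.adjoin K (Set.range x)) ≤ (m : Cardinal)

/-- the closed subset is defined by forms -/
def Forms (F : ι → MvPolynomial (Fin (n + 1)) K) : Prop := ∀ i, ∃ d, (F i).IsHomogeneous d

end defs

section lemmas

variable {K : Type} [Field K] {ι : Type} {n : ℕ}

theorem tan_eq (F : ι → MvPolynomial (Fin (n + 1)) K) {Ω : Type} [Field Ω] [Algebra K Ω]
    (x : Fin (n + 1) → Ω) : tangentSpace F x = Tan (Set.range F) x := by
  ext v
  unfold tangentSpace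
  rw [LinearMap.mem_ker, mem_tan]
  constructor
  · rintro h _ ⟨i, rfl⟩
    exact congrFun h i
  · intro h
    funext i
    exact h (F i) ⟨i, rfl⟩

theorem on_iff (F : ι → MvPolynomial (Fin (n + 1)) K) {Ω : Type} [Field Ω] [Algebra K Ω]
    (x : Fin (n + 1) → Ω) : On (Set.range F) x ↔ ∀ i, aeval x (F i) = 0 :=
  ⟨fun h i => h _ ⟨i, rfl⟩, fun h => by
    rintro _ ⟨i, rfl⟩
    exact h i⟩

theorem forms_range {F : ι → MvPolynomial (Fin (n + 1)) K} (hF : Forms F) :
    ∀ G ∈ Set.range F, ∃ e, G.IsHomogeneous e := by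
  rintro _ ⟨i, rfl⟩
  exact hF i

theorem sm_of {F : ι → MvPolynomial (Fin (n + 1)) K} {d : ℕ} (hF : Forms F) (h : Delta F d) :
    Sm (Set.range F) d where
  forms := forms_range hF
  bd := by
    intro Ω _ _ x a hx hS
    have h1 := h Ω x a hx ((on_iff F x).1 hS)
    rwa [tan_eq] at h1

theorem dm_of {F : ι → MvPolynomial (Fin (n + 1)) K} {d : ℕ} (hF : Forms F) (h : Dim F d) :
    Dm (Set.range F) d where
  forms := forms_range hF
  bd := fun Ω _ _ x a hx hS => h Ω x a hx ((on_iff F x).1 hS)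

/-- small tangent spaces -/
theorem delta_of [CharZero K] {F : ι → MvPolynomial (Fin (n + 1)) K} {m : ℕ} (hF : Forms F)
    (h : TangentDim F m) : Delta F (2 * m) := by
  intro Ω _ _ x a hx hS
  have hx0 : x ≠ 0 := by
    intro h0
    rw [h0] at hx
    exact zero_ne_one hx
  have h1 := h Ω x hx0 hS
  obtain ⟨r, hr, h2⟩ := dim_tan (K := K) (S := Set.range F) (forms_range hF) x a hx
    ((on_iff F x).2 hS)
  rw [← tan_eq] at h2
  rw [hr]
  have h3 : r + Module.finrank Ω (tangentSpace F x) ≤ 2 * m + 1 := by omega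
  exact_mod_cast h3

/-- the dimension is at most the dimension of the tangent spaces -/
theorem dim_of [CharZero K] {F : ι → MvPolynomial (Fin (n + 1)) K} {m : ℕ} (hF : Forms F)
    (h : TangentDim F m) : Dim F m := by
  intro Ω _ _ x a hx hS
  have hx0 : x ≠ 0 := by
    intro h0
    rw [h0] at hx
    exact zero_ne_one hx
  have h1 := h Ω x hx0 hS
  obtain ⟨r, hr, h2⟩ := dim_tan (K := K) (S := Set.range F) (forms_range hF) x a hx
    ((on_iff F x).2 hS)
  rw [← tan_eq] at h2
  rw [hr]
  have h3 : r ≤ m := by omega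
  exact_mod_cast h3

/-- the tangent spaces of smooth hypersurfaces -/
theorem hyp_tan {N : ℕ} {A : MvPolynomial (Fin (N + 1)) K} (hA : SmoothOver A) :
    TangentDim (fun _ : Unit => A) (N - 1) := by
  intro Ω _ _ x hx _
  obtain ⟨j, hj⟩ := hA Ω (algebraMap K Ω) x hx
  have h1 : tangentSpace (fun _ : Unit => A) x ≠ ⊤ := by
    intro h
    have h2 : (Pi.single j 1 : Fin (N + 1) → Ω) ∈ tangentSpace (fun _ : Unit => A) x := by
      rw [h]
      trivial
    rw [tan_eq, mem_tan] at h2
    have h3 := h2 A ⟨(), rfl⟩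
    unfold dv at h3
    rw [Finset.sum_eq_single j, Pi.single_eq_same, mul_one] at h3
    · exact hj h3
    · intro i _ hi
      rw [Pi.single_eq_of_ne hi, mul_zero]
    · intro h4
      exact absurd (Finset.mem_univ j) h4
  have h2 := Submodule.finrank_lt h1
  rw [Module.finrank_fin_fun] at h2
  omega

theorem power_hom {N M D e : ℕ} {Q : Fin M → MvPolynomial (Fin (N + 1)) K}
    (hQ : ∀ t, (Q t).IsHomogeneous e) : (powerFormOver D Q).IsHomogeneous (e + D) := by
  refine IsHomogeneous.sum _ _ _ fun t _ => ?_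
  have h1 := (hQ t).mul ((Pool.Agent.N254.SQ.lin_hom K N (t : ℕ)).pow D)
  rw [one_mul] at h1
  exact h1

/-- the value at the representative of a point -/
theorem rep_iff {M : ℕ} {L : Type} [Field L] [Algebra K L] {G : MvPolynomial (Fin (M + 1)) K}
    (hG : ∃ e, G.IsHomogeneous e) {x : Fin (M + 1) → L} (hx : x ≠ 0) :
    aeval (Projectivization.mk L x hx).rep G = 0 ↔ aeval x G = 0 := by
  obtain ⟨a, ha⟩ := Projectivization.exists_smul_eq_mk_rep L x hx
  obtain ⟨e, he⟩ := hG
  have h2 : (Projectivization.mk L x hx).rep = (a : L) • x := ha.symm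
  rw [h2, ev_smul he]
  constructor
  · intro h
    exact (mul_eq_zero.1 h).resolve_left (pow_ne_zero _ a.ne_zero)
  · intro h
    rw [h, mul_zero]

/-- the map of the points over an extension field -/
theorem exists_pmap {N : ℕ} {S : Set (MvPolynomial (Fin (n + 1)) K)}
    {S' : Set (MvPolynomial (Fin (N + 1)) K)} {A : Fin (N + 1) → MvPolynomial (Fin (n + 1)) K}
    (hE : WEmb S S' A) (L : Type) [Field L] [Algebra K L] :
    ∃ φ : ℙ L (Fin (n + 1) → L) → ℙ L (Fin (N + 1) → L),
      Set.InjOn φ {P | On S P.rep} ∧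
      ∀ P : ℙ L (Fin (n + 1) → L), On S P.rep → ∀ G : MvPolynomial (Fin (N + 1)) K,
        (∃ e, G.IsHomogeneous e) → (aeval (φ P).rep G = 0 ↔ aeval (at' A P.rep) G = 0) := by
  classical
  obtain ⟨φ, hφ⟩ : ∃ φ : ℙ L (Fin (n + 1) → L) → ℙ L (Fin (N + 1) → L),
      ∀ P : ℙ L (Fin (n + 1) → L), ∀ h : at' A P.rep ≠ 0,
        φ P = Projectivization.mk L (at' A P.rep) h := by
    refine ⟨fun P => if hP : at' A P.rep = 0 then Projectivization.mk L (fun _ => 1) (fun h2 =>
      one_ne_zero (congrFun h2 0)) else Projectivization.mk L (at' A P.rep) hP, fun P h => ?_⟩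
    simp only [dif_neg h]
  refine ⟨φ, ?_, ?_⟩
  · intro P hP P' hP' hPP
    have h1 := hE.ne_zero P.rep_nonzero hP
    have h2 := hE.ne_zero P'.rep_nonzero hP'
    rw [hφ P h1, hφ P' h2] at hPP
    obtain ⟨a, ha⟩ := (Projectivization.mk_eq_mk_iff L _ _ _ _).1 hPP
    have h3 := hE.inj L _ _ (a : L) hP' hP ha.symm
    rw [← P.mk_rep, ← P'.mk_rep, Projectivization.mk_eq_mk_iff]
    exact ⟨a, h3.symm⟩
  · intro P hP G hG
    have h1 := hE.ne_zero P.rep_nonzero hP
    rw [hφ P h1]
    exact rep_iff hG h1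

/-- rational points under the projection: if the points of `Y` outside of `Z'` are finite in number, then
so are the points of `X` outside of `Z` -/
theorem finite_diff {N : ℕ} {κ κ' : Type} {F : ι → MvPolynomial (Fin (n + 1)) K}
    {S' : Set (MvPolynomial (Fin (N + 1)) K)} {A : Fin (N + 1) → MvPolynomial (Fin (n + 1)) K}
    (hE : WEmb (Set.range F) S' A) {B : MvPolynomial (Fin (N + 1)) K}
    (hB : ∃ e, B.IsHomogeneous e) {L : Type} [Field L] [Algebra K L]
    (h : ∀ z : Fin (N + 1) → L, On S' z → aeval z B = 0)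
    {G : κ → MvPolynomial (Fin (n + 1)) K} {G' : κ' → MvPolynomial (Fin (N + 1)) K}
    (hG' : Forms G')
    (hGG : ∀ x : Fin (n + 1) → L, x ≠ 0 → (∀ i, aeval x (F i) = 0) →
      (∀ k, aeval (at' A x) (G' k) = 0) → ∀ k, aeval x (G k) = 0)
    (hfin : (projPoints (fun _ : Unit => B) L \ projPoints G' L).Finite) :
    (projPoints F L \ projPoints G L).Finite := by
  obtain ⟨φ, hinj, hφ⟩ := exists_pmap hE L
  have hsub : projPoints F L \ projPoints G L ⊆ {P | On (Set.range F) P.rep} :=
    fun P hP => (on_iff F P.rep).2 hP.1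
  refine Set.Finite.of_finite_image (f := φ) (hfin.subset ?_) (hinj.mono hsub)
  rintro _ ⟨P, ⟨hP, hPG⟩, rfl⟩
  have hon : On (Set.range F) P.rep := (on_iff F P.rep).2 hP
  refine ⟨fun _ => (hφ P hon B hB).2 (h _ (hE.map L P.rep hon)), fun h1 => hPG ?_⟩
  exact hGG P.rep P.rep_nonzero hP fun k => (hφ P hon _ (hG' k)).1 (h1 k)

/-- rational points under the projection -/
theorem finite_points {N : ℕ} {F : ι → MvPolynomial (Fin (n + 1)) K}
    {S' : Set (MvPolynomial (Fin (N + 1)) K)} {A : Fin (N + 1) → MvPolynomial (Fin (n + 1)) K}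
    (hE : WEmb (Set.range F) S' A) {B : MvPolynomial (Fin (N + 1)) K}
    (hB : ∃ e, B.IsHomogeneous e) {L : Type} [Field L] [Algebra K L]
    (h : ∀ z : Fin (N + 1) → L, On S' z → aeval z B = 0)
    (hfin : (projPoints (fun _ : Unit => B) L).Finite) : (projPoints F L).Finite := by
  have h1 := finite_diff (κ := Unit) (κ' := Unit) hE hB h
    (G := fun _ => 1) (G' := fun _ => 1) (fun _ => ⟨0, isHomogeneous_one _ _⟩) (by
      intro x _ _ h2
      have h3 := h2 ()
      rw [map_one] at h3
      exact absurd h3 one_ne_zero) (hfin.subset Set.sdiff_subset)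
  refine h1.subset fun P hP => ⟨hP, fun h2 => ?_⟩
  have h3 := h2 ()
  rw [map_one] at h3
  exact one_ne_zero h3

/-- entire curves in the hypersurface -/
theorem curves_on {N : ℕ} {F : ι → MvPolynomial (Fin (n + 1)) K}
    {S' : Set (MvPolynomial (Fin (N + 1)) K)} {A : Fin (N + 1) → MvPolynomial (Fin (n + 1)) K}
    (hE : WEmb (Set.range F) S' A) {B : MvPolynomial (Fin (N + 1)) K}
    (σ : K →+* ℂ) (hO : Outside S' B σ) {g : ℂ → Fin (N + 1) → ℂ} (hg : Differentiable ℂ g)
    (hg0 : ∀ z, g z ≠ 0) (hgB : ∀ z, eval₂ σ (g z) B = 0) :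
    (∀ z w, ∃ c : ℂ, g w = c • g z) ∨
      ∃ f : ℂ → Fin (n + 1) → ℂ, Differentiable ℂ f ∧ (∀ z, f z ≠ 0) ∧
        (∀ z i, eval₂ σ (f z) (F i) = 0) ∧ ∀ z i, g z i = eval₂ σ (f z) (A i) := by
  let _ : Algebra K ℂ := σ.toAlgebra
  rcases hO.curves g hg hg0 (fun z => by rw [eval_map]; exact hgB z) with h1 | h1
  · exact Or.inl h1
  · right
    obtain ⟨f, hf, hfz⟩ := hE.lift hg hg0 (fun z G hG => by
      have h2 := h1 z G hG
      rwa [eval_map] at h2)
    exact ⟨f, hf, fun z => (hfz z).1, fun z => (on_iff F (f z)).1 (hfz z).2.1,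
      fun z i => (congrFun (hfz z).2.2 i).symm⟩

/-- hyperbolicity -/
theorem hyp_iff {N : ℕ} {F : ι → MvPolynomial (Fin (n + 1)) K}
    {S' : Set (MvPolynomial (Fin (N + 1)) K)} {A : Fin (N + 1) → MvPolynomial (Fin (n + 1)) K}
    (hE : WEmb (Set.range F) S' A) {B : MvPolynomial (Fin (N + 1)) K}
    (h : ∀ (Ω : Type) [Field Ω] [Algebra K Ω] (z : Fin (N + 1) → Ω), On S' z → aeval z B = 0)
    (σ : K →+* ℂ) (hO : Outside S' B σ) :
    Hyperbolic σ (fun _ : Unit => B) ↔ Hyperbolic σ F := by
  let _ : Algebra K ℂ := σ.toAlgebra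
  refine ⟨fun hY f hf hf0 hfF z w => ?_, fun hX g hg hg0 hgB z w => ?_⟩
  · have hon : ∀ z, On (Set.range F) (f z) := fun z => (on_iff F (f z)).2 (hfF z)
    obtain ⟨c, hc⟩ := hY (fun z => at' A (f z)) (diff_at_entire A hf)
      (fun z => hE.ne_zero (hf0 z) (hon z)) (fun z _ => h ℂ _ (hE.map ℂ (f z) (hon z))) z w
    exact ⟨c, hE.inj ℂ _ _ c (hon z) (hon w) hc⟩
  · rcases curves_on hE σ hO hg hg0 (fun z => hgB z ()) with h1 | ⟨f, hf, hf0, hfF, hgf⟩
    · exact h1 z w
    · obtain ⟨c, hc⟩ := hX f hf hf0 hfF z w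
      refine ⟨c, ?_⟩
      have h2 : ∀ z, g z = at' A (f z) := fun z => funext fun i => hgf z i
      rw [h2, h2, hc, lin_smul hE.lin]

end lemmas

end Pool.Agent.H911.EM
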