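import Pool.Agent.H911.EM.Exc
import Pool.Agent.H911.EM.Cpt
import Pool.Agent.H911.EM.Lang
import Pool.Agent.H911.GD.Stm4

/-!
Exceptional sets of smooth hypersurfaces and of the varieties embedded in them.
-/

set_option autoImplicit false

namespace Pool.Agent.H911.EM

open MvPolynomial Metric
open Pool.Agent.N254.SQ (Eqs IsForm Gen NotIn ValueNotIn LogGeneral OnSpecialQ OnCurvesQ OnDiscsQ
  Component OnSab SmoothForm powerForm powerFormOver SmoothOver qf_mul ce_general Extends)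
open Pool.Agent.W602.GT (coords SubVar GeneralType)
open Pool.Agent.H911.GD (Pair Compat Regular Typ Moves typ_comp typ_con bind_form bind_hom bind_eval
  transfer_log transfer_notIn SabQ sab_pull sab_push sab_one typ_curves typ_discs typ_special
  moves_curves moves_discs moves_special typ_sab disc_eqs Excep compat_one)

section

variable {N : ℕ} {S' : Set (MvPolynomial (Fin (N + 1)) ℂ)} {B : MvPolynomial (Fin (N + 1)) ℂ}
  (hO : Outside S' B (RingHom.id ℂ)) {T' : Set (MvPolynomial (Fin (N + 1)) ℂ)}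
include hO

theorem Outside.onCurves {F : MvPolynomial (Fin (N + 1)) ℂ} (hF : F ∈ S') :
    OnCurvesQ {B} T' F := by
  intro f hf hf0 hfB _
  rcases hO.curves f hf hf0 (fun w => by rw [MvPolynomial.map_id]; exact hfB w B rfl) with h1 | h1
  · exact Or.inl h1
  · right
    intro w
    have h2 := h1 w F hF
    rwa [MvPolynomial.map_id] at h2

theorem Outside.onDiscs (hB : IsForm B) {F : MvPolynomial (Fin (N + 1)) ℂ} (hF : F ∈ S') :
    OnDiscsQ {B} T' F := by
  intro f hf hf0 hS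
  have h2 := disc_eqs (S := {B}) (fun p hp => by
    rw [Set.mem_singleton_iff] at hp
    rw [hp]
    exact hB) hf hS
  rcases hO.discs f hf hf0 (fun w hw => by rw [MvPolynomial.map_id]; exact h2 w hw B rfl)
    with h1 | h1
  · exact Or.inl h1
  · right
    intro w hw
    have h3 := h1 w hw F hF
    rwa [MvPolynomial.map_id] at h3

theorem Outside.onSpecial {F : MvPolynomial (Fin (N + 1)) ℂ} (hF : F ∈ S') :
    OnSpecialQ {B} T' F := by
  intro L _ _ w y hw hy _
  rcases hO.sub L w y hw ⟨hy.ne, fun _ => by rw [MvPolynomial.map_id]; exact hy.mem ⟨B, rfl⟩,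
    hy.gen, hy.dim⟩ with h1 | h1
  · exact Or.inl (ce_general h1 _)
  · right
    have h2 := h1 F hF
    rwa [MvPolynomial.map_id] at h2

end

section

variable {P : ∀ n : ℕ, Set (MvPolynomial (Fin (n + 1)) ℂ) →
    Set (MvPolynomial (Fin (n + 1)) ℂ) → MvPolynomial (Fin (n + 1)) ℂ → Prop}
  {n N : ℕ} {S : Set (MvPolynomial (Fin (n + 1)) ℂ)} {S' : Set (MvPolynomial (Fin (N + 1)) ℂ)}
  {A : Fin (N + 1) → MvPolynomial (Fin (n + 1)) ℂ}
  {T : Set (MvPolynomial (Fin (n + 1)) ℂ)} {T' : Set (MvPolynomial (Fin (N + 1)) ℂ)}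
  {B : MvPolynomial (Fin (N + 1)) ℂ}

/-- the hypersurface `B = 0` contains `V(S')` and has no exceptional sets outside of it -/
structure Hy {N : ℕ} (S' : Set (MvPolynomial (Fin (N + 1)) ℂ)) (B : MvPolynomial (Fin (N + 1)) ℂ) :
    Prop where
  form : IsForm B
  van : ∀ (Ω : Type) [Field Ω] [Algebra ℂ Ω] (x : Fin (N + 1) → Ω), On S' x → aeval x B = 0
  out : Outside S' B (RingHom.id ℂ)

/-- the exceptional sets of the hypersurface and of the variety -/
theorem Tr.model_iff (hX : Tr S S' A T T') (hP : Typ P) (hM : MvAt P A T T') (hB : Hy S' B)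
    (hout : ∀ F ∈ S', P N {B} T' F) {G : MvPolynomial (Fin (N + 1)) ℂ} (hG : IsForm G) :
    P N {B} T' G ↔ P n S T (bind₁ A G) := by
  rw [hyp_iff' hP hX.emb.forms' hX.forms' hB.form hB.van hout hG]
  constructor
  · exact fun h => hX.pull hP hM hG h
  · intro h
    refine hX.push hP hM (bind_form hX.emb.lin hG) h hG fun Ω _ _ x _ _ hx => ?_
    rwa [bind_eval] at hx

/-- the exceptional sets `P` and `OnSpecialQ` of `V(S) ∖ V(T)` -/
def ExcepS {n : ℕ} (P : ∀ n : ℕ, Set (MvPolynomial (Fin (n + 1)) ℂ) →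
    Set (MvPolynomial (Fin (n + 1)) ℂ) → MvPolynomial (Fin (n + 1)) ℂ → Prop)
    (S T : Set (MvPolynomial (Fin (n + 1)) ℂ)) : Prop :=
  (∀ G, IsForm G → (P n S T G ↔ OnSpecialQ S T G)) ∧
    ∀ (L : Type) [Field L] [Algebra ℂ L] (w : ℕ) (y : Fin (n + 1) → L), 1 ≤ w →
      Gen L w y → On S y → NotIn T y → LogGeneral T L w y → ¬ Component (OnSpecialQ S T) y

/-- components of equal exceptional sets -/
theorem comp_congr {m : ℕ} {I J : MvPolynomial (Fin (m + 1)) ℂ → Prop}
    (h : ∀ G, IsForm G → (I G ↔ J G)) {L : Type} [Field L] [Algebra ℂ L]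
    {y : Fin (m + 1) → L} (hI : Component I y) : Component J y := by
  obtain ⟨h1, H, hH, hHy, h2⟩ := hI
  refine ⟨fun G hG hJ => h1 G hG ((h G hG).2 hJ), H, hH, hHy, fun G hG hGy => ?_⟩
  exact (h (G * H) (qf_mul hG hH)).1 (h2 G hG hGy)

/-- from the hypersurface to the variety -/
theorem Tr.excep (hX : Tr S S' A T T') (hP : Typ P) (hM : MvAt P A T T') (hB : Hy S' B)
    (hout : ∀ F ∈ S', P N {B} T' F) (h : Excep P B T') : ExcepS P S T := by
  have hPS : ∀ G, IsForm G → (P N {B} T' G ↔ P N S' T' G) := fun G hG =>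
    hyp_iff' hP hX.emb.forms' hX.forms' hB.form hB.van hout hG
  have hMS : MvAt (fun _ S T G => OnSpecialQ S T G) A T T' :=
    Moves.mvAt moves_special hX.forms hX.forms'
  have hSS : ∀ G, IsForm G → (OnSpecialQ {B} T' G ↔ OnSpecialQ S' T' G) := fun G hG =>
    hyp_iff' (P := fun _ S T G => OnSpecialQ S T G) typ_special hX.emb.forms' hX.forms' hB.form
      hB.van (fun F hF => hB.out.onSpecial hF) hG
  refine ⟨fun G hG => hX.eq hP hM (P₂ := fun _ S T G => OnSpecialQ S T G) typ_special hMS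
    (fun G hG => ?_) hG, ?_⟩
  · rw [← hPS G hG, ← hSS G hG]
    exact h.1 G hG
  · refine hX.no (P := fun _ S T G => OnSpecialQ S T G) typ_special hMS ?_
    intro L _ _ w z hw hz hzS hzT hlog hc
    exact h.2 L w z hw ⟨hz.ne, fun _ => hB.van L z hzS, hz.gen, hz.dim⟩ hzT hlog
      (comp_congr (fun G hG => (hSS G hG).symm) hc)

end

/-- for the irreducible closed set with generic point `y` -/
theorem ExcepS.iff {P : ∀ n : ℕ, Set (MvPolynomial (Fin (n + 1)) ℂ) →
    Set (MvPolynomial (Fin (n + 1)) ℂ) → MvPolynomial (Fin (n + 1)) ℂ → Prop} {n : ℕ}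
    {T : Set (MvPolynomial (Fin (n + 1)) ℂ)} {L : Type} [Field L]
    [Algebra ℂ L] {w : ℕ} {y : Fin (n + 1) → L} (hy : Gen L w y) (hw : 1 ≤ w) (hyT : NotIn T y)
    (h : ExcepS P (Eqs y) T) :
    LogGeneral T L w y ↔ ∃ G, IsForm G ∧ aeval y G ≠ 0 ∧ P n (Eqs y) T G := by
  obtain ⟨h1, h2⟩ := h
  constructor
  · intro hlog
    obtain ⟨G, hG, hGy, hPG⟩ := exists_form_of_no (P := fun _ S T G => OnSpecialQ S T G)
      typ_special (h2 L w y hw hy (fun F hF => hF.2) hyT hlog)
    exact ⟨G, hG, hGy, (h1 G hG).2 hPG⟩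
  · rintro ⟨G, hG, hGy, hPG⟩
    rcases (h1 G hG).1 hPG L w y hw ⟨hy.ne, fun p => p.2.2, hy.gen, hy.dim⟩ hyT with h3 | h3
    · exact h3
    · exact absurd h3 hGy

end Pool.Agent.H911.EM
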