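import Pool.Agent.H911.EM.Tor

/-!
The embedding of closed subsets in smooth hypersurfaces of twice the dimension: definitions for the
statements, and the general form of the reductions.
-/

set_option autoImplicit false

namespace Pool.Agent.H911.EM

open MvPolynomial Metric
open Pool.Agent.W602.GT (SubVar GeneralType)
open Pool.Agent.N254.SQ (IsForm Extends SmoothForm powerForm Gen)

/-- all tangent spaces of `V(S)` at its (complex) points are of dimension at most `m`; `Tan S x` is the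
tangent space at `x` of the cone, the kernel of the Jacobian matrix of all forms in `S`. For instance
`V(S)` is smooth of dimension at most `m` (and `S` generates its ideal). -/
def TangentSpaces {n : ℕ} (S : Set (MvPolynomial (Fin (n + 1)) ℂ)) (m : ℕ) : Prop :=
  ∀ x : Fin (n + 1) → ℂ, x ≠ 0 → (∀ F ∈ S, eval x F = 0) → Module.finrank ℂ (Tan S x) ≤ m + 1

/-- the tangent spaces of `V(S)` are of dimension at most `m`, `2 m + 1 ≤ N`, or `V(S)` is of dimension at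
most `m`, `3 m + 1 ≤ N` -/
def Fits {n : ℕ} (S : Set (MvPolynomial (Fin (n + 1)) ℂ)) (N : ℕ) : Prop :=
  (∃ m, TangentSpaces S m ∧ 2 * m + 1 ≤ N) ∨ ∃ m, Dm S m ∧ 3 * m + 1 ≤ N

/-- the hypersurface `B = 0` is smooth, contains `V(S')`, and the nonconstant entire curves in `B = 0`, the
holomorphic maps from the punctured disc to `B = 0` which do not extend, and the closed subvarieties of
`B = 0` of positive dimension not of general type are in `V(S')` -/
def HyperbolicOutside {N : ℕ} (B : MvPolynomial (Fin (N + 1)) ℂ)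
    (S' : Set (MvPolynomial (Fin (N + 1)) ℂ)) : Prop :=
  SmoothForm B ∧ (∀ x : Fin (N + 1) → ℂ, (∀ F ∈ S', eval x F = 0) → eval x B = 0) ∧
    (∀ f : ℂ → Fin (N + 1) → ℂ, Differentiable ℂ f → (∀ t, f t ≠ 0) → (∀ t, eval (f t) B = 0) →
      (∀ s t, ∃ c : ℂ, f t = c • f s) ∨ ∀ t, ∀ F ∈ S', eval (f t) F = 0) ∧
    (∀ f : ℂ → Fin (N + 1) → ℂ, DifferentiableOn ℂ f (ball 0 1 \ {0}) →
      (∃ t ∈ ball (0 : ℂ) 1 \ {0}, f t ≠ 0) → (∀ t ∈ ball (0 : ℂ) 1 \ {0}, eval (f t) B = 0) →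
      Extends f ∨ ∀ t ∈ ball (0 : ℂ) 1 \ {0}, ∀ F ∈ S', eval (f t) F = 0) ∧
    ∀ (L : Type) [Field L] [Algebra ℂ L] (w : ℕ) (y : Fin (N + 1) → L), 1 ≤ w →
      SubVar (fun _ : Unit => B) L w y → GeneralType ℂ L w ∨ ∀ F ∈ S', aeval y F = 0

/-- `W` is true for all smooth hypersurfaces in `P^N` -/
def ForSmooth (N : ℕ) (W : ∀ n : ℕ, Set (MvPolynomial (Fin (n + 1)) ℂ) → Prop) : Prop :=
  ∀ B : MvPolynomial (Fin (N + 1)) ℂ, IsForm B → SmoothForm B → W N {B}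

/-- `W` is true for all smooth hypersurfaces `∑ t, Q_t(y) (y_0 + t y_1 + ⋯ + t^N y_N)^D = 0` in `P^N` with
`N (2 N + 1)` forms `Q_t` of the same degree `e`, `D ∈ E`, `D ≥ D₁ e` -/
def ForPower (N : ℕ) (D₁ : ℕ → ℕ) (E : Set ℕ)
    (W : ∀ n : ℕ, Set (MvPolynomial (Fin (n + 1)) ℂ) → Prop) : Prop :=
  ∀ (e D : ℕ) (Q : Fin (N * (2 * N + 1)) → MvPolynomial (Fin (N + 1)) ℂ), D ∈ E → D₁ e ≤ D →
    (∀ t, (Q t).IsHomogeneous e) → SmoothForm (powerForm D Q) → W N {powerForm D Q}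

/-- the tangent spaces of `V(S)` are of dimension at most `m`, `2 m + 1 ≤ N` -/
def FitsSmooth {n : ℕ} (S : Set (MvPolynomial (Fin (n + 1)) ℂ)) (N : ℕ) : Prop :=
  ∃ m, TangentSpaces S m ∧ 2 * m + 1 ≤ N

/-- the chain of implications for the property `W` of closed subsets `X = V(S)` of projective spaces: if
`W` is true for all `X` with tangent spaces of dimension at most `N - 1`, then for all smooth hypersurfaces
in `P^N`, then for those of a special form, then for all `X` in the class `C` -/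
def Chain (N : ℕ) (D₁ : ℕ → ℕ) (C W : ∀ n : ℕ, Set (MvPolynomial (Fin (n + 1)) ℂ) → Prop) : Prop :=
  ((∀ (n : ℕ) (S : Set (MvPolynomial (Fin (n + 1)) ℂ)), (∀ F ∈ S, IsForm F) →
    TangentSpaces S (N - 1) → W n S) → ForSmooth N W) ∧
  ∀ E : Set ℕ, E.Infinite → (ForSmooth N W → ForPower N D₁ E W) ∧
    (ForPower N D₁ E W → ∀ (n : ℕ) (S : Set (MvPolynomial (Fin (n + 1)) ℂ)), (∀ F ∈ S, IsForm F) →
      C n S → W n S)

/-- every closed subvariety of `V(S)` of positive dimension is of general type -/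
def AllGeneral {n : ℕ} (S : Set (MvPolynomial (Fin (n + 1)) ℂ)) : Prop :=
  ∀ (L : Type) [Field L] [Algebra ℂ L] (w : ℕ) (y : Fin (n + 1) → L), 1 ≤ w →
    SubVar (fun p : S => (p : MvPolynomial (Fin (n + 1)) ℂ)) L w y → GeneralType ℂ L w

/-! ### lemmas -/

theorem hy_of {N : ℕ} {B : MvPolynomial (Fin (N + 1)) ℂ} {S' : Set (MvPolynomial (Fin (N + 1)) ℂ)}
    (hB : IsForm B) (h : HyperbolicOutside B S') : Hy S' B := by
  obtain ⟨h1, h2, h3, h4, h5⟩ := h
  refine ⟨hB, fun Ω _ _ x hx => van_points h2 Ω x hx, ?_, ?_, ?_⟩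
  · simp only [MvPolynomial.map_id]
    exact h3
  · simp only [MvPolynomial.map_id]
    exact h4
  · simp only [MvPolynomial.map_id]
    exact fun L _ _ w y hw hy => h5 L w y hw hy

theorem outside_of {N : ℕ} {B : MvPolynomial (Fin (N + 1)) ℂ}
    {S' : Set (MvPolynomial (Fin (N + 1)) ℂ)} (h1 : SmoothForm B)
    (h2 : ∀ (Ω : Type) [Field Ω] [Algebra ℂ Ω] (x : Fin (N + 1) → Ω), On S' x → aeval x B = 0)
    (hO : Outside S' B (RingHom.id ℂ)) : HyperbolicOutside B S' := by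
  obtain ⟨h3, h4, h5⟩ := hO
  simp only [MvPolynomial.map_id] at h3 h4 h5
  exact ⟨h1, fun x hx => h2 ℂ x hx, h3, h4, fun L _ _ w y hw hy => h5 L w y hw hy⟩

theorem small_of {n N : ℕ} {S : Set (MvPolynomial (Fin (n + 1)) ℂ)} (hS : ∀ F ∈ S, IsForm F)
    (h : Fits S N) : Small S N := by
  rcases h with ⟨m, h1, h2⟩ | h
  · exact Or.inl ⟨2 * m, sm_points hS h1, h2⟩
  · exact Or.inr h

/-- the tangent spaces of smooth hypersurfaces -/
theorem tangent_hyp {N : ℕ} {B : MvPolynomial (Fin (N + 1)) ℂ} (hB : SmoothForm B) :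
    TangentSpaces {B} (N - 1) := by
  intro x hx _
  obtain ⟨j, hj⟩ := hB x hx
  have h1 : Tan {B} x ≠ ⊤ := by
    intro h
    have h2 : (Pi.single j 1 : Fin (N + 1) → ℂ) ∈ Tan {B} x := by
      rw [h]
      trivial
    rw [mem_tan] at h2
    have h3 := h2 B rfl
    unfold dv at h3
    rw [Finset.sum_eq_single j, Pi.single_eq_same, mul_one] at h3
    · exact hj h3
    · intro i _ hi
      rw [Pi.single_eq_of_ne hi, mul_zero]
    · intro h4
      exact absurd (Finset.mem_univ j) h4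
  have h2 := Submodule.finrank_lt h1
  rw [Module.finrank_fin_fun] at h2
  omega

theorem power_form {N e D : ℕ} {Q : Fin (N * (2 * N + 1)) → MvPolynomial (Fin (N + 1)) ℂ}
    (hQ : ∀ t, (Q t).IsHomogeneous e) : IsForm (powerForm D Q) :=
  ⟨_, Pool.Agent.H911.GD.power_hom hQ⟩

/-- the models -/
theorem exists_models (N : ℕ) (hN : 1 ≤ N) : ∃ D₁ : ℕ → ℕ,
    ∀ (n : ℕ) (S : Set (MvPolynomial (Fin (n + 1)) ℂ)), (∀ F ∈ S, IsForm F) → Fits S N →
      ∃ (e : ℕ) (S' : Set (MvPolynomial (Fin (N + 1)) ℂ))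
        (A : Fin (N + 1) → MvPolynomial (Fin (n + 1)) ℂ), 1 ≤ e ∧ WEmb S S' A ∧
        ((∃ m, TangentSpaces S m ∧ 2 * m + 1 ≤ N) → Emb S S' A) ∧
        ∀ D, D₁ e ≤ D → ∃ Q : Fin (N * (2 * N + 1)) → MvPolynomial (Fin (N + 1)) ℂ,
          (∀ t, (Q t).IsHomogeneous e) ∧ HyperbolicOutside (powerForm D Q) S' := by
  obtain ⟨D₁, H⟩ := exists_mainW N hN
  refine ⟨D₁, fun n S hS hfit => ?_⟩
  obtain ⟨e, S', A, he, hE, hE', h⟩ := H ℂ n S (small_of hS hfit)
  refine ⟨e, S', A, he, hE, fun hm => hE' ?_, fun D hD => ?_⟩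
  · obtain ⟨m, h1, h2⟩ := hm
    exact ⟨2 * m, sm_points hS h1, h2⟩
  · obtain ⟨Q, hQ, hsm, hv, hO⟩ := h D hD
    refine ⟨Q, hQ, outside_of ?_ hv (hO _)⟩
    intro y hy
    obtain ⟨j, hj⟩ := hsm ℂ (RingHom.id ℂ) y hy
    exact ⟨j, hj⟩

/-- the chain -/
theorem chain_of {N : ℕ} {D₁ : ℕ → ℕ} {C W : ∀ n : ℕ, Set (MvPolynomial (Fin (n + 1)) ℂ) → Prop}
    (H : ∀ (n : ℕ) (S : Set (MvPolynomial (Fin (n + 1)) ℂ)), (∀ F ∈ S, IsForm F) → C n S →
      ∃ e : ℕ, ∀ D, D₁ e ≤ D → ∃ Q : Fin (N * (2 * N + 1)) → MvPolynomial (Fin (N + 1)) ℂ,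
          (∀ t, (Q t).IsHomogeneous e) ∧ SmoothForm (powerForm D Q) ∧
          (W N {powerForm D Q} → W n S)) : Chain N D₁ C W := by
  refine ⟨fun h B hB hsm => ?_, fun E hE => ⟨fun h e D Q _ _ hQ hsm => ?_, ?_⟩⟩
  · refine h N {B} (fun F hF => ?_) (tangent_hyp hsm)
    rw [Set.mem_singleton_iff] at hF
    rw [hF]
    exact hB
  · exact h _ (power_form hQ) hsm
  · intro h n S hS hfit
    obtain ⟨e, h1⟩ := H n S hS hfit
    obtain ⟨D, hDE, hD⟩ := hE.exists_gt (D₁ e)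
    obtain ⟨Q, hQ, hsm, hW⟩ := h1 D hD.le
    exact hW (h e D Q hDE hD.le hQ hsm)

section

variable {n N : ℕ} {S : Set (MvPolynomial (Fin (n + 1)) ℂ)} {S' : Set (MvPolynomial (Fin (N + 1)) ℂ)}
  {A : Fin (N + 1) → MvPolynomial (Fin (n + 1)) ℂ} {B : MvPolynomial (Fin (N + 1)) ℂ}

theorem allGeneral_iff (hE : WEmb S S' A) (hB : Hy S' B) : AllGeneral {B} ↔ AllGeneral S := by
  constructor
  · intro h L _ _ w y hw hy
    have hgen : Gen L w y := ⟨hy.ne, hy.gen, hy.dim⟩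
    have hyS : On S y := fun p hp => hy.mem ⟨p, hp⟩
    have h1 := hE.gen hgen hyS
    exact h L w (at' A y) hw ⟨h1.ne, fun p => by
      have h2 := p.2
      rw [Set.mem_singleton_iff] at h2
      rw [h2]
      exact hB.van L _ (hE.map L y hyS), h1.gen, h1.dim⟩
  · intro h L _ _ w z hw hz
    rcases hB.out.sub L w z hw ⟨hz.ne, fun _ => by
      rw [MvPolynomial.map_id]
      exact hz.mem ⟨B, rfl⟩, hz.gen, hz.dim⟩ with h1 | h1
    · exact h1
    · obtain ⟨y, hyS, -, hy⟩ := hE.gen_surj ⟨hz.ne, hz.gen, hz.dim⟩ (fun F hF => by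
        have h2 := h1 F hF
        rwa [MvPolynomial.map_id] at h2)
      exact h L w y hw ⟨hy.ne, fun p => hyS p.1 p.2, hy.gen, hy.dim⟩

end

end Pool.Agent.H911.EM
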