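import Pool.Agent.H911.EM.Ff
import Pool.Agent.H911.EM.ExcH
import Pool.Graph.R_pool_sql_team_seeded_63374d34.N254.SQ.PtdR
import Pool.Graph.R_pool_sql_team_seeded_63374d34.N254.SQ.Qbnd
import Pool.Graph.R_pool_sql_team_seeded_63374d34.N254.SQ.Qdeg

/-!
Degrees of maps from algebraic curves under weak embeddings.
-/

set_option autoImplicit false

namespace Pool.Agent.H911.EM

open MvPolynomial FF
open Pool.Agent.N254.SQ (Eqs IsForm aeval_zero_of aeval_scale Gen NotIn ValueNotIn LogGeneral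
  OnSpecialQ OnBoundedQ OnDegreesQ OnAlgebraic OnBounded t_qbnd t_qdeg t_cent t_hform)
open Pool.Agent.W602.GT (coords SubVar GeneralType)
open Pool.Agent.W603.LV (canDeg)
open Pool.Agent.W603.PV (pht pord pord_le exists_pord pord_scale pht_scale)
open Pool.Agent.H911.GD (Pair Compat Regular Typ Moves res_ne exists_norm ralg res_eval const_mem
  val_compat val_smul bind_eval ratio_mem typ_of_exc)

section place

variable {E : Type} [Field E] [Algebra ℂ E] (P : Place ℂ E)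

theorem pord_unit {m : ℕ} (v : Fin (m + 1) → P.O)
    (hv : ∃ j, IsLocalRing.residue P.O (v j) ≠ 0) : pord P (fun j => (v j : E)) = 0 := by
  obtain ⟨j, hj⟩ := hv
  obtain ⟨h1, h2⟩ := (res_ne P).1 hj
  refine le_antisymm ?_ ?_
  · have h3 := pord_le P (f := fun j => (v j : E)) (j := j) h1
    have h4 : P.ord ((fun j => (v j : E)) j) = 0 := h2
    rwa [h4] at h3
  · obtain ⟨i, hi, hi2⟩ := exists_pord P (f := fun j => (v j : E)) ⟨j, h1⟩
    rw [← hi2]
    exact (P.reg_iff hi).1 (v i).2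

variable {n N : ℕ} {L : Type} [Field L] [Algebra ℂ L] {y : Fin (n + 1) → L}
  {z : Fin (N + 1) → L} {A : Fin (N + 1) → MvPolynomial (Fin (n + 1)) ℂ}
  {R : Fin (n + 1) → MvPolynomial (Fin (N + 1)) ℂ} {H : MvPolynomial (Fin (N + 1)) ℂ}

theorem pord_compat (hP : Pair y z A R H) {x : Fin (n + 1) → E} (hx : x ≠ 0)
    (hxE : ∀ p ∈ Eqs y, aeval x p = 0) : pord P (fun i => aeval x (A i)) = pord P x := by
  obtain ⟨c, hc, hcV, k, hk⟩ := exists_norm P.O hx
  obtain ⟨v, hv⟩ : ∃ v : Fin (n + 1) → P.O, ∀ l, (v l : E) = c * x l :=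
    ⟨fun l => ⟨c * x l, hcV l⟩, fun _ => rfl⟩
  have hv' : (fun l => (v l : E)) = c • x := by
    funext l
    rw [hv, Pi.smul_apply, smul_eq_mul]
  have hvk : IsLocalRing.residue P.O (v k) ≠ 0 := by
    have : v k = 1 := Subtype.ext (by rw [hv, hk]; rfl)
    rw [this, map_one]
    exact one_ne_zero
  choose r hr hr2 using fun i => res_eval P.O (const_mem P) v (A i)
  let _ := ralg P.O (const_mem P)
  have hE : ∀ p ∈ Eqs y, aeval (fun l => IsLocalRing.residue P.O (v l)) p = 0 := by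
    rintro p hp
    obtain ⟨s, hs, hs2⟩ := res_eval P.O (const_mem P) v p
    rw [hv', (aeval_zero_of hp.1 hc x).2 (hxE p hp)] at hs
    rw [← hs2]
    have : s = 0 := Subtype.ext hs
    rw [this, map_zero]
  have hne : (fun l => IsLocalRing.residue P.O (v l)) ≠ 0 := by
    intro h
    exact hvk (congrFun h k)
  obtain ⟨i, hi⟩ := hP.reg _ _ hne hE
  have h1 := pord_unit P v ⟨k, hvk⟩
  have h2 := pord_unit P r ⟨i, by rw [hr2]; exact hi⟩
  have h4 : (fun i => (r i : E)) = fun i => c * aeval x (A i) := by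
    funext i
    rw [hr, hv', aeval_scale (hP.homA i), pow_one]
  have hne' : ∃ j, x j ≠ 0 := by
    by_contra hcon
    push Not at hcon
    exact hx (funext hcon)
  have hneA : ∃ i, aeval x (A i) ≠ 0 := hP.reg E x hx hxE
  rw [hv', show c • x = fun j => c * x j from rfl, pord_scale P hne' hc] at h1
  rw [h4, pord_scale P (f := fun i => aeval x (A i)) hneA hc] at h2
  omega

variable [IsFF ℂ E]

omit P in
theorem pht_compat (hP : Pair y z A R H) {x : Fin (n + 1) → E} (hx : x ≠ 0)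
    (hxE : ∀ p ∈ Eqs y, aeval x p = 0) : pht ℂ (fun i => aeval x (A i)) = pht ℂ x := by
  unfold pht
  have h1 : (fun P : Place ℂ E => pord P (fun i => aeval x (A i))) = fun P => pord P x :=
    funext fun P => pord_compat P hP hx hxE
  rw [h1]

omit P in
theorem pht_smul' {m : ℕ} {x : Fin (m + 1) → E} (hx : x ≠ 0) {c : E} (hc : c ≠ 0) :
    pht ℂ (c • x) = pht ℂ x :=
  pht_scale (k := ℂ) (f := x) (by
    by_contra hcon
    push Not at hcon
    exact hx (funext hcon)) hc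

end place

/-! ### exceptional sets given by the degrees of curves -/

section moves

variable {n N : ℕ} {L : Type} [Field L] [Algebra ℂ L] {y : Fin (n + 1) → L}
  {z : Fin (N + 1) → L} {A : Fin (N + 1) → MvPolynomial (Fin (n + 1)) ℂ}
  {R : Fin (n + 1) → MvPolynomial (Fin (N + 1)) ℂ} {H : MvPolynomial (Fin (N + 1)) ℂ}
  (hP : Pair y z A R H) {T : Set (MvPolynomial (Fin (n + 1)) ℂ)}
  {T' : Set (MvPolynomial (Fin (N + 1)) ℂ)} (hT : ∀ F ∈ T, IsForm F) (hT' : ∀ F ∈ T', IsForm F)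
  (hC : Compat y A T T')
include hP hT hT' hC

/-- a map to the variety and its image -/
theorem curve_pull {E : Type} [Field E] [Algebra ℂ E] [IsFF ℂ E] {x : Fin (n + 1) → E}
    (hx : x ≠ 0) (hxE : ∀ p ∈ Eqs y, aeval x p = 0) (hxT : NotIn T x)
    {s : Finset (Place ℂ E)} (hxP : ∀ P ∉ s, ValueNotIn T x P) {G : MvPolynomial (Fin (N + 1)) ℂ}
    (hxG : aeval x (bind₁ A (G * H)) ≠ 0) :
    (fun i => aeval x (A i)) ≠ 0 ∧ (∀ p ∈ Eqs z, aeval (fun i => aeval x (A i)) p = 0) ∧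
      NotIn T' (fun i => aeval x (A i)) ∧ (∀ P ∉ s, ValueNotIn T' (fun i => aeval x (A i)) P) ∧
      aeval (fun i => aeval x (A i)) G ≠ 0 ∧
      (coords ℂ x = ⊤ → coords ℂ (fun i => aeval x (A i)) = ⊤) := by
  obtain ⟨r, hH, hR⟩ := hP.homR
  rw [bind_eval, map_mul] at hxG
  have hne : (fun i => aeval x (A i)) ≠ 0 := by
    obtain ⟨i, hi⟩ := hP.reg E x hx hxE
    intro h
    exact hi (congrFun h i)
  refine ⟨hne, hP.mapA hxE, (hC E x hx hxE).1 hxT,
    fun P hP' => (val_compat hP hT hT' hC hx hxE P).2 (hxP P hP'), left_ne_zero_of_mul hxG, ?_⟩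
  intro hg
  rw [eq_top_iff, ← hg]
  refine IntermediateField.adjoin_le_iff.2 ?_
  rintro _ ⟨i, j, hj, rfl⟩
  have h1 : x i / x j = aeval (fun i => aeval x (A i)) (R i) /
      aeval (fun i => aeval x (A i)) (R j) := by
    rw [hP.RA hxE, hP.RA hxE, mul_div_mul_left _ _ (right_ne_zero_of_mul hxG)]
  rw [h1]
  exact ratio_mem hne (hR i) (hR j)

/-- a map to the image and the map to the variety -/
theorem curve_push {E : Type} [Field E] [Algebra ℂ E] [IsFF ℂ E] {x : Fin (N + 1) → E}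
    (hx : x ≠ 0) (hxE : ∀ p ∈ Eqs z, aeval x p = 0) (hxT : NotIn T' x)
    {s : Finset (Place ℂ E)} (hxP : ∀ P ∉ s, ValueNotIn T' x P) {G : MvPolynomial (Fin (n + 1)) ℂ}
    (hxG : aeval x (bind₁ R G * H) ≠ 0) :
    (fun j => aeval x (R j)) ≠ 0 ∧ (∀ p ∈ Eqs y, aeval (fun j => aeval x (R j)) p = 0) ∧
      NotIn T (fun j => aeval x (R j)) ∧ (∀ P ∉ s, ValueNotIn T (fun j => aeval x (R j)) P) ∧
      aeval (fun j => aeval x (R j)) G ≠ 0 ∧
      (coords ℂ x = ⊤ → coords ℂ (fun j => aeval x (R j)) = ⊤) ∧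
      pht ℂ (fun j => aeval x (R j)) = pht ℂ x := by
  obtain ⟨r, hH, hR⟩ := hP.homR
  rw [map_mul, bind_eval] at hxG
  have h0 := right_ne_zero_of_mul hxG
  have hAR : (fun i => aeval (fun j => aeval x (R j)) (A i)) = aeval x H • x := by
    funext i
    rw [hP.AR hxE, Pi.smul_apply, smul_eq_mul]
  have hne : (fun j => aeval x (R j)) ≠ 0 := by
    intro h
    rw [h] at hAR
    have h1 : (fun i => aeval (0 : Fin (n + 1) → E) (A i)) = 0 := by
      funext i
      have h2 := aeval_scale (hP.homA i) (0 : E) (0 : Fin (n + 1) → E)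
      rw [smul_zero, pow_one, zero_mul] at h2
      exact h2
    rw [h1] at hAR
    exact smul_ne_zero h0 hx hAR.symm
  have hE := hP.mapR hxE
  refine ⟨hne, hE, ?_, fun P hP' => ?_, left_ne_zero_of_mul hxG, ?_, ?_⟩
  · refine (hC E _ hne hE).2 ?_
    obtain ⟨F, hF, hF0⟩ := hxT
    refine ⟨F, hF, ?_⟩
    rw [hAR, ne_eq, aeval_zero_of (hT' F hF) h0]
    exact hF0
  · rw [← val_compat hP hT hT' hC hne hE P, hAR, val_smul P h0]
    exact hxP P hP'
  · intro hg
    rw [eq_top_iff, ← hg]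
    refine IntermediateField.adjoin_le_iff.2 ?_
    rintro _ ⟨i, j, hj, rfl⟩
    have h1 : x i / x j = aeval (fun j => aeval x (R j)) (A i) /
        aeval (fun j => aeval x (R j)) (A j) := by
      rw [hP.AR hxE, hP.AR hxE, mul_div_mul_left _ _ h0]
    rw [h1]
    exact ratio_mem hne (hP.homA i) (hP.homA j)
  · rw [← pht_compat hP hne hE, hAR, pht_smul' hx h0]

theorem bounded_pull {G : MvPolynomial (Fin (N + 1)) ℂ} (hG : OnBoundedQ (Eqs z) T' G) :
    OnBoundedQ (Eqs y) T (bind₁ A (G * H)) := by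
  intro E _ _ _ s
  obtain ⟨B, hB⟩ := hG E s
  refine ⟨B, fun x hx hxE hxT hxP hxG => ?_⟩
  obtain ⟨h1, h2, h3, h4, h5, -⟩ := curve_pull hP hT hT' hC hx hxE hxT hxP hxG
  rw [← pht_compat hP hx hxE]
  exact hB _ h1 h2 h3 h4 h5

theorem bounded_push {G : MvPolynomial (Fin (n + 1)) ℂ} (hG : OnBoundedQ (Eqs y) T G) :
    OnBoundedQ (Eqs z) T' (bind₁ R G * H) := by
  intro E _ _ _ s
  obtain ⟨B, hB⟩ := hG E s
  refine ⟨B, fun x hx hxE hxT hxP hxG => ?_⟩
  obtain ⟨h1, h2, h3, h4, h5, -, h6⟩ := curve_push hP hT hT' hC hx hxE hxT hxP hxG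
  rw [← h6]
  exact hB _ h1 h2 h3 h4 h5

theorem degrees_pull {G : MvPolynomial (Fin (N + 1)) ℂ} (hG : OnDegreesQ (Eqs z) T' G) :
    OnDegreesQ (Eqs y) T (bind₁ A (G * H)) := by
  obtain ⟨β, hβ⟩ := hG
  refine ⟨β, fun E _ _ _ s x hx hxc hxE hxT hxP hxG => ?_⟩
  obtain ⟨h1, h2, h3, h4, h5, h6⟩ := curve_pull hP hT hT' hC hx hxE hxT hxP hxG
  rw [← pht_compat hP hx hxE]
  exact hβ E s _ h1 (h6 hxc) h2 h3 h4 h5

theorem degrees_push {G : MvPolynomial (Fin (n + 1)) ℂ} (hG : OnDegreesQ (Eqs y) T G) :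
    OnDegreesQ (Eqs z) T' (bind₁ R G * H) := by
  obtain ⟨β, hβ⟩ := hG
  refine ⟨β, fun E _ _ _ s x hx hxc hxE hxT hxP hxG => ?_⟩
  obtain ⟨h1, h2, h3, h4, h5, h6, h7⟩ := curve_push hP hT hT' hC hx hxE hxT hxP hxG
  rw [← h7]
  exact hβ E s _ h1 (h6 hxc) h2 h3 h4 h5

end moves

theorem moves_bounded : Moves (fun _ S T G => OnBoundedQ S T G) :=
  ⟨fun hP _ _ hT hT' hC _ _ hG => bounded_pull hP hT hT' hC hG,
    fun hP _ _ hT hT' hC _ _ hG => bounded_push hP hT hT' hC hG⟩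

theorem moves_degrees : Moves (fun _ S T G => OnDegreesQ S T G) :=
  ⟨fun hP _ _ hT hT' hC _ _ hG => degrees_pull hP hT hT' hC hG,
    fun hP _ _ hT hT' hC _ _ hG => degrees_push hP hT hT' hC hG⟩

theorem typ_bounded : Typ (fun _ S T G => OnBoundedQ S T G) := typ_of_exc (t_qbnd t_cent t_hform)

theorem typ_degrees : Typ (fun _ S T G => OnDegreesQ S T G) := typ_of_exc (t_qdeg t_cent t_hform)

/-! ### outside of the closed set -/

section out

variable {N : ℕ} {S' : Set (MvPolynomial (Fin (N + 1)) ℂ)} {B : MvPolynomial (Fin (N + 1)) ℂ}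
  (hO : CurvesOutside B S') {T' : Set (MvPolynomial (Fin (N + 1)) ℂ)}
include hO

theorem CurvesOutside.onBounded {F : MvPolynomial (Fin (N + 1)) ℂ} (hF : F ∈ S') :
    OnBoundedQ {B} T' F := by
  intro E _ _ _ s
  refine ⟨max (canDeg ℂ E) 0, fun x hx hxB _ _ hxF => ?_⟩
  rcases hO E x hx (hxB B rfl) with h | h
  · exact h
  · exact absurd (h F hF) hxF

theorem CurvesOutside.onDegrees {F : MvPolynomial (Fin (N + 1)) ℂ} (hF : F ∈ S') :
    OnDegreesQ {B} T' F := by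
  refine ⟨fun χ => max χ 0, fun E _ _ _ s x hx _ hxB _ _ hxF => ?_⟩
  rcases hO E x hx (hxB B rfl) with h | h
  · refine h.trans (max_le_max ?_ le_rfl)
    have : (0 : ℤ) ≤ s.card := Int.natCast_nonneg _
    omega
  · exact absurd (h F hF) hxF

end out

/-! ### weak embeddings -/

section wemb

variable {n N : ℕ} {S : Set (MvPolynomial (Fin (n + 1)) ℂ)}
  {S' : Set (MvPolynomial (Fin (N + 1)) ℂ)} {A : Fin (N + 1) → MvPolynomial (Fin (n + 1)) ℂ}
  {B : MvPolynomial (Fin (N + 1)) ℂ}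

theorem WEmb.pht_eq (hE : WEmb S S' A) {E : Type} [Field E] [Algebra ℂ E] [IsFF ℂ E]
    {x : Fin (n + 1) → E} (hx : x ≠ 0) (hxS : On S x) : pht ℂ (at' A x) = pht ℂ x := by
  obtain ⟨R, H, hP⟩ := hE.pair hx hxS
  exact pht_compat hP hx fun p hp => hp.2

theorem on_hyp (hB : Hy S' B) {E : Type} [Field E] [Algebra ℂ E] {x : Fin (N + 1) → E}
    (hx : On S' x) : ∀ p ∈ ({B} : Set (MvPolynomial (Fin (N + 1)) ℂ)), aeval x p = 0 := by
  intro p hp
  rw [Set.mem_singleton_iff] at hp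
  rw [hp]
  exact hB.van E x hx

theorem algebraic_model (hE : WEmb S S' A) (hB : Hy S' B) (hO : CurvesOutside B S')
    (G : MvPolynomial (Fin (N + 1)) ℂ) : OnAlgebraic {B} G ↔ OnAlgebraic S (bind₁ A G) := by
  constructor
  · rintro ⟨α, hα⟩
    refine ⟨α, fun E _ _ _ x hx hxS hxG => ?_⟩
    rw [bind_eval] at hxG
    rw [← hE.pht_eq hx hxS]
    exact hα E _ (hE.ne_zero hx hxS) (on_hyp hB (hE.map E x hxS)) hxG
  · rintro ⟨α, hα⟩
    refine ⟨α + 1, fun E _ _ _ z hz hzB hzG => ?_⟩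
    have h0 : (0 : ℤ) ≤ max (canDeg ℂ E) 0 := le_max_right _ _
    push_cast
    rw [add_mul, one_mul]
    rcases hO E z hz (hzB B rfl) with h | h
    · have h1 : (0 : ℤ) ≤ α * max (canDeg ℂ E) 0 := by positivity
      linarith
    · obtain ⟨x, hx, hxS, rfl⟩ := hE.surj E z hz h
      have h1 := hα E x hx hxS (by rw [bind_eval]; exact hzG)
      rw [hE.pht_eq hx hxS]
      linarith

theorem bounded_model (hE : WEmb S S' A) (hB : Hy S' B) (hO : CurvesOutside B S')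
    (G : MvPolynomial (Fin (N + 1)) ℂ) : OnBounded {B} G ↔ OnBounded S (bind₁ A G) := by
  constructor
  · intro h E _ _ _
    obtain ⟨b, hb⟩ := h E
    refine ⟨b, fun x hx hxS hxG => ?_⟩
    rw [bind_eval] at hxG
    rw [← hE.pht_eq hx hxS]
    exact hb _ (hE.ne_zero hx hxS) (on_hyp hB (hE.map E x hxS)) hxG
  · intro h E _ _ _
    obtain ⟨b, hb⟩ := h E
    refine ⟨max b (max (canDeg ℂ E) 0), fun z hz hzB hzG => ?_⟩
    rcases hO E z hz (hzB B rfl) with h | h
    · exact h.trans (le_max_right _ _)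
    · obtain ⟨x, hx, hxS, rfl⟩ := hE.surj E z hz h
      have h1 := hb x hx hxS (by rw [bind_eval]; exact hzG)
      rw [hE.pht_eq hx hxS]
      exact h1.trans (le_max_left _ _)

end wemb

end Pool.Agent.H911.EM
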