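import Pool.Agent.H911.EM.WProj
import Pool.Agent.H911.QD.Trd
import Pool.Agent.H911.QD.Hyp

/-!
The reduced equations of a closed set at a point of maximal dimension.
-/

set_option autoImplicit false

namespace Pool.Agent.H911.EM

open MvPolynomial
open Pool.Agent.H911.QR (hatc hatc_adjoin hatc_aeval)
open Pool.Agent.H911.QD (surj_inj cone_trdeg cone_eval)

variable {K : Type} [Field K]

/-- the homogeneous components as coefficients along the cone -/
theorem cone_coeff {M : ℕ} {Ω : Type} [Field Ω] [Algebra K Ω] (x : Fin (M + 1) → Ω)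
    (H : MvPolynomial (Fin (M + 1)) K) (k : ℕ) :
    (aeval (fun j => (Polynomial.C (x j) * Polynomial.X : Polynomial Ω)) H).coeff k =
      aeval x (homogeneousComponent k H) := by
  classical
  conv_lhs => rw [← sum_homogeneousComponent H]
  rw [map_sum, Polynomial.finsetSum_coeff]
  have h1 : ∀ i ∈ Finset.range (H.totalDegree + 1),
      (aeval (fun j => (Polynomial.C (x j) * Polynomial.X : Polynomial Ω))
        (homogeneousComponent i H)).coeff k =
        if k = i then aeval x (homogeneousComponent k H) else 0 := by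
    intro i _
    rw [cone_eval x (homogeneousComponent_isHomogeneous i H), Polynomial.coeff_C_mul,
      Polynomial.coeff_X_pow]
    split_ifs with h
    · rw [mul_one, h]
    · rw [mul_zero]
  rw [Finset.sum_congr rfl h1, Finset.sum_ite_eq]
  split_ifs with h
  · rfl
  · rw [homogeneousComponent_eq_zero k H (by
      rw [Finset.mem_range] at h
      omega), map_zero]

/-- the generic point of the line through a point of a cone -/
theorem on_cone {M : ℕ} {S : Set (MvPolynomial (Fin (M + 1)) K)}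
    (hS : ∀ F ∈ S, ∃ e, F.IsHomogeneous e) {Ω : Type} [Field Ω] [Algebra K Ω]
    {x : Fin (M + 1) → Ω} (hx : On S x) (φ : Polynomial Ω →ₐ[K] FractionRing (Polynomial Ω)) :
    On S fun j => φ (Polynomial.C (x j) * Polynomial.X) := by
  intro F hF
  obtain ⟨e, he⟩ := hS F hF
  have h1 : aeval (fun j => φ (Polynomial.C (x j) * Polynomial.X)) F =
      φ (aeval (fun j => (Polynomial.C (x j) * Polynomial.X : Polynomial Ω)) F) :=
    (MvPolynomial.comp_aeval_apply _ φ F).symm
  rw [h1, cone_eval x he, hx F hF, map_zero, zero_mul, map_zero]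

/-- the dimension of the cone over a point -/
theorem cone_dep {M w : ℕ} (hw : w < M) {S : Set (MvPolynomial (Fin (M + 1)) K)} (hS : Dm S w)
    {Ω : Type} [Field Ω] [Algebra K Ω] {x : Fin (M + 1) → Ω} (hx : On S x) :
    ∃ F : MvPolynomial (Fin (M + 1)) K, F ≠ 0 ∧
      aeval (fun j => (Polynomial.C (x j) * Polynomial.X : Polynomial Ω)) F = 0 := by
  by_contra hcon
  push Not at hcon
  let φ : Polynomial Ω →ₐ[K] FractionRing (Polynomial Ω) :=
    IsScalarTower.toAlgHom K (Polynomial Ω) _
  have hφ : Function.Injective φ := FaithfulSMul.algebraMap_injective (Polynomial Ω)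
    (FractionRing (Polynomial Ω))
  have hind : AlgebraicIndependent K fun j => φ (Polynomial.C (x j) * Polynomial.X) := by
    rw [algebraicIndependent_iff]
    intro F hF
    by_contra h0
    apply hcon F h0
    apply hφ
    rw [map_zero, ← hF]
    exact MvPolynomial.comp_aeval_apply _ φ F
  obtain ⟨s, hs⟩ := par_coneW hS (on_cone hS.forms hx φ)
  have h1 := count_acl _ _ hind hs
  simp only [Fintype.card_fin, Fintype.card_sum, Fintype.card_unit] at h1
  omega

/-- forms which vanish at a point of small dimension -/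
theorem exists_form [CharZero K] {M w : ℕ} (hw : w < M) {S : Set (MvPolynomial (Fin (M + 1)) K)}
    (hS : Dm S w) {Ω : Type} [Field Ω] [Algebra K Ω] {x : Fin (M + 1) → Ω} (hx : On S x) :
    ∃ (e : ℕ) (G : MvPolynomial (Fin (M + 1)) K), G.IsHomogeneous e ∧ aeval x G = 0 ∧
      ∃ i, aeval x (pderiv i G) ≠ 0 := by
  classical
  have hex : ∃ e : ℕ, ∃ G : MvPolynomial (Fin (M + 1)) K, G.IsHomogeneous e ∧ G ≠ 0 ∧
      aeval x G = 0 := by
    obtain ⟨F, hF0, hF⟩ := cone_dep hw hS hx
    obtain ⟨k, hk⟩ : ∃ k, homogeneousComponent k F ≠ 0 := by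
      by_contra hcon
      push Not at hcon
      apply hF0
      rw [← sum_homogeneousComponent F]
      exact Finset.sum_eq_zero fun i _ => hcon i
    refine ⟨k, _, homogeneousComponent_isHomogeneous k F, hk, ?_⟩
    rw [← cone_coeff x F k, hF, Polynomial.coeff_zero]
  obtain ⟨G, hG, hG0, hGx⟩ := Nat.find_spec hex
  have hmin : ∀ e' < Nat.find hex, ¬ ∃ G : MvPolynomial (Fin (M + 1)) K, G.IsHomogeneous e' ∧
      G ≠ 0 ∧ aeval x G = 0 := fun e' he' => Nat.find_min hex he'
  generalize Nat.find hex = e at hG hmin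
  refine ⟨e, G, hG, hGx, ?_⟩
  by_contra hcon
  push Not at hcon
  rcases Nat.eq_zero_or_pos e with he | he
  · rw [he] at hG
    have h5 : G = C (coeff 0 G) := by
      rw [← totalDegree_eq_zero_iff_eq_C]
      have := hG.totalDegree_le
      omega
    rw [h5, aeval_C] at hGx
    apply hG0
    rw [h5, (map_eq_zero _).1 hGx, C_0]
  · have h1 : ∀ i, pderiv i G = 0 := by
      intro i
      by_contra h2
      exact hmin (e - 1) (by omega) ⟨_, hG.pderiv, h2, hcon i⟩
    have h2 := hG.sum_X_mul_pderiv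
    rw [Finset.sum_eq_zero (fun i _ => by rw [h1 i, mul_zero])] at h2
    rcases smul_eq_zero.1 h2.symm with h3 | h3
    · omega
    · exact hG0 h3

/-- all polynomials which vanish at the points of the closed set -/
def van {M : ℕ} (S : Set (MvPolynomial (Fin (M + 1)) K)) : Ideal (MvPolynomial (Fin (M + 1)) K) where
  carrier := {G | ∀ (Ω : Type) [Field Ω] [Algebra K Ω] (u : Fin (M + 1) → Ω), On S u →
    aeval u G = 0}
  add_mem' := by
    intro p q hp hq Ω _ _ u hu
    rw [map_add, hp Ω u hu, hq Ω u hu, add_zero]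
  zero_mem' := fun Ω _ _ u _ => map_zero _
  smul_mem' := by
    intro c p hp Ω _ _ u hu
    rw [smul_eq_mul, map_mul, hp Ω u hu, mul_zero]

theorem mem_van {M : ℕ} {S : Set (MvPolynomial (Fin (M + 1)) K)}
    {G : MvPolynomial (Fin (M + 1)) K} : G ∈ van S ↔ ∀ (Ω : Type) [Field Ω] [Algebra K Ω]
      (u : Fin (M + 1) → Ω), On S u → aeval u G = 0 := Iff.rfl

theorem van_rad {M : ℕ} (S : Set (MvPolynomial (Fin (M + 1)) K)) : (van S).IsRadical := by
  rintro G ⟨k, hk⟩ Ω _ _ u hu
  have h1 := hk Ω u hu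
  rw [map_pow] at h1
  exact eq_zero_of_pow_eq_zero h1

/-- the cone over a point of maximal dimension is a component -/
theorem gen_min {M w : ℕ} {S : Set (MvPolynomial (Fin (M + 1)) K)}
    (hS : Dm S w) {Ω : Type} [Field Ω] [Algebra K Ω] {x : Fin (M + 1) → Ω} {a : Fin (M + 1)}
    (ha : x a = 1) (hx : On S x) (hr : (w : Cardinal) ≤ Algebra.trdeg K (Algebra.adjoin K (Set.range x))) :
    RingHom.ker (aeval (fun j => (Polynomial.C (x j) * Polynomial.X : Polynomial Ω)) :
      MvPolynomial (Fin (M + 1)) K →ₐ[K] Polynomial Ω) ∈ (van S).minimalPrimes := by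
  obtain ⟨v, hv⟩ : ∃ v : Fin (M + 1) → Polynomial Ω, v = fun j =>
    (Polynomial.C (x j) * Polynomial.X : Polynomial Ω) := ⟨_, rfl⟩
  have hdim := cone_trdeg (K := K) x a ha
  rw [← hv] at hdim ⊢
  let φ : Polynomial Ω →ₐ[K] FractionRing (Polynomial Ω) :=
    IsScalarTower.toAlgHom K (Polynomial Ω) _
  have hφ : Function.Injective φ := FaithfulSMul.algebraMap_injective (Polynomial Ω)
    (FractionRing (Polynomial Ω))
  refine ⟨⟨RingHom.ker_isPrime _, ?_⟩, ?_⟩
  · intro G hG
    rw [RingHom.mem_ker]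
    apply hφ
    rw [map_zero]
    have h1 := hG _ _ (on_cone hS.forms hx φ)
    rw [← h1, hv]
    exact MvPolynomial.comp_aeval_apply _ φ G
  · rintro Q ⟨hQ, hSQ⟩ hle G hG
    have hQ' := hQ
    -- the surjection of the coordinate rings
    let f : (MvPolynomial (Fin (M + 1)) K ⧸ Q) →ₐ[K] Algebra.adjoin K (Set.range v) :=
      Ideal.Quotient.liftₐ Q (aeval (hatc K v)) (by
        intro p hp
        apply Subtype.ext
        rw [hatc_aeval]
        exact RingHom.mem_ker.1 (hle hp))
    have hfmk : ∀ p, f (Ideal.Quotient.mk Q p) = aeval (hatc K v) p := fun p => rfl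
    have hsur : Function.Surjective (aeval (hatc K v) :
        MvPolynomial (Fin (M + 1)) K →ₐ[K] Algebra.adjoin K (Set.range v)) := by
      rw [← AlgHom.range_eq_top, ← Algebra.adjoin_range_eq_range_aeval, hatc_adjoin]
    have hf : Function.Surjective f := by
      intro b
      obtain ⟨p, hp⟩ := hsur b
      exact ⟨Ideal.Quotient.mk Q p, (hfmk p).trans hp⟩
    -- the generic point of `Q`
    let E := FractionRing (MvPolynomial (Fin (M + 1)) K ⧸ Q)
    let g : (MvPolynomial (Fin (M + 1)) K ⧸ Q) →ₐ[K] E := IsScalarTower.toAlgHom K _ _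
    have hg : Function.Injective g := FaithfulSMul.algebraMap_injective
      (MvPolynomial (Fin (M + 1)) K ⧸ Q) (FractionRing (MvPolynomial (Fin (M + 1)) K ⧸ Q))
    obtain ⟨y, hy⟩ : ∃ y : Fin (M + 1) → E, y = fun j => g (Ideal.Quotient.mk Q (X j)) := ⟨_, rfl⟩
    have hya : ∀ p, aeval y p = g (Ideal.Quotient.mk Q p) := by
      intro p
      have h1 := congrArg (fun ψ => ψ p) (aeval_unique (g.comp (Ideal.Quotient.mkₐ K Q)))
      rw [hy]
      exact h1.symm
    have hyS : On S y := by
      intro F hF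
      rw [hya, (Ideal.Quotient.eq_zero_iff_mem).2 (hSQ fun Ω _ _ u hu => hu F hF), map_zero]
    obtain ⟨s, hs⟩ := par_coneW hS hyS
    have hty := trdeg_acl (K := K) hs
    simp only [Fintype.card_fin, Fintype.card_sum, Fintype.card_unit] at hty
    have htQ : Algebra.trdeg K (MvPolynomial (Fin (M + 1)) K ⧸ Q) ≤ ((w + 1 : ℕ) : Cardinal) := by
      have hcod : ∀ b, g b ∈ Algebra.adjoin K (Set.range y) := by
        intro b
        obtain ⟨p, rfl⟩ := Ideal.Quotient.mk_surjective b
        rw [← hya, Algebra.adjoin_range_eq_range_aeval]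
        exact ⟨p, rfl⟩
      refine le_trans (trdeg_le_of_injective (g.codRestrict
        (Algebra.adjoin K (Set.range y)) hcod) ?_) hty
      intro b b' hbb
      exact hg (congrArg Subtype.val hbb)
    have hinj := surj_inj f hf (lt_of_le_of_lt htQ Cardinal.natCast_lt_aleph0) (by
      refine htQ.trans (le_trans ?_ hdim)
      push_cast
      exact add_le_add_left hr 1)
    have h1 : f (Ideal.Quotient.mk Q G) = 0 := by
      rw [hfmk]
      apply Subtype.ext
      rw [hatc_aeval]
      exact RingHom.mem_ker.1 hG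
    exact Ideal.Quotient.eq_zero_iff_mem.1 (hinj (by rw [h1, map_zero]))

/-- a reduced equation with a derivative which does not vanish at the point -/
theorem gen_deriv [CharZero K] {M w : ℕ} (hw : w < M) {S : Set (MvPolynomial (Fin (M + 1)) K)}
    (hS : Dm S w) {Ω : Type} [Field Ω] [Algebra K Ω] {x : Fin (M + 1) → Ω} {a : Fin (M + 1)}
    (ha : x a = 1) (hx : On S x)
    (hr : (w : Cardinal) ≤ Algebra.trdeg K (Algebra.adjoin K (Set.range x))) :
    ∃ G ∈ van S, (∃ e, G.IsHomogeneous e) ∧ ∃ i, aeval x (pderiv i G) ≠ 0 := by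
  classical
  have hmin := gen_min hS ha hx hr
  obtain ⟨𝔭, h𝔭⟩ : ∃ 𝔭, 𝔭 = RingHom.ker (aeval (fun j =>
    (Polynomial.C (x j) * Polynomial.X : Polynomial Ω)) :
      MvPolynomial (Fin (M + 1)) K →ₐ[K] Polynomial Ω) := ⟨_, rfl⟩
  rw [← h𝔭] at hmin
  have hprime : 𝔭.IsPrime := hmin.1.1
  obtain ⟨e, G₀, hG₀, hG₀x, i, hi⟩ := exists_form hw hS hx
  have hfin := (van S).finite_minimalPrimes_of_isNoetherianRing (MvPolynomial (Fin (M + 1)) K)
  have hex : ∀ Q : Ideal (MvPolynomial (Fin (M + 1)) K), Q ∈ (van S).minimalPrimes → Q ≠ 𝔭 →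
      ∃ h ∈ Q, h ∉ 𝔭 := by
    intro Q hQ hne
    by_contra hcon
    push Not at hcon
    exact hne (le_antisymm hcon (hmin.2 hQ.1 hcon))
  choose! h hh1 hh2 using hex
  obtain ⟨H, hH⟩ : ∃ H, H = ∏ Q ∈ hfin.toFinset.erase 𝔭, h Q := ⟨_, rfl⟩
  have hH𝔭 : H ∉ 𝔭 := by
    rw [hH]
    intro h1
    obtain ⟨Q, hQ, h2⟩ := (hprime.prod_mem_iff).1 h1
    rw [Finset.mem_erase, Set.Finite.mem_toFinset] at hQ
    exact hh2 Q hQ.2 hQ.1 h2
  have hG₀𝔭 : G₀ ∈ 𝔭 := by
    rw [h𝔭, RingHom.mem_ker]
    rw [cone_eval x hG₀, hG₀x, map_zero, zero_mul]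
  have hmem : H * G₀ ∈ van S := by
    rw [← (van_rad S).radical, ← Ideal.sInf_minimalPrimes, Submodule.mem_sInf]
    intro Q hQ
    by_cases hQ𝔭 : Q = 𝔭
    · rw [hQ𝔭]
      exact Ideal.mul_mem_left _ _ hG₀𝔭
    · refine Ideal.mul_mem_right _ _ ?_
      rw [hH]
      exact Ideal.mem_of_dvd Q (Finset.dvd_prod_of_mem _ (by
        rw [Finset.mem_erase, Set.Finite.mem_toFinset]
        exact ⟨hQ𝔭, hQ⟩)) (hh1 Q hQ hQ𝔭)
  obtain ⟨k, hk⟩ : ∃ k, aeval x (homogeneousComponent k H) ≠ 0 := by
    by_contra hcon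
    push Not at hcon
    apply hH𝔭
    rw [h𝔭, RingHom.mem_ker]
    refine Polynomial.ext fun k => ?_
    have h1 := cone_coeff x H k
    rw [hcon k] at h1
    exact h1
  refine ⟨homogeneousComponent k H * G₀, ?_, ⟨_,
    (homogeneousComponent_isHomogeneous k H).mul hG₀⟩, i, ?_⟩
  · intro Ω' _ _ u hu
    rw [map_mul]
    by_cases hG : aeval u G₀ = 0
    · rw [hG, mul_zero]
    · have hchar : CharZero Ω' := charZero_of_injective_algebraMap (algebraMap K Ω').injective
      have h1 : aeval (fun j => (Polynomial.C (u j) * Polynomial.X : Polynomial Ω')) H *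
          Polynomial.X = 0 := by
        refine Polynomial.funext fun c => ?_
        rw [Polynomial.eval_mul, Polynomial.eval_X, Polynomial.eval_zero]
        by_cases hc : c = 0
        · rw [hc, mul_zero]
        have h2 : (aeval (fun j => (Polynomial.C (u j) * Polynomial.X : Polynomial Ω')) H).eval c =
            aeval (c • u) H := by
          have h3 : (fun j => (Polynomial.aeval c : Polynomial Ω' →ₐ[Ω'] Ω').restrictScalars K
              (Polynomial.C (u j) * Polynomial.X)) = c • u := by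
            funext j
            rw [AlgHom.restrictScalars_apply, map_mul, Polynomial.aeval_C, Polynomial.aeval_X,
              Pi.smul_apply, smul_eq_mul, mul_comm]
            rfl
          rw [← h3, ← MvPolynomial.comp_aeval_apply, AlgHom.restrictScalars_apply,
            Polynomial.coe_aeval_eq_eval]
        rw [h2]
        have h4 := hmem Ω' (c • u) (on_smul hS.forms hu c)
        rw [map_mul, ev_smul hG₀] at h4
        rw [(mul_eq_zero.1 h4).resolve_right (mul_ne_zero (pow_ne_zero _ hc) hG), zero_mul]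
      have h2 := (mul_eq_zero.1 h1).resolve_right Polynomial.X_ne_zero
      rw [← cone_coeff u H k, h2, Polynomial.coeff_zero, zero_mul]
  · rw [pderiv_mul, map_add, map_mul, map_mul, hG₀x, mul_zero, zero_add]
    exact mul_ne_zero hk hi

end Pool.Agent.H911.EM
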