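import Pool.Agent.H911.EM.Chain
import Pool.Agent.H911.GD.Main4
import Pool.Agent.H911.GD.MoveD
import Pool.Graph.R_pool_sql_team_seeded_63374d34.N254.SQ.LocDefs2

/-!
Smooth hypersurfaces through an embedded closed set, hyperbolic outside of it.
-/

set_option autoImplicit false

namespace Pool.Agent.H911.EM

open MvPolynomial Metric Filter Topology
open Pool.Agent.N254.SQ (Extends leaves4 hyp Smooth disc_open t_ext powerFormOver SmoothOver)
open Pool.Agent.W602.GT (SubVar GeneralType val coords)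
open Pool.Agent.W603.BP (Ext)
open Pool.Agent.H911.GD (Dp main_four')

variable {K : Type} [Field K]

/-- equations of the same degree -/
theorem exists_eqs {N : ℕ} {S : Set (MvPolynomial (Fin (N + 1)) K)}
    (hS : ∀ F ∈ S, ∃ e, F.IsHomogeneous e) : ∃ (e : ℕ) (ι : Type) (_ : Fintype ι)
      (q : ι → MvPolynomial (Fin (N + 1)) K), 1 ≤ e ∧ (∀ i, (q i).IsHomogeneous e) ∧
      (∀ (Ω : Type) [Field Ω] [Algebra K Ω] (z : Fin (N + 1) → Ω), z ≠ 0 →
        (∀ i, aeval z (q i) = 0) → On S z) ∧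
      (∀ (Ω : Type) [Field Ω] [Algebra K Ω] (z : Fin (N + 1) → Ω), On S z →
        ∀ i, aeval z (q i) = 0) ∧
      ∀ (Ω : Type) [Field Ω] [Algebra K Ω] (z v : Fin (N + 1) → Ω), z ≠ 0 → On S z →
        (∀ i, dv (q i) z v = 0) → v ∈ Tan S z := by
  classical
  obtain ⟨T, hTS, hT⟩ := Submodule.fg_span_iff_fg_span_finset_subset S |>.1
    (IsNoetherian.noetherian (Ideal.span S))
  choose! g hg using hS
  obtain ⟨e, he1, he⟩ : ∃ e, 1 ≤ e ∧ ∀ p ∈ T, g p ≤ e :=
    ⟨1 + T.sup g, Nat.le_add_right _ _, fun p hp => (Finset.le_sup (f := g) hp).trans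
      (Nat.le_add_left _ _)⟩
  have hspan : ∀ F ∈ S, F ∈ Ideal.span (T : Set (MvPolynomial (Fin (N + 1)) K)) := by
    intro F hF
    have h1 : F ∈ Submodule.span (MvPolynomial (Fin (N + 1)) K) S := Submodule.subset_span hF
    rw [hT] at h1
    exact h1
  refine ⟨e, T × Fin (N + 1), inferInstance, fun k => (k.1 : MvPolynomial (Fin (N + 1)) K) *
    X k.2 ^ (e - g k.1), he1, ?_, ?_, ?_, ?_⟩
  · rintro ⟨p, j⟩
    have h1 := (hg p (hTS p.2)).mul ((isHomogeneous_X K j).pow (e - g p))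
    have h2 : g p + 1 * (e - g p) = e := by
      have := he p p.2
      omega
    rwa [h2] at h1
  · intro Ω _ _ z hz hq F hF
    obtain ⟨a, ha⟩ : ∃ a, z a ≠ 0 := by
      by_contra hcon
      push Not at hcon
      exact hz (funext hcon)
    have h1 : Ideal.span (T : Set (MvPolynomial (Fin (N + 1)) K)) ≤
        RingHom.ker (aeval z : MvPolynomial (Fin (N + 1)) K →ₐ[K] Ω) := by
      rw [Ideal.span_le]
      intro p hp
      have h2 := hq (⟨p, hp⟩, a)
      rw [map_mul, map_pow, aeval_X] at h2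
      exact (mul_eq_zero.1 h2).resolve_right (pow_ne_zero _ ha)
    exact h1 (hspan F hF)
  · rintro Ω _ _ z hz ⟨p, j⟩
    rw [map_mul, hz p (hTS p.2), zero_mul]
  · intro Ω _ _ z v hz hzS hv
    obtain ⟨a, ha⟩ : ∃ a, z a ≠ 0 := by
      by_contra hcon
      push Not at hcon
      exact hz (funext hcon)
    rw [mem_tan]
    intro F hF
    have h1 : ∀ G ∈ Submodule.span (MvPolynomial (Fin (N + 1)) K)
        (T : Set (MvPolynomial (Fin (N + 1)) K)), aeval z G = 0 ∧ dv G z v = 0 := by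
      intro G hG
      refine Submodule.span_induction (p := fun G _ => aeval z G = 0 ∧ dv G z v = 0) ?_ ?_ ?_ ?_ hG
      · intro p hp
        have h2 := hzS p (hTS hp)
        refine ⟨h2, ?_⟩
        have h3 := hv (⟨p, hp⟩, a)
        rw [dv_mul, h2, zero_mul, zero_add, map_pow, aeval_X] at h3
        exact (mul_eq_zero.1 h3).resolve_left (pow_ne_zero _ ha)
      · refine ⟨map_zero _, ?_⟩
        rw [← C_0, dv_C]
      · rintro p q _ _ ⟨h2, h3⟩ ⟨h4, h5⟩
        rw [map_add, dv_add, h2, h3, h4, h5, add_zero]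
        exact ⟨rfl, rfl⟩
      · rintro c p _ ⟨h2, h3⟩
        rw [smul_eq_mul, map_mul, dv_mul, h2, h3]
        constructor <;> ring
    exact (h1 F (hspan F hF)).2

/-- The hypersurface `A = 0` contains the closed set `S = 0` and is hyperbolic outside of it, for the
embedding `σ` of `K` in the complex numbers: its nonconstant entire curves, its maps from the
punctured disc which do not extend and its closed subvarieties of positive dimension which are not of
general type are in `S = 0`. -/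
structure Outside {N : ℕ} (S : Set (MvPolynomial (Fin (N + 1)) K)) (A : MvPolynomial (Fin (N + 1)) K)
    (σ : K →+* ℂ) : Prop where
  curves : ∀ f : ℂ → Fin (N + 1) → ℂ, Differentiable ℂ f → (∀ w, f w ≠ 0) →
    (∀ w, eval (f w) (map σ A) = 0) →
    (∀ a b, ∃ c : ℂ, f b = c • f a) ∨ ∀ w, ∀ F ∈ S, eval (f w) (map σ F) = 0
  discs : ∀ f : ℂ → Fin (N + 1) → ℂ, DifferentiableOn ℂ f Dp → (∃ w ∈ Dp, f w ≠ 0) →
    (∀ w ∈ Dp, eval (f w) (map σ A) = 0) → Extends f ∨
      ∀ w ∈ Dp, ∀ F ∈ S, eval (f w) (map σ F) = 0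
  sub : ∀ (L : Type) [Field L] [Algebra ℂ L] (w : ℕ) (y : Fin (N + 1) → L), 1 ≤ w →
    SubVar (fun _ : Unit => map σ A) L w y → GeneralType ℂ L w ∨ ∀ F ∈ S, aeval y (map σ F) = 0

theorem form_zero {N e : ℕ} {F : MvPolynomial (Fin (N + 1)) ℂ} (hF : F.IsHomogeneous e)
    (z : Fin (N + 1) → ℂ) (hz : eval z F = 0) : eval (0 : Fin (N + 1) → ℂ) F = 0 := by
  have h := ev_smul (K := ℂ) hF (0 : ℂ) z
  have h1 : aeval z F = 0 := hz
  rw [h1, mul_zero, zero_smul] at h
  exact h

/-- the hypersurfaces -/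
theorem exists_hyp (N e : ℕ) (hN : 1 ≤ N) (he : 1 ≤ e) : ∃ D₁ : ℕ, ∀ D, D₁ ≤ D →
    ∀ (K : Type) [Field K] [CharZero K] (S : Set (MvPolynomial (Fin (N + 1)) K)) (d : ℕ),
      Sm S d → d + 1 ≤ N → ∀ (ι : Type) [Fintype ι] (q : ι → MvPolynomial (Fin (N + 1)) K),
      (∀ i, (q i).IsHomogeneous e) →
      (∀ (Ω : Type) [Field Ω] [Algebra K Ω] (z : Fin (N + 1) → Ω), z ≠ 0 →
        (∀ i, aeval z (q i) = 0) → On S z) →
      (∀ (Ω : Type) [Field Ω] [Algebra K Ω] (z : Fin (N + 1) → Ω), On S z →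
        ∀ i, aeval z (q i) = 0) →
      (∀ (Ω : Type) [Field Ω] [Algebra K Ω] (z v : Fin (N + 1) → Ω), z ≠ 0 → On S z →
        (∀ i, dv (q i) z v = 0) → v ∈ Tan S z) →
      ∃ Q : Fin (N * (2 * N + 1)) → MvPolynomial (Fin (N + 1)) K,
        (∀ t, (Q t).IsHomogeneous e) ∧ SmoothOver (powerFormOver D Q) ∧
        (∀ (Ω : Type) [Field Ω] [Algebra K Ω] (z : Fin (N + 1) → Ω), On S z →
          aeval z (powerFormOver D Q) = 0) ∧
        ∀ σ : K →+* ℂ, Outside S (powerFormOver D Q) σ := by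
  obtain ⟨D₁, H⟩ := main_four' leaves4 N e hN he
  refine ⟨D₁, fun D hD K _ _ S d hS hdN ι _ q hq h1 h2 h3 => ?_⟩
  obtain ⟨c, hc1, hc2⟩ := H D hD K ι q hq (by
    intro Ω _ _ x a ha hx
    have hx0 : x ≠ 0 := by
      intro h
      rw [h] at ha
      exact zero_ne_one ha
    have hxS := h1 Ω x hx0 hx
    obtain ⟨r, hr, hr2, -⟩ := hS.nat x a ha hxS
    have hker : LinearMap.ker (Matrix.of fun (i : ι) (j : Fin (N + 1)) =>
        (aeval x (pderiv j (q i)) : Ω)).mulVecLin ≤ Tan S x := by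
      intro v hv
      refine h3 Ω x v hx0 hxS fun i => ?_
      exact congrFun (LinearMap.mem_ker.1 hv) i
    have hrn := LinearMap.finrank_range_add_finrank_ker (Matrix.of fun (i : ι) (j : Fin (N + 1)) =>
        (aeval x (pderiv j (q i)) : Ω)).mulVecLin
    rw [Module.finrank_fin_fun] at hrn
    have h4 := Submodule.finrank_mono hker
    rw [hr]
    have h5 : r < (Matrix.of fun (i : ι) (j : Fin (N + 1)) =>
        (aeval x (pderiv j (q i)) : Ω)).rank := by
      have h6 : (Matrix.of fun (i : ι) (j : Fin (N + 1)) =>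
        (aeval x (pderiv j (q i)) : Ω)).rank = Module.finrank Ω (LinearMap.range
          (Matrix.of fun (i : ι) (j : Fin (N + 1)) =>
            (aeval x (pderiv j (q i)) : Ω)).mulVecLin) := rfl
      omega
    exact_mod_cast h5)
  have hhom : ∀ t, (∑ i, C (c (t, i)) * q i).IsHomogeneous e := by
    intro t
    refine IsHomogeneous.sum _ _ _ fun i _ => ?_
    have h4 := (isHomogeneous_C (Fin (N + 1)) (c (t, i))).mul (hq i)
    rwa [zero_add] at h4
  have hA : powerFormOver D (fun t => ∑ i, C (c (t, i)) * q i) = hyp q D c := rfl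
  refine ⟨fun t => ∑ i, C (c (t, i)) * q i, hhom, ?_, ?_, fun σ => ?_⟩
  · rw [hA]
    intro Ω _ τ y hy
    obtain ⟨j, hj⟩ := hc1 Ω τ y hy
    refine ⟨j, ?_⟩
    rw [pderiv_map, eval_map] at hj
    exact hj
  · intro Ω _ _ z hz
    rw [hA]
    unfold hyp
    rw [map_sum]
    refine Finset.sum_eq_zero fun t _ => ?_
    rw [map_mul, map_sum, Finset.sum_eq_zero, zero_mul]
    intro i _
    rw [map_mul, h2 Ω z hz i, mul_zero]
  · rw [hA]
    obtain ⟨c2, c3, c4⟩ := hc2 σ
    -- zeros of all `q i`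
    have hforms : ∀ x : Fin (N + 1) → ℂ, (∃ z, z ≠ 0 ∧ ∀ i, eval z (map σ (q i)) = 0) →
        (∀ i, eval x (map σ (q i)) = 0) → ∀ F ∈ S, eval x (map σ F) = 0 := by
      intro x hex hx F hF
      let _ : Algebra K ℂ := σ.toAlgebra
      have hev : ∀ (z : Fin (N + 1) → ℂ) (G : MvPolynomial (Fin (N + 1)) K),
          eval z (map σ G) = aeval z G := fun z G => by rw [eval_map]; rfl
      by_cases hx0 : x = 0
      · obtain ⟨z, hz, hzq⟩ := hex
        obtain ⟨k, hk⟩ := hS.forms F hF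
        have h4 := h1 ℂ z hz (fun i => by rw [← hev]; exact hzq i) F hF
        rw [hx0]
        exact form_zero (hk.map σ) z (by rw [hev]; exact h4)
      · rw [hev]
        exact h1 ℂ x hx0 (fun i => by rw [← hev]; exact hx i) F hF
    refine ⟨?_, ?_, ?_⟩
    · intro f hf hf0 hfA
      by_cases hcon : ∀ a b, ∃ c : ℂ, f b = c • f a
      · exact Or.inl hcon
      · right
        intro w
        have hnc : ∃ i j z w, f z i * f w j ≠ f z j * f w i := by
          by_contra h2
          push Not at h2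
          apply hcon
          intro z w
          obtain ⟨j0, hj0⟩ : ∃ j, f z j ≠ 0 := by
            by_contra h3
            push Not at h3
            exact hf0 z (funext h3)
          refine ⟨f w j0 / f z j0, funext fun i => ?_⟩
          rw [Pi.smul_apply, smul_eq_mul, div_mul_eq_mul_div, eq_div_iff hj0]
          exact h2 i j0 w z
        have h4 := c2 (fun j z => f z j) (fun j => (differentiable_pi.1 hf) j)
          (fun z => by
            by_contra h2
            push Not at h2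
            exact hf0 z (funext h2)) (fun z => hfA z) hnc w
        exact hforms (f w) ⟨f w, hf0 w, h4⟩ h4
    · intro f hf hfn hfA
      have hmem : ∀ z ∈ Ext (1 : ℝ), z⁻¹ ∈ Dp := by
        intro z hz
        have hz1 : 1 < ‖z‖ := hz
        have hz0 : z ≠ 0 := Pool.Agent.W603.BP.ext_ne_zero zero_le_one hz
        refine ⟨?_, inv_ne_zero hz0⟩
        rw [mem_ball_zero_iff, norm_inv]
        exact inv_lt_one_of_one_lt₀ hz1
      have hinv : ∀ w ∈ Dp, w⁻¹ ∈ Ext (1 : ℝ) := by
        intro w hw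
        have hw0 : w ≠ 0 := hw.2
        change 1 < ‖w⁻¹‖
        rw [norm_inv]
        exact (one_lt_inv₀ (norm_pos_iff.2 hw0)).2 (mem_ball_zero_iff.1 hw.1)
      have hfan : ∀ j, ∀ w ∈ Dp, AnalyticAt ℂ (fun w => f w j) w := by
        intro j w hw
        have h1 : DifferentiableOn ℂ (fun w => f w j) Dp := fun w hw =>
          (differentiableWithinAt_pi.1 (hf w hw)) j
        exact h1.analyticAt (disc_open.mem_nhds hw)
      rcases c4 1 (fun j z => f z⁻¹ j) one_pos (by
        intro j z hz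
        exact AnalyticAt.fun_comp (f := fun z : ℂ => z⁻¹) (g := fun w => f w j) (hfan j _ (hmem z hz))
          (analyticAt_inv (Pool.Agent.W603.BP.ext_ne_zero zero_le_one hz))) (by
        intro z hz
        exact hfA _ (hmem z hz)) with h1 | h1
      · right
        intro w hw
        have h4 : ∀ w ∈ Dp, ∀ i, eval (f w) (map σ (q i)) = 0 := by
          intro w hw i
          have h2 := h1 _ (hinv w hw) i
          rw [inv_inv] at h2
          exact h2
        obtain ⟨w₀, hw₀, hw₁⟩ := hfn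
        exact hforms (f w) ⟨f w₀, hw₁, h4 w₀ hw₀⟩ (h4 w hw)
      · left
        refine (t_ext N f hf hfn).2 ?_
        rintro j k ⟨w, hw, hwk⟩
        obtain ⟨ρ, b, hρ, hb, hρf⟩ := h1 j k ⟨w⁻¹, hinv w hw, by
            change f w⁻¹⁻¹ k ≠ 0
            rwa [inv_inv]⟩
        have hb0 : 0 < b := lt_of_lt_of_le one_pos hb
        refine ⟨ρ, hρ, ?_⟩
        filter_upwards [Pool.Agent.W603.BP.PB_mem (inv_pos.2 hb0)] with w hw
        have h2 := hρf w⁻¹ (by
          have := Pool.Agent.W603.BP.inv_mem_Ext hw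
          rwa [inv_inv] at this)
        rwa [inv_inv] at h2
    · intro L' _ _ w' y' hw' hy'
      rcases c3 L' w' y' hw' hy' with h4 | h4
      · right
        intro F hF
        let _ : Algebra K L' := ((algebraMap ℂ L').comp σ).toAlgebra
        have hev : ∀ (G : MvPolynomial (Fin (N + 1)) K), aeval y' (map σ G) = aeval y' G := by
          intro G
          rw [aeval_def, eval₂_map]
          rfl
        rw [hev]
        exact h1 L' y' hy'.ne (fun i => by rw [← hev]; exact h4 i) F hF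
      · exact Or.inl h4

/-- **The main theorem.** -/
theorem exists_main (N : ℕ) (hN : 1 ≤ N) : ∃ D₁ : ℕ → ℕ, ∀ (K : Type) [Field K] [CharZero K]
    (n : ℕ) (S : Set (MvPolynomial (Fin (n + 1)) K)) (d : ℕ), Sm S d → d + 1 ≤ N →
    ∃ (e : ℕ) (S' : Set (MvPolynomial (Fin (N + 1)) K))
      (A : Fin (N + 1) → MvPolynomial (Fin (n + 1)) K), 1 ≤ e ∧ Sm S' d ∧ Emb S S' A ∧
      ∀ D, D₁ e ≤ D → ∃ Q : Fin (N * (2 * N + 1)) → MvPolynomial (Fin (N + 1)) K,
        (∀ t, (Q t).IsHomogeneous e) ∧ SmoothOver (powerFormOver D Q) ∧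
        (∀ (Ω : Type) [Field Ω] [Algebra K Ω] (z : Fin (N + 1) → Ω), On S' z →
          aeval z (powerFormOver D Q) = 0) ∧
        ∀ σ : K →+* ℂ, Outside S' (powerFormOver D Q) σ := by
  choose D₁ hD₁ using fun e => exists_hyp N (e + 1) hN (Nat.succ_pos e)
  refine ⟨fun e => D₁ (e - 1), fun K _ _ n S d hS hd => ?_⟩
  obtain ⟨S', A, hS', hA⟩ := exists_emb hd hS
  obtain ⟨e, ι, _, q, he, hq, h1, h2, h3⟩ := exists_eqs hS'.forms
  refine ⟨e, S', A, he, hS', hA, fun D hD => ?_⟩
  have he' : e - 1 + 1 = e := by omega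
  obtain ⟨Q, hQ⟩ := hD₁ (e - 1) D hD K S' d hS' hd ι q (by rw [he']; exact hq) h1 h2 h3
  rw [he'] at hQ
  exact ⟨Q, hQ⟩

end Pool.Agent.H911.EM
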