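import Pool.Agent.H911.EM.Step

/-!
One projection: the image is closed, smooth, and isomorphic to the given set.
-/

set_option autoImplicit false

namespace Pool.Agent.H911.EM

open MvPolynomial
open Pool.Agent.H911.QR (homb homb_hom homb_eval hatc exists_basis)

variable {K : Type} [Field K]

/-- all forms which vanish on the image of the closed set `S = 0` -/
def img {n N : ℕ} (S : Set (MvPolynomial (Fin (n + 1)) K))
    (A : Fin (N + 1) → MvPolynomial (Fin (n + 1)) K) : Set (MvPolynomial (Fin (N + 1)) K) :=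
  {G | (∃ e, G.IsHomogeneous e) ∧ ∀ (Ω : Type) [Field Ω] [Algebra K Ω] (x : Fin (n + 1) → Ω),
    On S x → aeval (at' A x) G = 0}

theorem prj_surj {n : ℕ} {S : Set (MvPolynomial (Fin (n + 1 + 1)) K)} {P : Fin (n + 2) → K}
    (hP : Ctr S P) {Ω : Type} [Field Ω] [Algebra K Ω] {z : Fin (n + 1) → Ω} (hz0 : z ≠ 0)
    (hz : On (img S (prj P)) z) : ∃ x : Fin (n + 2) → Ω, On S x ∧ at' (prj P) x = z := by
  obtain ⟨a, ha⟩ : ∃ a, z a ≠ 0 := by
    by_contra hcon
    push Not at hcon
    exact hz0 (funext hcon)
  have hsc : ∀ (Ω' : Type) [Field Ω'] [Algebra K Ω'] (u : Fin (n + 1 + 1) → Ω') (c : Ω'),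
      at' (prj P) (c • u) = c • at' (prj P) u := by
    intro Ω' _ _ u c
    rw [at_smul (prj_hom P), pow_one]
  obtain ⟨z1, hz1⟩ : ∃ z1, z1 = (z a)⁻¹ • z := ⟨_, rfl⟩
  have hz1a : z1 a = 1 := by
    rw [hz1, Pi.smul_apply, smul_eq_mul, inv_mul_cancel₀ ha]
  have hz1S : On (img S (prj P)) z1 := by
    rw [hz1]
    exact on_smul (fun F hF => hF.1) hz _
  obtain ⟨G, hG, hGm⟩ := exists_monic hP a
  have hcon : ∀ r, Polynomial.C r ∈ idl S P a →
      (aeval z1 : MvPolynomial (Fin (n + 1)) K →ₐ[K] Ω).toRingHom r = 0 := by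
    intro r hr
    have h1 : X a * homb a r ∈ img S (prj P) := by
      refine ⟨⟨_, (isHomogeneous_X K a).mul (homb_hom a r)⟩, ?_⟩
      intro Ω' _ _ u hu
      by_cases hs : at' (prj P) u a = 0
      · rw [map_mul, aeval_X, hs, zero_mul]
      · obtain ⟨v, hv⟩ : ∃ v, v = (at' (prj P) u a)⁻¹ • u := ⟨_, rfl⟩
        have hvu : u = at' (prj P) u a • v := by
          rw [hv, smul_smul, mul_inv_cancel₀ hs, one_smul]
        have hvS : On S v := by
          rw [hv]
          exact on_smul hP.forms hu _
        have hva : at' (prj P) v a = 1 := by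
          rw [hv, hsc, Pi.smul_apply, smul_eq_mul, inv_mul_cancel₀ hs]
        have h2 := hr Ω' v hvS hva
        rw [Polynomial.eval₂_C] at h2
        have h3 : aeval (at' (prj P) v) r = 0 := h2
        rw [hvu, hsc, ev_smul ((isHomogeneous_X K a).mul (homb_hom a r)), map_mul, aeval_X, hva,
          one_mul, homb_eval _ hva, h3, mul_zero]
    have h2 := hz1S _ h1
    rw [map_mul, aeval_X, hz1a, one_mul, homb_eval _ hz1a] at h2
    exact h2
  obtain ⟨t, ht⟩ := lift_pt (idl S P a) G hG hGm
    (aeval z1 : MvPolynomial (Fin (n + 1)) K →ₐ[K] Ω).toRingHom hcon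
  have h1 : ((algebraMap Ω (AlgebraicClosure Ω)).comp
      (aeval z1 : MvPolynomial (Fin (n + 1)) K →ₐ[K] Ω).toRingHom) =
      (aeval (fun j => algebraMap Ω (AlgebraicClosure Ω) (z1 j)) :
        MvPolynomial (Fin (n + 1)) K →ₐ[K] AlgebraicClosure Ω).toRingHom := by
    ext G
    · change algebraMap Ω (AlgebraicClosure Ω) (aeval _ (C G)) = aeval _ (C G)
      rw [aeval_C, aeval_C, ← IsScalarTower.algebraMap_apply]
    · change algebraMap Ω (AlgebraicClosure Ω) (aeval _ (X G)) = aeval _ (X G)
      rw [aeval_X, aeval_X]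
  rw [h1] at ht
  obtain ⟨z2, hz2⟩ : ∃ z2 : Fin (n + 1) → AlgebraicClosure Ω,
    z2 = fun j => algebraMap Ω (AlgebraicClosure Ω) (z1 j) := ⟨_, rfl⟩
  rw [← hz2] at ht
  have hz2a : z2 a = 1 := by
    rw [hz2]
    change algebraMap Ω (AlgebraicClosure Ω) (z1 a) = 1
    rw [hz1a, map_one]
  have h2 := on_of_idl ht
  obtain ⟨H, r, hH, hr⟩ := aff_inv hP a h2 (by rw [prj_pt]; exact hz2a)
  rw [prj_pt] at hH
  have h3 := hr _ (pt P z2 t) h2 (by rw [prj_pt]; exact hz2a)
  rw [prj_pt] at h3
  rw [Polynomial.eval₂_sub, Polynomial.eval₂_mul, Polynomial.eval₂_C, Polynomial.eval₂_X,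
    Polynomial.eval₂_C, sub_eq_zero] at h3
  have h4 : aeval z2 H * t = aeval z2 r := h3
  have h5 : ∀ F : MvPolynomial (Fin (n + 1)) K,
      aeval z2 F = algebraMap Ω (AlgebraicClosure Ω) (aeval z1 F) := by
    intro F
    rw [hz2]
    exact aeval_algebraMap_apply _ z1 F
  have hH1 : aeval z1 H ≠ 0 := by
    intro h6
    apply hH
    rw [h5, h6, map_zero]
  obtain ⟨s, hs⟩ : ∃ s : Ω, s = aeval z1 r / aeval z1 H := ⟨_, rfl⟩
  have hst : algebraMap Ω (AlgebraicClosure Ω) s = t := by
    rw [hs, map_div₀, ← h5, ← h5, ← h4, mul_div_cancel_left₀ _ hH]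
  have h6 : (fun j => algebraMap Ω (AlgebraicClosure Ω) (pt P z1 s j)) = pt P z2 t := by
    funext j
    unfold pt
    refine Fin.cases ?_ (fun i => ?_) j
    · rw [Fin.cons_zero, Fin.cons_zero, hst]
    · rw [Fin.cons_succ, Fin.cons_succ, map_add, map_mul, hst, hz2,
        ← IsScalarTower.algebraMap_apply]
  rw [← h6] at h2
  refine ⟨z a • pt P z1 s, on_smul hP.forms (on_map.1 h2) _, ?_⟩
  rw [hsc, prj_pt, hz1, smul_smul, mul_inv_cancel₀ ha, one_smul]

/-- the projection is an embedding -/
theorem prj_emb {n : ℕ} {S : Set (MvPolynomial (Fin (n + 1 + 1)) K)} {P : Fin (n + 2) → K}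
    (hP : Ctr S P) : Emb S (img S (prj P)) (prj P) where
  lin := prj_hom P
  map := fun Ω _ _ x hx F hF => hF.2 Ω x hx
  zero := by
    intro Ω _ _ x hx h
    have h1 : On S ((0 : Ω) • x) := on_smul hP.forms hx 0
    refine (prj_inj hP hx h1 ?_).trans (zero_smul _ _)
    rw [h, at_smul (prj_hom P), h, smul_zero]
  inv := by
    intro Ω _ _ z hz0 hz
    obtain ⟨x, hx, rfl⟩ := prj_surj hP hz0 hz
    have hx0 : x ≠ 0 := by
      intro h
      apply hz0
      rw [h]
      funext i
      rw [prj_at]
      simp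
    obtain ⟨k, H, R, hHh, hRh, hH, h1, h2⟩ := hom_inv hP hx hx0
    refine ⟨k, H, R, hHh, hRh, hH, fun Ω' _ _ u hu => ⟨?_, h1 Ω' u⟩, h2⟩
    by_cases hu0 : u = 0
    · -- the vertex of the cone
      have h3 : at' R u = 0 := by
        funext j
        have h4 := ev_smul (hRh j) (0 : Ω') u
        rw [pow_succ, mul_zero, zero_mul] at h4
        rw [hu0, smul_zero] at h4
        rw [hu0]
        exact h4
      rw [h3]
      have h4 : On S ((0 : Ω) • x) := on_smul hP.forms hx 0
      intro F hF
      obtain ⟨e, he⟩ := hP.forms F hF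
      rcases Nat.eq_zero_or_pos e with h0 | h0
      · -- constants
        rw [h0] at he
        have h5 : F = C (coeff 0 F) := by
          rw [← totalDegree_eq_zero_iff_eq_C]
          have := he.totalDegree_le
          omega
        have h6 := hx F hF
        rw [h5, aeval_C] at h6
        have h7 := (map_eq_zero _).1 h6
        rw [h5, h7, C_0, map_zero]
      · have h5 := ev_smul he (0 : Ω') (0 : Fin (n + 1 + 1) → Ω')
        rw [zero_smul, zero_pow (by omega), zero_mul] at h5
        exact h5
    · obtain ⟨v, hv, rfl⟩ := prj_surj hP hu0 hu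
      rw [h2 Ω' v hv]
      exact on_smul hP.forms hv _

/-- a family of elements depending on few parameters -/
theorem trdeg_acl {Ω : Type} [Field Ω] [Algebra K Ω] {ι κ : Type} [Finite ι] [Fintype κ]
    {z : ι → Ω} {s : κ → Ω} (h : ∀ i, z i ∈ acl K s) :
    Algebra.trdeg K (Algebra.adjoin K (Set.range z)) ≤ Fintype.card κ := by
  obtain ⟨σ, f, hf, hfb⟩ := exists_basis K z
  have hσ : Finite σ := Finite.of_injective f hf
  have hfin := Fintype.ofFinite σ
  have h1 : AlgebraicIndependent K (fun s => z (f s)) :=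
    hfb.1.map' (f := (Algebra.adjoin K (Set.range z)).val) Subtype.val_injective
  have h2 := count_acl s _ h1 fun k => h (f k)
  rw [← hfb.cardinalMk_eq_trdeg, Cardinal.mk_fintype]
  exact_mod_cast h2

/-- the image is smooth -/
theorem prj_sm [CharZero K] {n d : ℕ} {S : Set (MvPolynomial (Fin (n + 1 + 1)) K)} (hS : Sm S d)
    {P : Fin (n + 2) → K} (hP : Ctr S P) : Sm (img S (prj P)) d where
  forms := fun F hF => hF.1
  bd := by
    intro Ω _ _ z a ha hz
    have hz0 : z ≠ 0 := by
      intro h
      rw [h] at ha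
      exact zero_ne_one ha
    obtain ⟨x, hx, hxz⟩ := prj_surj hP hz0 hz
    have hx0 : x ≠ 0 := by
      intro h
      apply hz0
      rw [← hxz, h]
      funext i
      rw [prj_at]
      simp
    obtain ⟨b, hb⟩ : ∃ b, x b ≠ 0 := by
      by_contra hcon
      push Not at hcon
      exact hx0 (funext hcon)
    have hyb : ((x b)⁻¹ • x) b = 1 := by
      rw [Pi.smul_apply, smul_eq_mul, inv_mul_cancel₀ hb]
    obtain ⟨r, hr, hr2, -⟩ := hS.nat _ b hyb (on_smul hS.forms hx (x b)⁻¹)
    obtain ⟨s, hs⟩ := par_pt (w := r) ((x b)⁻¹ • x) (by rw [hr])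
    rw [tan_smul hS.forms (inv_ne_zero hb)] at hr2
    have hdim : Algebra.trdeg K (Algebra.adjoin K (Set.range z)) ≤ r := by
      obtain ⟨y, hy⟩ : ∃ y, y = (x b)⁻¹ • x := ⟨_, rfl⟩
      rw [← hy] at hs
      have hxy : x = x b • y := by
        rw [hy, smul_smul, mul_inv_cancel₀ hb, one_smul]
      have hzy : z = x b • at' (prj P) y := by
        rw [← hxz]
        conv_lhs => rw [hxy]
        rw [at_smul (prj_hom P), pow_one]
      have hyA : ∀ i, at' (prj P) y i ∈ acl K s := by
        intro i
        rw [prj_at]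
        exact sub_mem (hs _) (mul_mem (algebraMap_mem _ _) (hs _))
      have h2 := trdeg_acl (K := K) (z := z) (s := s) (by
        intro i
        have h3 : x b * at' (prj P) y a = 1 := by
          rw [← ha, hzy]
          rfl
        have h4 : z i = at' (prj P) y i * (at' (prj P) y a)⁻¹ := by
          have h5 : at' (prj P) y a ≠ 0 := right_ne_zero_of_mul_eq_one h3
          rw [eq_mul_inv_iff_mul_eq₀ h5, hzy, Pi.smul_apply, smul_eq_mul]
          linear_combination (at' (prj P) y i) * h3
        rw [h4]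
        exact mul_mem (hyA i) (inv_mem (hyA a)))
      rw [Fintype.card_fin] at h2
      exact h2
    obtain ⟨k, H, R, hHh, hRh, hH, h1, h2⟩ := hom_inv hP hx hx0
    rw [hxz] at hH
    have hRz : at' R z = aeval z H • x := by
      rw [← hxz]
      exact h2 Ω x hx
    -- the differential of the local inverse
    have hmem : ∀ v ∈ Tan (img S (prj P)) z, (fun j => dv (R j) z v) ∈ Tan S x := by
      intro v hv
      rw [mem_tan] at hv ⊢
      intro F hF
      obtain ⟨e, he⟩ := hS.forms F hF
      have h3 := hv (bind₁ R F) ⟨⟨_, bind_hom hRh he⟩, by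
        intro Ω' _ _ u hu
        rw [bind_at, h2 Ω' u hu, ev_smul he, hu F hF, mul_zero]⟩
      rw [dv_bind, hRz, dv_smul he] at h3
      exact (mul_eq_zero.1 h3).resolve_left (pow_ne_zero _ hH)
    obtain ⟨L, hL⟩ : ∃ L : Tan (img S (prj P)) z →ₗ[Ω] Tan S x, ∀ v, (L v : Fin (n + 1 + 1) → Ω) =
        fun j => dv (R j) z v := by
      let L : Tan (img S (prj P)) z →ₗ[Ω] Tan S x :=
        { toFun := fun v => ⟨fun j => dv (R j) z v, hmem v v.2⟩
          map_add' := by
            intro u v
            apply Subtype.ext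
            funext j
            have h3 := dv_lin (R j) z (u : Fin (n + 1) → Ω) v 1
            rw [one_smul, one_mul] at h3
            exact h3
          map_smul' := by
            intro c v
            apply Subtype.ext
            funext j
            have h3 := dv_lin (R j) z 0 (v : Fin (n + 1) → Ω) c
            have h4 : dv (R j) z 0 = 0 := by
              unfold dv
              simp
            rw [h4, zero_add, zero_add] at h3
            exact h3 }
      exact ⟨L, fun v => rfl⟩
    have hinj : Function.Injective L := by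
      rw [← LinearMap.ker_eq_bot, LinearMap.ker_eq_bot']
      intro v hv
      have h3 : ∀ j, dv (R j) z (v : Fin (n + 1) → Ω) = 0 := by
        intro j
        have h4 := congrArg Subtype.val hv
        rw [hL] at h4
        exact congrFun h4 j
      have hpoly : ∀ i, bind₁ R (prj P i) = H * X i := by
        intro i
        refine MvPolynomial.funext fun c => ?_
        have h4 := congrFun (h1 K c) i
        have h5 : eval c (bind₁ R (prj P i)) = at' (prj P) (at' R c) i := bind_at R (prj P i) c
        rw [h5, h4, map_mul, eval_X]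
        rfl
      have h4 : ∀ i, aeval z H * (v : Fin (n + 1) → Ω) i + z i * dv H z v = 0 := by
        intro i
        have h5 := dv_bind R (prj P i) z (v : Fin (n + 1) → Ω)
        have h6 : (fun j => dv (R j) z (v : Fin (n + 1) → Ω)) = 0 := funext h3
        have h7 : dv (prj P i) (at' R z) (0 : Fin (n + 1 + 1) → Ω) = 0 := by
          unfold dv
          simp
        rw [hpoly, h6, h7, dv_mul, dv_X, aeval_X] at h5
        exact h5
      obtain ⟨c, hc⟩ : ∃ c : Ω, c = - (dv H z v) / aeval z H := ⟨_, rfl⟩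
      have hvc : (v : Fin (n + 1) → Ω) = c • z := by
        funext i
        rw [Pi.smul_apply, smul_eq_mul, hc, div_mul_eq_mul_div, eq_div_iff hH]
        linear_combination h4 i
      obtain ⟨j, hj⟩ : ∃ j, x j ≠ 0 := by
        by_contra hcon
        push Not at hcon
        exact hx0 (funext hcon)
      have h5 := h3 j
      have h6 := dv_lin (R j) z 0 z c
      have h7 : dv (R j) z 0 = 0 := by
        unfold dv
        simp
      rw [zero_add, ← hvc, h5, h7, zero_add, dv_euler (hRh j)] at h6
      have h8 : aeval z (R j) = aeval z H * x j := congrFun hRz j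
      rw [h8] at h6
      have hchar : CharZero Ω := charZero_of_injective_algebraMap (algebraMap K Ω).injective
      have h9 : c = 0 := by
        by_contra hc0
        refine mul_ne_zero hc0 (mul_ne_zero ?_ (mul_ne_zero hH hj)) h6.symm
        exact_mod_cast Nat.succ_ne_zero k
      apply Subtype.ext
      rw [hvc, h9, zero_smul]
      rfl
    have hfr := LinearMap.finrank_le_finrank_of_injective hinj
    calc Algebra.trdeg K (Algebra.adjoin K (Set.range z)) +
        (Module.finrank Ω (Tan (img S (prj P)) z) : Cardinal)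
        ≤ (r : Cardinal) + (Module.finrank Ω (Tan S x) : Cardinal) :=
          add_le_add hdim (by exact_mod_cast hfr)
      _ ≤ ((d + 1 : ℕ) : Cardinal) := by exact_mod_cast hr2

end Pool.Agent.H911.EM
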