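import Pool.Agent.H911.EM.Rel
import Pool.Graph.R_pool_sql_team_seeded_63374d34.N254.SQ.LocDefsZ
import Pool.Graph.R_pool_sql_team_seeded_63374d34.N254.SQ.Red

/-!
Reductions of points at primes and finite projections: the Nullstellensatz with denominators.
-/

set_option autoImplicit false

namespace Pool.Agent.H911.EM

open MvPolynomial NumberField IsDedekindDomain
open scoped LinearAlgebra.Projectivization
open Pool.Agent.N254.SQ (RedNotIn)

/-- the Nullstellensatz for the points over all extension fields -/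
theorem nst {K : Type} [Field K] {σ : Type} {I : Ideal (MvPolynomial σ K)} {G : MvPolynomial σ K}
    (h : ∀ (Ω : Type) [Field Ω] [Algebra K Ω] (x : σ → Ω), (∀ p ∈ I, aeval x p = 0) →
      aeval x G = 0) : ∃ M : ℕ, G ^ M ∈ I := by
  by_contra hcon
  have h1 : G ∉ I.radical := fun h2 => hcon h2
  rw [Ideal.radical_eq_sInf, Submodule.mem_sInf] at h1
  push Not at h1
  obtain ⟨P, ⟨hIP, hP⟩, hG⟩ := h1
  have hP' : Ideal.IsPrime P := hP
  obtain ⟨x, hx⟩ : ∃ x : σ → FractionRing (MvPolynomial σ K ⧸ P),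
    x = fun i => algebraMap (MvPolynomial σ K ⧸ P) _ (Ideal.Quotient.mk P (X i)) := ⟨_, rfl⟩
  have hev : ∀ p : MvPolynomial σ K, aeval x p =
      algebraMap (MvPolynomial σ K ⧸ P) (FractionRing (MvPolynomial σ K ⧸ P))
        (Ideal.Quotient.mk P p) := by
    intro p
    have h2 : (aeval x : MvPolynomial σ K →ₐ[K] FractionRing (MvPolynomial σ K ⧸ P)) =
        (IsScalarTower.toAlgHom K (MvPolynomial σ K ⧸ P)
          (FractionRing (MvPolynomial σ K ⧸ P))).comp (Ideal.Quotient.mkₐ K P) := by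
      apply algHom_ext
      intro i
      rw [aeval_X, hx]
      rfl
    rw [h2]
    rfl
  have h3 := h _ x (fun p hp => by
    rw [hev, Ideal.Quotient.eq_zero_iff_mem.2 (hIP hp), map_zero])
  rw [hev, map_eq_zero_iff _ (IsFractionRing.injective _ _), Ideal.Quotient.eq_zero_iff_mem] at h3
  exact hG h3

section

variable {K : Type} [Field K] [NumberField K]

attribute [local instance] MvPolynomial.algebraMvPolynomial in
/-- denominators -/
theorem exists_denom {σ ι : Type} [Finite ι] (Q : ι → MvPolynomial σ K) :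
    ∃ (c : 𝓞 K) (Q' : ι → MvPolynomial σ (𝓞 K)), c ≠ 0 ∧
      ∀ t, map (algebraMap (𝓞 K) K) (Q' t) = C (algebraMap (𝓞 K) K c) * Q t := by
  have : IsLocalization ((nonZeroDivisors (𝓞 K)).map (C (σ := σ)))
      (MvPolynomial σ K) := MvPolynomial.isLocalization (nonZeroDivisors (𝓞 K)) K
  obtain ⟨⟨b, hb⟩, hb2⟩ := IsLocalization.exist_integer_multiples_of_finite
    ((nonZeroDivisors (𝓞 K)).map (C (σ := σ))) Q
  obtain ⟨c, hc, rfl⟩ := hb
  choose Q' hQ' using hb2
  refine ⟨c, Q', nonZeroDivisors.ne_zero hc, fun t => ?_⟩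
  have h2 : algebraMap (MvPolynomial σ (𝓞 K)) (MvPolynomial σ K) (Q' t) =
      (C c : MvPolynomial σ (𝓞 K)) • Q t := hQ' t
  rw [Algebra.smul_def, MvPolynomial.algebraMap_def, map_C] at h2
  exact h2

theorem int_inj : Function.Injective (algebraMap (𝓞 K) K) :=
  FaithfulSMul.algebraMap_injective (𝓞 K) K

theorem hom_denom {N e : ℕ} {c : 𝓞 K} {q : MvPolynomial (Fin (N + 1)) K}
    {q' : MvPolynomial (Fin (N + 1)) (𝓞 K)} (hq : q.IsHomogeneous e)
    (h : map (algebraMap (𝓞 K) K) q' = C (algebraMap (𝓞 K) K c) * q) : q'.IsHomogeneous e := by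
  apply IsHomogeneous.of_map (f := algebraMap (𝓞 K) K) int_inj
  rw [h]
  have h3 := (isHomogeneous_C (Fin (N + 1)) (algebraMap (𝓞 K) K c)).mul hq
  rwa [zero_add] at h3

variable {L : Type} [Field L] [NumberField L] [Algebra K L]

theorem ez_eq {Ω σ : Type} [Field Ω] [Algebra K Ω] (x : σ → Ω) (p : MvPolynomial σ (𝓞 K)) :
    eval₂ ((algebraMap K Ω).comp (algebraMap (𝓞 K) K)) x p =
      aeval x (map (algebraMap (𝓞 K) K) p) := by
  rw [aeval_def, eval₂_map]

theorem int_le (v : HeightOneSpectrum (𝓞 L)) (a : 𝓞 K) :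
    v.valuation L (algebraMap K L (algebraMap (𝓞 K) K a)) ≤ 1 := by
  have h1 : IsIntegral ℤ (algebraMap K L (algebraMap (𝓞 K) K a)) :=
    (RingOfIntegers.isIntegral_coe a).map (algebraMap K L).toIntAlgHom
  obtain ⟨b, hb⟩ : ∃ b : 𝓞 L, algebraMap (𝓞 L) L b = algebraMap K L (algebraMap (𝓞 K) K a) :=
    ⟨⟨_, h1⟩, rfl⟩
  rw [← hb]
  exact v.valuation_le_one b

theorem poly_le {σ : Type} (v : HeightOneSpectrum (𝓞 L)) {x : σ → L}
    (hx : ∀ j, v.valuation L (x j) ≤ 1) (p : MvPolynomial σ (𝓞 K)) :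
    v.valuation L (eval₂ ((algebraMap K L).comp (algebraMap (𝓞 K) K)) x p) ≤ 1 := by
  induction p using MvPolynomial.induction_on with
  | C a =>
    rw [eval₂_C]
    exact int_le v a
  | add p q hp hq =>
    rw [eval₂_add]
    exact (Valuation.map_add _ _ _).trans (max_le hp hq)
  | mul_X p j hp =>
    rw [eval₂_mul, eval₂_X, map_mul]
    exact mul_le_one' hp (hx j)

theorem vmul_lt {Γ : Type} [LinearOrderedCommGroupWithZero Γ] {a b : Γ} (ha : a ≤ 1)
    (hb : b < 1) : a * b < 1 :=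
  lt_of_le_of_lt ((mul_le_mul' ha le_rfl).trans_eq (one_mul b)) hb

/-- if the polynomials `P i` have small values, then `G` has a small value, up to a denominator -/
def SmallVal {σ ι : Type} (P : ι → MvPolynomial σ (𝓞 K)) (G : MvPolynomial σ K) : Prop :=
  ∃ a : 𝓞 K, a ≠ 0 ∧ ∀ (L : Type) [Field L] [NumberField L] [Algebra K L]
      (v : HeightOneSpectrum (𝓞 L)) (x : σ → L), (∀ j, v.valuation L (x j) ≤ 1) →
      (∀ i, v.valuation L (eval₂ ((algebraMap K L).comp (algebraMap (𝓞 K) K)) x (P i)) < 1) →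
      v.valuation L (algebraMap K L (algebraMap (𝓞 K) K a) * aeval x G) < 1

theorem sv_gen {σ ι : Type} (P : ι → MvPolynomial σ (𝓞 K)) (i : ι) :
    SmallVal P (map (algebraMap (𝓞 K) K) (P i)) := by
  refine ⟨1, one_ne_zero, fun L _ _ _ v x hx hP => ?_⟩
  have h1 := hP i
  rw [ez_eq] at h1
  rw [map_one, map_one, one_mul]
  exact h1

theorem sv_zero {σ ι : Type} (P : ι → MvPolynomial σ (𝓞 K)) : SmallVal P 0 := by
  refine ⟨1, one_ne_zero, fun L _ _ _ v x hx hP => ?_⟩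
  rw [map_zero, mul_zero, map_zero]
  exact zero_lt_one

theorem sv_add {σ ι : Type} (P : ι → MvPolynomial σ (𝓞 K)) {p q : MvPolynomial σ K}
    (hp : SmallVal P p) (hq : SmallVal P q) : SmallVal P (p + q) := by
  obtain ⟨a, ha, h1⟩ := hp
  obtain ⟨b, hb, h2⟩ := hq
  refine ⟨a * b, mul_ne_zero ha hb, fun L _ _ _ v x hx hP => ?_⟩
  have e1 : algebraMap K L (algebraMap (𝓞 K) K (a * b)) * aeval x (p + q) =
      algebraMap K L (algebraMap (𝓞 K) K b) *
        (algebraMap K L (algebraMap (𝓞 K) K a) * aeval x p) +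
      algebraMap K L (algebraMap (𝓞 K) K a) *
        (algebraMap K L (algebraMap (𝓞 K) K b) * aeval x q) := by
    rw [map_mul (algebraMap (𝓞 K) K), map_mul (algebraMap K L), map_add (aeval x)]
    ring
  rw [e1]
  refine lt_of_le_of_lt (Valuation.map_add _ _ _) (max_lt ?_ ?_)
  · rw [map_mul (v.valuation L)]
    exact vmul_lt (int_le v b) (h1 L v x hx hP)
  · rw [map_mul (v.valuation L)]
    exact vmul_lt (int_le v a) (h2 L v x hx hP)

theorem sv_mul {σ ι : Type} (P : ι → MvPolynomial σ (𝓞 K)) (r : MvPolynomial σ K)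
    {p : MvPolynomial σ K} (hp : SmallVal P p) : SmallVal P (r * p) := by
  obtain ⟨a, ha, h1⟩ := hp
  obtain ⟨b, r', hb, hr'⟩ := exists_denom (fun _ : Unit => r)
  refine ⟨a * b, mul_ne_zero ha hb, fun L _ _ _ v x hx hP => ?_⟩
  have e2 : eval₂ ((algebraMap K L).comp (algebraMap (𝓞 K) K)) x (r' ()) =
      algebraMap K L (algebraMap (𝓞 K) K b) * aeval x r := by
    rw [ez_eq, hr' (), map_mul (aeval x), aeval_C]
  have e1 : algebraMap K L (algebraMap (𝓞 K) K (a * b)) * aeval x (r * p) =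
      eval₂ ((algebraMap K L).comp (algebraMap (𝓞 K) K)) x (r' ()) *
        (algebraMap K L (algebraMap (𝓞 K) K a) * aeval x p) := by
    rw [e2, map_mul (algebraMap (𝓞 K) K), map_mul (algebraMap K L), map_mul (aeval x)]
    ring
  rw [e1, map_mul (v.valuation L)]
  exact vmul_lt (poly_le v hx _) (h1 L v x hx hP)

theorem span_lt {σ ι : Type} (P : ι → MvPolynomial σ (𝓞 K)) {G : MvPolynomial σ K}
    (hG : G ∈ Ideal.span (Set.range fun i => map (algebraMap (𝓞 K) K) (P i))) :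
    SmallVal P G := by
  have h : Ideal.span (Set.range fun i => map (algebraMap (𝓞 K) K) (P i)) ≤
      ({ carrier := {G | SmallVal P G}
         add_mem' := fun hp hq => sv_add P hp hq
         zero_mem' := sv_zero P
         smul_mem' := fun r _ hp => sv_mul P r hp } : Ideal (MvPolynomial σ K)) := by
    rw [Ideal.span_le]
    rintro _ ⟨i, rfl⟩
    exact sv_gen P i
  exact h hG

/-- a nonzero integer is a unit at almost all primes -/
theorem finite_bad {a : 𝓞 K} (ha : a ≠ 0) :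
    {v : HeightOneSpectrum (𝓞 L) |
      v.valuation L (algebraMap K L (algebraMap (𝓞 K) K a)) ≠ 1}.Finite := by
  refine (HeightOneSpectrum.Support.finite (𝓞 L)
    (algebraMap K L (algebraMap (𝓞 K) K a))⁻¹).subset ?_
  intro v hv
  have h1 : v.valuation L (algebraMap K L (algebraMap (𝓞 K) K a)) < 1 :=
    lt_of_le_of_ne (int_le v a) hv
  have h2 : algebraMap K L (algebraMap (𝓞 K) K a) ≠ 0 := by
    rw [Ne, map_eq_zero, map_eq_zero_iff _ int_inj]
    exact ha
  change 1 < v.valuation L (algebraMap K L (algebraMap (𝓞 K) K a))⁻¹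
  rw [map_inv₀]
  exact (one_lt_inv₀ (zero_lt_iff.2 ((Valuation.ne_zero_iff _).2 h2))).2 h1

end

/-- finitely many denominators -/
theorem common {K : Type} [Field K] [NumberField K] {α : Type} [Finite α] (b : α → 𝓞 K)
    (hb : ∀ i, b i ≠ 0) :
    ∃ a : 𝓞 K, a ≠ 0 ∧ ∀ (L : Type) [Field L] [NumberField L] [Algebra K L]
      (v : HeightOneSpectrum (𝓞 L)), v.valuation L (algebraMap K L (algebraMap (𝓞 K) K a)) = 1 →
      ∀ i, v.valuation L (algebraMap K L (algebraMap (𝓞 K) K (b i))) = 1 := by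
  classical
  have := Fintype.ofFinite α
  refine ⟨∏ i, b i, Finset.prod_ne_zero_iff.2 fun i _ => hb i, fun L _ _ _ v hv i => ?_⟩
  refine le_antisymm (int_le v _) ?_
  rw [← Finset.mul_prod_erase _ _ (Finset.mem_univ i), map_mul, map_mul, map_mul] at hv
  by_contra hcon
  push Not at hcon
  rw [mul_comm] at hv
  have h2 := vmul_lt (int_le v (∏ x ∈ Finset.univ.erase i, b x)) hcon
  rw [hv] at h2
  exact lt_irrefl _ h2

/-- normalized coordinates -/
def Nrm {L : Type} [Field L] [NumberField L] (v : HeightOneSpectrum (𝓞 L)) {n : ℕ}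
    (x : Fin (n + 1) → L) : Prop :=
  (∀ j, v.valuation L (x j) ≤ 1) ∧ ∃ j, v.valuation L (x j) = 1

theorem exists_nrm {L : Type} [Field L] [NumberField L] (v : HeightOneSpectrum (𝓞 L)) {n : ℕ}
    {x : Fin (n + 1) → L} (hx : x ≠ 0) : ∃ c : L, Nrm v (fun j => c * x j) := by
  obtain ⟨j0, -, hj0⟩ := Finset.exists_max_image (Finset.univ : Finset (Fin (n + 1)))
    (fun j => v.valuation L (x j)) ⟨0, Finset.mem_univ _⟩
  have hmax : ∀ j, v.valuation L (x j) ≤ v.valuation L (x j0) := fun j =>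
    hj0 j (Finset.mem_univ j)
  have hx0 : x j0 ≠ 0 := by
    intro h0
    apply hx
    funext j
    have h2 := hmax j
    rw [h0, map_zero] at h2
    exact (Valuation.zero_iff _).1 (le_antisymm h2 zero_le)
  have hv0 : v.valuation L (x j0) ≠ 0 := (Valuation.ne_zero_iff _).2 hx0
  refine ⟨(x j0)⁻¹, fun j => ?_, ⟨j0, ?_⟩⟩
  · rw [map_mul, map_inv₀]
    calc (v.valuation L (x j0))⁻¹ * v.valuation L (x j)
        ≤ (v.valuation L (x j0))⁻¹ * v.valuation L (x j0) := mul_le_mul_right (hmax j) _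
      _ = 1 := inv_mul_cancel₀ hv0
  · simp only
    rw [inv_mul_cancel₀ hx0, map_one]

theorem nrm_val {L : Type} [Field L] [NumberField L] {v : HeightOneSpectrum (𝓞 L)} {n : ℕ}
    {x : Fin (n + 1) → L} {c c' : L} (h : Nrm v (fun j => c * x j))
    (h' : Nrm v (fun j => c' * x j)) : v.valuation L c = v.valuation L c' := by
  have key : ∀ c c' : L, Nrm v (fun j => c * x j) → Nrm v (fun j => c' * x j) →
      v.valuation L c' ≤ v.valuation L c := by
    intro c c' h h'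
    obtain ⟨j, hj⟩ := h.2
    have h1 := h'.1 j
    rw [map_mul] at hj h1
    have h2 : v.valuation L (x j) ≠ 0 := by
      intro h0
      rw [h0, mul_zero] at hj
      exact zero_ne_one hj
    rw [← hj] at h1
    exact (mul_le_mul_iff_left₀ (zero_lt_iff.2 h2)).1 h1
  exact le_antisymm (key c' c h' h) (key c c' h h')

section

variable {K : Type} [Field K] [NumberField K] {L : Type} [Field L] [NumberField L] [Algebra K L]
  {n : ℕ} {κ : Type}

theorem ez_scale {e : ℕ} {p : MvPolynomial (Fin (n + 1)) (𝓞 K)} (hp : p.IsHomogeneous e) (c : L)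
    (x : Fin (n + 1) → L) :
    eval₂ ((algebraMap K L).comp (algebraMap (𝓞 K) K)) (fun j => c * x j) p =
      c ^ e * eval₂ ((algebraMap K L).comp (algebraMap (𝓞 K) K)) x p := by
  rw [← eval₂_map, ← eval₂_map]
  exact Pool.Agent.N254.SQ.eval₂_scale (algebraMap K L) (hp.map _) c x

theorem red_any {T : κ → MvPolynomial (Fin (n + 1)) (𝓞 K)} (hT : ∀ k, ∃ e, (T k).IsHomogeneous e)
    {x : Fin (n + 1) → L} {v : HeightOneSpectrum (𝓞 L)} (h : RedNotIn T x v) {c : L}
    (hc : Nrm v (fun j => c * x j)) : ∃ k, v.valuation L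
      (eval₂ ((algebraMap K L).comp (algebraMap (𝓞 K) K)) (fun j => c * x j) (T k)) = 1 := by
  obtain ⟨c', h1, h2, k, hk⟩ := h
  obtain ⟨e, he⟩ := hT k
  refine ⟨k, ?_⟩
  have h3 := nrm_val hc ⟨h1, h2⟩
  rw [ez_scale he, map_mul, map_pow] at hk ⊢
  rw [h3]
  exact hk

theorem red_smul {T : κ → MvPolynomial (Fin (n + 1)) (𝓞 K)} {x : Fin (n + 1) → L}
    {v : HeightOneSpectrum (𝓞 L)} {u : L} (hu : u ≠ 0) :
    RedNotIn T (u • x) v ↔ RedNotIn T x v := by
  constructor
  · rintro ⟨c, h⟩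
    refine ⟨c * u, ?_⟩
    simp only [Pi.smul_apply, smul_eq_mul, ← mul_assoc] at h
    exact h
  · rintro ⟨c, h⟩
    refine ⟨c * u⁻¹, ?_⟩
    simp only [Pi.smul_apply, smul_eq_mul]
    have e1 : ∀ j, c * u⁻¹ * (u * x j) = c * x j := by
      intro j
      field_simp
    simp only [e1]
    exact h

end

/-- **Reductions under a finite map given by linear forms.** -/
theorem red_iff {K : Type} [Field K] [NumberField K] {ι κ κ' : Type} [Finite κ] [Finite κ']
    {n N : ℕ} {F : ι → MvPolynomial (Fin (n + 1)) (𝓞 K)}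
    {T : κ → MvPolynomial (Fin (n + 1)) (𝓞 K)} {T' : κ' → MvPolynomial (Fin (N + 1)) (𝓞 K)}
    {A : Fin (N + 1) → MvPolynomial (Fin (n + 1)) (𝓞 K)}
    (hFh : ∀ i, ∃ e, (F i).IsHomogeneous e)
    (hT : ∀ k, ∃ e, (T k).IsHomogeneous e) (hT' : ∀ k, ∃ e, (T' k).IsHomogeneous e)
    (hA : ∀ i, (A i).IsHomogeneous 1)
    (h0 : ∀ (Ω : Type) [Field Ω] [Algebra K Ω] (x : Fin (n + 1) → Ω),
      (∀ i, aeval x (map (algebraMap (𝓞 K) K) (F i)) = 0) →
      (∀ l, aeval x (map (algebraMap (𝓞 K) K) (A l)) = 0) → x = 0)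
    (hTT : ∀ (Ω : Type) [Field Ω] [Algebra K Ω] (x : Fin (n + 1) → Ω), x ≠ 0 →
      (∀ i, aeval x (map (algebraMap (𝓞 K) K) (F i)) = 0) →
      ((∀ k, aeval x (map (algebraMap (𝓞 K) K) (T k)) = 0) ↔
        ∀ l, aeval x (map (algebraMap (𝓞 K) K) (bind₁ A (T' l))) = 0)) :
    ∃ a : 𝓞 K, a ≠ 0 ∧ ∀ (L : Type) [Field L] [NumberField L] [Algebra K L]
      (x : Fin (n + 1) → L), x ≠ 0 →
      (∀ i, eval₂ ((algebraMap K L).comp (algebraMap (𝓞 K) K)) x (F i) = 0) →
      ∀ v : HeightOneSpectrum (𝓞 L),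
        v.valuation L (algebraMap K L (algebraMap (𝓞 K) K a)) = 1 →
        (RedNotIn T x v ↔ RedNotIn T'
          (fun l => eval₂ ((algebraMap K L).comp (algebraMap (𝓞 K) K)) x (A l)) v) := by
  -- (a)
  have ha : ∀ j : Fin (n + 1), ∃ a : 𝓞 K, a ≠ 0 ∧ ∃ M : ℕ,
      ∀ (L : Type) [Field L] [NumberField L] [Algebra K L]
      (v : HeightOneSpectrum (𝓞 L)) (x : Fin (n + 1) → L), (∀ j, v.valuation L (x j) ≤ 1) →
      (∀ i, v.valuation L (eval₂ ((algebraMap K L).comp (algebraMap (𝓞 K) K)) x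
        ((Sum.elim F A) i)) < 1) →
      v.valuation L (algebraMap K L (algebraMap (𝓞 K) K a) * aeval x (X j ^ M :
        MvPolynomial (Fin (n + 1)) K)) < 1 := by
    intro j
    obtain ⟨M, hM⟩ := nst (I := Ideal.span (Set.range fun i =>
      map (algebraMap (𝓞 K) K) ((Sum.elim F A) i))) (G := X j) (by
      intro Ω _ _ x hx
      have h1 := fun i => hx _ (Ideal.subset_span ⟨i, rfl⟩)
      rw [h0 Ω x (fun i => h1 (Sum.inl i)) fun l => h1 (Sum.inr l), aeval_X]
      rfl)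
    obtain ⟨a, ha, h2⟩ := span_lt _ hM
    exact ⟨a, ha, M, h2⟩
  have hb : ∀ (kj : κ × Fin (n + 1)), ∃ a : 𝓞 K, a ≠ 0 ∧ ∃ M : ℕ,
      ∀ (L : Type) [Field L] [NumberField L] [Algebra K L]
      (v : HeightOneSpectrum (𝓞 L)) (x : Fin (n + 1) → L), (∀ j, v.valuation L (x j) ≤ 1) →
      (∀ i, v.valuation L (eval₂ ((algebraMap K L).comp (algebraMap (𝓞 K) K)) x
        ((Sum.elim F fun l => bind₁ A (T' l)) i)) < 1) →
      v.valuation L (algebraMap K L (algebraMap (𝓞 K) K a) *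
        aeval x ((map (algebraMap (𝓞 K) K) (T kj.1) * X kj.2) ^ M)) < 1 := by
    rintro ⟨k, j⟩
    obtain ⟨M, hM⟩ := nst (I := Ideal.span (Set.range fun i =>
      map (algebraMap (𝓞 K) K) ((Sum.elim F fun l => bind₁ A (T' l)) i)))
      (G := map (algebraMap (𝓞 K) K) (T k) * X j) (by
      intro Ω _ _ x hx
      have h1 := fun i => hx _ (Ideal.subset_span ⟨i, rfl⟩)
      by_cases hx0 : x = 0
      · rw [map_mul, aeval_X, hx0, Pi.zero_apply, mul_zero]
      · rw [map_mul, (hTT Ω x hx0 fun i => h1 (Sum.inl i)).2 (fun l => h1 (Sum.inr l)) k,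
          zero_mul])
    obtain ⟨a, ha, h2⟩ := span_lt _ hM
    exact ⟨a, ha, M, h2⟩
  have hc : ∀ (kj : κ' × Fin (n + 1)), ∃ a : 𝓞 K, a ≠ 0 ∧ ∃ M : ℕ,
      ∀ (L : Type) [Field L] [NumberField L] [Algebra K L]
      (v : HeightOneSpectrum (𝓞 L)) (x : Fin (n + 1) → L), (∀ j, v.valuation L (x j) ≤ 1) →
      (∀ i, v.valuation L (eval₂ ((algebraMap K L).comp (algebraMap (𝓞 K) K)) x
        ((Sum.elim F T) i)) < 1) →
      v.valuation L (algebraMap K L (algebraMap (𝓞 K) K a) *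
        aeval x ((map (algebraMap (𝓞 K) K) (bind₁ A (T' kj.1)) * X kj.2) ^ M)) < 1 := by
    rintro ⟨k, j⟩
    obtain ⟨M, hM⟩ := nst (I := Ideal.span (Set.range fun i =>
      map (algebraMap (𝓞 K) K) ((Sum.elim F T) i)))
      (G := map (algebraMap (𝓞 K) K) (bind₁ A (T' k)) * X j) (by
      intro Ω _ _ x hx
      have h1 := fun i => hx _ (Ideal.subset_span ⟨i, rfl⟩)
      by_cases hx0 : x = 0
      · rw [map_mul, aeval_X, hx0, Pi.zero_apply, mul_zero]
      · rw [map_mul, (hTT Ω x hx0 fun i => h1 (Sum.inl i)).1 (fun l => h1 (Sum.inr l)) k,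
          zero_mul])
    obtain ⟨a, ha, h2⟩ := span_lt _ hM
    exact ⟨a, ha, M, h2⟩
  choose a₁ ha₁ M₁ hM₁ using ha
  choose a₂ ha₂ M₂ hM₂ using hb
  choose a₃ ha₃ M₃ hM₃ using hc
  obtain ⟨b₁, hb₁, hB₁⟩ := common a₁ ha₁
  obtain ⟨b₂, hb₂, hB₂⟩ := common a₂ ha₂
  obtain ⟨b₃, hb₃, hB₃⟩ := common a₃ ha₃
  obtain ⟨a, ha, hB⟩ := common ![b₁, b₂, b₃] (by
    intro i
    fin_cases i
    · exact hb₁
    · exact hb₂
    · exact hb₃)
  refine ⟨a, ha, fun L _ _ _ x hx hF v hv => ?_⟩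
  have hv₁ := hB₁ L v (hB L v hv 0)
  have hv₂ := hB₂ L v (hB L v hv 1)
  have hv₃ := hB₃ L v (hB L v hv 2)
  obtain ⟨c, hc⟩ := exists_nrm v hx
  obtain ⟨y, hy⟩ : ∃ y : Fin (n + 1) → L, y = fun j => c * x j := ⟨_, rfl⟩
  have hc0 : c ≠ 0 := by
    intro h1
    obtain ⟨j, hj⟩ := hc.2
    simp only [h1, zero_mul, map_zero] at hj
    exact zero_ne_one hj
  rw [← hy] at hc
  obtain ⟨j₀, hj₀⟩ := hc.2
  have hFy : ∀ i, eval₂ ((algebraMap K L).comp (algebraMap (𝓞 K) K)) y (F i) = 0 := by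
    intro i
    obtain ⟨e, he⟩ := hFh i
    rw [hy, ez_scale he, hF i, mul_zero]
  obtain ⟨z, hz⟩ : ∃ z : Fin (N + 1) → L, z =
    fun l => eval₂ ((algebraMap K L).comp (algebraMap (𝓞 K) K)) x (A l) := ⟨_, rfl⟩
  rw [← hz]
  have hAy : ∀ l, eval₂ ((algebraMap K L).comp (algebraMap (𝓞 K) K)) y (A l) = c * z l := by
    intro l
    rw [hy, ez_scale (hA l), pow_one, hz]
  have hbind : ∀ l, eval₂ ((algebraMap K L).comp (algebraMap (𝓞 K) K)) y (bind₁ A (T' l)) =
      eval₂ ((algebraMap K L).comp (algebraMap (𝓞 K) K)) (fun i => c * z i) (T' l) := by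
    intro l
    rw [← funext hAy, ← coe_eval₂Hom, eval₂Hom_bind₁]
    rfl
  have hmon : ∀ (b : 𝓞 K), v.valuation L (algebraMap K L (algebraMap (𝓞 K) K b)) = 1 →
      ∀ (M : ℕ) (t : L), v.valuation L t = 1 →
        ¬ v.valuation L (algebraMap K L (algebraMap (𝓞 K) K b) * t ^ M) < 1 := by
    intro b hb M t ht h
    rw [map_mul, hb, one_mul, map_pow, ht, one_pow] at h
    exact lt_irrefl _ h
  have hkey : ∀ {α : Type} (P : α → MvPolynomial (Fin (n + 1)) (𝓞 K)),
      (¬ ∀ i, v.valuation L (eval₂ ((algebraMap K L).comp (algebraMap (𝓞 K) K)) y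
        ((Sum.elim F P) i)) < 1) →
      ∃ l, v.valuation L (eval₂ ((algebraMap K L).comp (algebraMap (𝓞 K) K)) y (P l)) = 1 := by
    intro α P h
    by_contra hcon
    push Not at hcon
    apply h
    rintro (i | l)
    · change v.valuation L (eval₂ _ y (F i)) < 1
      rw [hFy i, map_zero]
      exact zero_lt_one
    · exact lt_of_le_of_ne (poly_le v hc.1 _) (hcon l)
  -- normalized coordinates of the image
  have hzn : Nrm v (fun l => c * z l) := by
    refine ⟨fun l => ?_, ?_⟩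
    · show v.valuation L (c * z l) ≤ 1
      rw [← hAy]
      exact poly_le v hc.1 _
    · obtain ⟨l, hl⟩ := hkey A fun h => hmon _ (hv₁ j₀) (M₁ j₀) (y j₀) hj₀ (by
        have h2 := hM₁ j₀ L v y hc.1 h
        rw [map_pow, aeval_X] at h2
        exact h2)
      rw [hAy] at hl
      exact ⟨l, hl⟩
  constructor
  · intro h
    obtain ⟨k, hk⟩ := red_any hT h (c := c) (by rw [← hy]; exact hc)
    rw [← hy] at hk
    obtain ⟨l, hl⟩ := hkey (fun l => bind₁ A (T' l)) fun h => hmon _ (hv₂ (k, j₀)) (M₂ (k, j₀))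
      (eval₂ ((algebraMap K L).comp (algebraMap (𝓞 K) K)) y (T k) * y j₀) (by
        rw [map_mul, hk, hj₀, one_mul]) (by
        have h2 := hM₂ (k, j₀) L v y hc.1 h
        rw [map_pow (aeval y), map_mul (aeval y), aeval_X, ← ez_eq] at h2
        exact h2)
    rw [hbind] at hl
    exact ⟨c, hzn.1, hzn.2, l, hl⟩
  · intro h
    obtain ⟨k, hk⟩ := red_any hT' h hzn
    rw [← hbind] at hk
    obtain ⟨l, hl⟩ := hkey T fun h => hmon _ (hv₃ (k, j₀)) (M₃ (k, j₀))
      (eval₂ ((algebraMap K L).comp (algebraMap (𝓞 K) K)) y (bind₁ A (T' k)) * y j₀) (by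
        rw [map_mul, hk, hj₀, one_mul]) (by
        have h2 := hM₃ (k, j₀) L v y hc.1 h
        rw [map_pow (aeval y), map_mul (aeval y), aeval_X, ← ez_eq] at h2
        exact h2)
    rw [hy] at hc hl
    exact ⟨c, hc.1, ⟨j₀, by rw [hy] at hj₀; exact hj₀⟩, l, hl⟩

end Pool.Agent.H911.EM
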