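import Pool.Agent.H911.EM.Int

/-!
Integral points of quasi-projective schemes and entire curves under finite bijective projections.
-/

set_option autoImplicit false

namespace Pool.Agent.H911.EM

open MvPolynomial NumberField IsDedekindDomain
open scoped LinearAlgebra.Projectivization
open Pool.Agent.N254.SQ (RedNotIn quasiPoints QuasiBLV reduce powerFormRing powerFormOver
  SmoothOver)
open Pool.Agent.W602.GT (SubVar GeneralType)

section maps

variable {K : Type} [Field K] {n N : ℕ} {S : Set (MvPolynomial (Fin (n + 1)) K)}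
  {S' : Set (MvPolynomial (Fin (N + 1)) K)} {A : Fin (N + 1) → MvPolynomial (Fin (n + 1)) K}

theorem at_scale (c : K) {Ω : Type} [Field Ω] [Algebra K Ω] (x : Fin (n + 1) → Ω) :
    at' (fun i => C c * A i) x = algebraMap K Ω c • at' A x := by
  funext i
  change aeval x (C c * A i) = algebraMap K Ω c * aeval x (A i)
  rw [map_mul, aeval_C]

theorem WEmb.scale (hE : WEmb S S' A) {c : K} (hc : c ≠ 0) :
    WEmb S S' (fun i => C c * A i) where
  forms := hE.forms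
  forms' := hE.forms'
  lin := by
    intro i
    have h := (isHomogeneous_C (Fin (n + 1)) c).mul (hE.lin i)
    rwa [zero_add] at h
  map := by
    intro Ω _ _ x hx
    rw [at_scale]
    exact on_smul hE.forms' (hE.map Ω x hx) _
  zero := by
    intro Ω _ _ x hx h
    rw [at_scale] at h
    exact hE.zero Ω x hx ((smul_eq_zero.1 h).resolve_left ((map_ne_zero _).2 hc))
  inj := by
    intro Ω _ _ x x' b hx hx' h
    rw [at_scale, at_scale, smul_comm] at h
    exact hE.inj Ω x x' b hx hx' (smul_right_injective _ ((map_ne_zero (algebraMap K Ω)).2 hc) h)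
  surj := by
    intro Ω _ _ z hz hzS
    have h0 : algebraMap K Ω c ≠ 0 := (map_ne_zero _).2 hc
    obtain ⟨x, hx, hxS, hxA⟩ := hE.surj Ω ((algebraMap K Ω c)⁻¹ • z)
      (smul_ne_zero (inv_ne_zero h0) hz) (on_smul hE.forms' hzS _)
    refine ⟨x, hx, hxS, ?_⟩
    rw [at_scale, hxA, smul_smul, mul_inv_cancel₀ h0, one_smul]
  closed := by
    intro T hT
    obtain ⟨T', hT', h⟩ := hE.closed T hT
    refine ⟨T', hT', fun Ω _ _ x hx hxS => ?_⟩
    rw [h Ω x hx hxS, at_scale]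
    exact ⟨fun h1 => on_smul hT' h1 _, fun h1 => on_of_smul hT' ((map_ne_zero _).2 hc) h1⟩

/-- the map of the points over an extension field -/
theorem exists_push (hE : WEmb S S' A) (L : Type) [Field L] [Algebra K L] :
    ∃ φ : ℙ L (Fin (n + 1) → L) → ℙ L (Fin (N + 1) → L),
      Set.InjOn φ {P | On S P.rep} ∧
      ∀ P : ℙ L (Fin (n + 1) → L), On S P.rep → ∃ u : L, u ≠ 0 ∧ (φ P).rep = u • at' A P.rep := by
  classical
  obtain ⟨φ, hφ⟩ : ∃ φ : ℙ L (Fin (n + 1) → L) → ℙ L (Fin (N + 1) → L),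
      ∀ P : ℙ L (Fin (n + 1) → L), ∀ h : at' A P.rep ≠ 0,
        φ P = Projectivization.mk L (at' A P.rep) h := by
    refine ⟨fun P => if hP : at' A P.rep = 0 then Projectivization.mk L (fun _ => 1) (fun h2 =>
      one_ne_zero (congrFun h2 0)) else Projectivization.mk L (at' A P.rep) hP, fun P h => ?_⟩
    simp only [dif_neg h]
  refine ⟨φ, ?_, ?_⟩
  · intro P hP P' hP' hPP
    have h1 := hE.ne_zero P.rep_nonzero hP
    have h2 := hE.ne_zero P'.rep_nonzero hP'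
    rw [hφ P h1, hφ P' h2] at hPP
    obtain ⟨a, ha⟩ := (Projectivization.mk_eq_mk_iff L _ _ _ _).1 hPP
    have h3 := hE.inj L _ _ (a : L) hP' hP ha.symm
    rw [← P.mk_rep, ← P'.mk_rep, Projectivization.mk_eq_mk_iff]
    exact ⟨a, h3.symm⟩
  · intro P hP
    have h1 := hE.ne_zero P.rep_nonzero hP
    obtain ⟨a, ha⟩ := Projectivization.exists_smul_eq_mk_rep L (at' A P.rep) h1
    refine ⟨a, a.ne_zero, ?_⟩
    rw [hφ P h1]
    exact ha.symm

/-- the inverse map -/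
theorem exists_back (hE : WEmb S S' A) (L : Type) [Field L] [Algebra K L] :
    ∃ ψ : ℙ L (Fin (N + 1) → L) → ℙ L (Fin (n + 1) → L),
      Set.InjOn ψ {P | On S' P.rep} ∧
      ∀ P : ℙ L (Fin (N + 1) → L), On S' P.rep → On S (ψ P).rep ∧
        ∃ u : L, u ≠ 0 ∧ P.rep = u • at' A (ψ P).rep := by
  classical
  choose! x hx0 hxS hxA using fun (P : ℙ L (Fin (N + 1) → L)) (hP : On S' P.rep) =>
    hE.surj L P.rep P.rep_nonzero hP
  obtain ⟨ψ, hψ⟩ : ∃ ψ : ℙ L (Fin (N + 1) → L) → ℙ L (Fin (n + 1) → L), ∀ P (hP : x P ≠ 0),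
      ψ P = Projectivization.mk L (x P) hP := by
    refine ⟨fun P => if h : x P = 0 then Projectivization.mk L (fun _ => 1) (fun h2 =>
      one_ne_zero (congrFun h2 0)) else Projectivization.mk L (x P) h, fun P hP => ?_⟩
    simp only [dif_neg hP]
  refine ⟨ψ, ?_, ?_⟩
  · rintro P hP P' hP' hPP
    rw [hψ P (hx0 P hP), hψ P' (hx0 P' hP')] at hPP
    obtain ⟨a, ha⟩ := (Projectivization.mk_eq_mk_iff L _ _ _ _).1 hPP
    have h1 : (a : L) • x P' = x P := ha
    have h2 : P.rep = (a : L) • P'.rep := by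
      rw [← hxA P hP, ← h1, lin_smul hE.lin, hxA P' hP']
    rw [← P.mk_rep, ← P'.mk_rep, Projectivization.mk_eq_mk_iff]
    exact ⟨a, h2.symm⟩
  · intro P hP
    obtain ⟨a, ha⟩ := Projectivization.exists_smul_eq_mk_rep L (x P) (hx0 P hP)
    have h1 : (ψ P).rep = (a : L) • x P := by
      rw [hψ P (hx0 P hP)]
      exact ha.symm
    refine ⟨?_, (a : L)⁻¹, inv_ne_zero a.ne_zero, ?_⟩
    · rw [h1]
      exact on_smul hE.forms (hxS P hP) _
    · rw [h1, lin_smul hE.lin, smul_smul, inv_mul_cancel₀ a.ne_zero, one_smul, hxA P hP]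

end maps

/-- zeros of integral multiples -/
theorem zero_denom {K : Type} [Field K] {N : ℕ} {c : 𝓞 K} (hc : c ≠ 0)
    {q : MvPolynomial (Fin (N + 1)) K} {q' : MvPolynomial (Fin (N + 1)) (𝓞 K)}
    (h : map (algebraMap (𝓞 K) K) q' = C (algebraMap (𝓞 K) K c) * q) {Ω : Type} [Field Ω]
    [Algebra K Ω] (y : Fin (N + 1) → Ω) :
    aeval y (map (algebraMap (𝓞 K) K) q') = 0 ↔ aeval y q = 0 := by
  have hcK : algebraMap (𝓞 K) K c ≠ 0 := by
    rw [Ne, map_eq_zero_iff _ (FaithfulSMul.algebraMap_injective (𝓞 K) K)]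
    exact hc
  rw [h, map_mul, aeval_C, mul_eq_zero]
  exact ⟨fun h1 => h1.resolve_left ((map_ne_zero _).2 hcK), Or.inr⟩

/-- families of forms over the integers -/
theorem int_family {K : Type} [Field K] [NumberField K] {N : ℕ}
    {S : Set (MvPolynomial (Fin (N + 1)) K)} (hS : ∀ F ∈ S, ∃ e, F.IsHomogeneous e) :
    ∃ G : S → MvPolynomial (Fin (N + 1)) (𝓞 K), (∀ k, ∃ e, (G k).IsHomogeneous e) ∧
      ∀ (Ω : Type) [Field Ω] [Algebra K Ω] (z : Fin (N + 1) → Ω),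
        (∀ k, aeval z (map (algebraMap (𝓞 K) K) (G k)) = 0) ↔ On S z := by
  choose c G hc hG using fun p : S => exists_denom (fun _ : Unit =>
    (p : MvPolynomial (Fin (N + 1)) K))
  refine ⟨fun p => G p (), fun p => ?_, fun Ω _ _ z => ?_⟩
  · obtain ⟨e, he⟩ := hS p p.2
    exact ⟨e, hom_denom he (hG p ())⟩
  · constructor
    · intro h F hF
      exact (zero_denom (hc ⟨F, hF⟩) (hG ⟨F, hF⟩ ()) z).1 (h ⟨F, hF⟩)
    · intro h p
      exact (zero_denom (hc p) (hG p ()) z).2 (h p p.2)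

/-- finite families of forms over the integers -/
theorem int_finite {K : Type} [Field K] [NumberField K] {N : ℕ}
    {S : Set (MvPolynomial (Fin (N + 1)) K)} (hS : ∀ F ∈ S, ∃ e, F.IsHomogeneous e) :
    ∃ (κ : Type) (_ : Finite κ) (G : κ → MvPolynomial (Fin (N + 1)) (𝓞 K)),
      (∀ k, ∃ e, (G k).IsHomogeneous e) ∧
      ∀ (Ω : Type) [Field Ω] [Algebra K Ω] (z : Fin (N + 1) → Ω),
        (∀ k, aeval z (map (algebraMap (𝓞 K) K) (G k)) = 0) ↔ On S z := by
  obtain ⟨T, hT, hTS⟩ := reduce S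
  obtain ⟨G, hG, h⟩ := int_family (S := (T : Set (MvPolynomial (Fin (N + 1)) K)))
    fun F hF => hS F (hT hF)
  refine ⟨_, inferInstance, G, hG, fun Ω _ _ z => ?_⟩
  rw [h Ω z]
  constructor
  · intro h1 F hF
    have h2 := hTS Ω (algebraMap K Ω) z (fun p hp => by
      rw [eval_map]
      exact h1 p hp) F hF
    rw [eval_map] at h2
    exact h2
  · intro h1 F hF
    exact h1 F (hT hF)

theorem bind_int {K : Type} [Field K] {n N : ℕ} (A : Fin (N + 1) → MvPolynomial (Fin (n + 1)) (𝓞 K))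
    (p : MvPolynomial (Fin (N + 1)) (𝓞 K)) {Ω : Type} [Field Ω] [Algebra K Ω]
    (x : Fin (n + 1) → Ω) : aeval x (map (algebraMap (𝓞 K) K) (bind₁ A p)) =
      aeval (at' (fun i => map (algebraMap (𝓞 K) K) (A i)) x) (map (algebraMap (𝓞 K) K) p) := by
  rw [map_bind₁, bind_at]

/-- the transfer of the Bombieri-Lang-Vojta equivalence -/
theorem quasi_transfer {K : Type} [Field K] [NumberField K] {ι κ τ : Type} [Finite κ] {n N : ℕ}
    {F : ι → MvPolynomial (Fin (n + 1)) (𝓞 K)} (hF : ∀ i, ∃ e, (F i).IsHomogeneous e)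
    {S' : Set (MvPolynomial (Fin (N + 1)) K)} {A₀ : Fin (N + 1) → MvPolynomial (Fin (n + 1)) K}
    (hE₀ : WEmb (Set.range fun i => map (algebraMap (𝓞 K) K) (F i)) S' A₀)
    {B : MvPolynomial (Fin (N + 1)) (𝓞 K)} (hB : ∃ e, B.IsHomogeneous e)
    (h : ∀ (Ω : Type) [Field Ω] [Algebra K Ω] (z : Fin (N + 1) → Ω), On S' z →
      aeval z (map (algebraMap (𝓞 K) K) B) = 0)
    (σ : K →+* ℂ) (hO : Outside S' (map (algebraMap (𝓞 K) K) B) σ)
    (hY : ∀ (κ τ : Type) [Finite κ] (T : κ → MvPolynomial (Fin (N + 1)) (𝓞 K))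
      (G : τ → MvPolynomial (Fin (N + 1)) (𝓞 K)), (∀ k, ∃ e, (T k).IsHomogeneous e) →
      (∀ k, ∃ e, (G k).IsHomogeneous e) → QuasiBLV σ (fun _ : Unit => B) T G)
    {T : κ → MvPolynomial (Fin (n + 1)) (𝓞 K)} (hT : ∀ k, ∃ e, (T k).IsHomogeneous e)
    {G : τ → MvPolynomial (Fin (n + 1)) (𝓞 K)} (hG : ∀ k, ∃ e, (G k).IsHomogeneous e) :
    QuasiBLV σ F T G := by
  classical
  let _ : Algebra K ℂ := σ.toAlgebra
  -- integral coefficients
  obtain ⟨c₀, A, hc₀, hA₀⟩ := exists_denom A₀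
  have hcK : algebraMap (𝓞 K) K c₀ ≠ 0 := by
    rw [Ne, map_eq_zero_iff _ (FaithfulSMul.algebraMap_injective (𝓞 K) K)]
    exact hc₀
  have hE := hE₀.scale hcK
  rw [← funext hA₀] at hE
  have hAl : ∀ i, (A i).IsHomogeneous 1 := fun i => hom_denom (hE₀.lin i) (hA₀ i)
  have hr : ∀ {M : ℕ} {α : Type} (P : α → MvPolynomial (Fin (M + 1)) (𝓞 K)),
      (∀ i, ∃ e, (P i).IsHomogeneous e) →
      ∀ G ∈ Set.range fun i => map (algebraMap (𝓞 K) K) (P i), ∃ e, G.IsHomogeneous e := by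
    rintro M α P hP _ ⟨i, rfl⟩
    obtain ⟨e, he⟩ := hP i
    exact ⟨e, he.map _⟩
  obtain ⟨T₁, hT₁, hTT₁⟩ := hE.closed _ (hr T hT)
  obtain ⟨G₁, hG₁, hGG₁⟩ := hE.closed _ (hr G hG)
  obtain ⟨κ', _, T', hT', hTT'⟩ := int_finite hT₁
  obtain ⟨H₁, hH₁, hHH₁⟩ := int_family (S := S' ∪ G₁)
    fun F hF => hF.elim (hE.forms' F) (hG₁ F)
  obtain ⟨H₂, hH₂, hHH₂⟩ := int_family hE.forms'
  have h1 := hY κ' _ T' H₁ hT' hH₁
  have h2 := hY κ' _ T' H₂ hT' hH₂
  obtain ⟨a, ha, hred⟩ := red_iff (F := F) (T := T) (T' := T') (A := A) hF hT hT' hAl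
    (fun Ω _ _ x hx hxA => hE.zero Ω x ((on_iff _ x).2 hx) (funext hxA))
    (fun Ω _ _ x hx hxF => by
      have e1 := hTT₁ Ω x hx ((on_iff _ x).2 hxF)
      rw [on_iff, ← hTT'] at e1
      simp only [bind_int]
      exact e1)
  -- values
  have eσ : ∀ {M : ℕ} (z : Fin (M + 1) → ℂ) (p : MvPolynomial (Fin (M + 1)) (𝓞 K)),
      eval₂ (σ.comp (algebraMap (𝓞 K) K)) z p = aeval z (map (algebraMap (𝓞 K) K) p) :=
    fun z p => ez_eq z p
  have hTx : ∀ (Ω : Type) [Field Ω] [Algebra K Ω] (x : Fin (n + 1) → Ω), x ≠ 0 →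
      (∀ i, aeval x (map (algebraMap (𝓞 K) K) (F i)) = 0) →
      ((∃ k, aeval x (map (algebraMap (𝓞 K) K) (T k)) ≠ 0) ↔
        ∃ k, aeval (at' (fun i => map (algebraMap (𝓞 K) K) (A i)) x)
          (map (algebraMap (𝓞 K) K) (T' k)) ≠ 0) := by
    intro Ω _ _ x hx hxF
    have e1 := hTT₁ Ω x hx ((on_iff _ x).2 hxF)
    rw [on_iff, ← hTT'] at e1
    have e2 := not_congr e1
    push Not at e2
    exact e2
  have hGx : ∀ (Ω : Type) [Field Ω] [Algebra K Ω] (x : Fin (n + 1) → Ω), x ≠ 0 →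
      (∀ i, aeval x (map (algebraMap (𝓞 K) K) (F i)) = 0) →
      ((∀ k, aeval x (map (algebraMap (𝓞 K) K) (G k)) = 0) ↔
        ∀ k, aeval (at' (fun i => map (algebraMap (𝓞 K) K) (A i)) x)
          (map (algebraMap (𝓞 K) K) (H₁ k)) = 0) := by
    intro Ω _ _ x hx hxF
    have hon := (on_iff _ x).2 hxF
    have e1 := hGG₁ Ω x hx hon
    rw [on_iff] at e1
    rw [e1, hHH₁]
    constructor
    · rintro h3 Q (hQ | hQ)
      · exact hE.map Ω x hon Q hQ
      · exact h3 Q hQ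
    · intro h3 Q hQ
      exact h3 Q (Or.inr hQ)
  -- nonconstant curves
  have hnc : ∀ {M : ℕ} {g : ℂ → Fin (M + 1) → ℂ}, (∃ z w, ∀ c : ℂ, g w ≠ c • g z) →
      ¬ ∀ z w, ∃ c : ℂ, g w = c • g z := by
    rintro M g ⟨z, w, hzw⟩ h3
    obtain ⟨c, hc⟩ := h3 z w
    exact hzw c hc
  have hcur : ∀ g : ℂ → Fin (N + 1) → ℂ, Differentiable ℂ g → (∀ z, g z ≠ 0) →
      (∀ z, aeval (g z) (map (algebraMap (𝓞 K) K) B) = 0) → (∃ z w, ∀ c : ℂ, g w ≠ c • g z) →
      ∃ f : ℂ → Fin (n + 1) → ℂ, Differentiable ℂ f ∧ (∀ z, f z ≠ 0) ∧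
        (∀ z i, aeval (f z) (map (algebraMap (𝓞 K) K) (F i)) = 0) ∧
        (∃ z w, ∀ c : ℂ, f w ≠ c • f z) ∧
        ∀ z, g z = at' (fun i => map (algebraMap (𝓞 K) K) (A i)) (f z) := by
    intro g hg hg0 hgB hgn
    rcases curves_on hE σ hO hg hg0 hgB with h3 | ⟨f, hf, hf0, hfF, hgf⟩
    · exact absurd h3 (hnc hgn)
    · have hgz : ∀ z, g z = at' (fun i => map (algebraMap (𝓞 K) K) (A i)) (f z) :=
        fun z => funext fun i => hgf z i
      refine ⟨f, hf, hf0, hfF, ?_, hgz⟩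
      obtain ⟨z, w, hzw⟩ := hgn
      refine ⟨z, w, fun c hc => hzw c ?_⟩
      rw [hgz, hgz, hc, lin_smul hE.lin]
  have hform : ∀ {M e : ℕ} {p : MvPolynomial (Fin (M + 1)) (𝓞 K)}, p.IsHomogeneous e →
      ∃ e, (map (algebraMap (𝓞 K) K) p).IsHomogeneous e := fun hp => ⟨_, hp.map _⟩
  have hBK : ∃ e, (map (algebraMap (𝓞 K) K) B).IsHomogeneous e := by
    obtain ⟨e, he⟩ := hB
    exact ⟨e, he.map _⟩
  have hT'K : ∀ k, ∃ e, (map (algebraMap (𝓞 K) K) (T' k)).IsHomogeneous e := fun k => by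
    obtain ⟨e, he⟩ := hT' k
    exact ⟨e, he.map _⟩
  have hTK : ∀ k, ∃ e, (map (algebraMap (𝓞 K) K) (T k)).IsHomogeneous e := fun k => by
    obtain ⟨e, he⟩ := hT k
    exact ⟨e, he.map _⟩
  have hGK : ∀ k, ∃ e, (map (algebraMap (𝓞 K) K) (G k)).IsHomogeneous e := fun k => by
    obtain ⟨e, he⟩ := hG k
    exact ⟨e, he.map _⟩
  have hH₁K : ∀ k, ∃ e, (map (algebraMap (𝓞 K) K) (H₁ k)).IsHomogeneous e := fun k => by
    obtain ⟨e, he⟩ := hH₁ k
    exact ⟨e, he.map _⟩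
  unfold QuasiBLV at h1 h2 ⊢
  simp only [eσ] at h1 h2 ⊢
  constructor
  · intro hc L _ _ _ Sv hSv
    obtain ⟨S₀, hS₀⟩ : ∃ S₀ : Set (HeightOneSpectrum (𝓞 L)), S₀ = {v |
      v.valuation L (algebraMap K L (algebraMap (𝓞 K) K a)) ≠ 1} := ⟨_, rfl⟩
    have hfin₀ : S₀.Finite := by
      rw [hS₀]
      exact finite_bad ha
    have h3 := h1.1 (fun g hg hg0 hgB hgT hgn z k => by
      obtain ⟨f, hf, hf0, hfF, hfn, hgf⟩ := hcur g hg hg0 (fun z => hgB z ()) hgn
      have hfT : ∀ z, ∃ k, aeval (f z) (map (algebraMap (𝓞 K) K) (T k)) ≠ 0 := fun z =>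
        (hTx ℂ (f z) (hf0 z) (hfF z)).2 (by
          rw [← hgf]
          exact hgT z)
      rw [hgf]
      exact (hGx ℂ (f z) (hf0 z) (hfF z)).1 (hc f hf hf0 hfF hfT hfn z) k) L (Sv ∪ S₀)
      (hSv.union hfin₀)
    obtain ⟨φ, hinj, hφ⟩ := exists_push hE L
    have hsub : quasiPoints F T L Sv ⊆
        {P | On (Set.range fun i => map (algebraMap (𝓞 K) K) (F i)) P.rep} := by
      intro P hP
      refine (on_iff _ P.rep).2 fun i => ?_
      rw [← ez_eq]
      exact hP.1 i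
    refine Set.Finite.of_finite_image (f := φ) (h3.subset ?_)
      (hinj.mono (Set.diff_subset.trans hsub))
    rintro _ ⟨P, ⟨hPq, hPG⟩, rfl⟩
    have hon := hsub hPq
    have hPF : ∀ i, aeval P.rep (map (algebraMap (𝓞 K) K) (F i)) = 0 := (on_iff _ P.rep).1 hon
    obtain ⟨-, ⟨k, hk⟩, hPR⟩ := hPq
    obtain ⟨u, hu, hφu⟩ := hφ P hon
    refine ⟨⟨fun _ => ?_, ?_, ?_⟩, ?_⟩
    · rw [ez_eq, hφu, ev_zero hu hBK]
      exact h L _ (hE.map L _ hon)
    · rw [ez_eq] at hk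
      obtain ⟨l, hl⟩ := (hTx L P.rep P.rep_nonzero hPF).1 ⟨k, hk⟩
      refine ⟨l, ?_⟩
      rw [ez_eq, hφu, Ne, ev_zero hu (hT'K l)]
      exact hl
    · intro v hv
      rw [Set.mem_union, not_or] at hv
      have hv2 : v.valuation L (algebraMap K L (algebraMap (𝓞 K) K a)) = 1 := by
        by_contra hcon
        apply hv.2
        rw [hS₀]
        exact hcon
      have h5 := (hred L P.rep P.rep_nonzero (fun i => by rw [ez_eq]; exact hPF i) v hv2).1
        (hPR v hv.1)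
      rw [hφu, red_smul hu]
      have h6 : (fun l => eval₂ ((algebraMap K L).comp (algebraMap (𝓞 K) K)) P.rep (A l)) =
          at' (fun i => map (algebraMap (𝓞 K) K) (A i)) P.rep := funext fun l => ez_eq _ _
      rw [← h6]
      exact h5
    · intro h5
      apply hPG
      intro l
      rw [ez_eq]
      refine (hGx L P.rep P.rep_nonzero hPF).2 (fun k => ?_) l
      have h6 := h5 k
      rw [ez_eq, hφu, ev_zero hu (hH₁K k)] at h6
      exact h6
  · intro hfin f hf hf0 hfF hfT hfn z k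
    have h3 : ∀ (L : Type) [Field L] [NumberField L] [Algebra K L]
        (Sv : Set (HeightOneSpectrum (𝓞 L))), Sv.Finite →
        (quasiPoints (fun _ : Unit => B) T' L Sv \
          {P | ∀ l, eval₂ ((algebraMap K L).comp (algebraMap (𝓞 K) K)) P.rep (H₁ l) = 0}).Finite := by
      intro L _ _ _ Sv hSv
      obtain ⟨S₀, hS₀⟩ : ∃ S₀ : Set (HeightOneSpectrum (𝓞 L)), S₀ = {v |
        v.valuation L (algebraMap K L (algebraMap (𝓞 K) K a)) ≠ 1} := ⟨_, rfl⟩
      have hfin₀ : S₀.Finite := by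
        rw [hS₀]
        exact finite_bad ha
      have hX' := h2.1 (fun g hg hg0 hgB hgT hgn z k => by
        obtain ⟨f, hf, hf0, hfF, hfn, hgf⟩ := hcur g hg hg0 (fun z => hgB z ()) hgn
        rw [hgf]
        exact (hHH₂ ℂ _).2 (hE.map ℂ (f z) ((on_iff _ (f z)).2 (hfF z))) k) L Sv hSv
      obtain ⟨ψ, hinj, hψ⟩ := exists_back hE L
      refine (hX'.union (Set.Finite.of_finite_image (s := {P | (P ∈ quasiPoints
        (fun _ : Unit => B) T' L Sv ∧ On S' P.rep) ∧ ¬ ∀ l, eval₂ ((algebraMap K L).comp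
        (algebraMap (𝓞 K) K)) P.rep (H₁ l) = 0}) (f := ψ)
        ((hfin L (Sv ∪ S₀) (hSv.union hfin₀)).subset ?_)
        (hinj.mono fun P hP => hP.1.2))).subset ?_
      · rintro _ ⟨P, ⟨⟨hPq, hPS⟩, hPH⟩, rfl⟩
        obtain ⟨hon, u, hu, hPu⟩ := hψ P hPS
        have hPF : ∀ i, aeval (ψ P).rep (map (algebraMap (𝓞 K) K) (F i)) = 0 :=
          (on_iff _ (ψ P).rep).1 hon
        obtain ⟨-, ⟨k, hk⟩, hPR⟩ := hPq
        refine ⟨⟨fun i => ?_, ?_, ?_⟩, ?_⟩
        · rw [ez_eq]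
          exact hPF i
        · rw [ez_eq, hPu, Ne, ev_zero hu (hT'K k)] at hk
          obtain ⟨l, hl⟩ := (hTx L (ψ P).rep (ψ P).rep_nonzero hPF).2 ⟨k, hk⟩
          refine ⟨l, ?_⟩
          rw [ez_eq]
          exact hl
        · intro v hv
          rw [Set.mem_union, not_or] at hv
          have hv2 : v.valuation L (algebraMap K L (algebraMap (𝓞 K) K a)) = 1 := by
            by_contra hcon
            apply hv.2
            rw [hS₀]
            exact hcon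
          refine (hred L (ψ P).rep (ψ P).rep_nonzero (fun i => by rw [ez_eq]; exact hPF i) v
            hv2).2 ?_
          have h6 : (fun l => eval₂ ((algebraMap K L).comp (algebraMap (𝓞 K) K)) (ψ P).rep (A l)) =
            at' (fun i => map (algebraMap (𝓞 K) K) (A i)) (ψ P).rep := funext fun l => ez_eq _ _
          rw [h6]
          have h5 := hPR v hv.1
          rw [hPu, red_smul hu] at h5
          exact h5
        · intro h5
          apply hPH
          intro l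
          rw [ez_eq, hPu, ev_zero hu (hH₁K l)]
          refine (hGx L (ψ P).rep (ψ P).rep_nonzero hPF).1 (fun k => ?_) l
          rw [← ez_eq]
          exact h5 k
      · rintro P ⟨hP, hPH⟩
        by_cases hPS : On S' P.rep
        · right
          exact ⟨⟨hP, hPS⟩, hPH⟩
        · left
          refine ⟨hP, fun h4 => hPS ?_⟩
          rw [← hHH₂]
          intro k
          rw [← ez_eq]
          exact h4 k
    have hon : ∀ z, On (Set.range fun i => map (algebraMap (𝓞 K) K) (F i)) (f z) :=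
      fun z => (on_iff _ (f z)).2 (hfF z)
    have h4 := h1.2 (fun L _ _ _ => h3 L)
      (fun z => at' (fun i => map (algebraMap (𝓞 K) K) (A i)) (f z)) (diff_at_entire _ hf)
      (fun z => hE.ne_zero (hf0 z) (hon z)) (fun z _ => h ℂ _ (hE.map ℂ (f z) (hon z)))
      (fun z => (hTx ℂ (f z) (hf0 z) (hfF z)).1 (hfT z)) (by
        obtain ⟨z, w, hzw⟩ := hfn
        exact ⟨z, w, fun c hc => hzw c (hE.inj ℂ _ _ c (hon z) (hon w) hc)⟩) z
    exact (hGx ℂ (f z) (hf0 z) (hfF z)).2 h4 k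

/-! ### hypersurfaces over the integers -/

theorem Outside.scale {K : Type} [Field K] {N : ℕ} {S : Set (MvPolynomial (Fin (N + 1)) K)}
    {A : MvPolynomial (Fin (N + 1)) K} {σ : K →+* ℂ} (hO : Outside S A σ) {c : K} (hc : c ≠ 0) :
    Outside S (C c * A) σ := by
  have h0 : σ c ≠ 0 := (map_ne_zero σ).2 hc
  have hz : ∀ x : Fin (N + 1) → ℂ, eval x (map σ (C c * A)) = 0 → eval x (map σ A) = 0 := by
    intro x hx
    rw [map_mul, map_C, map_mul, eval_C] at hx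
    exact (mul_eq_zero.1 hx).resolve_left h0
  refine ⟨fun f hf hf0 hfA => hO.curves f hf hf0 fun w => hz _ (hfA w),
    fun f hf hfn hfA => hO.discs f hf hfn fun w hw => hz _ (hfA w hw),
    fun L _ _ w y hw hy => hO.sub L w y hw ⟨hy.ne, fun _ => ?_, hy.gen, hy.dim⟩⟩
  have h1 : aeval y (map σ (C c * A)) = 0 := hy.mem ()
  rw [map_mul, map_C, map_mul, aeval_C] at h1
  exact (mul_eq_zero.1 h1).resolve_left ((map_ne_zero _).2 h0)

theorem SmoothOver_scale {K : Type} [Field K] {N : ℕ} {c : K} (hc : c ≠ 0)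
    {A : MvPolynomial (Fin (N + 1)) K} (h : SmoothOver A) : SmoothOver (C c * A) := by
  intro Ω _ τ y hy
  obtain ⟨j, hj⟩ := h Ω τ y hy
  refine ⟨j, ?_⟩
  rw [pderiv_C_mul, eval₂_mul, eval₂_C]
  exact mul_ne_zero ((map_ne_zero τ).2 hc) hj

theorem ring_hom {R : Type} [CommRing R] {N M D e : ℕ} {Q : Fin M → MvPolynomial (Fin (N + 1)) R}
    (hQ : ∀ t, (Q t).IsHomogeneous e) : (powerFormRing D Q).IsHomogeneous (e + D) := by
  refine IsHomogeneous.sum _ _ _ fun t _ => ?_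
  have h1 : (∑ j : Fin (N + 1), C (((t : ℕ) : R) ^ (j : ℕ)) * X j :
      MvPolynomial (Fin (N + 1)) R).IsHomogeneous 1 := by
    refine IsHomogeneous.sum _ _ _ fun j _ => ?_
    have h2 := (isHomogeneous_C (Fin (N + 1)) (((t : ℕ) : R) ^ (j : ℕ))).mul (isHomogeneous_X R j)
    rwa [zero_add] at h2
  have h3 := (hQ t).mul (h1.pow D)
  rwa [one_mul] at h3

theorem ring_map {K : Type} [Field K] {N M D : ℕ} {c : 𝓞 K} {Q : Fin M → MvPolynomial (Fin (N + 1)) K}
    {Q' : Fin M → MvPolynomial (Fin (N + 1)) (𝓞 K)}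
    (h : ∀ t, map (algebraMap (𝓞 K) K) (Q' t) = C (algebraMap (𝓞 K) K c) * Q t) :
    map (algebraMap (𝓞 K) K) (powerFormRing D Q') =
      C (algebraMap (𝓞 K) K c) * powerFormOver D Q := by
  unfold powerFormRing powerFormOver
  rw [map_sum, Finset.mul_sum]
  apply Finset.sum_congr rfl
  intro t _
  rw [map_mul, h t, map_pow, map_sum, mul_assoc]
  congr 3
  apply Finset.sum_congr rfl
  intro j _
  rw [map_mul, map_C, map_X, map_pow (algebraMap (𝓞 K) K), map_natCast (algebraMap (𝓞 K) K)]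

/-- hypersurfaces with integral coefficients -/
theorem int_power {K : Type} [Field K] [NumberField K] {N D e : ℕ}
    {S' : Set (MvPolynomial (Fin (N + 1)) K)}
    {Q : Fin (N * (2 * N + 1)) → MvPolynomial (Fin (N + 1)) K} (hQ : ∀ t, (Q t).IsHomogeneous e)
    (hsm : SmoothOver (powerFormOver D Q))
    (hv : ∀ (Ω : Type) [Field Ω] [Algebra K Ω] (z : Fin (N + 1) → Ω), On S' z →
      aeval z (powerFormOver D Q) = 0) (hO : ∀ σ : K →+* ℂ, Outside S' (powerFormOver D Q) σ) :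
    ∃ Q' : Fin (N * (2 * N + 1)) → MvPolynomial (Fin (N + 1)) (𝓞 K),
      (∀ t, (Q' t).IsHomogeneous e) ∧
      SmoothOver (map (algebraMap (𝓞 K) K) (powerFormRing D Q')) ∧
      (∀ (Ω : Type) [Field Ω] [Algebra K Ω] (z : Fin (N + 1) → Ω), On S' z →
        aeval z (map (algebraMap (𝓞 K) K) (powerFormRing D Q')) = 0) ∧
      ∀ σ : K →+* ℂ, Outside S' (map (algebraMap (𝓞 K) K) (powerFormRing D Q')) σ := by
  obtain ⟨c, Q', hc, hQ'⟩ := exists_denom Q
  have hcK : algebraMap (𝓞 K) K c ≠ 0 := by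
    rw [Ne, map_eq_zero_iff _ (FaithfulSMul.algebraMap_injective (𝓞 K) K)]
    exact hc
  refine ⟨Q', fun t => hom_denom (hQ t) (hQ' t), ?_, ?_, ?_⟩
  · rw [ring_map hQ']
    exact SmoothOver_scale hcK hsm
  · intro Ω _ _ z hz
    rw [ring_map hQ', map_mul, hv Ω z hz, mul_zero]
  · intro σ
    rw [ring_map hQ']
    exact (hO σ).scale hcK

end Pool.Agent.H911.EM
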