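import Mathlib

/-!
A finite extension generated by one element with one simple point in a fibre is locally trivial.
-/

set_option autoImplicit false

namespace Pool.Agent.H911.EM

open Polynomial

variable {R : Type} [CommRing R] {Ω : Type} [Field Ω]

/-- the elements which are, up to a factor outside of the prime ideal `ker φ`, constant modulo
`I + 𝔭 R[T]` -/
theorem nak_poly (I : Ideal R[X]) (φ : R →+* Ω) (F : R[X]) (hF : F ∈ I) (h1 : φ (F.coeff 1) ≠ 0)
    (h2 : ∀ i, 2 ≤ i → φ (F.coeff i) = 0) (h : R[X]) :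
    ∃ b r : R, φ b ≠ 0 ∧ C b * h - C r ∈ I ⊔ (RingHom.ker φ).map C := by
  obtain ⟨J, hJ⟩ : ∃ J : Ideal R[X], J = I ⊔ (RingHom.ker φ).map C := ⟨_, rfl⟩
  rw [← hJ]
  have hX : C (F.coeff 1) * X + C (F.coeff 0) ∈ J := by
    have h3 : F - (C (F.coeff 1) * X + C (F.coeff 0)) ∈ (RingHom.ker φ).map C := by
      rw [Ideal.mem_map_C_iff]
      intro i
      rw [RingHom.mem_ker]
      rcases i with _ | _ | i
      · simp
      · simp [coeff_C]
      · rw [coeff_sub, coeff_add, coeff_C_mul, coeff_X, coeff_C, if_neg (by omega),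
          if_neg (by omega), mul_zero, add_zero, sub_zero]
        exact h2 _ (by omega)
    have h4 : C (F.coeff 1) * X + C (F.coeff 0) =
        F - (F - (C (F.coeff 1) * X + C (F.coeff 0))) := by ring
    rw [h4, hJ]
    exact Ideal.sub_mem _ (Ideal.mem_sup_left hF) (Ideal.mem_sup_right h3)
  have hmulX : ∀ g : R[X], (∃ b r : R, φ b ≠ 0 ∧ C b * g - C r ∈ J) →
      ∃ b r : R, φ b ≠ 0 ∧ C b * (g * X) - C r ∈ J := by
    rintro g ⟨b, r, hb, hg⟩
    refine ⟨b * F.coeff 1, - (F.coeff 0 * r), ?_, ?_⟩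
    · rw [map_mul]
      exact mul_ne_zero hb h1
    · have h5 : C (b * F.coeff 1) * (g * X) - C (-(F.coeff 0 * r)) =
          (C b * g - C r) * (C (F.coeff 1) * X) + C r * (C (F.coeff 1) * X + C (F.coeff 0)) := by
        rw [map_mul, map_neg, map_mul]
        ring
      rw [h5]
      exact Ideal.add_mem _ (Ideal.mul_mem_right _ _ hg) (Ideal.mul_mem_left _ _ hX)
  have hpow : ∀ (n : ℕ) (c : R), ∃ b r : R, φ b ≠ 0 ∧ C b * (C c * X ^ n) - C r ∈ J := by
    intro n c
    induction n with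
    | zero =>
      refine ⟨1, c, by rw [map_one]; exact one_ne_zero, ?_⟩
      rw [map_one, one_mul, pow_zero, mul_one, sub_self]
      exact Ideal.zero_mem _
    | succ n ih =>
      obtain ⟨b, r, hb, hr⟩ := hmulX _ ih
      refine ⟨b, r, hb, ?_⟩
      rw [pow_succ, ← mul_assoc (C c)]
      exact hr
  induction h using Polynomial.induction_on' with
  | add p q hp hq =>
    obtain ⟨b, r, hb, hr⟩ := hp
    obtain ⟨b', r', hb', hr'⟩ := hq
    refine ⟨b * b', b' * r + b * r', by rw [map_mul]; exact mul_ne_zero hb hb', ?_⟩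
    have h5 : C (b * b') * (p + q) - C (b' * r + b * r') =
        C b' * (C b * p - C r) + C b * (C b' * q - C r') := by
      rw [map_mul, map_add, map_mul, map_mul]
      ring
    rw [h5]
    exact Ideal.add_mem _ (Ideal.mul_mem_left _ _ hr) (Ideal.mul_mem_left _ _ hr')
  | monomial n c =>
    rw [← C_mul_X_pow_eq_monomial]
    exact hpow n c

/-- Nakayama's lemma -/
theorem nak (I : Ideal R[X]) (G : R[X]) (hG : G ∈ I) (hGm : G.Monic) (φ : R →+* Ω) (F : R[X])
    (hF : F ∈ I) (h1 : φ (F.coeff 1) ≠ 0) (h2 : ∀ i, 2 ≤ i → φ (F.coeff i) = 0) :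
    ∃ H r : R, φ H ≠ 0 ∧ C H * X - C r ∈ I := by
  classical
  have hfin : Module.Finite R (R[X] ⧸ I) := by
    have h3 : Module.Finite R (R[X] ⧸ Ideal.span {G}) := hGm.finite_adjoinRoot
    have h4 : Ideal.span {G} ≤ I := by
      rw [Ideal.span_singleton_le_iff_mem]
      exact hG
    refine Module.Finite.of_surjective (M := R[X] ⧸ Ideal.span {G})
      ((Ideal.Quotient.factorₐ R h4).toLinearMap) ?_
    exact Ideal.Quotient.factor_surjective h4
  obtain ⟨N, hN⟩ : ∃ N : Submodule R (R[X] ⧸ I), N = Submodule.span R {1} := ⟨_, rfl⟩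
  have hpt : ∀ u : (R[X] ⧸ I) ⧸ N, ∃ b : R, φ b ≠ 0 ∧
      b • u ∈ (RingHom.ker φ) • (⊤ : Submodule R ((R[X] ⧸ I) ⧸ N)) := by
    intro u
    obtain ⟨u, rfl⟩ := Submodule.Quotient.mk_surjective N u
    obtain ⟨h, rfl⟩ := Ideal.Quotient.mk_surjective u
    obtain ⟨b, r, hb, hr⟩ := nak_poly I φ F hF h1 h2 h
    refine ⟨b, hb, ?_⟩
    rw [Submodule.mem_sup] at hr
    obtain ⟨i, hi, j, hj, hij⟩ := hr
    -- the class of `j`
    have hj2 : ∀ g ∈ (RingHom.ker φ).map C, (Submodule.Quotient.mk (Ideal.Quotient.mk I g) :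
        (R[X] ⧸ I) ⧸ N) ∈ (RingHom.ker φ) • (⊤ : Submodule R ((R[X] ⧸ I) ⧸ N)) := by
      intro g hg
      rw [Ideal.mem_map_C_iff] at hg
      rw [g.as_sum_support_C_mul_X_pow, map_sum, ← Submodule.mkQ_apply, map_sum]
      refine Submodule.sum_mem _ fun k _ => ?_
      have h5 : (Ideal.Quotient.mk I (C (g.coeff k) * X ^ k)) =
          g.coeff k • (Ideal.Quotient.mk I (X ^ k)) := by
        rw [← smul_eq_C_mul]
        rfl
      rw [h5, map_smul]
      exact Submodule.smul_mem_smul (hg k) trivial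
    have h6 : b • (Submodule.Quotient.mk (Ideal.Quotient.mk I h) : (R[X] ⧸ I) ⧸ N) =
        Submodule.Quotient.mk (Ideal.Quotient.mk I j) := by
      rw [← Submodule.Quotient.mk_smul, Submodule.Quotient.eq, hN, Submodule.mem_span_singleton]
      refine ⟨r, ?_⟩
      have h7 : b • (Ideal.Quotient.mk I h) = Ideal.Quotient.mk I (C b * h) := by
        rw [← smul_eq_C_mul]
        rfl
      have h8 : r • (1 : R[X] ⧸ I) = Ideal.Quotient.mk I (C r) := by
        rw [← mul_one (C r), ← smul_eq_C_mul]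
        rfl
      rw [h7, h8, ← map_sub, Ideal.Quotient.eq]
      have h9 : C r - (C b * h - j) = - i := by
        have h10 : C b * h - C r = i + j := hij.symm
        linear_combination -h10
      rw [h9]
      exact Ideal.neg_mem_iff _ |>.2 hi
    rw [h6]
    exact hj2 j hj
  -- a common factor
  obtain ⟨s, hs⟩ := (Module.Finite.fg_top : (⊤ : Submodule R ((R[X] ⧸ I) ⧸ N)).FG)
  choose b hb hbu using hpt
  obtain ⟨B, hB⟩ : ∃ B : R, B = ∏ x ∈ s, b x := ⟨_, rfl⟩
  have hB0 : φ B ≠ 0 := by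
    rw [hB, map_prod]
    exact Finset.prod_ne_zero_iff.2 fun x _ => hb x
  have hBs : ∀ x ∈ s, B • x ∈ (RingHom.ker φ) • (⊤ : Submodule R ((R[X] ⧸ I) ⧸ N)) := by
    intro x hx
    rw [hB, ← Finset.prod_erase_mul _ _ hx, mul_smul]
    exact Submodule.smul_mem _ _ (hbu x)
  have hBall : ∀ x, B • x ∈ (RingHom.ker φ) • (⊤ : Submodule R ((R[X] ⧸ I) ⧸ N)) := by
    intro x
    have h5 : (⊤ : Submodule R ((R[X] ⧸ I) ⧸ N)) ≤
        ((RingHom.ker φ) • (⊤ : Submodule R ((R[X] ⧸ I) ⧸ N))).comap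
          (B • (LinearMap.id : Module.End R ((R[X] ⧸ I) ⧸ N))) := by
      rw [← hs, Submodule.span_le]
      intro x hx
      rw [hs]
      exact hBs x hx
    exact h5 trivial
  obtain ⟨p, hpm, -, hpc, hp0⟩ :=
    LinearMap.exists_monic_and_natDegree_eq_and_coeff_mem_pow_and_aeval_eq_zero R
      (B • (1 : Module.End R ((R[X] ⧸ I) ⧸ N))) (RingHom.ker φ) (by
        rintro _ ⟨x, rfl⟩
        exact hBall x)
  have hpe : aeval (B • (1 : Module.End R ((R[X] ⧸ I) ⧸ N))) p =
      (p.eval B) • (1 : Module.End R ((R[X] ⧸ I) ⧸ N)) := by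
    rw [← Algebra.algebraMap_eq_smul_one, ← Algebra.algebraMap_eq_smul_one,
      aeval_algebraMap_apply_eq_algebraMap_eval]
  rw [hpe] at hp0
  have hker : φ (p.eval B) = φ B ^ p.natDegree := by
    rw [p.eval_eq_sum_range, map_sum, Finset.sum_eq_single p.natDegree]
    · rw [map_mul, hpm.coeff_natDegree, map_one, one_mul, map_pow]
    · intro k hk hkd
      have h6 := Finset.mem_range.1 hk
      have h7 : p.coeff k ∈ RingHom.ker φ :=
        Ideal.pow_le_self (by omega : p.natDegree - k ≠ 0) (hpc k)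
      rw [map_mul, RingHom.mem_ker.1 h7, zero_mul]
    · intro h
      exact absurd (Finset.mem_range.2 (Nat.lt_succ_self _)) h
  have h5 : (p.eval B) • (Submodule.Quotient.mk (Ideal.Quotient.mk I X) : (R[X] ⧸ I) ⧸ N) = 0 := by
    have h6 := LinearMap.congr_fun hp0 (Submodule.Quotient.mk (Ideal.Quotient.mk I X))
    exact h6
  rw [← Submodule.Quotient.mk_smul, Submodule.Quotient.mk_eq_zero, hN,
    Submodule.mem_span_singleton] at h5
  obtain ⟨r, hr⟩ := h5
  refine ⟨p.eval B, r, ?_, ?_⟩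
  · rw [hker]
    exact pow_ne_zero _ hB0
  · have h7 : (p.eval B) • (Ideal.Quotient.mk I X) = Ideal.Quotient.mk I (C (p.eval B) * X) := by
      rw [← smul_eq_C_mul]
      rfl
    have h8 : r • (1 : R[X] ⧸ I) = Ideal.Quotient.mk I (C r) := by
      rw [← mul_one (C r), ← smul_eq_C_mul]
      rfl
    rw [h7, h8] at hr
    exact (Ideal.Quotient.eq.1 hr.symm)

/-- The ideal generated over the field of fractions. -/
theorem ideal_el (I : Ideal R[X]) (φ : R →+* Ω) : ∃ (k : Subfield Ω) (ψ : R →+* k),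
    (∀ r, (ψ r : Ω) = φ r) ∧ ∀ h ∈ I.map (mapRingHom ψ), ∃ b : R, φ b ≠ 0 ∧
      ∃ F ∈ I, C (ψ b) * h = F.map ψ := by
  classical
  obtain ⟨k, hk⟩ : ∃ k : Subfield Ω, k = Subfield.closure (Set.range φ) := ⟨_, rfl⟩
  have hmem : ∀ r, φ r ∈ k := by
    intro r
    rw [hk]
    exact Subfield.subset_closure ⟨r, rfl⟩
  obtain ⟨ψ, hψ⟩ : ∃ ψ : R →+* k, ∀ r, (ψ r : Ω) = φ r :=
    ⟨φ.codRestrict k.toSubring hmem, fun _ => rfl⟩
  have hψ0 : ∀ r, ψ r = 0 ↔ φ r = 0 := by
    intro r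
    rw [← hψ]
    exact ⟨fun h => by rw [h]; rfl, fun h => Subtype.ext h⟩
  have hfrac : ∀ c : k, ∃ a b : R, φ b ≠ 0 ∧ ψ b * c = ψ a := by
    rintro ⟨c, hc⟩
    rw [hk, Subfield.mem_closure_iff] at hc
    obtain ⟨y, hy, z, hz, hyz⟩ := hc
    have hcl : Subring.closure (Set.range φ) = φ.range := by
      rw [← RingHom.coe_range, Subring.closure_eq]
    rw [hcl] at hy hz
    obtain ⟨a, rfl⟩ := hy
    obtain ⟨b, rfl⟩ := hz
    by_cases hb : φ b = 0
    · have h5 : c = 0 := by rw [← hyz, hb, div_zero]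
      refine ⟨0, 1, by rw [map_one]; exact one_ne_zero, Subtype.ext ?_⟩
      change (ψ 1 : Ω) * c = ψ 0
      rw [h5, mul_zero, map_zero]
      rfl
    · refine ⟨a, b, hb, Subtype.ext ?_⟩
      change (ψ b : Ω) * c = ψ a
      rw [hψ, hψ, ← hyz, mul_div_cancel₀ _ hb]
  -- the elements of `J`
  have hJmul : ∀ (c h : k[X]), (∃ b : R, φ b ≠ 0 ∧ ∃ F ∈ I, C (ψ b) * h = F.map ψ) →
      ∃ b : R, φ b ≠ 0 ∧ ∃ F ∈ I, C (ψ b) * (c * h) = F.map ψ := by
    intro c h
    rintro ⟨b, hb, F, hF, hFh⟩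
    induction c using Polynomial.induction_on' with
    | add p q hp hq =>
      obtain ⟨b1, hb1, F1, hF1, h3⟩ := hp
      obtain ⟨b2, hb2, F2, hF2, h4⟩ := hq
      refine ⟨b1 * b2, by rw [map_mul]; exact mul_ne_zero hb1 hb2, C b2 * F1 + C b1 * F2,
        Ideal.add_mem _ (Ideal.mul_mem_left _ _ hF1) (Ideal.mul_mem_left _ _ hF2), ?_⟩
      rw [Polynomial.map_add, Polynomial.map_mul, Polynomial.map_mul, ← h3, ← h4, map_C, map_C,
        map_mul, map_mul]
      ring
    | monomial n c =>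
      obtain ⟨a, b', hb', hab⟩ := hfrac c
      refine ⟨b' * b, by rw [map_mul]; exact mul_ne_zero hb' hb, C a * X ^ n * F,
        Ideal.mul_mem_left _ _ hF, ?_⟩
      rw [Polynomial.map_mul, Polynomial.map_mul, ← hFh, map_C, Polynomial.map_pow, map_X, ← hab,
        ← C_mul_X_pow_eq_monomial, map_mul, map_mul, map_mul]
      ring
  refine ⟨k, ψ, hψ, fun h hh => ?_⟩
  rw [Ideal.map] at hh
  refine Submodule.span_induction (p := fun h _ => ∃ b : R, φ b ≠ 0 ∧ ∃ F ∈ I,
    C (ψ b) * h = F.map ψ) ?_ ?_ ?_ ?_ hh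
  · rintro _ ⟨F, hF, rfl⟩
    refine ⟨1, by rw [map_one]; exact one_ne_zero, F, hF, ?_⟩
    rw [map_one, map_one, one_mul]
    rfl
  · exact ⟨1, by rw [map_one]; exact one_ne_zero, 0, Ideal.zero_mem _, by
      rw [mul_zero, Polynomial.map_zero]⟩
  · rintro p q _ _ ⟨b1, hb1, F1, hF1, h3⟩ ⟨b2, hb2, F2, hF2, h4⟩
    refine ⟨b1 * b2, by rw [map_mul]; exact mul_ne_zero hb1 hb2, C b2 * F1 + C b1 * F2,
      Ideal.add_mem _ (Ideal.mul_mem_left _ _ hF1) (Ideal.mul_mem_left _ _ hF2), ?_⟩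
    rw [Polynomial.map_add, Polynomial.map_mul, Polynomial.map_mul, ← h3, ← h4, map_C, map_C,
      map_mul, map_mul]
    ring
  · intro c h _ hh
    exact hJmul c h hh

/-- A simple point which is alone in its fibre. -/
theorem local_inv (I : Ideal R[X]) (G : R[X]) (hG : G ∈ I) (hGm : G.Monic) (φ : R →+* Ω) (t₀ : Ω)
    (h0 : ∀ F ∈ I, eval₂ φ t₀ F = 0)
    (h1 : ∀ t : AlgebraicClosure Ω, (∀ F ∈ I, eval₂ ((algebraMap Ω (AlgebraicClosure Ω)).comp φ) t F
      = 0) → t = algebraMap Ω (AlgebraicClosure Ω) t₀)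
    (h2 : ∃ F ∈ I, eval₂ φ t₀ (derivative F) ≠ 0) :
    ∃ H r : R, φ H ≠ 0 ∧ C H * X - C r ∈ I := by
  classical
  obtain ⟨k, ψ, hψ, hJel'⟩ := ideal_el I φ
  have hψ0 : ∀ r, ψ r = 0 ↔ φ r = 0 := by
    intro r
    rw [← hψ]
    exact ⟨fun h => by rw [h]; rfl, fun h => Subtype.ext h⟩
  obtain ⟨J, hJ⟩ : ∃ J : Ideal k[X], J = I.map (mapRingHom ψ) := ⟨_, rfl⟩
  have hJel : ∀ h ∈ J, ∃ b : R, φ b ≠ 0 ∧ ∃ F ∈ I, C (ψ b) * h = F.map ψ := by
    intro h hh
    rw [hJ] at hh
    exact hJel' h hh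
  -- the generator
  obtain ⟨g, hg⟩ : ∃ g : k[X], J = Ideal.span {g} := by
    obtain ⟨g, hg⟩ := (IsPrincipalIdealRing.principal J).principal
    exact ⟨g, hg⟩
  have hgJ : g ∈ J := by
    rw [hg]
    exact Ideal.mem_span_singleton_self g
  have hIJ : ∀ F ∈ I, g ∣ F.map ψ := by
    intro F hF
    have h3 : F.map ψ ∈ J := by
      rw [hJ]
      exact Ideal.mem_map_of_mem _ hF
    rw [hg, Ideal.mem_span_singleton] at h3
    exact h3
  have hg0 : g ≠ 0 := by
    intro h3
    have h4 := hIJ G hG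
    rw [h3, zero_dvd_iff] at h4
    exact (hGm.map ψ).ne_zero h4
  -- over the algebraic closure
  obtain ⟨τ, hτ⟩ : ∃ τ : k →+* AlgebraicClosure Ω, ∀ c, τ c = algebraMap Ω (AlgebraicClosure Ω) c :=
    ⟨(algebraMap Ω (AlgebraicClosure Ω)).comp k.subtype, fun _ => rfl⟩
  have hτψ : τ.comp ψ = (algebraMap Ω (AlgebraicClosure Ω)).comp φ := by
    ext r
    rw [RingHom.comp_apply, hτ, hψ]
    rfl
  have hev : ∀ (F : R[X]) (t : AlgebraicClosure Ω), eval₂ τ t (F.map ψ) =
      eval₂ ((algebraMap Ω (AlgebraicClosure Ω)).comp φ) t F := by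
    intro F t
    rw [eval₂_map, hτψ]
  have hroot : ∀ t : AlgebraicClosure Ω, (g.map τ).IsRoot t →
      t = algebraMap Ω (AlgebraicClosure Ω) t₀ := by
    intro t ht
    apply h1
    intro F hF
    obtain ⟨c, hc⟩ := hIJ F hF
    rw [← hev, hc, eval₂_mul]
    have h3 : eval₂ τ t g = 0 := by
      rw [← eval_map]
      exact ht
    rw [h3, zero_mul]
  have hroot0 : eval₂ τ (algebraMap Ω (AlgebraicClosure Ω) t₀) g = 0 := by
    obtain ⟨b, hb, F, hF, hFg⟩ := hJel g hgJ
    have h3 := congrArg (eval₂ τ (algebraMap Ω (AlgebraicClosure Ω) t₀)) hFg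
    rw [hev, eval₂_mul, eval₂_C] at h3
    have h4 : eval₂ ((algebraMap Ω (AlgebraicClosure Ω)).comp φ)
        (algebraMap Ω (AlgebraicClosure Ω) t₀) F = 0 := by
      rw [← hom_eval₂, h0 F hF, map_zero]
    rw [h4] at h3
    rcases mul_eq_zero.1 h3 with h5 | h5
    · exfalso
      apply hb
      rw [hτ, hψ] at h5
      exact (algebraMap Ω (AlgebraicClosure Ω)).injective (by rw [h5, map_zero])
    · exact h5
  -- the factorization
  obtain ⟨T, hT⟩ : ∃ T, T = algebraMap Ω (AlgebraicClosure Ω) t₀ := ⟨_, rfl⟩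
  rw [← hT] at hroot hroot0
  have hgT0 : g.map τ ≠ 0 := (Polynomial.map_ne_zero_iff τ.injective).2 hg0
  have hroots : (g.map τ).roots = Multiset.replicate (g.map τ).natDegree T := by
    rw [Multiset.eq_replicate]
    refine ⟨?_, fun t ht => hroot t ((mem_roots hgT0).1 ht)⟩
    exact (IsAlgClosed.splits (g.map τ)).natDegree_eq_card_roots.symm
  have hfac : g.map τ = C (g.map τ).leadingCoeff * (X - C T) ^ (g.map τ).natDegree := by
    have h3 := (IsAlgClosed.splits (g.map τ)).eq_prod_roots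
    rw [hroots, Multiset.map_replicate, Multiset.prod_replicate] at h3
    exact h3
  have hdeg : g.natDegree = 1 := by
    have h3 : (g.map τ).natDegree = g.natDegree := natDegree_map τ
    rw [h3] at hfac
    rcases Nat.lt_trichotomy g.natDegree 1 with h4 | h4 | h4
    · exfalso
      have h5 : g.natDegree = 0 := by omega
      rw [h5, pow_zero, mul_one] at hfac
      rw [← eval_map, hfac, eval_C] at hroot0
      exact hgT0 (leadingCoeff_eq_zero.1 hroot0)
    · exact h4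
    · exfalso
      obtain ⟨F, hF, hFd⟩ := h2
      obtain ⟨c, hc⟩ := hIJ F hF
      obtain ⟨m, hm⟩ : ∃ m, g.natDegree = m + 2 := ⟨g.natDegree - 2, by omega⟩
      obtain ⟨l, hl⟩ : ∃ l, l = (g.map τ).leadingCoeff := ⟨_, rfl⟩
      rw [← hl] at hfac
      have h6 : (F.map ψ).map τ = (X - C T) ^ 2 * (C l * (X - C T) ^ m * c.map τ) := by
        rw [hc, Polynomial.map_mul, hfac, hm, pow_add]
        ring
      have h7 : eval T (derivative ((F.map ψ).map τ)) = 0 := by
        rw [h6, derivative_mul, derivative_pow, eval_add, eval_mul, eval_mul, eval_mul]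
        simp
      apply hFd
      apply (algebraMap Ω (AlgebraicClosure Ω)).injective
      rw [map_zero, hom_eval₂, ← hT, ← h7, derivative_map, derivative_map, eval_map, hev]
  have hg1 : g.coeff 1 ≠ 0 := by
    rw [← hdeg]
    exact fun h => hg0 (leadingCoeff_eq_zero.1 h)
  obtain ⟨b, hb, F, hF, hFg⟩ := hJel g hgJ
  have hcoef : ∀ i, ψ (F.coeff i) = ψ b * g.coeff i := by
    intro i
    rw [← coeff_map, ← hFg, coeff_C_mul]
  refine nak I G hG hGm φ F hF ?_ ?_
  · rw [Ne, ← hψ0, hcoef]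
    exact mul_ne_zero (fun h => hb ((hψ0 b).1 h)) hg1
  · intro i hi
    rw [← hψ0, hcoef, coeff_eq_zero_of_natDegree_lt (by omega), mul_zero]

/-- Points can be lifted along a finite extension. -/
theorem lift_pt (I : Ideal R[X]) (G : R[X]) (hG : G ∈ I) (hGm : G.Monic) (φ : R →+* Ω)
    (h : ∀ r, C r ∈ I → φ r = 0) : ∃ t : AlgebraicClosure Ω, ∀ F ∈ I,
      eval₂ ((algebraMap Ω (AlgebraicClosure Ω)).comp φ) t F = 0 := by
  classical
  obtain ⟨k, ψ, hψ, hJel'⟩ := ideal_el I φ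
  have hψ0 : ∀ r, ψ r = 0 ↔ φ r = 0 := by
    intro r
    rw [← hψ]
    exact ⟨fun h => by rw [h]; rfl, fun h => Subtype.ext h⟩
  obtain ⟨J, hJ⟩ : ∃ J : Ideal k[X], J = I.map (mapRingHom ψ) := ⟨_, rfl⟩
  rw [← hJ] at hJel'
  obtain ⟨g, hg⟩ : ∃ g : k[X], J = Ideal.span {g} := by
    obtain ⟨g, hg⟩ := (IsPrincipalIdealRing.principal J).principal
    exact ⟨g, hg⟩
  have hIJ : ∀ F ∈ I, g ∣ F.map ψ := by
    intro F hF
    have h3 : F.map ψ ∈ J := by
      rw [hJ]
      exact Ideal.mem_map_of_mem _ hF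
    rw [hg, Ideal.mem_span_singleton] at h3
    exact h3
  have hg0 : g ≠ 0 := by
    intro h3
    have h4 := hIJ G hG
    rw [h3, zero_dvd_iff] at h4
    exact (hGm.map ψ).ne_zero h4
  obtain ⟨τ, hτ⟩ : ∃ τ : k →+* AlgebraicClosure Ω, ∀ c, τ c = algebraMap Ω (AlgebraicClosure Ω) c :=
    ⟨(algebraMap Ω (AlgebraicClosure Ω)).comp k.subtype, fun _ => rfl⟩
  have hτψ : τ.comp ψ = (algebraMap Ω (AlgebraicClosure Ω)).comp φ := by
    ext r
    rw [RingHom.comp_apply, hτ, hψ]
    rfl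
  have hev : ∀ (F : R[X]) (t : AlgebraicClosure Ω), eval₂ τ t (F.map ψ) =
      eval₂ ((algebraMap Ω (AlgebraicClosure Ω)).comp φ) t F := by
    intro F t
    rw [eval₂_map, hτψ]
  by_cases hd : g.degree = 0
  · exfalso
    have h1J : (1 : k[X]) ∈ J := by
      rw [hg, Ideal.mem_span_singleton]
      exact (isUnit_iff_degree_eq_zero.2 hd).dvd
    obtain ⟨b, hb, F, hF, hFb⟩ := hJel' 1 h1J
    rw [mul_one] at hFb
    have hcoef : ∀ i, ψ (F.coeff i) = (C (ψ b)).coeff i := by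
      intro i
      rw [← coeff_map, ← hFb]
    -- Nakayama
    have hfin : Module.Finite R (R[X] ⧸ I) := by
      have h3 : Module.Finite R (R[X] ⧸ Ideal.span {G}) := hGm.finite_adjoinRoot
      have h4 : Ideal.span {G} ≤ I := by
        rw [Ideal.span_singleton_le_iff_mem]
        exact hG
      refine Module.Finite.of_surjective (M := R[X] ⧸ Ideal.span {G})
        ((Ideal.Quotient.factorₐ R h4).toLinearMap) ?_
      exact Ideal.Quotient.factor_surjective h4
    obtain ⟨B, hB⟩ : ∃ B, B = F.coeff 0 := ⟨_, rfl⟩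
    have hB0 : φ B ≠ 0 := by
      have h3 := hcoef 0
      rw [coeff_C_zero] at h3
      rw [hB, Ne, ← hψ0, h3, hψ0]
      exact hb
    have hBall : ∀ x : R[X] ⧸ I, B • x ∈ (RingHom.ker φ) • (⊤ : Submodule R (R[X] ⧸ I)) := by
      intro x
      obtain ⟨p, rfl⟩ := Ideal.Quotient.mk_surjective x
      have h3 : B • (Ideal.Quotient.mk I p) = Ideal.Quotient.mk I ((C B - F) * p) := by
        have h4 : B • (Ideal.Quotient.mk I p) = Ideal.Quotient.mk I (C B * p) := by
          rw [← smul_eq_C_mul]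
          rfl
        rw [h4, Ideal.Quotient.eq]
        have h5 : C B * p - (C B - F) * p = F * p := by ring
        rw [h5]
        exact Ideal.mul_mem_right _ _ hF
      have h4 : (C B - F) * p ∈ (RingHom.ker φ).map C := by
        refine Ideal.mul_mem_right _ _ ?_
        rw [Ideal.mem_map_C_iff]
        intro i
        rw [RingHom.mem_ker, ← hψ0, coeff_sub, map_sub, hcoef]
        rcases i with _ | i
        · rw [coeff_C_zero, coeff_C_zero, hB, hcoef, coeff_C_zero, sub_self]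
        · rw [coeff_C_succ, coeff_C_succ, map_zero, sub_zero]
      rw [h3]
      obtain ⟨q, hq⟩ : ∃ q, q = (C B - F) * p := ⟨_, rfl⟩
      rw [← hq] at h4 ⊢
      rw [Ideal.mem_map_C_iff] at h4
      rw [q.as_sum_support_C_mul_X_pow, map_sum]
      refine Submodule.sum_mem _ fun j _ => ?_
      have h5 : (Ideal.Quotient.mk I (C (q.coeff j) * X ^ j)) =
          q.coeff j • (Ideal.Quotient.mk I (X ^ j)) := by
        rw [← smul_eq_C_mul]
        rfl
      rw [h5]
      exact Submodule.smul_mem_smul (h4 j) trivial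
    obtain ⟨p, hpm, -, hpc, hp0⟩ :=
      LinearMap.exists_monic_and_natDegree_eq_and_coeff_mem_pow_and_aeval_eq_zero R
        (B • (1 : Module.End R (R[X] ⧸ I))) (RingHom.ker φ) (by
          rintro _ ⟨x, rfl⟩
          exact hBall x)
    have hpe : aeval (B • (1 : Module.End R (R[X] ⧸ I))) p =
        (p.eval B) • (1 : Module.End R (R[X] ⧸ I)) := by
      rw [← Algebra.algebraMap_eq_smul_one, ← Algebra.algebraMap_eq_smul_one,
        aeval_algebraMap_apply_eq_algebraMap_eval]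
    rw [hpe] at hp0
    have hker : φ (p.eval B) = φ B ^ p.natDegree := by
      rw [p.eval_eq_sum_range, map_sum, Finset.sum_eq_single p.natDegree]
      · rw [map_mul, hpm.coeff_natDegree, map_one, one_mul, map_pow]
      · intro j hj hjd
        have h6 := Finset.mem_range.1 hj
        have h7 : p.coeff j ∈ RingHom.ker φ :=
          Ideal.pow_le_self (by omega : p.natDegree - j ≠ 0) (hpc j)
        rw [map_mul, RingHom.mem_ker.1 h7, zero_mul]
      · intro h
        exact absurd (Finset.mem_range.2 (Nat.lt_succ_self _)) h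
    have h5 : (p.eval B) • (1 : R[X] ⧸ I) = 0 := by
      have h6 := LinearMap.congr_fun hp0 (1 : R[X] ⧸ I)
      exact h6
    have h6 : C (p.eval B) ∈ I := by
      rw [← Ideal.Quotient.eq_zero_iff_mem, ← h5, ← mul_one (C (p.eval B)), ← smul_eq_C_mul]
      rfl
    have h7 := h _ h6
    rw [hker] at h7
    exact pow_ne_zero _ hB0 h7
  · obtain ⟨t, ht⟩ := IsAlgClosed.exists_root (g.map τ) (by
      rw [degree_map]
      exact hd)
    refine ⟨t, fun F hF => ?_⟩
    obtain ⟨c, hc⟩ := hIJ F hF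
    rw [← hev, hc, eval₂_mul]
    have h3 : eval₂ τ t g = 0 := by
      rw [← eval_map]
      exact ht
    rw [h3, zero_mul]

end Pool.Agent.H911.EM
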