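import Pool.Agent.H911.EM.One

/-!
Components of log general type of exceptional sets of quasi-projective varieties.
-/

set_option autoImplicit false

namespace Pool.Agent.H911.EM

open MvPolynomial Metric
open Pool.Agent.W602.GT (SubVar GeneralType)
open Pool.Agent.N254.SQ (IsForm Eqs Gen NotIn LogGeneral OnSpecialQ OnCurvesQ OnDiscsQ
  Component SmoothForm powerForm)
open Pool.Agent.H911.GD (Typ Moves typ_curves typ_discs typ_special moves_curves moves_discs
  moves_special Compat smooth_ne forward_imp)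

/-- the properties of the predicates `OnCurvesQ`, `OnDiscsQ`, `OnSpecialQ` -/
structure KindQ (P : ∀ n : ℕ, Set (MvPolynomial (Fin (n + 1)) ℂ) →
    Set (MvPolynomial (Fin (n + 1)) ℂ) → MvPolynomial (Fin (n + 1)) ℂ → Prop) : Prop where
  typ : Typ P
  mv : Moves P
  out : ∀ {N : ℕ} {S' T' : Set (MvPolynomial (Fin (N + 1)) ℂ)} {B : MvPolynomial (Fin (N + 1)) ℂ},
    Hy S' B → ∀ F ∈ S', P N {B} T' F

theorem kindQ_curves : KindQ (fun _ S T G => OnCurvesQ S T G) :=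
  ⟨typ_curves, moves_curves, fun hB _ hF => hB.out.onCurves hF⟩

theorem kindQ_discs : KindQ (fun _ S T G => OnDiscsQ S T G) :=
  ⟨typ_discs, moves_discs, fun hB _ hF => hB.out.onDiscs hB.form hF⟩

theorem kindQ_special : KindQ (fun _ S T G => OnSpecialQ S T G) :=
  ⟨typ_special, moves_special, fun hB _ hF => hB.out.onSpecial hF⟩

/-- No irreducible component of positive dimension, of log general type, of the exceptional set (given by
the predicate `I` on forms) of the quasi-projective variety `V(S) ∖ V(T)`. -/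
def NoComponent {n : ℕ} (S T : Set (MvPolynomial (Fin (n + 1)) ℂ))
    (I : MvPolynomial (Fin (n + 1)) ℂ → Prop) : Prop :=
  ∀ (L : Type) [Field L] [Algebra ℂ L] (w : ℕ) (y : Fin (n + 1) → L), 1 ≤ w →
    SubVar (fun p : S => (p : MvPolynomial (Fin (n + 1)) ℂ)) L w y → NotIn T y →
      LogGeneral T L w y → ¬ Component I y

section

variable {P : ∀ n : ℕ, Set (MvPolynomial (Fin (n + 1)) ℂ) →
    Set (MvPolynomial (Fin (n + 1)) ℂ) → MvPolynomial (Fin (n + 1)) ℂ → Prop}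
  {n N : ℕ} {S : Set (MvPolynomial (Fin (n + 1)) ℂ)} {S' : Set (MvPolynomial (Fin (N + 1)) ℂ)}
  {A : Fin (N + 1) → MvPolynomial (Fin (n + 1)) ℂ} {B : MvPolynomial (Fin (N + 1)) ℂ}
  {T : Set (MvPolynomial (Fin (n + 1)) ℂ)} {T' : Set (MvPolynomial (Fin (N + 1)) ℂ)}

theorem KindQ.model (hP : KindQ P) (hX : Tr S S' A T T') (hB : Hy S' B)
    {G : MvPolynomial (Fin (N + 1)) ℂ} (hG : IsForm G) :
    P N {B} T' G ↔ P n S T (bind₁ A G) :=
  hX.model_iff hP.typ (Moves.mvAt hP.mv hX.forms hX.forms') hB (hP.out hB) hG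

theorem KindQ.noComponent (hP : KindQ P) (hX : Tr S S' A T T') (hB : Hy S' B)
    (h : NoComponent {B} T' (P N {B} T')) : NoComponent S T (P n S T) := by
  intro L _ _ w y hw hy hyT hlog
  refine hX.no hP.typ (Moves.mvAt hP.mv hX.forms hX.forms') ?_ L w y hw
    ⟨hy.ne, hy.gen, hy.dim⟩ (fun F hF => hy.mem ⟨F, hF⟩) hyT hlog
  intro L _ _ w z hw hz hzS hzT hlog hc
  refine h L w z hw ⟨hz.ne, fun p => ?_, hz.gen, hz.dim⟩ hzT hlog
    (comp_congr (fun G hG => ?_) hc)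
  · have h2 := p.2
    rw [Set.mem_singleton_iff] at h2
    rw [h2]
    exact hB.van L z hzS
  · exact (hyp_iff' hP.typ hX.emb.forms' hX.forms' hB.form hB.van (hP.out hB) hG).symm

/-- from varieties to hypersurfaces -/
theorem KindQ.forward (hP : KindQ P) {B : MvPolynomial (Fin (N + 1)) ℂ} (hB : IsForm B)
    (hsm : SmoothForm B)
    (h : ∀ (L : Type) [Field L] [Algebra ℂ L] (w : ℕ) (y : Fin (N + 1) → L), 1 ≤ w → w ≤ N - 1 →
      Gen L w y → NotIn T' y → LogGeneral T' L w y → ∃ G, IsForm G ∧ aeval y G ≠ 0 ∧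
        P N (Eqs y) T' G) : NoComponent {B} T' (P N {B} T') := by
  intro L _ _ w y hw hy hyT hlog
  exact forward_imp hP.typ (k := N - 1) (by omega) hB (smooth_ne hsm) h L w y hw
    ⟨hy.ne, fun _ => hy.mem ⟨B, rfl⟩, hy.gen, hy.dim⟩ hyT hlog

/-- for irreducible varieties -/
theorem KindQ.exists_form (hP : KindQ P) {L : Type} [Field L] [Algebra ℂ L] {w : ℕ}
    {y : Fin (n + 1) → L} (hy : Gen L w y) (hw : 1 ≤ w) (hyT : NotIn T y)
    (hlog : LogGeneral T L w y) (h : NoComponent (Eqs y) T (P n (Eqs y) T)) :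
    ∃ G, IsForm G ∧ aeval y G ≠ 0 ∧ P n (Eqs y) T G :=
  exists_form_of_no hP.typ (h L w y hw ⟨hy.ne, fun p => p.2.2, hy.gen, hy.dim⟩ hyT hlog)

end

/-- Q1 for the irreducible quasi-projective variety `V ∖ V(T)` of positive dimension, where `V` is the
closed subset of `P^n` with function field `L` and generic point `y`: if it is of log general type, then
its exceptional set (given by `P`) is not the whole variety -/
def Conjecture (P : ∀ n : ℕ, Set (MvPolynomial (Fin (n + 1)) ℂ) →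
    Set (MvPolynomial (Fin (n + 1)) ℂ) → MvPolynomial (Fin (n + 1)) ℂ → Prop)
    {n : ℕ} (T : Set (MvPolynomial (Fin (n + 1)) ℂ)) (L : Type) [Field L] [Algebra ℂ L]
    (w : ℕ) (y : Fin (n + 1) → L) : Prop :=
  1 ≤ w → SubVar (fun p : (∅ : Set (MvPolynomial (Fin (n + 1)) ℂ)) =>
      (p : MvPolynomial (Fin (n + 1)) ℂ)) L w y → NotIn T y → LogGeneral T L w y →
    ∃ G : MvPolynomial (Fin (n + 1)) ℂ, IsForm G ∧ aeval y G ≠ 0 ∧ P n (Eqs y) T G

/-- the chain of implications for the components of exceptional sets -/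
theorem kindQ_chain {P : ∀ n : ℕ, Set (MvPolynomial (Fin (n + 1)) ℂ) →
    Set (MvPolynomial (Fin (n + 1)) ℂ) → MvPolynomial (Fin (n + 1)) ℂ → Prop} (hP : KindQ P)
    {N : ℕ} {D₁ : ℕ → ℕ}
    (H : ∀ (n : ℕ) (S : Set (MvPolynomial (Fin (n + 1)) ℂ)), (∀ F ∈ S, IsForm F) → Fits S N →
      ∃ (e : ℕ) (S' : Set (MvPolynomial (Fin (N + 1)) ℂ))
        (A : Fin (N + 1) → MvPolynomial (Fin (n + 1)) ℂ), 1 ≤ e ∧ WEmb S S' A ∧
        ((∃ m, TangentSpaces S m ∧ 2 * m + 1 ≤ N) → Emb S S' A) ∧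
        ∀ D, D₁ e ≤ D → ∃ Q : Fin (N * (2 * N + 1)) → MvPolynomial (Fin (N + 1)) ℂ,
          (∀ t, (Q t).IsHomogeneous e) ∧ HyperbolicOutside (powerForm D Q) S') :
    ((∀ (n : ℕ) (T : Set (MvPolynomial (Fin (n + 1)) ℂ)), (∀ F ∈ T, IsForm F) →
        ∀ (L : Type) [Field L] [Algebra ℂ L] (w : ℕ) (y : Fin (n + 1) → L), w ≤ N - 1 →
          Conjecture P T L w y) →
      ∀ B : MvPolynomial (Fin (N + 1)) ℂ, IsForm B → SmoothForm B →
        ∀ T : Set (MvPolynomial (Fin (N + 1)) ℂ), (∀ F ∈ T, IsForm F) →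
          NoComponent {B} T (P N {B} T)) ∧
    ∀ E : Set ℕ, E.Infinite →
      ((∀ B : MvPolynomial (Fin (N + 1)) ℂ, IsForm B → SmoothForm B →
        ∀ T : Set (MvPolynomial (Fin (N + 1)) ℂ), (∀ F ∈ T, IsForm F) →
          NoComponent {B} T (P N {B} T)) →
      ∀ (e D : ℕ) (Q : Fin (N * (2 * N + 1)) → MvPolynomial (Fin (N + 1)) ℂ), D ∈ E → D₁ e ≤ D →
        (∀ t, (Q t).IsHomogeneous e) → SmoothForm (powerForm D Q) →
        ∀ T : Set (MvPolynomial (Fin (N + 1)) ℂ), (∀ F ∈ T, IsForm F) →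
          NoComponent {powerForm D Q} T (P N {powerForm D Q} T)) ∧
      ((∀ (e D : ℕ) (Q : Fin (N * (2 * N + 1)) → MvPolynomial (Fin (N + 1)) ℂ), D ∈ E → D₁ e ≤ D →
        (∀ t, (Q t).IsHomogeneous e) → SmoothForm (powerForm D Q) →
        ∀ T : Set (MvPolynomial (Fin (N + 1)) ℂ), (∀ F ∈ T, IsForm F) →
          NoComponent {powerForm D Q} T (P N {powerForm D Q} T)) →
      ∀ n : ℕ, (∀ S : Set (MvPolynomial (Fin (n + 1)) ℂ), (∀ F ∈ S, IsForm F) → Fits S N →
          ∀ T : Set (MvPolynomial (Fin (n + 1)) ℂ), (∀ F ∈ T, IsForm F) →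
            NoComponent S T (P n S T)) ∧
        ∀ T : Set (MvPolynomial (Fin (n + 1)) ℂ), (∀ F ∈ T, IsForm F) →
          ∀ (L : Type) [Field L] [Algebra ℂ L] (w : ℕ) (y : Fin (n + 1) → L), Fits (Eqs y) N →
            Conjecture P T L w y) := by
  refine ⟨?_, fun E hE => ⟨?_, ?_⟩⟩
  · intro h B hB hsm T hT
    refine hP.forward hB hsm fun L _ _ w y hw hwk hy hyT hlog => ?_
    exact h N T hT L w y hwk hw ⟨hy.ne, fun p => absurd p.2 (Set.notMem_empty _), hy.gen, hy.dim⟩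
      hyT hlog
  · intro h e D Q _ _ hQ hsm T hT
    exact h _ (power_form hQ) hsm T hT
  · intro h n
    have h4 : ∀ S : Set (MvPolynomial (Fin (n + 1)) ℂ), (∀ F ∈ S, IsForm F) → Fits S N →
          ∀ T : Set (MvPolynomial (Fin (n + 1)) ℂ), (∀ F ∈ T, IsForm F) →
            NoComponent S T (P n S T) := by
      intro S hS hfit T hT
      obtain ⟨e, S', A, he, hW, -, hQ⟩ := H n S hS hfit
      obtain ⟨D, hDE, hD⟩ := hE.exists_gt (D₁ e)
      obtain ⟨Q, hQh, hQO⟩ := hQ D hD.le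
      obtain ⟨T', hT', hC, -⟩ := hW.compl hT
      exact hP.noComponent ⟨hW, hT, hT', hC⟩ (hy_of (power_form hQh) hQO)
        (h e D Q hDE hD.le hQh hQO.1 T' hT')
    refine ⟨h4, fun T hT L _ _ w y hfit hw hy hyT hlog => ?_⟩
    exact hP.exists_form ⟨hy.ne, hy.gen, hy.dim⟩ hw hyT hlog
      (h4 (Eqs y) (fun p hp => hp.1) hfit T hT)

end Pool.Agent.H911.EM
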