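import Pool.Agent.H911.EM.Defs

/-!
Counting parameters: the centre of a general projection.
-/

set_option autoImplicit false

namespace Pool.Agent.H911.EM

open MvPolynomial
open Pool.Agent.H911.QR (hatc hatc_adjoin hatc_aeval exists_basis)

variable {K : Type} [Field K] {Ω : Type} [Field Ω] [Algebra K Ω]

/-- the elements which are algebraic over the field generated by the family `s` -/
noncomputable def acl (K : Type) [Field K] {Ω : Type} [Field Ω] [Algebra K Ω] {ι : Type}
    (s : ι → Ω) : IntermediateField K Ω where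
  carrier := {z | IsAlgebraic (Algebra.adjoin K (Set.range s)) z}
  mul_mem' := fun ha hb => ha.mul hb
  one_mem' := isAlgebraic_one
  add_mem' := fun ha hb => ha.add hb
  zero_mem' := isAlgebraic_zero
  algebraMap_mem' := fun c => by
    have h := isAlgebraic_algebraMap (A := Ω) (algebraMap K (Algebra.adjoin K (Set.range s)) c)
    rwa [← IsScalarTower.algebraMap_apply] at h
  inv_mem' := fun _ ha => ha.inv

theorem mem_acl {ι : Type} (s : ι → Ω) (i : ι) : s i ∈ acl K s :=
  isAlgebraic_algebraMap (⟨s i, Algebra.subset_adjoin ⟨i, rfl⟩⟩ : Algebra.adjoin K (Set.range s))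

theorem alg_mono {A B : Subalgebra K Ω} (h : A ≤ B) {z : Ω} (hz : IsAlgebraic A z) :
    IsAlgebraic B z := by
  obtain ⟨p, hp0, hp⟩ := hz
  refine ⟨p.map (Subalgebra.inclusion h).toRingHom, ?_, ?_⟩
  · rw [Ne, Polynomial.map_eq_zero_iff (Subalgebra.inclusion_injective h)]
    exact hp0
  · rw [Polynomial.aeval_def, Polynomial.eval₂_map]
    exact hp

theorem acl_mono {ι κ : Type} {s : ι → Ω} {t : κ → Ω} (h : ∀ i, ∃ k, t k = s i) :
    acl K s ≤ acl K t := by
  intro z hz
  refine alg_mono (Algebra.adjoin_mono ?_) hz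
  rintro _ ⟨i, rfl⟩
  obtain ⟨k, hk⟩ := h i
  exact ⟨k, hk⟩

theorem count_acl {ι κ : Type} [Fintype ι] [Fintype κ] (s : ι → Ω) (p : κ → Ω)
    (hp : AlgebraicIndependent K p) (h : ∀ k, p k ∈ acl K s) :
    Fintype.card κ ≤ Fintype.card ι := count s p hp h

/-- the coordinates are algebraic over a transcendence basis -/
theorem basis_acl {ι : Type} (x : ι → Ω) {σ : Type} (f : σ → ι)
    (hfb : IsTranscendenceBasis K (fun s => hatc K x (f s))) (j : ι) :
    x j ∈ acl K (fun t => x (f t)) := by
  have h2 := hfb.isAlgebraic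
  have h3 := h2.isAlgebraic (hatc K x j)
  obtain ⟨p, hp0, hp⟩ := h3
  obtain ⟨ψ, hψ⟩ : ∃ ψ : Algebra.adjoin K (Set.range fun s => hatc K x (f s)) →ₐ[K]
      Algebra.adjoin K (Set.range fun t => x (f t)), ∀ a, ((ψ a : _) : Ω) = ((a : _) : _) := by
    refine ⟨((Algebra.adjoin K (Set.range x)).val.comp
      (Algebra.adjoin K (Set.range fun s => hatc K x (f s))).val).codRestrict _ ?_, fun _ => rfl⟩
    rintro ⟨a, ha⟩
    have h4 : (Algebra.adjoin K (Set.range x)).val a ∈ (Algebra.adjoin K
        (Set.range fun s => hatc K x (f s))).map (Algebra.adjoin K (Set.range x)).val :=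
      ⟨a, ha, rfl⟩
    rw [AlgHom.map_adjoin, ← Set.range_comp] at h4
    exact h4
  refine ⟨p.map ψ.toRingHom, ?_, ?_⟩
  · rw [Ne, Polynomial.map_eq_zero_iff]
    · exact hp0
    · intro a b hab
      apply Subtype.ext
      apply Subtype.ext
      have h5 : ((ψ a : _) : Ω) = ((ψ b : _) : Ω) := congrArg Subtype.val hab
      rw [hψ, hψ] at h5
      exact h5
  · have h5 := congrArg (Algebra.adjoin K (Set.range x)).val hp
    rw [map_zero, Polynomial.aeval_def] at h5
    rw [← h5, Polynomial.aeval_def, Polynomial.eval₂_map]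
    rw [← AlgHom.coe_toRingHom, Polynomial.hom_eval₂]
    have h6 : (algebraMap (Algebra.adjoin K (Set.range fun t => x (f t))) Ω).comp ψ.toRingHom =
        ((Algebra.adjoin K (Set.range x)).val : _ →+* Ω).comp
        (algebraMap (Algebra.adjoin K (Set.range fun s => hatc K x (f s)))
          (Algebra.adjoin K (Set.range x))) := RingHom.ext fun a => hψ a
    rw [h6]
    rfl

/-- the coordinates of a point of dimension `≤ w` depend on `w` parameters -/
theorem par_pt {ι : Type} [Finite ι] (x : ι → Ω) {w : ℕ}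
    (h : Algebra.trdeg K (Algebra.adjoin K (Set.range x)) ≤ w) :
    ∃ s : Fin w → Ω, ∀ j, x j ∈ acl K s := by
  classical
  obtain ⟨σ, f, hf, hfb⟩ := exists_basis K x
  have hσ : Finite σ := Finite.of_injective f hf
  have hfin := Fintype.ofFinite σ
  have hcard : Fintype.card σ ≤ w := by
    rw [← hfb.cardinalMk_eq_trdeg, Cardinal.mk_fintype] at h
    exact_mod_cast h
  obtain ⟨e⟩ : Nonempty (σ ↪ Fin w) := by
    rw [Function.Embedding.nonempty_iff_card_le, Fintype.card_fin]
    exact hcard
  refine ⟨fun i => if h : ∃ t, e t = i then x (f h.choose) else 0, fun j => ?_⟩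
  refine acl_mono (K := K) (fun t => ⟨e t, ?_⟩) (basis_acl x f hfb j)
  have h3 : ∃ t', e t' = e t := ⟨t, rfl⟩
  rw [dif_pos h3, e.injective h3.choose_spec]

/-- the solutions of a linear system over a subfield are combinations of few solutions over the
subfield -/
theorem lin_def (E : IntermediateField K Ω) {ι : Type} {m r : ℕ} (J : ι → Fin m → E)
    (T : Submodule Ω (Fin m → Ω)) (hT : ∀ v, v ∈ T ↔ ∀ i, ∑ j, (J i j : Ω) * v j = 0)
    (hr : Module.finrank Ω T ≤ r) (P : Fin m → Ω) (hP : P ∈ T) :
    ∃ q ≤ r, ∃ (c : Fin q → Ω) (v : Fin q → Fin m → E), ∀ j, P j = ∑ k, c k * (v k j : Ω) := by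
  classical
  obtain ⟨TE, hTE⟩ : ∃ TE : Submodule E (Fin m → E), ∀ v, v ∈ TE ↔ ∀ i, ∑ j, J i j * v j = 0 := by
    refine ⟨⨅ i, LinearMap.ker (∑ j, (J i j) • (LinearMap.proj j : (Fin m → E) →ₗ[E] E)), ?_⟩
    intro v
    rw [Submodule.mem_iInf]
    refine forall_congr' fun i => ?_
    rw [LinearMap.mem_ker, LinearMap.sum_apply]
    rfl
  let b := Module.Basis.ofVectorSpace E Ω
  let bT := Module.finBasis E TE
  -- the basis vectors are independent over the large field
  have hind : LinearIndependent Ω (fun k => (⟨fun j => ((bT k : Fin m → E) j : Ω), by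
      rw [hT]
      intro i
      have h1 := (hTE _).1 (bT k).2 i
      have h2 := congrArg (algebraMap E Ω) h1
      rw [map_sum, map_zero] at h2
      rw [← h2]
      refine Finset.sum_congr rfl fun j _ => ?_
      rw [map_mul]
      rfl⟩ : T)) := by
    rw [Fintype.linearIndependent_iff]
    intro g hg
    have h1 : ∀ j, ∑ k, g k * ((bT k : Fin m → E) j : Ω) = 0 := by
      intro j
      have h2 := congrFun (congrArg Subtype.val hg) j
      rw [Submodule.coe_sum, Finset.sum_apply] at h2
      exact h2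
    have h2 : ∀ i k, b.repr (g k) i = 0 := by
      intro i
      have h3 : ∑ k, b.repr (g k) i • bT k = 0 := by
        apply Subtype.ext
        funext j
        rw [Submodule.coe_sum, Finset.sum_apply]
        have h4 := congrArg (fun z => b.repr z i) (h1 j)
        rw [map_sum, Finsupp.finsetSum_apply, map_zero, Finsupp.zero_apply] at h4
        have h5 : ∀ k, b.repr (g k * ((bT k : Fin m → E) j : Ω)) i =
            b.repr (g k) i * (bT k : Fin m → E) j := by
          intro k
          have h6 : g k * ((bT k : Fin m → E) j : Ω) = ((bT k : Fin m → E) j) • g k := by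
            rw [mul_comm]
            rfl
          rw [h6, map_smul, Finsupp.smul_apply, smul_eq_mul, mul_comm]
        simp only [h5] at h4
        exact h4
      exact Fintype.linearIndependent_iff.1 bT.linearIndependent _ h3
    intro k
    have h3 : b.repr (g k) = 0 := Finsupp.ext fun i => h2 i k
    exact (LinearEquiv.map_eq_zero_iff _).1 h3
  have hqr : Module.finrank E TE ≤ r := by
    have h1 := hind.fintype_card_le_finrank
    rw [Fintype.card_fin] at h1
    exact h1.trans hr
  -- the coordinates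
  obtain ⟨S, hS⟩ : ∃ S : Finset _, S = Finset.univ.biUnion fun j => (b.repr (P j)).support := ⟨_, rfl⟩
  have hPj : ∀ j, P j = ∑ i ∈ S, (b.repr (P j) i : Ω) * b i := by
    intro j
    have h1 := b.linearCombination_repr (P j)
    rw [Finsupp.linearCombination_apply, Finsupp.sum] at h1
    conv_lhs => rw [← h1]
    refine Finset.sum_subset ?_ ?_
    · intro i hi
      rw [hS, Finset.mem_biUnion]
      exact ⟨j, Finset.mem_univ _, hi⟩
    · intro i _ hi
      rw [Finsupp.notMem_support_iff] at hi
      rw [hi, zero_smul]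
  have hw : ∀ i, (fun j => b.repr (P j) i) ∈ TE := by
    intro i
    rw [hTE]
    intro l
    have h1 := congrArg (fun z => b.repr z i) ((hT P).1 hP l)
    rw [map_sum, Finsupp.finsetSum_apply, map_zero, Finsupp.zero_apply] at h1
    rw [← h1]
    refine Finset.sum_congr rfl fun j _ => ?_
    have h6 : (J l j : Ω) * P j = (J l j) • P j := rfl
    rw [h6, map_smul, Finsupp.smul_apply, smul_eq_mul]
  have hwb : ∀ i j, b.repr (P j) i = ∑ k, bT.repr ⟨_, hw i⟩ k * (bT k : Fin m → E) j := by
    intro i j
    have h1 := congrFun (congrArg Subtype.val (bT.sum_repr ⟨_, hw i⟩)) j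
    rw [Submodule.coe_sum, Finset.sum_apply] at h1
    exact h1.symm
  refine ⟨Module.finrank E TE, hqr, fun k => ∑ i ∈ S, (bT.repr ⟨_, hw i⟩ k : Ω) * b i,
    fun k => (bT k : Fin m → E), fun j => ?_⟩
  rw [hPj j]
  simp only [Finset.sum_mul]
  rw [Finset.sum_comm]
  refine Finset.sum_congr rfl fun i _ => ?_
  rw [hwb i j]
  have h2 : ((∑ k, bT.repr ⟨_, hw i⟩ k * (bT k : Fin m → E) j : E) : Ω) =
      ∑ k, (bT.repr ⟨_, hw i⟩ k : Ω) * ((bT k : Fin m → E) j : Ω) := by
    rw [IntermediateField.coe_sum]
    rfl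
  rw [h2, Finset.sum_mul]
  refine Finset.sum_congr rfl fun k _ => ?_
  ring

end Pool.Agent.H911.EM
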