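import Pool.Agent.H911.EM.WHyp
import Pool.Agent.H911.GD.Asm

/-!
Points of the image: the inverse is given by forms; the complex case.
-/

set_option autoImplicit false

namespace Pool.Agent.H911.EM

open MvPolynomial

section general

variable {K : Type} [Field K] {n N : ℕ} {S : Set (MvPolynomial (Fin (n + 1)) K)}
  {S' : Set (MvPolynomial (Fin (N + 1)) K)} {A : Fin (N + 1) → MvPolynomial (Fin (n + 1)) K}

/-- the inverse at a point is given by forms -/
theorem WEmb.inv_pt (hE : WEmb S S' A) {Ω : Type} [Field Ω] [Algebra K Ω] {z : Fin (N + 1) → Ω}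
    (hz : z ≠ 0) (hzS : On S' z) : ∃ (k : ℕ) (H : MvPolynomial (Fin (N + 1)) K)
      (R : Fin (n + 1) → MvPolynomial (Fin (N + 1)) K), H.IsHomogeneous k ∧
      (∀ j, (R j).IsHomogeneous (k + 1)) ∧ aeval z H ≠ 0 ∧ On S (at' R z) ∧
      at' A (at' R z) = (aeval z H : Ω) • z := by
  classical
  obtain ⟨b, hb⟩ : ∃ b, z b ≠ 0 := by
    by_contra hcon
    push Not at hcon
    exact hz (funext hcon)
  obtain ⟨t, ht⟩ : ∃ t : Fin (N + 1) → Ω, t = fun i => z i / z b := ⟨_, rfl⟩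
  have htb : t b = 1 := by
    rw [ht]
    exact div_self hb
  have hzt : z = z b • t := by
    rw [ht]
    funext i
    rw [Pi.smul_apply, smul_eq_mul, mul_div_cancel₀ _ hb]
  obtain ⟨t', ht'⟩ : ∃ t' : Fin (N + 1) → IntermediateField.adjoin K (Set.range t),
      ∀ i, (algebraMap (IntermediateField.adjoin K (Set.range t)) Ω) (t' i) = t i :=
    ⟨fun i => ⟨t i, IntermediateField.subset_adjoin K _ ⟨i, rfl⟩⟩, fun _ => rfl⟩
  have htt : (fun i => (algebraMap (IntermediateField.adjoin K (Set.range t)) Ω) (t' i)) = t :=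
    funext ht'
  have htS : On S' t := on_of_smul hE.forms' hb (by rw [← hzt]; exact hzS)
  have ht'S : On S' t' := by
    rw [← htt] at htS
    exact on_map.1 htS
  have ht'0 : t' ≠ 0 := by
    intro h
    rw [← ht' b, h, Pi.zero_apply, map_zero] at htb
    exact zero_ne_one htb
  obtain ⟨x', hx'0, hx'S, hx'A⟩ := hE.surj _ t' ht'0 ht'S
  -- rational functions
  have h1 : ∀ j, ∃ r s : MvPolynomial (Fin (N + 1)) K, aeval t s ≠ 0 ∧
      (x' j : Ω) * aeval t s = aeval t r := by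
    intro j
    obtain ⟨r, s, hrs⟩ := (IntermediateField.mem_adjoin_range_iff K t (x' j : Ω)).1 (x' j).2
    by_cases hs : aeval t s = 0
    · refine ⟨0, 1, ?_, ?_⟩
      · rw [map_one]
        exact one_ne_zero
      · rw [hrs, hs, div_zero, zero_mul, map_zero]
    · exact ⟨r, s, hs, by rw [hrs, div_mul_cancel₀ _ hs]⟩
  choose r s hs hrs using h1
  obtain ⟨T, hT⟩ : ∃ T : MvPolynomial (Fin (N + 1)) K, T = ∏ j, s j := ⟨_, rfl⟩
  obtain ⟨r', hr'⟩ : ∃ r' : Fin (n + 1) → MvPolynomial (Fin (N + 1)) K,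
    r' = fun j => r j * ∏ i ∈ Finset.univ.erase j, s i := ⟨_, rfl⟩
  have hTs : ∀ j, T = s j * ∏ i ∈ Finset.univ.erase j, s i := by
    intro j
    rw [hT, Finset.mul_prod_erase _ _ (Finset.mem_univ j)]
  have hT0 : aeval t T ≠ 0 := by
    rw [hT, map_prod]
    exact Finset.prod_ne_zero_iff.2 fun j _ => hs j
  have hrel : ∀ j, (x' j : Ω) * aeval t T = aeval t (r' j) := by
    intro j
    rw [hTs j, hr', map_mul]
    simp only
    rw [map_mul, ← mul_assoc, hrs]
  obtain ⟨d, hd1, hd2⟩ : ∃ d : ℕ, T.totalDegree ≤ d ∧ ∀ j, (r' j).totalDegree ≤ d + 1 := by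
    refine ⟨T.totalDegree + ∑ j, (r' j).totalDegree, Nat.le_add_right _ _, fun j => ?_⟩
    have h2 := Finset.single_le_sum (f := fun j => (r' j).totalDegree)
      (fun i _ => Nat.zero_le _) (Finset.mem_univ j)
    have h3 : (r' j).totalDegree ≤ ∑ j, (r' j).totalDegree := h2
    omega
  have hH : aeval z (homk b d T) = z b ^ d * aeval t T := by
    conv_lhs => rw [hzt]
    rw [ev_smul (homk_hom b hd1), homk_eval d T t htb]
  have hR : at' (fun j => homk b (d + 1) (r' j)) z =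
      (aeval z (homk b d T) * z b) • fun j => (x' j : Ω) := by
    funext j
    have h2 : aeval z (homk b (d + 1) (r' j)) = z b ^ (d + 1) * aeval t (r' j) := by
      conv_lhs => rw [hzt]
      rw [ev_smul (homk_hom b (hd2 j)), homk_eval (d + 1) (r' j) t htb]
    unfold at'
    rw [h2, ← hrel, hH, Pi.smul_apply, smul_eq_mul, pow_succ]
    ring
  have hx'S' : On S fun j => (x' j : Ω) := on_map.2 hx'S
  have hAx : at' A (fun j => (x' j : Ω)) = t := by
    funext i
    have e1 : at' A (fun j => (x' j : Ω)) i =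
        (algebraMap (IntermediateField.adjoin K (Set.range t)) Ω) (aeval x' (A i)) :=
      aeval_algebraMap_apply Ω x' (A i)
    have e2 : aeval x' (A i) = t' i := congrFun hx'A i
    rw [e1, e2]
    exact ht' i
  refine ⟨d, homk b d T, fun j => homk b (d + 1) (r' j), homk_hom b hd1,
    fun j => homk_hom b (hd2 j), ?_, ?_, ?_⟩
  · rw [hH]
    exact mul_ne_zero (pow_ne_zero _ hb) hT0
  · rw [hR]
    exact on_smul hE.forms hx'S' _
  · rw [hR, lin_smul hE.lin, hAx, mul_smul, ← hzt]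

end general

section complex

open Pool.Agent.N254.SQ (Eqs IsForm Gen NotIn LogGeneral OnSpecialQ OnCurvesQ OnDiscsQ)
open Pool.Agent.W602.GT (coords SubVar GeneralType)
open Pool.Agent.H911.GD (Pair Compat Regular ratio_mem)

variable {n N : ℕ} {S : Set (MvPolynomial (Fin (n + 1)) ℂ)}
  {S' : Set (MvPolynomial (Fin (N + 1)) ℂ)} {A : Fin (N + 1) → MvPolynomial (Fin (n + 1)) ℂ}

/-- points of the closure -/
theorem on_of_eqs (hS : ∀ F ∈ S, ∃ e, F.IsHomogeneous e) {L : Type} [Field L] [Algebra ℂ L]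
    {y : Fin (n + 1) → L} (hy : On S y) {Ω : Type} [Field Ω] [Algebra ℂ Ω] {x : Fin (n + 1) → Ω}
    (hx : ∀ p ∈ Eqs y, aeval x p = 0) : On S x := fun F hF => hx F ⟨hS F hF, hy F hF⟩

theorem WEmb.pair (hE : WEmb S S' A) {L : Type} [Field L] [Algebra ℂ L] {y : Fin (n + 1) → L}
    (hy : y ≠ 0) (hyS : On S y) : ∃ (R : Fin (n + 1) → MvPolynomial (Fin (N + 1)) ℂ)
      (H : MvPolynomial (Fin (N + 1)) ℂ), Pair y (at' A y) A R H := by
  obtain ⟨k, H, R, hH, hR, h0, h1, h2⟩ := hE.inv_pt (hE.ne_zero hy hyS) (hE.map L y hyS)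
  have h3 := hE.inj L _ _ _ hyS h1 h2
  refine ⟨R, H, hE.lin, ⟨k, hH, hR⟩, fun i => rfl, fun j => congrFun h3 j, h0, ?_⟩
  intro Ω _ _ x hx hxE
  by_contra hcon
  push Not at hcon
  exact hx (hE.zero Ω x (on_of_eqs hE.forms hyS hxE) (funext hcon))

theorem WEmb.coords_eq (hE : WEmb S S' A) {L : Type} [Field L] [Algebra ℂ L]
    {y : Fin (n + 1) → L} (hy : y ≠ 0) (hyS : On S y) : coords ℂ (at' A y) = coords ℂ y := by
  obtain ⟨R, H, hP⟩ := hE.pair hy hyS
  obtain ⟨k, hH, hR⟩ := hP.homR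
  refine le_antisymm (IntermediateField.adjoin_le_iff.2 ?_) (IntermediateField.adjoin_le_iff.2 ?_)
  · rintro _ ⟨i, j, hj, rfl⟩
    exact ratio_mem hy (hE.lin i) (hE.lin j)
  · rintro _ ⟨i, j, hj, rfl⟩
    have h1 : y i / y j = aeval (at' A y) (R i) / aeval (at' A y) (R j) := by
      rw [hP.inv, hP.inv, mul_div_mul_left _ _ hP.ne]
    rw [h1]
    exact ratio_mem (hE.ne_zero hy hyS) (hR i) (hR j)

theorem WEmb.gen (hE : WEmb S S' A) {L : Type} [Field L] [Algebra ℂ L] {w : ℕ}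
    {y : Fin (n + 1) → L} (hy : Gen L w y) (hyS : On S y) : Gen L w (at' A y) :=
  ⟨hE.ne_zero hy.ne hyS, by rw [hE.coords_eq hy.ne hyS]; exact hy.gen, hy.dim⟩

theorem WEmb.gen_surj (hE : WEmb S S' A) {L : Type} [Field L] [Algebra ℂ L] {w : ℕ}
    {z : Fin (N + 1) → L} (hz : Gen L w z) (hzS : On S' z) :
    ∃ y : Fin (n + 1) → L, On S y ∧ at' A y = z ∧ Gen L w y := by
  obtain ⟨y, hy0, hyS, hyA⟩ := hE.surj L z hz.ne hzS
  refine ⟨y, hyS, hyA, hy0, ?_, hz.dim⟩
  rw [← hE.coords_eq hy0 hyS, hyA]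
  exact hz.gen

/-- closed subsets -/
theorem WEmb.compl (hE : WEmb S S' A) {T : Set (MvPolynomial (Fin (n + 1)) ℂ)}
    (hT : ∀ F ∈ T, IsForm F) : ∃ T' : Set (MvPolynomial (Fin (N + 1)) ℂ), (∀ F ∈ T', IsForm F) ∧
      (∀ (L : Type) [Field L] [Algebra ℂ L] (y : Fin (n + 1) → L), On S y → Compat y A T T') ∧
      ∀ (Ω : Type) [Field Ω] [Algebra ℂ Ω] (x : Fin (n + 1) → Ω), x ≠ 0 → On S x →
        (On T x ↔ On T' (at' A x)) := by
  obtain ⟨T', hT', h⟩ := hE.closed T hT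
  refine ⟨T', hT', ?_, h⟩
  intro L _ _ y hyS Ω _ _ x hx hxE
  have h1 := h Ω x hx (on_of_eqs hE.forms hyS hxE)
  unfold On at h1
  constructor
  · rintro ⟨F, hF, h2⟩
    by_contra hcon
    push Not at hcon
    exact h2 (h1.2 (fun G hG => hcon G hG) F hF)
  · rintro ⟨F, hF, h2⟩
    by_contra hcon
    push Not at hcon
    exact h2 (h1.1 (fun G hG => hcon G hG) F hF)

end complex

end Pool.Agent.H911.EM
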