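import Pool.Agent.H911.EM.Center
import Pool.Agent.H911.EM.Local

/-!
The projection from a point: substitution of coordinates.
-/

set_option autoImplicit false

namespace Pool.Agent.H911.EM

open MvPolynomial
open Pool.Agent.H911.QR (homb homb_hom homb_eval)

variable {K : Type} [Field K] {n : ℕ}

/-- the linear forms of the projection from `P` -/
noncomputable def prj (P : Fin (n + 2) → K) : Fin (n + 1) → MvPolynomial (Fin (n + 1 + 1)) K :=
  fun i => X i.succ - C (P i.succ) * X 0

theorem prj_hom (P : Fin (n + 2) → K) (i : Fin (n + 1)) : (prj P i).IsHomogeneous 1 := by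
  refine (isHomogeneous_X K _).sub ?_
  have h1 := (isHomogeneous_C (Fin (n + 1 + 1)) (P i.succ)).mul (isHomogeneous_X K (0 : Fin (n + 2)))
  rwa [zero_add] at h1

theorem prj_at (P : Fin (n + 2) → K) {Ω : Type} [Field Ω] [Algebra K Ω] (x : Fin (n + 2) → Ω)
    (i : Fin (n + 1)) : at' (prj P) x i = x i.succ - algebraMap K Ω (P i.succ) * x 0 := by
  unfold at' prj
  rw [map_sub, map_mul, aeval_X, aeval_X, aeval_C]

/-- the point on the line through `P` and `z` -/
noncomputable def pt (P : Fin (n + 2) → K) {Ω : Type} [Field Ω] [Algebra K Ω] (z : Fin (n + 1) → Ω)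
    (t : Ω) : Fin (n + 2) → Ω := Fin.cons t fun i => z i + algebraMap K Ω (P i.succ) * t

theorem prj_pt (P : Fin (n + 2) → K) {Ω : Type} [Field Ω] [Algebra K Ω] (z : Fin (n + 1) → Ω)
    (t : Ω) : at' (prj P) (pt P z t) = z := by
  funext i
  rw [prj_at]
  unfold pt
  rw [Fin.cons_succ, Fin.cons_zero]
  ring

theorem pt_prj (P : Fin (n + 2) → K) {Ω : Type} [Field Ω] [Algebra K Ω] (x : Fin (n + 2) → Ω) :
    pt P (at' (prj P) x) (x 0) = x := by
  funext j
  unfold pt
  refine Fin.cases ?_ (fun i => ?_) j
  · rw [Fin.cons_zero]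
  · rw [Fin.cons_succ, prj_at]
    ring

/-- the coordinates as polynomials in one variable -/
noncomputable def tl (P : Fin (n + 2) → K) :
    Fin (n + 2) → Polynomial (MvPolynomial (Fin (n + 1)) K) :=
  Fin.cons Polynomial.X fun i => Polynomial.C (X i) + Polynomial.C (C (P i.succ)) * Polynomial.X

theorem tl_eval (P : Fin (n + 2) → K) {Ω : Type} [Field Ω] [Algebra K Ω] (z : Fin (n + 1) → Ω)
    (t : Ω) (F : MvPolynomial (Fin (n + 2)) K) :
    Polynomial.eval₂ (aeval z : MvPolynomial (Fin (n + 1)) K →ₐ[K] Ω).toRingHom t (aeval (tl P) F) =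
      aeval (pt P z t) F := by
  have hj : ∀ j, Polynomial.eval₂ (aeval z : MvPolynomial (Fin (n + 1)) K →ₐ[K] Ω).toRingHom t
      (tl P j) = pt P z t j := by
    intro j
    unfold tl pt
    refine Fin.cases ?_ (fun i => ?_) j
    · rw [Fin.cons_zero, Fin.cons_zero, Polynomial.eval₂_X]
    · rw [Fin.cons_succ, Fin.cons_succ, Polynomial.eval₂_add, Polynomial.eval₂_mul,
        Polynomial.eval₂_C, Polynomial.eval₂_C, Polynomial.eval₂_X]
      change aeval z (X i) + aeval z (C (P i.succ)) * t = _
      rw [aeval_X, aeval_C]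
  induction F using MvPolynomial.induction_on with
  | C c =>
    rw [aeval_C, aeval_C, IsScalarTower.algebraMap_apply K (MvPolynomial (Fin (n + 1)) K)
      (Polynomial (MvPolynomial (Fin (n + 1)) K)), Polynomial.algebraMap_apply,
      Polynomial.eval₂_C]
    exact AlgHom.commutes _ c
  | add p q hp hq => rw [map_add, map_add, Polynomial.eval₂_add, hp, hq]
  | mul_X p j hp => rw [map_mul, map_mul, Polynomial.eval₂_mul, hp, aeval_X, aeval_X, hj]

/-- the derivative in the direction of the centre -/
theorem tl_deriv (P : Fin (n + 2) → K) (hP : P 0 = 1) {Ω : Type} [Field Ω] [Algebra K Ω]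
    (z : Fin (n + 1) → Ω) (t : Ω) (F : MvPolynomial (Fin (n + 1 + 1)) K) :
    Polynomial.eval₂ (aeval z : MvPolynomial (Fin (n + 1)) K →ₐ[K] Ω).toRingHom t
      (Polynomial.derivative (aeval (tl P) F)) =
      dv F (pt P z t) fun j => algebraMap K Ω (P j) := by
  have hj : ∀ j, Polynomial.eval₂ (aeval z : MvPolynomial (Fin (n + 1)) K →ₐ[K] Ω).toRingHom t
      (Polynomial.derivative (tl P j)) = algebraMap K Ω (P j) := by
    intro j
    unfold tl
    refine Fin.cases ?_ (fun i => ?_) j
    · rw [Fin.cons_zero, Polynomial.derivative_X, Polynomial.eval₂_one, hP, map_one]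
    · rw [Fin.cons_succ, Polynomial.derivative_add, Polynomial.derivative_C, zero_add,
        Polynomial.derivative_C_mul, Polynomial.derivative_X, mul_one, Polynomial.eval₂_C]
      change aeval z (C (P i.succ)) = _
      rw [aeval_C]
  induction F using MvPolynomial.induction_on with
  | C c =>
    rw [aeval_C, IsScalarTower.algebraMap_apply K (MvPolynomial (Fin (n + 1)) K)
      (Polynomial (MvPolynomial (Fin (n + 1)) K)), Polynomial.algebraMap_apply,
      Polynomial.derivative_C, Polynomial.eval₂_zero, dv_C]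
  | add p q hp hq => rw [map_add, Polynomial.derivative_add, Polynomial.eval₂_add, hp, hq, dv_add]
  | mul_X p j hp =>
    have h1 := tl_eval P z t (X j)
    rw [aeval_X, aeval_X] at h1
    rw [map_mul, Polynomial.derivative_mul, Polynomial.eval₂_add, Polynomial.eval₂_mul,
      Polynomial.eval₂_mul, hp, dv_mul, aeval_X, hj, dv_X, tl_eval, h1, aeval_X]
    ring

/-- the leading coefficient -/
theorem tl_lead (P : Fin (n + 2) → K) (hP : P 0 = 1) {F : MvPolynomial (Fin (n + 2)) K} {d : ℕ}
    (hF : F.IsHomogeneous d) : (aeval (tl P) F).natDegree ≤ d ∧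
      (aeval (tl P) F).coeff d = C (eval P F) := by
  classical
  have hj : ∀ j, (tl P j).natDegree ≤ 1 ∧ (tl P j).coeff 1 = C (P j) := by
    intro j
    unfold tl
    refine Fin.cases ?_ (fun i => ?_) j
    · rw [Fin.cons_zero, hP, map_one]
      exact ⟨Polynomial.natDegree_X_le, Polynomial.coeff_X_one⟩
    · rw [Fin.cons_succ]
      constructor
      · refine (Polynomial.natDegree_add_le _ _).trans (max_le ?_ ?_)
        · rw [Polynomial.natDegree_C]
          exact Nat.zero_le _
        · exact (Polynomial.natDegree_C_mul_le _ _).trans Polynomial.natDegree_X_le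
      · rw [Polynomial.coeff_add, Polynomial.coeff_C_mul, Polynomial.coeff_X_one, mul_one,
          Polynomial.coeff_C, if_neg one_ne_zero, zero_add]
  have hprod : ∀ (m : Fin (n + 2) → ℕ) (s : Finset (Fin (n + 2))),
      (∏ j ∈ s, tl P j ^ m j).natDegree ≤ ∑ j ∈ s, m j ∧
        (∏ j ∈ s, tl P j ^ m j).coeff (∑ j ∈ s, m j) = C (∏ j ∈ s, P j ^ m j) := by
    intro m s
    induction s using Finset.induction_on with
    | empty => simp
    | insert a s ha ih =>
      rw [Finset.prod_insert ha, Finset.sum_insert ha, Finset.prod_insert ha]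
      have h1 : (tl P a ^ m a).natDegree ≤ m a := by
        have h2 := Polynomial.natDegree_pow_le_of_le (m a) (hj a).1
        rwa [mul_one] at h2
      have h2 : (tl P a ^ m a).coeff (m a) = C (P a ^ m a) := by
        have h3 := Polynomial.coeff_pow_of_natDegree_le (m := m a) (hj a).1
        rw [mul_one] at h3
        rw [h3, (hj a).2, map_pow]
      refine ⟨Polynomial.natDegree_mul_le_of_le h1 ih.1, ?_⟩
      rw [Polynomial.coeff_mul_add_eq_of_natDegree_le h1 ih.1, h2, ih.2, map_mul]
  have hsum : aeval (tl P) F = ∑ m ∈ F.support, Polynomial.C (C (coeff m F)) *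
      ∏ j, tl P j ^ m j := by
    rw [aeval_eq_eval₂Hom, coe_eval₂Hom, eval₂_eq']
    rfl
  have hdeg : ∀ m ∈ F.support, ∑ j, m j = d := by
    intro m hm
    have h1 := hF (mem_support_iff.1 hm)
    rw [Finsupp.weight_apply, Finsupp.sum_fintype] at h1
    · simpa using h1
    · simp
  constructor
  · rw [hsum]
    refine Polynomial.natDegree_sum_le_of_forall_le _ _ fun m hm => ?_
    have h1 := (hprod m Finset.univ).1
    rw [hdeg m hm] at h1
    exact (Polynomial.natDegree_C_mul_le _ _).trans h1
  · rw [hsum, Polynomial.finsetSum_coeff, eval_eq', map_sum]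
    refine Finset.sum_congr rfl fun m hm => ?_
    have h1 := (hprod m Finset.univ).2
    rw [hdeg m hm] at h1
    rw [Polynomial.coeff_C_mul, h1, map_mul]

end Pool.Agent.H911.EM
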