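import Pool.Agent.H911.EM.Ff2
import Pool.Graph.R_pool_sql_team_seeded_63374d34.N254.SQ.Bend

/-!
Pointed maps from algebraic curves under weak embeddings.
-/

set_option autoImplicit false

namespace Pool.Agent.H911.EM

open MvPolynomial FF
open Pool.Agent.N254.SQ (Eqs IsForm aeval_zero_of aeval_scale PointedFinite Bend_stm t_bend ptd_ne
  ptd_scale ptd_xscale ptd_of_near ptd_near ptd_uniq ptd_prop ptd_exists ptd_curve ptd_const)
open Pool.Agent.W603.LV (canDeg Ge)
open Pool.Agent.W603.PV (pht pord)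
open Pool.Agent.W602.RG (HasValue)
open scoped LinearAlgebra.Projectivization

variable {n N : ℕ} {S : Set (MvPolynomial (Fin (n + 1)) ℂ)}
  {S' : Set (MvPolynomial (Fin (N + 1)) ℂ)} {A : Fin (N + 1) → MvPolynomial (Fin (n + 1)) ℂ}
  {B : MvPolynomial (Fin (N + 1)) ℂ}

section value

variable {E : Type} [Field E] [Algebra ℂ E] [IsFF ℂ E] {c : Place ℂ E}

/-- values on the closed set -/
theorem value_on (hS : ∀ F ∈ S, ∃ e, F.IsHomogeneous e) {y : Fin (n + 1) → E} (hy : y ≠ 0)
    (hyS : On S y) {x : Fin (n + 1) → ℂ} (hx : x ≠ 0) (h : HasValue c x y) : On S x := by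
  obtain ⟨a, ha, hg⟩ := ptd_near hx hy h
  intro F hF
  have h0 : ∀ j, Ge c 0 ((a • y) j) := by
    intro j
    have := ((hg j).mono (by norm_num : (0 : ℤ) ≤ 1)).add (Ge.const (P := c) (x j))
    rwa [sub_add_cancel] at this
  have h1 := Pool.Agent.W603.LV.red_mvaeval c h0 hg F
  have h2 : aeval (a • y) F = 0 := (aeval_zero_of (hS F hF) ha y).2 (hyS F hF)
  rw [h2, zero_sub] at h1
  have h3 : Ge c 1 (algebraMap ℂ E (eval x F)) := by
    have h4 := h1.neg
    rwa [neg_neg] at h4
  exact Pool.Agent.W603.LV.const_zero c h3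

/-- values of the image -/
theorem WEmb.value (hE : WEmb S S' A) {y : Fin (n + 1) → E} (hy : y ≠ 0) (hyS : On S y)
    {x : Fin (n + 1) → ℂ} (hx : x ≠ 0) (h : HasValue c x y) :
    HasValue c (at' A x) (at' A y) := by
  have hxS := value_on hE.forms hy hyS hx h
  obtain ⟨a, ha, hg⟩ := ptd_near hx hy h
  have h0 : ∀ j, Ge c 0 ((a • y) j) := by
    intro j
    have := ((hg j).mono (by norm_num : (0 : ℤ) ≤ 1)).add (Ge.const (P := c) (x j))
    rwa [sub_add_cancel] at this
  have h1 : ∀ i, Ge c 1 (at' A (a • y) i - algebraMap ℂ E (at' A x i)) := fun i =>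
    Pool.Agent.W603.LV.red_mvaeval c h0 hg (A i)
  obtain ⟨h2, h3⟩ := ptd_of_near (hE.ne_zero hx hxS) h1
  rw [lin_smul hE.lin] at h3
  have h4 := ptd_scale (a := a⁻¹) (f := a • at' A y) (by
    rw [lin_smul hE.lin] at h2
    exact h2) h3 (inv_ne_zero ha)
  rwa [smul_smul, inv_mul_cancel₀ ha, one_smul] at h4

/-- the value of the image determines the value -/
theorem WEmb.value_inv (hE : WEmb S S' A) {y : Fin (n + 1) → E} (hy : y ≠ 0) (hyS : On S y)
    {x : Fin (n + 1) → ℂ} (hx : x ≠ 0) (hxS : On S x) (h : HasValue c (at' A x) (at' A y)) :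
    HasValue c x y := by
  obtain ⟨z, hz, hzv⟩ := ptd_exists c hy
  have hzS := value_on hE.forms hy hyS hz hzv
  have h1 := hE.value hy hyS hz hzv
  obtain ⟨u, hu⟩ := ptd_prop (hE.ne_zero hz hzS) (ptd_uniq (hE.ne_zero hy hyS) h1 h)
  have h2 := hE.inj ℂ z x u hzS hxS hu
  rw [h2]
  exact ptd_xscale hzv u

end value

theorem mk_eq' {E : Type} [Field E] {m : ℕ} {f g : Fin (m + 1) → E} (hf : f ≠ 0) (hg : g ≠ 0) :
    Projectivization.mk E f hf = Projectivization.mk E g hg ↔ ∃ a : E, a • g = f :=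
  Projectivization.mk_eq_mk_iff' E f g hf hg

/-- from the hypersurface to the variety -/
theorem pointed_down (hE : WEmb S S' A) (hB : Hy S' B) (h : PointedFinite {B}) :
    PointedFinite S := by
  classical
  intro E _ _ _ c x hx
  by_cases hxS : On S x
  swap
  · refine Set.Finite.subset Set.finite_empty ?_
    rintro φ ⟨f, hf, hfS, hv, -⟩
    exact hxS (value_on hE.forms hf hfS hx hv)
  have hT := h E c (at' A x) (hE.ne_zero hx hxS)
  have hinj : Set.InjOn (fun φ : ℙ E (Fin (n + 1) → E) =>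
      if h : at' A φ.rep ≠ 0 then Projectivization.mk E (at' A φ.rep) h else
        Projectivization.mk E (Pi.single 0 1 : Fin (N + 1) → E) (by
          intro h
          have := congrFun h 0
          rw [Pi.single_eq_same, Pi.zero_apply] at this
          exact one_ne_zero this))
      {φ : ℙ E (Fin (n + 1) → E) | ∃ (f : Fin (n + 1) → E) (hf : f ≠ 0),
        (∀ p ∈ S, aeval f p = 0) ∧ HasValue c x f ∧ φ = Projectivization.mk E f hf} := by
    have key : ∀ φ : ℙ E (Fin (n + 1) → E), (∃ (f : Fin (n + 1) → E) (hf : f ≠ 0),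
        (∀ p ∈ S, aeval f p = 0) ∧ HasValue c x f ∧ φ = Projectivization.mk E f hf) →
        On S φ.rep := by
      rintro φ ⟨f, hf, hfS, -, rfl⟩
      obtain ⟨a, ha⟩ := Projectivization.exists_smul_eq_mk_rep E f hf
      rw [← ha, Units.smul_def]
      exact on_smul hE.forms hfS _
    intro φ hφ ψ hψ h2
    have h3 := hE.ne_zero φ.rep_nonzero (key φ hφ)
    have h4 := hE.ne_zero ψ.rep_nonzero (key ψ hψ)
    simp only [dif_pos h3, dif_pos h4] at h2
    rw [mk_eq'] at h2
    obtain ⟨a, ha⟩ := h2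
    have h5 := hE.inj E _ _ a (key ψ hψ) (key φ hφ) ha.symm
    rw [← φ.mk_rep, ← ψ.mk_rep, mk_eq']
    exact ⟨a, h5.symm⟩
  refine Set.Finite.of_finite_image (hT.subset ?_) hinj
  rintro _ ⟨φ, ⟨f, hf, hfS, hv, rfl⟩, rfl⟩
  refine ⟨at' A f, hE.ne_zero hf hfS, on_hyp hB (hE.map E f hfS), hE.value hf hfS hx hv, ?_⟩
  obtain ⟨a, ha⟩ := Projectivization.exists_smul_eq_mk_rep E f hf
  have h1 : at' A (Projectivization.mk E f hf).rep = (a : E) • at' A f := by
    rw [← ha, Units.smul_def, lin_smul hE.lin]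
  have h2 : at' A (Projectivization.mk E f hf).rep ≠ 0 := by
    rw [h1]
    exact smul_ne_zero a.ne_zero (hE.ne_zero hf hfS)
  simp only [dif_pos h2]
  rw [mk_eq']
  exact ⟨a, h1.symm⟩

/-- from the variety to the hypersurface -/
theorem pointed_up (hE : WEmb S S' A) (hB : Hy S' B) (hO : CurvesOutside B S')
    (h : PointedFinite S) : PointedFinite {B} := by
  classical
  intro E _ _ _ c y0 hy0
  have hT1 : {φ : ℙ E (Fin (N + 1) → E) | ∃ (x : Fin (n + 1) → E) (hx : at' A x ≠ 0), x ≠ 0 ∧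
      On S x ∧ HasValue c y0 (at' A x) ∧ φ = Projectivization.mk E (at' A x) hx}.Finite := by
    by_cases hne : ∃ x : Fin (n + 1) → E, x ≠ 0 ∧ On S x ∧ HasValue c y0 (at' A x)
    · obtain ⟨x0, hx0, hx0S, hv0⟩ := hne
      obtain ⟨z, hz, hzv⟩ := ptd_exists c hx0
      have hzS := value_on hE.forms hx0 hx0S hz hzv
      have h3 := hE.value hx0 hx0S hz hzv
      obtain ⟨a, ha1⟩ := ptd_prop (hE.ne_zero hz hzS) (ptd_uniq (hE.ne_zero hx0 hx0S) h3 hv0)
      have ha0 : a ≠ 0 := by
        intro h0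
        rw [h0, zero_smul] at ha1
        exact hy0 ha1
      refine ((h E c z hz).image (fun φ => if h : at' A φ.rep ≠ 0 then
        Projectivization.mk E (at' A φ.rep) h else
        Projectivization.mk E (Pi.single 0 1 : Fin (N + 1) → E) (by
          intro h
          have := congrFun h 0
          rw [Pi.single_eq_same, Pi.zero_apply] at this
          exact one_ne_zero this))).subset ?_
      rintro φ ⟨x, hAx, hx, hxS, hv, rfl⟩
      refine ⟨Projectivization.mk E x hx, ⟨x, hx, hxS, ?_, rfl⟩, ?_⟩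
      · refine hE.value_inv hx hxS hz hzS ?_
        have h5 := ptd_xscale hv a⁻¹
        rwa [ha1, smul_smul, inv_mul_cancel₀ ha0, one_smul] at h5
      · obtain ⟨b, hb⟩ := Projectivization.exists_smul_eq_mk_rep E x hx
        have h1 : at' A (Projectivization.mk E x hx).rep = (b : E) • at' A x := by
          rw [← hb, Units.smul_def, lin_smul hE.lin]
        have h2 : at' A (Projectivization.mk E x hx).rep ≠ 0 := by
          rw [h1]
          exact smul_ne_zero b.ne_zero hAx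
        simp only [dif_pos h2]
        rw [mk_eq']
        exact ⟨b, h1.symm⟩
    · refine Set.Finite.subset Set.finite_empty ?_
      rintro φ ⟨x, hAx, hx, hxS, hv, -⟩
      exact hne ⟨x, hx, hxS, hv⟩
  by_contra hinf
  have hinf2 : {φ : ℙ E (Fin (N + 1) → E) | ∃ (f : Fin (N + 1) → E) (hf : f ≠ 0),
      (∀ p ∈ ({B} : Set (MvPolynomial (Fin (N + 1)) ℂ)), aeval f p = 0) ∧ HasValue c y0 f ∧
      pht ℂ f ≤ max (canDeg ℂ E) 0 ∧ φ = Projectivization.mk E f hf}.Infinite := by
    intro hfin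
    apply hinf
    refine (hT1.union hfin).subset ?_
    rintro φ ⟨f, hf, hfB, hv, rfl⟩
    rcases hO E f hf (hfB B rfl) with h3 | h3
    · exact Or.inr ⟨f, hf, hfB, hv, h3, rfl⟩
    · left
      obtain ⟨x, hx, hxS, rfl⟩ := hE.surj E f hf h3
      exact ⟨x, hf, hx, hxS, hv, rfl⟩
  obtain ⟨y, hy, hyB, hyn⟩ := t_bend N {B} (by
    intro p hp
    rw [Set.mem_singleton_iff] at hp
    rw [hp]
    exact hB.form) E c y0 _ hy0 hinf2
  rcases hO (RatFunc ℂ) y hy (hyB B rfl) with h3 | h3
  · rw [Pool.Agent.Y216.canDeg_ratFunc] at h3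
    exact hyn (ptd_const hy (h3.trans (by norm_num)))
  · obtain ⟨x, hx, hxS, rfl⟩ := hE.surj (RatFunc ℂ) y hy h3
    refine ptd_curve hE.forms hx hxS ?_ h
    rintro ⟨a, z, hxz⟩
    apply hyn
    refine ⟨a, at' A z, ?_⟩
    have e1 : x = a • (fun j => algebraMap ℂ (RatFunc ℂ) (z j)) := hxz
    rw [e1, lin_smul hE.lin]
    funext b
    rw [Pi.smul_apply, smul_eq_mul]
    have e2 : at' A (fun j => algebraMap ℂ (RatFunc ℂ) (z j)) b =
        algebraMap ℂ (RatFunc ℂ) (at' A z b) := aeval_algebraMap_apply (RatFunc ℂ) z (A b)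
    rw [e2]

theorem pointed_iff (hE : WEmb S S' A) (hB : Hy S' B) (hO : CurvesOutside B S') :
    PointedFinite {B} ↔ PointedFinite S :=
  ⟨pointed_down hE hB, pointed_up hE hB hO⟩

end Pool.Agent.H911.EM
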