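import Pool.Agent.H911.EM.Lang

/-!
The relative equivalence (entire curves and rational points outside of a closed subset) under finite
bijective projections.
-/

set_option autoImplicit false

namespace Pool.Agent.H911.EM

open MvPolynomial
open scoped LinearAlgebra.Projectivization
open Pool.Agent.N254.SQ (powerFormOver SmoothOver projPoints ProjectiveBLV)

variable {K : Type} [Field K] {ι : Type} {n : ℕ}

theorem ev_zero {N : ℕ} {Ω : Type} [Field Ω] [Algebra K Ω] {B : MvPolynomial (Fin (N + 1)) K}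
    {x : Fin (N + 1) → Ω} {c : Ω} (hc : c ≠ 0) (hB : ∃ e, B.IsHomogeneous e) :
    aeval (c • x) B = 0 ↔ aeval x B = 0 := by
  obtain ⟨e, he⟩ := hB
  rw [ev_smul he]
  constructor
  · intro h
    exact (mul_eq_zero.1 h).resolve_left (pow_ne_zero _ hc)
  · intro h
    rw [h, mul_zero]

/-- the points of the image -/
theorem finite_push {N : ℕ} {κ : Type} {F : ι → MvPolynomial (Fin (n + 1)) K}
    {S' T' : Set (MvPolynomial (Fin (N + 1)) K)} {A : Fin (N + 1) → MvPolynomial (Fin (n + 1)) K}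
    (hE : WEmb (Set.range F) S' A) (hF : Forms F) {L : Type} [Field L] [Algebra K L]
    {G : κ → MvPolynomial (Fin (n + 1)) K} (hG : Forms G)
    (hGG : ∀ x : Fin (n + 1) → L, x ≠ 0 → (∀ i, aeval x (F i) = 0) →
      (∀ k, aeval x (G k) = 0) → On T' (at' A x))
    (hfin : (projPoints F L \ projPoints G L).Finite) :
    {P : ℙ L (Fin (N + 1) → L) | On S' P.rep ∧ ¬ On T' P.rep}.Finite := by
  classical
  choose! x hx0 hxS hxA using fun (P : ℙ L (Fin (N + 1) → L)) (hP : On S' P.rep) =>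
    hE.surj L P.rep P.rep_nonzero hP
  obtain ⟨ψ, hψ⟩ : ∃ ψ : ℙ L (Fin (N + 1) → L) → ℙ L (Fin (n + 1) → L), ∀ P (hP : x P ≠ 0),
      ψ P = Projectivization.mk L (x P) hP := by
    refine ⟨fun P => if h : x P = 0 then Projectivization.mk L (fun _ => 1) (fun h2 =>
      one_ne_zero (congrFun h2 0)) else Projectivization.mk L (x P) h, fun P hP => ?_⟩
    simp only [dif_neg hP]
  refine Set.Finite.of_finite_image (f := ψ) (hfin.subset ?_) ?_
  · rintro _ ⟨P, ⟨hP, hPT⟩, rfl⟩
    rw [hψ P (hx0 P hP)]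
    refine ⟨fun i => ?_, fun h1 => hPT ?_⟩
    · rw [rep_iff (hF i)]
      exact (on_iff F _).1 (hxS P hP) i
    · have h2 := hGG (x P) (hx0 P hP) ((on_iff F _).1 (hxS P hP)) fun k =>
        (rep_iff (hG k) (hx0 P hP)).1 (h1 k)
      rwa [hxA P hP] at h2
  · rintro P ⟨hP, -⟩ P' ⟨hP', -⟩ hPP
    rw [hψ P (hx0 P hP), hψ P' (hx0 P' hP')] at hPP
    obtain ⟨a, ha⟩ := (Projectivization.mk_eq_mk_iff L _ _ _ _).1 hPP
    have h1 : (a : L) • x P' = x P := ha
    have h2 : P.rep = (a : L) • P'.rep := by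
      rw [← hxA P hP, ← h1, lin_smul hE.lin, hxA P' hP']
    rw [← P.mk_rep, ← P'.mk_rep, Projectivization.mk_eq_mk_iff]
    exact ⟨a, h2.symm⟩

/-- the transfer of the relative equivalence -/
theorem blv_transfer {N : ℕ} {κ : Type} {F : ι → MvPolynomial (Fin (n + 1)) K}
    {S' : Set (MvPolynomial (Fin (N + 1)) K)} {A : Fin (N + 1) → MvPolynomial (Fin (n + 1)) K}
    (hF : Forms F) (hE : WEmb (Set.range F) S' A) {B : MvPolynomial (Fin (N + 1)) K}
    (hB : ∃ e, B.IsHomogeneous e)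
    (h : ∀ (Ω : Type) [Field Ω] [Algebra K Ω] (z : Fin (N + 1) → Ω), On S' z → aeval z B = 0)
    (σ : K →+* ℂ) (hO : Outside S' B σ)
    (hY : ∀ (κ : Type) (G : κ → MvPolynomial (Fin (N + 1)) K), (∀ k, ∃ e, (G k).IsHomogeneous e) →
      ProjectiveBLV σ (fun _ : Unit => B) G)
    {G : κ → MvPolynomial (Fin (n + 1)) K} (hG : Forms G) : ProjectiveBLV σ F G := by
  let _ : Algebra K ℂ := σ.toAlgebra
  obtain ⟨T', hT', hTT⟩ := hE.closed (Set.range G) (forms_range hG)
  have hST : ∀ k : ((S' ∪ T' : Set (MvPolynomial (Fin (N + 1)) K))),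
      ∃ e, (k : MvPolynomial (Fin (N + 1)) K).IsHomogeneous e :=
    fun k => k.2.elim (hE.forms' k) (hT' k)
  have h1 := hY _ (fun k : ((S' ∪ T' : Set (MvPolynomial (Fin (N + 1)) K))) =>
    (k : MvPolynomial (Fin (N + 1)) K)) hST
  have h2 := hY _ (fun k : (S' : Set (MvPolynomial (Fin (N + 1)) K)) =>
    (k : MvPolynomial (Fin (N + 1)) K)) fun k => hE.forms' k k.2
  -- nonconstant curves
  have hnc : ∀ {M : ℕ} {g : ℂ → Fin (M + 1) → ℂ}, (∃ z w, ∀ c : ℂ, g w ≠ c • g z) →
      ¬ ∀ z w, ∃ c : ℂ, g w = c • g z := by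
    rintro M g ⟨z, w, hzw⟩ h3
    obtain ⟨c, hc⟩ := h3 z w
    exact hzw c hc
  have hX' : ∀ (L : Type) [Field L] [NumberField L] [Algebra K L],
      (projPoints (fun _ : Unit => B) L \ projPoints (fun k : (S' : Set _) =>
        (k : MvPolynomial (Fin (N + 1)) K)) L).Finite := by
    refine h2.1 fun g hg hg0 hgB hgn z k => ?_
    rcases hO.curves g hg hg0 (fun z => by rw [eval_map]; exact hgB z ()) with h3 | h3
    · exact absurd h3 (hnc hgn)
    · have h4 := h3 z k k.2
      rwa [eval_map] at h4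
  unfold ProjectiveBLV
  constructor
  · intro hcur L _ _ _
    have h3 : (projPoints (fun _ : Unit => B) L \ projPoints
        (fun k : ((S' ∪ T' : Set (MvPolynomial (Fin (N + 1)) K))) =>
          (k : MvPolynomial (Fin (N + 1)) K)) L).Finite := by
      refine h1.1 (fun g hg hg0 hgB hgn z k => ?_) L
      rcases curves_on hE σ hO hg hg0 (fun z => hgB z ()) with h3 | ⟨f, hf, hf0, hfF, hgf⟩
      · exact absurd h3 (hnc hgn)
      · have hon : ∀ z, On (Set.range F) (f z) := fun z => (on_iff F (f z)).2 (hfF z)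
        have hgz : ∀ z, g z = at' A (f z) := fun z => funext fun i => hgf z i
        have hfn : ∃ z w, ∀ c : ℂ, f w ≠ c • f z := by
          obtain ⟨z, w, hzw⟩ := hgn
          refine ⟨z, w, fun c hc => hzw c ?_⟩
          rw [hgz, hgz, hc, lin_smul hE.lin]
        have h4 : On (Set.range G) (f z) := (on_iff G (f z)).2 (hcur f hf hf0 hfF hfn z)
        have h5 := (hTT ℂ (f z) (hf0 z) (hon z)).1 h4
        rcases k.2 with hk | hk
        · rw [hgz]
          exact hE.map ℂ (f z) (hon z) k hk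
        · rw [hgz]
          exact h5 k hk
    exact finite_diff hE hB (fun z hz => h L z hz) hST (fun x hx hxF hxG =>
      (on_iff G x).1 ((hTT L x hx ((on_iff F x).2 hxF)).2 fun Q hQ =>
        hxG ⟨Q, Or.inr hQ⟩)) h3
  · intro hfin f hf hf0 hfF hfn z k
    have h3 : ∀ (L : Type) [Field L] [NumberField L] [Algebra K L],
        (projPoints (fun _ : Unit => B) L \ projPoints
        (fun k : ((S' ∪ T' : Set (MvPolynomial (Fin (N + 1)) K))) =>
          (k : MvPolynomial (Fin (N + 1)) K)) L).Finite := by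
      intro L _ _ _
      refine ((hX' L).union (finite_push hE hF hG (fun x hx hxF hxG =>
        (hTT L x hx ((on_iff F x).2 hxF)).1 ((on_iff G x).2 hxG)) (hfin L))).subset ?_
      rintro P ⟨hP, hPG⟩
      by_cases hPS : On S' P.rep
      · right
        refine ⟨hPS, fun hPT => hPG fun k => ?_⟩
        rcases k.2 with hk | hk
        · exact hPS k hk
        · exact hPT k hk
      · left
        exact ⟨hP, fun h4 => hPS fun Q hQ => h4 ⟨Q, hQ⟩⟩
    have hon : ∀ z, On (Set.range F) (f z) := fun z => (on_iff F (f z)).2 (hfF z)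
    have h4 := h1.2 (fun L _ _ _ => h3 L) (fun z => at' A (f z)) (diff_at_entire A hf)
      (fun z => hE.ne_zero (hf0 z) (hon z)) (fun z _ => h ℂ _ (hE.map ℂ (f z) (hon z))) (by
        obtain ⟨z, w, hzw⟩ := hfn
        exact ⟨z, w, fun c hc => hzw c (hE.inj ℂ _ _ c (hon z) (hon w) hc)⟩) z
    have h5 : On T' (at' A (f z)) := fun Q hQ => h4 ⟨Q, Or.inr hQ⟩
    exact (on_iff G (f z)).1 ((hTT ℂ (f z) (hf0 z) (hon z)).2 h5) k

end Pool.Agent.H911.EM
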