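import Pool.Agent.H911.EM.Proj

/-!
One projection: local inverses.
-/

set_option autoImplicit false

namespace Pool.Agent.H911.EM

open MvPolynomial
open Pool.Agent.H911.QR (homb homb_hom homb_eval)

variable {K : Type} [Field K]

/-- homogenization of degree `k` -/
noncomputable def homk {n : ℕ} (a : Fin (n + 1)) (k : ℕ) (G : MvPolynomial (Fin (n + 1)) K) :
    MvPolynomial (Fin (n + 1)) K := X a ^ (k - G.totalDegree) * homb a G

theorem homk_hom {n : ℕ} (a : Fin (n + 1)) {k : ℕ} {G : MvPolynomial (Fin (n + 1)) K}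
    (h : G.totalDegree ≤ k) : (homk a k G).IsHomogeneous k := by
  have h1 := ((isHomogeneous_X K a).pow (k - G.totalDegree)).mul (homb_hom a G)
  have h2 : 1 * (k - G.totalDegree) + G.totalDegree = k := by omega
  rwa [h2] at h1

theorem homk_eval {n : ℕ} {a : Fin (n + 1)} (k : ℕ) (G : MvPolynomial (Fin (n + 1)) K) {Ω : Type}
    [Field Ω] [Algebra K Ω] (x : Fin (n + 1) → Ω) (hx : x a = 1) :
    aeval x (homk a k G) = aeval x G := by
  unfold homk
  rw [map_mul, map_pow, aeval_X, hx, one_pow, one_mul, homb_eval x hx]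

theorem on_map {n : ℕ} {S : Set (MvPolynomial (Fin (n + 1)) K)} {Ω Ω' : Type} [Field Ω]
    [Algebra K Ω] [Field Ω'] [Algebra K Ω'] [Algebra Ω Ω'] [IsScalarTower K Ω Ω']
    {x : Fin (n + 1) → Ω} : On S (fun j => algebraMap Ω Ω' (x j)) ↔ On S x := by
  have h1 : ∀ F : MvPolynomial (Fin (n + 1)) K,
      aeval (fun j => algebraMap Ω Ω' (x j)) F = algebraMap Ω Ω' (aeval x F) := by
    intro F
    exact aeval_algebraMap_apply Ω' x F
  unfold On
  refine forall_congr' fun F => forall_congr' fun _ => ?_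
  rw [h1]
  exact map_eq_zero _

/-- the data of a projection -/
structure Ctr {n : ℕ} (S : Set (MvPolynomial (Fin (n + 1 + 1)) K)) (P : Fin (n + 2) → K) : Prop where
  forms : ∀ F ∈ S, ∃ e, F.IsHomogeneous e
  one : P 0 = 1
  sec : ∀ (Ω : Type) [Field Ω] [Algebra K Ω] (x u : Fin (n + 2) → Ω) (c : Ω), On S x → On S u →
    (x - u = c • fun j => algebraMap K Ω (P j)) → x = u
  tan : ∀ (Ω : Type) [Field Ω] [Algebra K Ω] (x : Fin (n + 2) → Ω), On S x → x ≠ 0 →
    (fun j => algebraMap K Ω (P j)) ∉ Tan S x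

section

variable {n : ℕ} {S : Set (MvPolynomial (Fin (n + 1 + 1)) K)} {P : Fin (n + 2) → K}

theorem prj_inj (hP : Ctr S P) {Ω : Type} [Field Ω] [Algebra K Ω] {x u : Fin (n + 2) → Ω}
    (hx : On S x) (hu : On S u) (h : at' (prj P) x = at' (prj P) u) : x = u := by
  refine hP.sec Ω x u (x 0 - u 0) hx hu ?_
  funext j
  rw [Pi.sub_apply, Pi.smul_apply, smul_eq_mul]
  refine Fin.cases ?_ (fun i => ?_) j
  · rw [hP.one, map_one, mul_one]
  · have h1 := congrFun h i
    rw [prj_at, prj_at] at h1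
    linear_combination h1

/-- the ideal of the functions vanishing on the part `z_a = 1` -/
noncomputable def idl (S : Set (MvPolynomial (Fin (n + 1 + 1)) K)) (P : Fin (n + 2) → K)
    (a : Fin (n + 1)) : Ideal (Polynomial (MvPolynomial (Fin (n + 1)) K)) where
  carrier := {F | ∀ (Ω : Type) [Field Ω] [Algebra K Ω] (x : Fin (n + 2) → Ω), On S x →
    at' (prj P) x a = 1 → Polynomial.eval₂
      (aeval (at' (prj P) x) : MvPolynomial (Fin (n + 1)) K →ₐ[K] Ω).toRingHom (x 0) F = 0}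
  add_mem' := by
    intro p q hp hq Ω _ _ x hx ha
    rw [Polynomial.eval₂_add, hp Ω x hx ha, hq Ω x hx ha, add_zero]
  zero_mem' := by
    intro Ω _ _ x hx ha
    exact Polynomial.eval₂_zero _ _
  smul_mem' := by
    intro c p hp Ω _ _ x hx ha
    rw [smul_eq_mul, Polynomial.eval₂_mul, hp Ω x hx ha, mul_zero]

theorem mem_idl {a : Fin (n + 1)} {F : Polynomial (MvPolynomial (Fin (n + 1)) K)} :
    F ∈ idl S P a ↔ ∀ (Ω : Type) [Field Ω] [Algebra K Ω] (x : Fin (n + 2) → Ω), On S x →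
    at' (prj P) x a = 1 → Polynomial.eval₂
      (aeval (at' (prj P) x) : MvPolynomial (Fin (n + 1)) K →ₐ[K] Ω).toRingHom (x 0) F = 0 := Iff.rfl

theorem tl_mem {a : Fin (n + 1)} {F : MvPolynomial (Fin (n + 1 + 1)) K} (hF : F ∈ S) :
    aeval (tl P) F ∈ idl S P a := by
  rw [mem_idl]
  intro Ω _ _ x hx ha
  rw [tl_eval, pt_prj]
  exact hx F hF

theorem on_of_idl {a : Fin (n + 1)} {Ω : Type} [Field Ω] [Algebra K Ω] {z : Fin (n + 1) → Ω} {t : Ω}
    (h : ∀ F ∈ idl S P a, Polynomial.eval₂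
      (aeval z : MvPolynomial (Fin (n + 1)) K →ₐ[K] Ω).toRingHom t F = 0) : On S (pt P z t) := by
  intro F hF
  rw [← tl_eval]
  exact h _ (tl_mem hF)

theorem exists_monic (hP : Ctr S P) (a : Fin (n + 1)) : ∃ G ∈ idl S P a, G.Monic := by
  obtain ⟨F, hF, hFP⟩ : ∃ F ∈ S, eval P F ≠ 0 := by
    by_contra hcon
    push Not at hcon
    have h1 : On S P := by
      intro F hF
      rw [← hcon F hF]
      rfl
    have h2 : On S ((0 : K) • P) := on_smul hP.forms h1 0
    have h3 := hP.sec K P ((0 : K) • P) 1 h1 h2 (by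
      rw [zero_smul, sub_zero, one_smul]
      rfl)
    have h4 := congrFun h3 0
    rw [hP.one, zero_smul] at h4
    exact one_ne_zero h4
  obtain ⟨d, hd⟩ := hP.forms F hF
  obtain ⟨h1, h2⟩ := tl_lead P hP.one hd
  refine ⟨Polynomial.C (C (eval P F)⁻¹) * aeval (tl P) F, Ideal.mul_mem_left _ _ (tl_mem hF),
    Polynomial.monic_of_natDegree_le_of_coeff_eq_one d
      ((Polynomial.natDegree_C_mul_le _ _).trans h1) ?_⟩
  rw [Polynomial.coeff_C_mul, h2, ← map_mul, inv_mul_cancel₀ hFP, map_one]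

/-- the affine local inverse -/
theorem aff_inv (hP : Ctr S P) (a : Fin (n + 1)) {Ω : Type} [Field Ω] [Algebra K Ω]
    {x : Fin (n + 2) → Ω} (hx : On S x) (ha : at' (prj P) x a = 1) :
    ∃ H r : MvPolynomial (Fin (n + 1)) K, aeval (at' (prj P) x) H ≠ 0 ∧
      Polynomial.C H * Polynomial.X - Polynomial.C r ∈ idl S P a := by
  obtain ⟨G, hG, hGm⟩ := exists_monic hP a
  have hx0 : x ≠ 0 := by
    intro h
    rw [h, prj_at, Pi.zero_apply, Pi.zero_apply, mul_zero, sub_zero] at ha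
    exact zero_ne_one ha
  refine local_inv (idl S P a) G hG hGm
    (aeval (at' (prj P) x) : MvPolynomial (Fin (n + 1)) K →ₐ[K] Ω).toRingHom (x 0)
    (fun F hF => hF Ω x hx ha) ?_ ?_
  · intro t ht
    have h1 : ((algebraMap Ω (AlgebraicClosure Ω)).comp
        (aeval (at' (prj P) x) : MvPolynomial (Fin (n + 1)) K →ₐ[K] Ω).toRingHom) =
        (aeval (fun j => algebraMap Ω (AlgebraicClosure Ω) (at' (prj P) x j)) :
          MvPolynomial (Fin (n + 1)) K →ₐ[K] AlgebraicClosure Ω).toRingHom := by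
      ext G
      · change algebraMap Ω (AlgebraicClosure Ω) (aeval _ (C G)) = aeval _ (C G)
        rw [aeval_C, aeval_C, ← IsScalarTower.algebraMap_apply]
      · change algebraMap Ω (AlgebraicClosure Ω) (aeval _ (X G)) = aeval _ (X G)
        rw [aeval_X, aeval_X]
    rw [h1] at ht
    have h2 := on_of_idl ht
    have h3 : On S (fun j => algebraMap Ω (AlgebraicClosure Ω) (x j)) := on_map.2 hx
    have h4 : at' (prj P) (fun j => algebraMap Ω (AlgebraicClosure Ω) (x j)) =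
        fun j => algebraMap Ω (AlgebraicClosure Ω) (at' (prj P) x j) := by
      funext j
      exact aeval_algebraMap_apply _ x _
    have h5 := prj_inj hP h2 h3 (by rw [prj_pt, h4])
    have h6 := congrFun h5 0
    unfold pt at h6
    rw [Fin.cons_zero] at h6
    exact h6
  · have h1 := hP.tan Ω x hx hx0
    rw [mem_tan] at h1
    push Not at h1
    obtain ⟨F, hF, hFP⟩ := h1
    refine ⟨aeval (tl P) F, tl_mem hF, ?_⟩
    rw [tl_deriv P hP.one, pt_prj]
    exact hFP

/-- the homogeneous local inverse -/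
theorem hom_inv (hP : Ctr S P) {Ω : Type} [Field Ω] [Algebra K Ω] {x : Fin (n + 2) → Ω}
    (hx : On S x) (hx0 : x ≠ 0) : ∃ (k : ℕ) (H : MvPolynomial (Fin (n + 1)) K)
      (R : Fin (n + 1 + 1) → MvPolynomial (Fin (n + 1)) K), H.IsHomogeneous k ∧
      (∀ j, (R j).IsHomogeneous (k + 1)) ∧ aeval (at' (prj P) x) H ≠ 0 ∧
      (∀ (Ω' : Type) [Field Ω'] [Algebra K Ω'] (z : Fin (n + 1) → Ω'),
        at' (prj P) (at' R z) = aeval z H • z) ∧
      ∀ (Ω' : Type) [Field Ω'] [Algebra K Ω'] (u : Fin (n + 1 + 1) → Ω'), On S u →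
        at' R (at' (prj P) u) = aeval (at' (prj P) u) H • u := by
  have hz0 : at' (prj P) x ≠ 0 := by
    intro h
    apply hx0
    have h1 : On S ((0 : Ω) • x) := on_smul hP.forms hx 0
    refine (prj_inj hP hx h1 ?_).trans (zero_smul _ _)
    rw [h, at_smul (prj_hom P), h, smul_zero]
  obtain ⟨a, ha⟩ : ∃ a, at' (prj P) x a ≠ 0 := by
    by_contra hcon
    push Not at hcon
    exact hz0 (funext hcon)
  have hsc : ∀ (Ω' : Type) [Field Ω'] [Algebra K Ω'] (u : Fin (n + 1 + 1) → Ω') (c : Ω'),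
      at' (prj P) (c • u) = c • at' (prj P) u := by
    intro Ω' _ _ u c
    rw [at_smul (prj_hom P), pow_one]
  have h1 : at' (prj P) ((at' (prj P) x a)⁻¹ • x) a = 1 := by
    rw [hsc, Pi.smul_apply, smul_eq_mul, inv_mul_cancel₀ ha]
  obtain ⟨H₀, r₀, hH₀, hr⟩ := aff_inv hP a (on_smul hP.forms hx (at' (prj P) x a)⁻¹) h1
  obtain ⟨k, hk⟩ : ∃ k, k = max H₀.totalDegree r₀.totalDegree := ⟨_, rfl⟩
  obtain ⟨H, hH⟩ : ∃ H, H = X a * homk a k H₀ := ⟨_, rfl⟩
  obtain ⟨R₀, hR₀⟩ : ∃ R₀, R₀ = X a * homk a (k + 1) r₀ := ⟨_, rfl⟩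
  have hHh : H.IsHomogeneous (1 + k) := by
    rw [hH]
    exact (isHomogeneous_X K a).mul (homk_hom a (by rw [hk]; exact le_max_left _ _))
  have hRh : R₀.IsHomogeneous (1 + (k + 1)) := by
    rw [hR₀]
    exact (isHomogeneous_X K a).mul
      (homk_hom a (by rw [hk]; exact (le_max_right _ _).trans (Nat.le_succ _)))
  have hev1 : ∀ (Ω' : Type) [Field Ω'] [Algebra K Ω'] (z : Fin (n + 1) → Ω'), z a = 1 →
      aeval z H = aeval z H₀ ∧ aeval z R₀ = aeval z r₀ := by
    intro Ω' _ _ z hz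
    rw [hH, hR₀, map_mul, map_mul, aeval_X, hz, one_mul, one_mul, homk_eval k H₀ z hz,
      homk_eval (k + 1) r₀ z hz]
    exact ⟨rfl, rfl⟩
  have hev0 : ∀ (Ω' : Type) [Field Ω'] [Algebra K Ω'] (z : Fin (n + 1) → Ω'), z a = 0 →
      aeval z H = 0 ∧ aeval z R₀ = 0 := by
    intro Ω' _ _ z hz
    rw [hH, hR₀, map_mul, map_mul, aeval_X, hz, zero_mul, zero_mul]
    exact ⟨rfl, rfl⟩
  have key : ∀ (Ω' : Type) [Field Ω'] [Algebra K Ω'] (u : Fin (n + 1 + 1) → Ω'), On S u →
      aeval (at' (prj P) u) R₀ = aeval (at' (prj P) u) H * u 0 := by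
    intro Ω' _ _ u hu
    by_cases hs : at' (prj P) u a = 0
    · rw [(hev0 Ω' _ hs).1, (hev0 Ω' _ hs).2, zero_mul]
    · obtain ⟨v, hv⟩ : ∃ v, v = (at' (prj P) u a)⁻¹ • u := ⟨_, rfl⟩
      have hvu : u = at' (prj P) u a • v := by
        rw [hv, smul_smul, mul_inv_cancel₀ hs, one_smul]
      have hvS : On S v := by
        rw [hv]
        exact on_smul hP.forms hu _
      have hva : at' (prj P) v a = 1 := by
        rw [hv, hsc, Pi.smul_apply, smul_eq_mul, inv_mul_cancel₀ hs]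
      have h2 := hr Ω' v hvS hva
      rw [Polynomial.eval₂_sub, Polynomial.eval₂_mul, Polynomial.eval₂_C, Polynomial.eval₂_X,
        Polynomial.eval₂_C, sub_eq_zero] at h2
      have h3 : aeval (at' (prj P) v) H₀ * v 0 = aeval (at' (prj P) v) r₀ := h2
      rw [← (hev1 Ω' _ hva).1, ← (hev1 Ω' _ hva).2] at h3
      obtain ⟨s, hs'⟩ : ∃ s, s = at' (prj P) u a := ⟨_, rfl⟩
      rw [← hs'] at hvu
      rw [hvu, hsc, ev_smul hHh, ev_smul hRh, ← h3, Pi.smul_apply, smul_eq_mul]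
      ring
  refine ⟨1 + k, H, Fin.cons R₀ fun i => H * X i + C (P i.succ) * R₀, hHh, ?_, ?_, ?_, ?_⟩
  · intro j
    refine Fin.cases ?_ (fun i => ?_) j
    · rw [Fin.cons_zero]
      exact hRh
    · rw [Fin.cons_succ]
      refine (hHh.mul (isHomogeneous_X K i)).add ?_
      have h2 := (isHomogeneous_C (Fin (n + 1)) (P i.succ)).mul hRh
      rw [zero_add] at h2
      exact h2
  · have h2 := (hev1 Ω _ h1).1
    rw [hsc, ev_smul hHh] at h2
    intro h3
    rw [h3, mul_zero] at h2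
    apply hH₀
    rw [hsc]
    exact h2.symm
  · intro Ω' _ _ z
    funext i
    rw [prj_at]
    unfold at'
    rw [Fin.cons_succ, Fin.cons_zero, map_add, map_mul, map_mul, aeval_X, aeval_C, Pi.smul_apply,
      smul_eq_mul]
    ring
  · intro Ω' _ _ u hu
    funext j
    rw [Pi.smul_apply, smul_eq_mul]
    refine Fin.cases ?_ (fun i => ?_) j
    · rw [← key Ω' u hu]
      rfl
    · have h2 := key Ω' u hu
      have h3 := prj_at P u i
      change aeval (at' (prj P) u) (H * X i + C (P i.succ) * R₀) = _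
      rw [map_add, map_mul, map_mul, aeval_X, aeval_C, h2, h3]
      ring

end

end Pool.Agent.H911.EM
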