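import Pool.Agent.H911.EM.ExcH

/-!
Holomorphic maps of several variables.
-/

set_option autoImplicit false

namespace Pool.Agent.H911.EM

open MvPolynomial Filter Topology
open Pool.Agent.N254.SQ (Eqs IsForm Gen NotIn OnSab sb_id sb_id1 sb_par sb_diff sb_eval
  diff_evalOn eval_scale)

section

variable {K : Type} [Field K] {N : ℕ}

/-- a nonconstant holomorphic map to the hypersurface has its values in `V(S')` -/
theorem Outside.line {S' : Set (MvPolynomial (Fin (N + 1)) K)} {B : MvPolynomial (Fin (N + 1)) K}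
    {σ : K →+* ℂ} (hO : Outside S' B σ) {e : ℕ} (hB : B.IsHomogeneous e)
    (hS' : ∀ F ∈ S', ∃ e, F.IsHomogeneous e) {E : Type} [NormedAddCommGroup E] [NormedSpace ℂ E]
    {F : E → Fin (N + 1) → ℂ} (hF : Differentiable ℂ F) (hFB : ∀ p, eval (F p) (map σ B) = 0)
    (hne : ∃ p q i j, F p i * F q j ≠ F p j * F q i) (p : E) (hp : F p ≠ 0) :
    ∀ G ∈ S', eval (F p) (map σ G) = 0 := by
  -- a second point whose image is different
  obtain ⟨q, i0, j0, hq⟩ : ∃ q i j, F p i * F q j ≠ F p j * F q i := by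
    by_contra hcon
    push Not at hcon
    obtain ⟨p1, q1, i, j, hne'⟩ := hne
    obtain ⟨c, hc⟩ := sb_par hp (hcon p1)
    obtain ⟨c', hc'⟩ := sb_par hp (hcon q1)
    apply hne'
    rw [hc, hc']
    simp only [Pi.smul_apply, smul_eq_mul]
    ring
  -- the restriction to a line
  have hl : Differentiable ℂ (fun s : ℂ => p + s • (q - p)) :=
    (differentiable_id.smul_const (q - p)).const_add p
  obtain ⟨f, hfF⟩ : ∃ f : ℂ → Fin (N + 1) → ℂ, ∀ s, f s = F (p + s • (q - p)) := ⟨_, fun _ => rfl⟩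
  have hf : Differentiable ℂ f := by
    have : f = F ∘ fun s : ℂ => p + s • (q - p) := funext hfF
    rw [this]
    exact hF.comp hl
  have f0 : f 0 = F p := by rw [hfF, zero_smul, add_zero]
  have f1 : f 1 = F q := by rw [hfF, one_smul, add_sub_cancel]
  have hfA : ∀ s, eval (f s) (map σ B) = 0 := fun s => by rw [hfF]; exact hFB _
  obtain ⟨a, ha⟩ : ∃ a, F p a ≠ 0 := by
    by_contra hcon
    push Not at hcon
    exact hp (funext hcon)
  obtain ⟨g, v, hg1, hv1, hfac, hv0⟩ := Pool.Agent.N133.WZ.reduce (fun j s => f s j)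
    (fun j => differentiable_pi.1 hf j) (j0 := a) (z0 := 0) (by rw [f0]; exact ha)
  obtain ⟨w, hw⟩ : ∃ w : ℂ → Fin (N + 1) → ℂ, ∀ s j, w s j = v j s := ⟨fun s j => v j s, fun _ _ => rfl⟩
  have hw1 : Differentiable ℂ w := differentiable_pi.2 fun j => by
    have : (fun s => w s j) = v j := funext fun s => hw s j
    rw [this]
    exact hv1 j
  have hw0 : ∀ s, w s ≠ 0 := by
    intro s h
    obtain ⟨j, hj⟩ := hv0 s
    apply hj
    rw [← hw, h, Pi.zero_apply]
  have hfw : ∀ s, f s = g s • w s := by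
    intro s
    funext j
    rw [Pi.smul_apply, smul_eq_mul, hw]
    exact hfac j s
  have hg0 : g 0 ≠ 0 := by
    intro h
    apply ha
    rw [← f0, hfw, h, zero_smul, Pi.zero_apply]
  -- the reduced curve lies on the hypersurface
  have hwA : ∀ s, eval (w s) (map σ B) = 0 := by
    refine sb_id1 (b := fun s => g s ^ e) ?_ (hg1.fun_pow e) (fun s => ?_) ⟨0, pow_ne_zero e hg0⟩
    · rw [← differentiableOn_univ]
      exact diff_evalOn _ hw1.differentiableOn
    · have h1 := hfA s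
      rw [hfw, eval_scale (hB.map σ)] at h1
      rw [mul_comm]
      exact h1
  rcases hO.curves w hw1 hw0 hwA with h4 | h4
  · exfalso
    obtain ⟨c, hc⟩ := h4 0 1
    apply hq
    rw [← f0, ← f1, hfw, hfw, hc]
    simp only [Pi.smul_apply, smul_eq_mul]
    ring
  · intro G hG
    obtain ⟨d, hd⟩ := hS' G hG
    rw [← f0, hfw, eval_scale (hd.map σ), h4 0 G hG, mul_zero]

end

theorem Outside.onSab {N : ℕ} {S' : Set (MvPolynomial (Fin (N + 1)) ℂ)}
    {B : MvPolynomial (Fin (N + 1)) ℂ} (hO : Outside S' B (RingHom.id ℂ)) (hB : IsForm B)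
    (hS' : ∀ F ∈ S', IsForm F) {G : MvPolynomial (Fin (N + 1)) ℂ} (hG : G ∈ S') :
    OnSab {B} G := by
  intro g r L hL hs F h1 h2 h3 h4
  by_cases hcon : ∀ p p' i j, F p i * F p' j = F p j * F p' i
  · exact Or.inl hcon
  right
  push Not at hcon
  have hd := sb_diff h1
  obtain ⟨e, he⟩ := hB
  have key : ∀ p, F p ≠ 0 → eval (F p) G = 0 := by
    intro p hp
    have h5 := hO.line he hS' hd (fun p => by rw [MvPolynomial.map_id]; exact h3 p B rfl) hcon p hp
      G hG
    rwa [MvPolynomial.map_id] at h5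
  intro p
  by_cases hp : F p = 0
  · obtain ⟨q, hq⟩ := h2
    obtain ⟨d, hd'⟩ := hS' G hG
    rw [hp]
    exact form_zero hd' (F q) (key q hq)
  · exact key p hp

/-! ### lifting maps of several variables under embeddings -/

section lift

variable {K : Type} [Field K] {n N : ℕ} {S : Set (MvPolynomial (Fin (n + 1)) K)}
  {S' : Set (MvPolynomial (Fin (N + 1)) K)} {A : Fin (N + 1) → MvPolynomial (Fin (n + 1)) K}

theorem diff_aeval_E [Algebra K ℂ] {E : Type} [NormedAddCommGroup E] [NormedSpace ℂ E]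
    (P : MvPolynomial (Fin (n + 1)) K) {g : E → Fin (n + 1) → ℂ} (hg : Differentiable ℂ g) :
    Differentiable ℂ (fun z => aeval (g z) P) := by
  have hgj : ∀ j, Differentiable ℂ (fun z => g z j) := fun j => differentiable_pi.1 hg j
  induction P using MvPolynomial.induction_on with
  | C c =>
    simp only [← algebraMap_eq, AlgHom.commutes]
    exact differentiable_const _
  | add p q hp hq =>
    simp only [map_add]
    exact hp.add hq
  | mul_X p j hp =>
    simp only [map_mul, aeval_X]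
    exact hp.mul (hgj j)

theorem diff_at_E [Algebra K ℂ] {E : Type} [NormedAddCommGroup E] [NormedSpace ℂ E]
    (R : Fin (N + 1) → MvPolynomial (Fin (n + 1)) K) {g : E → Fin (n + 1) → ℂ}
    (hg : Differentiable ℂ g) : Differentiable ℂ (fun z => at' R (g z)) := by
  rw [differentiable_pi]
  intro i
  exact diff_aeval_E (R i) hg

/-- holomorphic maps to the image can be lifted -/
theorem Emb.lift_E [Algebra K ℂ] {E : Type} [NormedAddCommGroup E] [NormedSpace ℂ E]
    (hS : ∀ F ∈ S, ∃ e, F.IsHomogeneous e) (hE : Emb S S' A)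
    {g : E → Fin (N + 1) → ℂ} (hg : Differentiable ℂ g)
    (hg0 : ∀ z, g z ≠ 0) (hgS : ∀ z, On S' (g z)) :
    ∃ f : E → Fin (n + 1) → ℂ, Differentiable ℂ f ∧
      ∀ z, f z ≠ 0 ∧ On S (f z) ∧ at' A (f z) = g z := by
  classical
  choose f hf0 hfS hfA using fun (z : E) => hE.preim hS (hg0 z) (hgS z)
  refine ⟨f, ?_, fun z => ⟨hf0 z, hfS z, hfA z⟩⟩
  intro z₀
  obtain ⟨k, H, R, hH, hR, h0, -, h2⟩ := hE.inv ℂ (g z₀) (hg0 z₀) (hgS z₀)
  have hdH := diff_aeval_E H hg
  have hdR := diff_at_E R hg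
  have hnear : ∀ᶠ z in 𝓝 z₀, aeval (g z) H ≠ 0 :=
    (hdH.continuous.continuousAt (x := z₀)).eventually_ne h0
  have heq : f =ᶠ[𝓝 z₀] fun z => (aeval (g z) H)⁻¹ • at' R (g z) := by
    filter_upwards [hnear] with z hz1
    have h3 := h2 ℂ (f z) (hfS z)
    rw [hfA z] at h3
    rw [h3, smul_smul, inv_mul_cancel₀ hz1, one_smul]
  have h4 : DifferentiableAt ℂ (fun z => (aeval (g z) H)⁻¹ • at' R (g z)) z₀ := by
    have h5 := hdH z₀
    have h6 := hdR z₀
    exact (h5.fun_inv h0).fun_smul h6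
  exact h4.congr_of_eventuallyEq heq

end lift

/-- Every holomorphic map from a complex torus `ℂ^g / L` to `V(S)` (given by a vector of entire functions on
`ℂ^g` without common zeros) is constant. -/
def NoTori {n : ℕ} (S : Set (MvPolynomial (Fin (n + 1)) ℂ)) : Prop :=
  ∀ (g : ℕ) (L : AddSubgroup (Fin g → ℂ)), DiscreteTopology L →
    Submodule.span ℝ (L : Set (Fin g → ℂ)) = ⊤ →
    ∀ F : (Fin g → ℂ) → Fin (n + 1) → ℂ, Differentiable ℂ F → (∀ z, F z ≠ 0) →
      (∀ z, ∀ p ∈ S, eval (F z) p = 0) → (∀ z, ∀ l ∈ L, ∃ c : ℂ, F (z + l) = c • F z) →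
      ∀ z w, ∃ c : ℂ, F w = c • F z

/-- Every holomorphic map from `ℂ` to `V(S)` is constant. -/
def NoCurves {n : ℕ} (S : Set (MvPolynomial (Fin (n + 1)) ℂ)) : Prop :=
  ∀ f : ℂ → Fin (n + 1) → ℂ, Differentiable ℂ f → (∀ z, f z ≠ 0) →
    (∀ z, ∀ p ∈ S, eval (f z) p = 0) → ∀ z w, ∃ c : ℂ, f w = c • f z

section

variable {n N : ℕ} {S : Set (MvPolynomial (Fin (n + 1)) ℂ)} {S' : Set (MvPolynomial (Fin (N + 1)) ℂ)}
  {A : Fin (N + 1) → MvPolynomial (Fin (n + 1)) ℂ} {B : MvPolynomial (Fin (N + 1)) ℂ}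

/-- maps from tori to the hypersurface are in the variety -/
theorem tori_on (hS : ∀ F ∈ S, IsForm F) (hS' : ∀ F ∈ S', IsForm F) (hE : Emb S S' A)
    (hB : Hy S' B) {g : ℕ} {L : AddSubgroup (Fin g → ℂ)} {F : (Fin g → ℂ) → Fin (N + 1) → ℂ}
    (hF : Differentiable ℂ F) (hF0 : ∀ z, F z ≠ 0) (hFB : ∀ z, eval (F z) B = 0)
    (hL : ∀ z, ∀ l ∈ L, ∃ c : ℂ, F (z + l) = c • F z) (hne : ¬ ∀ z w, ∃ c : ℂ, F w = c • F z) :
    ∃ f : (Fin g → ℂ) → Fin (n + 1) → ℂ, Differentiable ℂ f ∧ (∀ z, f z ≠ 0) ∧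
      (∀ z, ∀ p ∈ S, eval (f z) p = 0) ∧ (∀ z, at' A (f z) = F z) ∧
      (∀ z, ∀ l ∈ L, ∃ c : ℂ, f (z + l) = c • f z) ∧ ¬ ∀ z w, ∃ c : ℂ, f w = c • f z := by
  obtain ⟨e, he⟩ := hB.form
  have hne' : ∃ p q i j, F p i * F q j ≠ F p j * F q i := by
    by_contra hcon
    push Not at hcon
    exact hne fun z w => sb_par (hF0 z) (hcon z w)
  obtain ⟨f, hf, h⟩ := hE.lift_E hS hF hF0 (fun z G hG => by
    have h1 := hB.out.line he hS' hF (fun p => by rw [MvPolynomial.map_id]; exact hFB p) hne' z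
      (hF0 z) G hG
    rwa [MvPolynomial.map_id] at h1)
  refine ⟨f, hf, fun z => (h z).1, fun z => (h z).2.1, fun z => (h z).2.2, ?_, ?_⟩
  · intro z l hl
    obtain ⟨c, hc⟩ := hL z l hl
    rw [← (h z).2.2, ← (h (z + l)).2.2] at hc
    exact ⟨c, hE.uniq (h z).2.1 (h (z + l)).2.1 hc⟩
  · intro h2
    apply hne
    intro z w
    obtain ⟨c, hc⟩ := h2 z w
    refine ⟨c, ?_⟩
    rw [← (h z).2.2, ← (h w).2.2, hc, lin_smul hE.lin]

theorem noTori_iff (hS : ∀ F ∈ S, IsForm F) (hS' : ∀ F ∈ S', IsForm F) (hE : Emb S S' A)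
    (hB : Hy S' B) : NoTori {B} ↔ NoTori S := by
  constructor
  · intro h g L hL hs F hF hF0 hFS hFL z w
    obtain ⟨c, hc⟩ := h g L hL hs (fun z => at' A (F z)) (diff_at_E A hF)
      (fun z => hE.ne_zero (hF0 z) (hFS z)) (fun z p hp => by
        rw [Set.mem_singleton_iff] at hp
        rw [hp]
        exact hB.van ℂ _ (hE.map ℂ _ (hFS z))) (fun z l hl => by
        obtain ⟨c, hc⟩ := hFL z l hl
        exact ⟨c, by simp only [hc, lin_smul hE.lin]⟩) z w
    exact ⟨c, hE.uniq (hFS z) (hFS w) hc⟩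
  · intro h g L hL hs F hF hF0 hFB hFL
    by_contra hne
    obtain ⟨f, hf, hf0, hfS, -, hfL, hfne⟩ := tori_on hS hS' hE hB hF hF0
      (fun z => hFB z B rfl) hFL hne
    exact hfne (h g L hL hs f hf hf0 hfS hfL)

theorem noCurves_iff (hE : WEmb S S' A) (hB : Hy S' B) : NoCurves {B} ↔ NoCurves S := by
  constructor
  · intro h f hf hf0 hfS z w
    obtain ⟨c, hc⟩ := h (fun z => at' A (f z)) (diff_at_entire A hf)
      (fun z => hE.ne_zero (hf0 z) (hfS z)) (fun z p hp => by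
        rw [Set.mem_singleton_iff] at hp
        rw [hp]
        exact hB.van ℂ _ (hE.map ℂ _ (hfS z))) z w
    exact ⟨c, hE.inj ℂ _ _ c (hfS z) (hfS w) hc⟩
  · intro h g hg hg0 hgB z w
    rcases hB.out.curves g hg hg0 (fun z => by
      rw [MvPolynomial.map_id]
      exact hgB z B rfl) with h1 | h1
    · exact h1 z w
    · obtain ⟨f, hf, hfz⟩ := hE.lift hg hg0 (fun z G hG => by
        have h2 := h1 z G hG
        rwa [MvPolynomial.map_id] at h2)
      obtain ⟨c, hc⟩ := h f hf (fun z => (hfz z).1) (fun z => (hfz z).2.1) z w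
      refine ⟨c, ?_⟩
      rw [← (hfz z).2.2, ← (hfz w).2.2, hc, lin_smul hE.lin]

/-- closed sets of the variety and of the image -/
def Corr {n N : ℕ} (S : Set (MvPolynomial (Fin (n + 1)) ℂ))
    (A : Fin (N + 1) → MvPolynomial (Fin (n + 1)) ℂ) (G : MvPolynomial (Fin (n + 1)) ℂ)
    (T' : Set (MvPolynomial (Fin (N + 1)) ℂ)) : Prop :=
  ∀ x : Fin (n + 1) → ℂ, x ≠ 0 → (∀ F ∈ S, eval x F = 0) →
    (eval x G = 0 ↔ ∀ F ∈ T', eval (at' A x) F = 0)

theorem exists_corr (hE : WEmb S S' A) {G : MvPolynomial (Fin (n + 1)) ℂ} (hG : IsForm G) :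
    ∃ T' : Set (MvPolynomial (Fin (N + 1)) ℂ), (∀ F ∈ T', IsForm F) ∧ Corr S A G T' := by
  obtain ⟨T', hT', h⟩ := hE.closed {G} (fun F hF => by
    rw [Set.mem_singleton_iff] at hF
    rw [hF]
    exact hG)
  refine ⟨T', hT', fun x hx hxS => ?_⟩
  have h1 := h ℂ x hx hxS
  constructor
  · intro h2
    exact h1.1 fun F hF => by
      rw [Set.mem_singleton_iff] at hF
      rw [hF]
      exact h2
  · intro h2
    exact h1.2 h2 G rfl

theorem corr_bind {G : MvPolynomial (Fin (N + 1)) ℂ} : Corr S A (bind₁ A G) {G} := by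
  intro x _ _
  have h1 : eval x (bind₁ A G) = eval (at' A x) G := Pool.Agent.H911.GD.bind_eval (Ω := ℂ) A x G
  rw [h1]
  constructor
  · intro h F hF
    rw [Set.mem_singleton_iff] at hF
    rw [hF]
    exact h
  · intro h
    exact h G rfl

theorem tori_corr (hS : ∀ F ∈ S, IsForm F) (hS' : ∀ F ∈ S', IsForm F) (hE : Emb S S' A)
    (hB : Hy S' B) {G : MvPolynomial (Fin (n + 1)) ℂ} {T' : Set (MvPolynomial (Fin (N + 1)) ℂ)}
    (hC : Corr S A G T') :
    (∀ G' ∈ T', Pool.Agent.N254.SQ.OnTori {B} G') ↔ Pool.Agent.N254.SQ.OnTori S G := by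
  constructor
  · intro h g L hL hs f hf hf0 hfS hfL
    by_cases hc : ∀ z w, ∃ c : ℂ, f w = c • f z
    · exact Or.inl hc
    right
    intro z
    refine (hC (f z) (hf0 z) (hfS z)).2 fun G' hG' => ?_
    rcases h G' hG' g L hL hs (fun z => at' A (f z)) (diff_at_E A hf)
      (fun z => hE.ne_zero (hf0 z) (hfS z)) (fun z p hp => by
        rw [Set.mem_singleton_iff] at hp
        rw [hp]
        exact hB.van ℂ _ (hE.map ℂ _ (hfS z))) (fun z l hl => by
        obtain ⟨c, hc⟩ := hfL z l hl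
        exact ⟨c, by simp only [hc, lin_smul hE.lin]⟩) with h1 | h1
    · exfalso
      apply hc
      intro z w
      obtain ⟨c, hc⟩ := h1 z w
      exact ⟨c, hE.uniq (hfS z) (hfS w) hc⟩
    · exact h1 z
  · intro h G' hG' g L hL hs F hF hF0 hFB hFL
    by_cases hc : ∀ z w, ∃ c : ℂ, F w = c • F z
    · exact Or.inl hc
    right
    obtain ⟨f, hf, hf0, hfS, hfA, hfL, hfne⟩ := tori_on hS hS' hE hB hF hF0
      (fun z => hFB z B rfl) hFL hc
    rcases h g L hL hs f hf hf0 hfS hfL with h1 | h1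
    · exact absurd h1 hfne
    · intro z
      rw [← hfA z]
      exact (hC (f z) (hf0 z) (hfS z)).1 (h1 z) G' hG'

theorem curves_corr (hE : WEmb S S' A) (hB : Hy S' B) {G : MvPolynomial (Fin (n + 1)) ℂ}
    {T' : Set (MvPolynomial (Fin (N + 1)) ℂ)} (hC : Corr S A G T') :
    (∀ G' ∈ T', Pool.Agent.N254.SQ.OnCurves {B} G') ↔ Pool.Agent.N254.SQ.OnCurves S G := by
  constructor
  · intro h f hf hf0 hfS
    by_cases hc : ∀ z w, ∃ c : ℂ, f w = c • f z
    · exact Or.inl hc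
    right
    intro z
    refine (hC (f z) (hf0 z) (hfS z)).2 fun G' hG' => ?_
    rcases h G' hG' (fun z => at' A (f z)) (diff_at_entire A hf)
      (fun z => hE.ne_zero (hf0 z) (hfS z)) (fun z p hp => by
        rw [Set.mem_singleton_iff] at hp
        rw [hp]
        exact hB.van ℂ _ (hE.map ℂ _ (hfS z))) with h1 | h1
    · exfalso
      apply hc
      intro z w
      obtain ⟨c, hc⟩ := h1 z w
      exact ⟨c, hE.inj ℂ _ _ c (hfS z) (hfS w) hc⟩
    · exact h1 z
  · intro h G' hG' g hg hg0 hgB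
    rcases hB.out.curves g hg hg0 (fun z => by
      rw [MvPolynomial.map_id]
      exact hgB z B rfl) with h1 | h1
    · exact Or.inl h1
    · obtain ⟨f, hf, hfz⟩ := hE.lift hg hg0 (fun z G hG => by
        have h2 := h1 z G hG
        rwa [MvPolynomial.map_id] at h2)
      rcases h f hf (fun z => (hfz z).1) (fun z => (hfz z).2.1) with h2 | h2
      · left
        intro z w
        obtain ⟨c, hc⟩ := h2 z w
        refine ⟨c, ?_⟩
        rw [← (hfz z).2.2, ← (hfz w).2.2, hc, lin_smul hE.lin]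
      · right
        intro z
        rw [← (hfz z).2.2]
        exact (hC (f z) (hfz z).1 (hfz z).2.1).1 (h2 z) G' hG'

end

end Pool.Agent.H911.EM
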