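import Pool.Agent.H911.EM.GenD

/-!
Smooth hypersurfaces through closed sets with arbitrary singularities.
-/

set_option autoImplicit false

namespace Pool.Agent.H911.EM

open MvPolynomial
open Pool.Agent.N254.SQ (powerFormOver SmoothOver)

variable {K : Type} [Field K]

/-- the models of closed sets of dimension `w` in `P^(3 w + 1)` -/
theorem exists_wemb [CharZero K] {n N w : ℕ} (hN : 3 * w + 1 ≤ N)
    {S : Set (MvPolynomial (Fin (n + 1)) K)} (hS : Dm S w) :
    ∃ (S' : Set (MvPolynomial (Fin (N + 1)) K))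
      (A : Fin (N + 1) → MvPolynomial (Fin (n + 1)) K), Sm S' (3 * w) ∧ WEmb S S' A := by
  rcases Nat.lt_or_ge n (2 * w + 1) with hn | hn
  · have h1 : Sm S (3 * w) := by
      refine ⟨hS.forms, ?_⟩
      intro Ω _ _ x a ha hx
      have h1 := hS.bd Ω x a ha hx
      have h2 : Module.finrank Ω (Tan S x) ≤ n + 1 := by
        have := Submodule.finrank_le (Tan S x)
        rwa [Module.finrank_fin_fun] at this
      calc Algebra.trdeg K (Algebra.adjoin K (Set.range x)) +
          (Module.finrank Ω (Tan S x) : Cardinal)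
          ≤ (w : Cardinal) + ((n + 1 : ℕ) : Cardinal) := add_le_add h1 (by exact_mod_cast h2)
        _ ≤ ((3 * w + 1 : ℕ) : Cardinal) := by
          have h3 : w + (n + 1) ≤ 3 * w + 1 := by omega
          exact_mod_cast h3
    obtain ⟨S', A, hS', hA⟩ := exists_ext (N := N) (by omega) h1
    exact ⟨S', A, hS', hA.weak hS.forms hS'.forms⟩
  · obtain ⟨r, rfl⟩ : ∃ r, n = 2 * w + 1 + r := ⟨n - (2 * w + 1), by omega⟩
    obtain ⟨S₁, A₁, hA₁⟩ := exists_downW r (2 * w + 1) le_rfl S hS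
    have hS₁ := hA₁.dm hS
    obtain ⟨S₂, hS₂⟩ : ∃ S₂ : Set (MvPolynomial (Fin (2 * w + 1 + 1)) K),
      S₂ = {G | (∃ e, G.IsHomogeneous e) ∧ G ∈ van S₁} := ⟨_, rfl⟩
    have hon : ∀ (Ω : Type) [Field Ω] [Algebra K Ω] (z : Fin (2 * w + 1 + 1) → Ω),
        On S₁ z ↔ On S₂ z := by
      intro Ω _ _ z
      rw [hS₂]
      constructor
      · intro h G hG
        exact hG.2 Ω z h
      · intro h F hF
        exact h F ⟨hA₁.forms' F hF, fun Ω _ _ u hu => hu F hF⟩
    have hA₂ : WEmb S S₂ A₁ := hA₁.congr (by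
      rw [hS₂]
      exact fun F hF => hF.1) hon
    have h1 : Sm S₂ (3 * w) := by
      refine ⟨hA₂.forms', ?_⟩
      intro Ω _ _ x a ha hx
      have hx₁ := (hon Ω x).2 hx
      have h1 := hS₁.bd Ω x a ha hx₁
      obtain ⟨q, hq⟩ := Cardinal.lt_aleph0.1 (h1.trans_lt Cardinal.natCast_lt_aleph0)
      have hqw : q ≤ w := by
        rw [hq] at h1
        exact_mod_cast h1
      have h2 : Module.finrank Ω (Tan S₂ x) ≤ 2 * w + 1 + 1 := by
        have := Submodule.finrank_le (Tan S₂ x)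
        rwa [Module.finrank_fin_fun] at this
      have h3 : q + Module.finrank Ω (Tan S₂ x) ≤ 3 * w + 1 := by
        rcases Nat.lt_or_ge q w with h | h
        · omega
        · have hqe : q = w := le_antisymm hqw h
          obtain ⟨G, hG, hGh, i, hi⟩ := gen_deriv (show w < 2 * w + 1 by omega) hS₁ ha hx₁ (by
            rw [hq, hqe])
          have h4 : Tan S₂ x ≠ ⊤ := by
            intro htop
            have h5 : (Pi.single i 1 : Fin (2 * w + 1 + 1) → Ω) ∈ Tan S₂ x := by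
              rw [htop]
              trivial
            rw [mem_tan] at h5
            have h6 := h5 G (by
              rw [hS₂]
              exact ⟨hGh, hG⟩)
            unfold dv at h6
            rw [Finset.sum_eq_single i, Pi.single_eq_same, mul_one] at h6
            · exact hi h6
            · intro j _ hj
              rw [Pi.single_eq_of_ne hj, mul_zero]
            · intro h7
              exact absurd (Finset.mem_univ i) h7
          have h5 := Submodule.finrank_lt h4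
          rw [Module.finrank_fin_fun] at h5
          omega
      rw [hq]
      exact_mod_cast h3
    obtain ⟨S', A, hS', hA⟩ := exists_ext (N := N) (by omega) h1
    exact ⟨S', _, hS', hA₂.comp (hA.weak hA₂.forms' hS'.forms)⟩

/-- the hypersurfaces through closed sets in `P^N` -/
theorem exists_hypD (N : ℕ) (hN : 1 ≤ N) : ∃ D₁ : ℕ → ℕ, ∀ (K : Type) [Field K] [CharZero K]
    (S' : Set (MvPolynomial (Fin (N + 1)) K)) (d : ℕ), Sm S' d → d + 1 ≤ N →
    ∃ e : ℕ, 1 ≤ e ∧ ∀ D, D₁ e ≤ D →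
      ∃ Q : Fin (N * (2 * N + 1)) → MvPolynomial (Fin (N + 1)) K,
        (∀ t, (Q t).IsHomogeneous e) ∧ SmoothOver (powerFormOver D Q) ∧
        (∀ (Ω : Type) [Field Ω] [Algebra K Ω] (z : Fin (N + 1) → Ω), On S' z →
          aeval z (powerFormOver D Q) = 0) ∧
        ∀ σ : K →+* ℂ, Outside S' (powerFormOver D Q) σ := by
  choose D₁ hD₁ using fun e => exists_hyp N (e + 1) hN (Nat.succ_pos e)
  refine ⟨fun e => D₁ (e - 1), fun K _ _ S' d hS' hd => ?_⟩
  obtain ⟨e, ι, _, q, he, hq, h1, h2, h3⟩ := exists_eqs hS'.forms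
  refine ⟨e, he, fun D hD => ?_⟩
  have he' : e - 1 + 1 = e := by omega
  obtain ⟨Q, hQ⟩ := hD₁ (e - 1) D hD K S' d hS' hd ι q (by rw [he']; exact hq) h1 h2 h3
  rw [he'] at hQ
  exact ⟨Q, hQ⟩

/-- closed sets which have models in smooth hypersurfaces of `P^N`: the sums of the dimensions of the
points and of the tangent spaces are at most `N - 1`, or three times the dimension is -/
def Small {n : ℕ} (S : Set (MvPolynomial (Fin (n + 1)) K)) (N : ℕ) : Prop :=
  (∃ d, Sm S d ∧ d + 1 ≤ N) ∨ ∃ w, Dm S w ∧ 3 * w + 1 ≤ N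

/-- **The models.** -/
theorem exists_mainW (N : ℕ) (hN : 1 ≤ N) : ∃ D₁ : ℕ → ℕ, ∀ (K : Type) [Field K] [CharZero K]
    (n : ℕ) (S : Set (MvPolynomial (Fin (n + 1)) K)), Small S N →
    ∃ (e : ℕ) (S' : Set (MvPolynomial (Fin (N + 1)) K))
      (A : Fin (N + 1) → MvPolynomial (Fin (n + 1)) K), 1 ≤ e ∧ WEmb S S' A ∧
      ((∃ d, Sm S d ∧ d + 1 ≤ N) → Emb S S' A) ∧
      ∀ D, D₁ e ≤ D → ∃ Q : Fin (N * (2 * N + 1)) → MvPolynomial (Fin (N + 1)) K,
        (∀ t, (Q t).IsHomogeneous e) ∧ SmoothOver (powerFormOver D Q) ∧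
        (∀ (Ω : Type) [Field Ω] [Algebra K Ω] (z : Fin (N + 1) → Ω), On S' z →
          aeval z (powerFormOver D Q) = 0) ∧
        ∀ σ : K →+* ℂ, Outside S' (powerFormOver D Q) σ := by
  obtain ⟨D₁, H⟩ := exists_hypD N hN
  refine ⟨D₁, fun K _ _ n S hS => ?_⟩
  by_cases h : ∃ d, Sm S d ∧ d + 1 ≤ N
  · obtain ⟨d, hd, hdN⟩ := h
    obtain ⟨S', A, hS', hA⟩ := exists_emb hdN hd
    obtain ⟨e, he, h2⟩ := H K S' d hS' hdN
    exact ⟨e, S', A, he, hA.weak hd.forms hS'.forms, fun _ => hA, h2⟩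
  · obtain ⟨w, hw, hwN⟩ := hS.resolve_left h
    obtain ⟨S', A, hS', hA⟩ := exists_wemb hwN hw
    obtain ⟨e, he, h2⟩ := H K S' _ hS' hwN
    exact ⟨e, S', A, he, hA, fun h3 => absurd h3 h, h2⟩

end Pool.Agent.H911.EM
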