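import Pool.Agent.H911.EM.Weak

/-!
General projections of closed sets with arbitrary singularities: bijective on the points over all
extension fields.
-/

set_option autoImplicit false

namespace Pool.Agent.H911.EM

open MvPolynomial
open Pool.Agent.H911.QR (homb homb_hom homb_eval)

variable {K : Type} [Field K]

/-- the closed set `S = 0` is defined by forms and has dimension at most `w` -/
structure Dm {n : ℕ} (S : Set (MvPolynomial (Fin (n + 1)) K)) (w : ℕ) : Prop where
  forms : ∀ F ∈ S, ∃ e, F.IsHomogeneous e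
  bd : ∀ (Ω : Type) [Field Ω] [Algebra K Ω] (x : Fin (n + 1) → Ω) (a : Fin (n + 1)), x a = 1 →
    On S x → Algebra.trdeg K (Algebra.adjoin K (Set.range x)) ≤ (w : Cardinal)

theorem par_coneW {n w : ℕ} {S : Set (MvPolynomial (Fin (n + 1)) K)} (hS : Dm S w) {Ω : Type}
    [Field Ω] [Algebra K Ω] {x : Fin (n + 1) → Ω} (hx : On S x) :
    ∃ s : Fin w ⊕ Unit → Ω, ∀ j, x j ∈ acl K s := by
  by_cases hx0 : x = 0
  · refine ⟨0, fun j => ?_⟩
    rw [hx0]
    exact zero_mem _
  · obtain ⟨a, ha⟩ : ∃ a, x a ≠ 0 := by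
      by_contra hcon
      push Not at hcon
      exact hx0 (funext hcon)
    have h1 : ((x a)⁻¹ • x) a = 1 := by
      rw [Pi.smul_apply, smul_eq_mul, inv_mul_cancel₀ ha]
    obtain ⟨s, hs⟩ := par_pt (w := w) ((x a)⁻¹ • x)
      (hS.bd Ω _ a h1 (on_smul hS.forms hx (x a)⁻¹))
    refine ⟨Sum.elim s fun _ => x a, fun j => ?_⟩
    have h2 : x j = x a * ((x a)⁻¹ • x) j := by
      rw [Pi.smul_apply, smul_eq_mul, mul_inv_cancel_left₀ ha]
    rw [h2]
    exact mul_mem (mem_acl (Sum.elim s fun _ => x a) (Sum.inr ()))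
      (acl_mono (fun i => ⟨Sum.inl i, rfl⟩) (hs j))

theorem center_secW {n w : ℕ} {S : Set (MvPolynomial (Fin (n + 2)) K)} (hS : Dm S w)
    (hn : 2 * w + 1 ≤ n) : ∃ Δ : MvPolynomial (Fin (n + 2)) K, Δ ≠ 0 ∧
      ∀ (Ω : Type) [Field Ω] [Algebra K Ω] (x u : Fin (n + 2) → Ω), On S x → On S u →
        aeval (x - u) Δ = 0 := by
  obtain ⟨Δ, hΔ, h⟩ := elim (K := K) (σ := Fin (n + 2)) (τ := Fin (n + 2) ⊕ Fin (n + 2))
    ({G | ∃ F ∈ S, G = rename (fun j => Sum.inr (Sum.inl j)) F} ∪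
      {G | ∃ F ∈ S, G = rename (fun j => Sum.inr (Sum.inr j)) F} ∪
      {G | ∃ j, G = X (Sum.inl j) - X (Sum.inr (Sum.inl j)) + X (Sum.inr (Sum.inr j))}) (by
    intro Ω _ _ p z hz hp
    have hx : On S (fun j => z (Sum.inl j)) := by
      intro F hF
      have h1 := hz _ (Or.inl (Or.inl ⟨F, hF, rfl⟩))
      rw [aeval_rename] at h1
      exact h1
    have hu : On S (fun j => z (Sum.inr j)) := by
      intro F hF
      have h1 := hz _ (Or.inl (Or.inr ⟨F, hF, rfl⟩))
      rw [aeval_rename] at h1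
      exact h1
    have hpj : ∀ j, p j = z (Sum.inl j) - z (Sum.inr j) := by
      intro j
      have h1 := hz _ (Or.inr ⟨j, rfl⟩)
      rw [map_add, map_sub, aeval_X, aeval_X, aeval_X] at h1
      have h2 : p j - z (Sum.inl j) + z (Sum.inr j) = 0 := h1
      linear_combination h2
    obtain ⟨s, hs⟩ := par_coneW hS hx
    obtain ⟨t, ht⟩ := par_coneW hS hu
    have h1 := count_acl (K := K) (Sum.elim s t) p hp (by
      intro j
      rw [hpj]
      exact sub_mem (acl_mono (fun i => ⟨Sum.inl i, rfl⟩) (hs j))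
        (acl_mono (fun i => ⟨Sum.inr i, rfl⟩) (ht j)))
    simp only [Fintype.card_fin, Fintype.card_sum, Fintype.card_unit] at h1
    omega)
  refine ⟨Δ, hΔ, fun Ω _ _ x u hx hu => h Ω (x - u) (Sum.elim x u) ?_⟩
  rintro G ((⟨F, hF, rfl⟩ | ⟨F, hF, rfl⟩) | ⟨j, rfl⟩)
  · rw [aeval_rename]
    exact hx F hF
  · rw [aeval_rename]
    exact hu F hF
  · rw [map_add, map_sub, aeval_X, aeval_X, aeval_X]
    change (x - u) j - x j + u j = 0
    rw [Pi.sub_apply]
    ring

/-- the data of a projection -/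
structure CtrW {n : ℕ} (S : Set (MvPolynomial (Fin (n + 1 + 1)) K)) (P : Fin (n + 2) → K) :
    Prop where
  forms : ∀ F ∈ S, ∃ e, F.IsHomogeneous e
  one : P 0 = 1
  sec : ∀ (Ω : Type) [Field Ω] [Algebra K Ω] (x u : Fin (n + 2) → Ω) (c : Ω), On S x → On S u →
    (x - u = c • fun j => algebraMap K Ω (P j)) → x = u

/-- the centre -/
theorem exists_centerW [CharZero K] {n w : ℕ} {S : Set (MvPolynomial (Fin (n + 1 + 1)) K)}
    (hS : Dm S w) (hn : 2 * w + 1 ≤ n) : ∃ P : Fin (n + 2) → K, CtrW S P := by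
  classical
  obtain ⟨Δ₁, h1, h2⟩ := center_secW (n := n) hS hn
  obtain ⟨P, hP⟩ : ∃ P : Fin (n + 2) → K, eval P (Δ₁ * X 0) ≠ 0 := by
    by_contra hcon
    push Not at hcon
    exact mul_ne_zero h1 (X_ne_zero _)
      (MvPolynomial.funext fun c => by rw [hcon c, map_zero])
  rw [map_mul, eval_X] at hP
  have hP0 := right_ne_zero_of_mul hP
  have hP1 := left_ne_zero_of_mul hP
  have hev : ∀ (Ω : Type) [Field Ω] [Algebra K Ω] (Δ : MvPolynomial (Fin (n + 2)) K),
      eval P Δ ≠ 0 → aeval (fun j => algebraMap K Ω (P j)) Δ ≠ 0 := by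
    intro Ω _ _ Δ hΔ h5
    apply hΔ
    apply (algebraMap K Ω).injective
    rw [map_zero, ← h5, aeval_def, ← eval₂_id, hom_eval₂]
    rfl
  refine ⟨fun j => (P 0)⁻¹ * P j, hS.forms, inv_mul_cancel₀ hP0, ?_⟩
  intro Ω _ _ x u c hx hu hxu
  by_cases hc : c = 0
  · rw [hc, zero_smul] at hxu
    exact sub_eq_zero.1 hxu
  · exfalso
    obtain ⟨d, hd⟩ : ∃ d : Ω, d = c * algebraMap K Ω (P 0)⁻¹ := ⟨_, rfl⟩
    have hd0 : d ≠ 0 := by
      rw [hd]
      exact mul_ne_zero hc ((map_ne_zero _).2 (inv_ne_zero hP0))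
    have h5 : (d⁻¹ • x) - (d⁻¹ • u) = fun j => algebraMap K Ω (P j) := by
      rw [← smul_sub, hxu]
      funext j
      rw [Pi.smul_apply, Pi.smul_apply, map_mul, smul_eq_mul, smul_eq_mul, ← mul_assoc c,
        ← hd, inv_mul_cancel_left₀ hd0]
    have h6 := h2 Ω _ _ (on_smul hS.forms hx d⁻¹) (on_smul hS.forms hu d⁻¹)
    rw [h5] at h6
    exact hev Ω Δ₁ hP1 h6

section

variable {n : ℕ} {S : Set (MvPolynomial (Fin (n + 1 + 1)) K)} {P : Fin (n + 2) → K}

theorem CtrW.mono {T : Set (MvPolynomial (Fin (n + 1 + 1)) K)} (hP : CtrW S P)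
    (hT : ∀ F ∈ T, ∃ e, F.IsHomogeneous e) : CtrW (S ∪ T) P where
  forms := fun F hF => hF.elim (hP.forms F) (hT F)
  one := hP.one
  sec := fun Ω _ _ x u c hx hu h => hP.sec Ω x u c (fun F hF => hx F (Or.inl hF))
    (fun F hF => hu F (Or.inl hF)) h

theorem prj_injW (hP : CtrW S P) {Ω : Type} [Field Ω] [Algebra K Ω] {x u : Fin (n + 2) → Ω}
    (hx : On S x) (hu : On S u) (h : at' (prj P) x = at' (prj P) u) : x = u := by
  refine hP.sec Ω x u (x 0 - u 0) hx hu ?_
  funext j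
  rw [Pi.sub_apply, Pi.smul_apply, smul_eq_mul]
  refine Fin.cases ?_ (fun i => ?_) j
  · rw [hP.one, map_one, mul_one]
  · have h1 := congrFun h i
    rw [prj_at, prj_at] at h1
    linear_combination h1

theorem exists_monicW (hP : CtrW S P) (a : Fin (n + 1)) : ∃ G ∈ idl S P a, G.Monic := by
  obtain ⟨F, hF, hFP⟩ : ∃ F ∈ S, eval P F ≠ 0 := by
    by_contra hcon
    push Not at hcon
    have h1 : On S P := by
      intro F hF
      rw [← hcon F hF]
      rfl
    have h2 : On S ((0 : K) • P) := on_smul hP.forms h1 0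
    have h3 := hP.sec K P ((0 : K) • P) 1 h1 h2 (by
      rw [zero_smul, sub_zero, one_smul]
      rfl)
    have h4 := congrFun h3 0
    rw [hP.one, zero_smul] at h4
    exact one_ne_zero h4
  obtain ⟨d, hd⟩ := hP.forms F hF
  obtain ⟨h1, h2⟩ := tl_lead P hP.one hd
  refine ⟨Polynomial.C (C (eval P F)⁻¹) * aeval (tl P) F, Ideal.mul_mem_left _ _ (tl_mem hF),
    Polynomial.monic_of_natDegree_le_of_coeff_eq_one d
      ((Polynomial.natDegree_C_mul_le _ _).trans h1) ?_⟩
  rw [Polynomial.coeff_C_mul, h2, ← map_mul, inv_mul_cancel₀ hFP, map_one]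

theorem prj_surjW [CharZero K] (hP : CtrW S P) {Ω : Type} [Field Ω] [Algebra K Ω]
    {z : Fin (n + 1) → Ω} (hz0 : z ≠ 0) (hz : On (img S (prj P)) z) :
    ∃ x : Fin (n + 2) → Ω, On S x ∧ at' (prj P) x = z := by
  obtain ⟨a, ha⟩ : ∃ a, z a ≠ 0 := by
    by_contra hcon
    push Not at hcon
    exact hz0 (funext hcon)
  have hsc : ∀ (Ω' : Type) [Field Ω'] [Algebra K Ω'] (u : Fin (n + 1 + 1) → Ω') (c : Ω'),
      at' (prj P) (c • u) = c • at' (prj P) u := by
    intro Ω' _ _ u c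
    rw [at_smul (prj_hom P), pow_one]
  obtain ⟨z1, hz1⟩ : ∃ z1, z1 = (z a)⁻¹ • z := ⟨_, rfl⟩
  have hz1a : z1 a = 1 := by
    rw [hz1, Pi.smul_apply, smul_eq_mul, inv_mul_cancel₀ ha]
  have hz1S : On (img S (prj P)) z1 := by
    rw [hz1]
    exact on_smul (fun F hF => hF.1) hz _
  obtain ⟨G, hG, hGm⟩ := exists_monicW hP a
  have hcon : ∀ r, Polynomial.C r ∈ idl S P a →
      (aeval z1 : MvPolynomial (Fin (n + 1)) K →ₐ[K] Ω).toRingHom r = 0 := by
    intro r hr
    have h1 : X a * homb a r ∈ img S (prj P) := by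
      refine ⟨⟨_, (isHomogeneous_X K a).mul (homb_hom a r)⟩, ?_⟩
      intro Ω' _ _ u hu
      by_cases hs : at' (prj P) u a = 0
      · rw [map_mul, aeval_X, hs, zero_mul]
      · obtain ⟨v, hv⟩ : ∃ v, v = (at' (prj P) u a)⁻¹ • u := ⟨_, rfl⟩
        have hvu : u = at' (prj P) u a • v := by
          rw [hv, smul_smul, mul_inv_cancel₀ hs, one_smul]
        have hvS : On S v := by
          rw [hv]
          exact on_smul hP.forms hu _
        have hva : at' (prj P) v a = 1 := by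
          rw [hv, hsc, Pi.smul_apply, smul_eq_mul, inv_mul_cancel₀ hs]
        have h2 := hr Ω' v hvS hva
        rw [Polynomial.eval₂_C] at h2
        have h3 : aeval (at' (prj P) v) r = 0 := h2
        rw [hvu, hsc, ev_smul ((isHomogeneous_X K a).mul (homb_hom a r)), map_mul, aeval_X, hva,
          one_mul, homb_eval _ hva, h3, mul_zero]
    have h2 := hz1S _ h1
    rw [map_mul, aeval_X, hz1a, one_mul, homb_eval _ hz1a] at h2
    exact h2
  obtain ⟨t, ht⟩ := lift_pt (idl S P a) G hG hGm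
    (aeval z1 : MvPolynomial (Fin (n + 1)) K →ₐ[K] Ω).toRingHom hcon
  have h1 : ((algebraMap Ω (AlgebraicClosure Ω)).comp
      (aeval z1 : MvPolynomial (Fin (n + 1)) K →ₐ[K] Ω).toRingHom) =
      (aeval (fun j => algebraMap Ω (AlgebraicClosure Ω) (z1 j)) :
        MvPolynomial (Fin (n + 1)) K →ₐ[K] AlgebraicClosure Ω).toRingHom := by
    ext G
    · change algebraMap Ω (AlgebraicClosure Ω) (aeval _ (C G)) = aeval _ (C G)
      rw [aeval_C, aeval_C, ← IsScalarTower.algebraMap_apply]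
    · change algebraMap Ω (AlgebraicClosure Ω) (aeval _ (X G)) = aeval _ (X G)
      rw [aeval_X, aeval_X]
  rw [h1] at ht
  obtain ⟨z2, hz2⟩ : ∃ z2 : Fin (n + 1) → AlgebraicClosure Ω,
    z2 = fun j => algebraMap Ω (AlgebraicClosure Ω) (z1 j) := ⟨_, rfl⟩
  rw [← hz2] at ht
  have h2 := on_of_idl ht
  -- the point is rational
  have hchar : CharZero Ω := charZero_of_injective_algebraMap (algebraMap K Ω).injective
  have hfix : t ∈ Set.range (algebraMap Ω (AlgebraicClosure Ω)) := by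
    rw [InfiniteGalois.mem_range_algebraMap_iff_fixed]
    intro f
    obtain ⟨ψ, hψ⟩ : ∃ ψ : AlgebraicClosure Ω →ₐ[K] AlgebraicClosure Ω,
      ψ = (f : AlgebraicClosure Ω →ₐ[Ω] AlgebraicClosure Ω).restrictScalars K := ⟨_, rfl⟩
    have hψa : ∀ c, ψ c = f c := fun c => by
      rw [hψ]
      rfl
    have hpt : (fun j => ψ (pt P z2 t j)) = pt P z2 (ψ t) := by
      funext j
      unfold pt
      refine Fin.cases ?_ (fun i => ?_) j
      · rw [Fin.cons_zero, Fin.cons_zero]
      · rw [Fin.cons_succ, Fin.cons_succ, map_add, map_mul, AlgHom.commutes]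
        congr 1
        rw [hz2, hψa]
        exact f.commutes _
    have h3 : On S (pt P z2 (ψ t)) := by
      intro F hF
      rw [← hpt]
      have h4 : (aeval (fun j => ψ (pt P z2 t j)) F : AlgebraicClosure Ω) =
          ψ (aeval (pt P z2 t) F) := by
        rw [← MvPolynomial.comp_aeval_apply]
      rw [h4, h2 F hF, map_zero]
    have h5 := prj_injW hP h3 h2 (by rw [prj_pt, prj_pt])
    have h6 := congrFun h5 0
    unfold pt at h6
    rw [Fin.cons_zero, Fin.cons_zero, hψa] at h6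
    exact h6
  obtain ⟨s, hst⟩ := hfix
  have h6 : On S (pt P z1 s) := by
    have h7 : (fun j => algebraMap Ω (AlgebraicClosure Ω) (pt P z1 s j)) = pt P z2 t := by
      funext j
      unfold pt
      refine Fin.cases ?_ (fun i => ?_) j
      · rw [Fin.cons_zero, Fin.cons_zero, hst]
      · rw [Fin.cons_succ, Fin.cons_succ, map_add, map_mul, hst, hz2,
          ← IsScalarTower.algebraMap_apply]
    rw [← h7] at h2
    exact on_map.1 h2
  refine ⟨z a • pt P z1 s, on_smul hP.forms h6 _, ?_⟩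
  rw [hsc, prj_pt, hz1, smul_smul, mul_inv_cancel₀ ha, one_smul]

/-- the projection -/
theorem prj_weak [CharZero K] (hP : CtrW S P) : WEmb S (img S (prj P)) (prj P) where
  forms := hP.forms
  forms' := fun F hF => hF.1
  lin := prj_hom P
  map := fun Ω _ _ x hx G hG => hG.2 Ω x hx
  zero := by
    intro Ω _ _ x hx h
    have h1 : On S ((0 : Ω) • x) := on_smul hP.forms hx 0
    refine (prj_injW hP hx h1 ?_).trans (zero_smul _ _)
    rw [at_smul (prj_hom P), h, smul_zero]
  inj := by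
    intro Ω _ _ x x' c hx hx' h
    refine prj_injW hP hx' (on_smul hP.forms hx c) ?_
    rw [lin_smul (prj_hom P), h]
  surj := by
    intro Ω _ _ z hz hzS
    obtain ⟨x, hx, hxz⟩ := prj_surjW hP hz hzS
    refine ⟨x, ?_, hx, hxz⟩
    rintro rfl
    apply hz
    rw [← hxz]
    have h6 := lin_smul (A := prj P) (prj_hom P) (0 : Ω) (0 : Fin (n + 1 + 1) → Ω)
    rw [smul_zero, zero_smul] at h6
    exact h6
  closed := by
    intro T hT
    refine ⟨img (S ∪ T) (prj P), fun F hF => hF.1, ?_⟩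
    intro Ω _ _ x hx hxS
    constructor
    · intro hxT G hG
      exact hG.2 Ω x fun F hF => hF.elim (hxS F) (hxT F)
    · intro h
      have h0 : at' (prj P) x ≠ 0 := by
        intro h1
        apply hx
        have h2 : On S ((0 : Ω) • x) := on_smul hP.forms hxS 0
        refine (prj_injW hP hxS h2 ?_).trans (zero_smul _ _)
        rw [at_smul (prj_hom P), h1, smul_zero]
      obtain ⟨u, hu, hux⟩ := prj_surjW (hP.mono hT) h0 h
      have h1 := prj_injW hP (fun F hF => hu F (Or.inl hF)) hxS hux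
      rw [← h1]
      exact fun F hF => hu F (Or.inr hF)

end

/-- the dimension of the image -/
theorem WEmb.dm {n N w : ℕ} {S : Set (MvPolynomial (Fin (n + 1)) K)}
    {S' : Set (MvPolynomial (Fin (N + 1)) K)} {A : Fin (N + 1) → MvPolynomial (Fin (n + 1)) K}
    (hE : WEmb S S' A) (hS : Dm S w) : Dm S' w where
  forms := hE.forms'
  bd := by
    intro Ω _ _ z a ha hz
    have hz0 : z ≠ 0 := by
      intro h
      rw [h] at ha
      exact zero_ne_one ha
    obtain ⟨x, hx0, hx, hxz⟩ := hE.surj Ω z hz0 hz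
    obtain ⟨b, hb⟩ : ∃ b, x b ≠ 0 := by
      by_contra hcon
      push Not at hcon
      exact hx0 (funext hcon)
    have hyb : ((x b)⁻¹ • x) b = 1 := by
      rw [Pi.smul_apply, smul_eq_mul, inv_mul_cancel₀ hb]
    obtain ⟨s, hs⟩ := par_pt (w := w) ((x b)⁻¹ • x) (hS.bd Ω _ b hyb
      (on_smul hS.forms hx (x b)⁻¹))
    obtain ⟨y, hy⟩ : ∃ y, y = (x b)⁻¹ • x := ⟨_, rfl⟩
    rw [← hy] at hs
    have hxy : x = x b • y := by
      rw [hy, smul_smul, mul_inv_cancel₀ hb, one_smul]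
    have hzy : z = x b • at' A y := by
      rw [← hxz]
      conv_lhs => rw [hxy]
      rw [lin_smul hE.lin]
    have hyA : ∀ i, at' A y i ∈ acl K s := by
      intro i
      have h1 : aeval y (A i) ∈ Algebra.adjoin K (Set.range y) := by
        rw [Algebra.adjoin_range_eq_range_aeval]
        exact ⟨A i, rfl⟩
      have h2 : Algebra.adjoin K (Set.range y) ≤ (acl K s).toSubalgebra := by
        rw [Algebra.adjoin_le_iff]
        rintro _ ⟨j, rfl⟩
        exact hs j
      exact h2 h1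
    have h2 := trdeg_acl (K := K) (z := z) (s := s) (by
      intro i
      have h3 : x b * at' A y a = 1 := by
        rw [← ha, hzy]
        rfl
      have h4 : z i = at' A y i * (at' A y a)⁻¹ := by
        have h5 : at' A y a ≠ 0 := right_ne_zero_of_mul_eq_one h3
        rw [eq_mul_inv_iff_mul_eq₀ h5, hzy, Pi.smul_apply, smul_eq_mul]
        linear_combination (at' A y i) * h3
      rw [h4]
      exact mul_mem (hyA i) (inv_mem (hyA a)))
    rw [Fintype.card_fin] at h2
    exact h2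

theorem WEmb.comp {n N M : ℕ} {S : Set (MvPolynomial (Fin (n + 1)) K)}
    {S' : Set (MvPolynomial (Fin (N + 1)) K)} {S'' : Set (MvPolynomial (Fin (M + 1)) K)}
    {A : Fin (N + 1) → MvPolynomial (Fin (n + 1)) K} {A' : Fin (M + 1) → MvPolynomial (Fin (N + 1)) K}
    (h : WEmb S S' A) (h' : WEmb S' S'' A') : WEmb S S'' (fun i => bind₁ A (A' i)) where
  forms := h.forms
  forms' := h'.forms'
  lin := fun i => bind_hom h.lin (h'.lin i)
  map := by
    intro Ω _ _ x hx
    rw [at_bind]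
    exact h'.map Ω _ (h.map Ω x hx)
  zero := by
    intro Ω _ _ x hx hx0
    rw [at_bind] at hx0
    exact h.zero Ω x hx (h'.zero Ω _ (h.map Ω x hx) hx0)
  inj := by
    intro Ω _ _ x x' c hx hx' hxx
    rw [at_bind, at_bind] at hxx
    exact h.inj Ω x x' c hx hx' (h'.inj Ω _ _ c (h.map Ω x hx) (h.map Ω x' hx') hxx)
  surj := by
    intro Ω _ _ z hz hzS
    obtain ⟨u, hu0, hu, huz⟩ := h'.surj Ω z hz hzS
    obtain ⟨x, hx0, hx, hxu⟩ := h.surj Ω u hu0 hu
    refine ⟨x, hx0, hx, ?_⟩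
    rw [at_bind, hxu, huz]
  closed := by
    intro T hT
    obtain ⟨T', hT', h1⟩ := h.closed T hT
    obtain ⟨T'', hT'', h2⟩ := h'.closed T' hT'
    refine ⟨T'', hT'', fun Ω _ _ x hx hxS => ?_⟩
    rw [at_bind, h1 Ω x hx hxS, h2 Ω _ (h.ne_zero hx hxS) (h.map Ω x hxS)]

/-- other equations of the image -/
theorem WEmb.congr {n N : ℕ} {S : Set (MvPolynomial (Fin (n + 1)) K)}
    {S' S'' : Set (MvPolynomial (Fin (N + 1)) K)} {A : Fin (N + 1) → MvPolynomial (Fin (n + 1)) K}
    (h : WEmb S S' A) (hS : ∀ F ∈ S'', ∃ e, F.IsHomogeneous e)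
    (h1 : ∀ (Ω : Type) [Field Ω] [Algebra K Ω] (z : Fin (N + 1) → Ω), On S' z ↔ On S'' z) :
    WEmb S S'' A where
  forms := h.forms
  forms' := hS
  lin := h.lin
  map := fun Ω _ _ x hx => (h1 Ω _).1 (h.map Ω x hx)
  zero := h.zero
  inj := h.inj
  surj := fun Ω _ _ z hz hzS => h.surj Ω z hz ((h1 Ω z).2 hzS)
  closed := h.closed

theorem weak_id {n : ℕ} {S : Set (MvPolynomial (Fin (n + 1)) K)}
    (hS : ∀ F ∈ S, ∃ e, F.IsHomogeneous e) : WEmb S S X where
  forms := hS
  forms' := hS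
  lin := fun i => isHomogeneous_X K i
  map := by
    intro Ω _ _ x hx
    have h1 : at' (X : Fin (n + 1) → MvPolynomial (Fin (n + 1)) K) x = x :=
      funext fun i => aeval_X x i
    rwa [h1]
  zero := by
    intro Ω _ _ x hx h
    have h1 : at' (X : Fin (n + 1) → MvPolynomial (Fin (n + 1)) K) x = x :=
      funext fun i => aeval_X x i
    rwa [h1] at h
  inj := by
    intro Ω _ _ x x' c _ _ h
    have h1 : ∀ x : Fin (n + 1) → Ω, at' (X : Fin (n + 1) → MvPolynomial (Fin (n + 1)) K) x = x :=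
      fun x => funext fun i => aeval_X x i
    rwa [h1, h1] at h
  surj := fun Ω _ _ z hz hzS => ⟨z, hz, hzS, funext fun i => aeval_X z i⟩
  closed := by
    intro T hT
    refine ⟨T, hT, fun Ω _ _ x _ _ => ?_⟩
    have h1 : at' (X : Fin (n + 1) → MvPolynomial (Fin (n + 1)) K) x = x :=
      funext fun i => aeval_X x i
    rw [h1]

/-- projections to a space of smaller dimension -/
theorem exists_downW [CharZero K] {w : ℕ} : ∀ (r N : ℕ), 2 * w + 1 ≤ N →
    ∀ S : Set (MvPolynomial (Fin (N + r + 1)) K), Dm S w →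
    ∃ (S' : Set (MvPolynomial (Fin (N + 1)) K))
      (A : Fin (N + 1) → MvPolynomial (Fin (N + r + 1)) K), WEmb S S' A := by
  intro r
  induction r with
  | zero =>
    intro N hN S hS
    exact ⟨S, X, weak_id hS.forms⟩
  | succ r ih =>
    intro N hN S hS
    obtain ⟨P, hP⟩ := exists_centerW (n := N + r) hS (by omega)
    obtain ⟨S'', A, hA⟩ := ih N hN (img S (prj P)) ((prj_weak hP).dm hS)
    exact ⟨S'', _, (prj_weak hP).comp hA⟩

end Pool.Agent.H911.EM
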