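import Pool.Agent.H911.EM.Curve

/-!
Finite morphisms which are bijective on the points over all extension fields.
-/

set_option autoImplicit false

namespace Pool.Agent.H911.EM

open MvPolynomial Filter Topology

variable {K : Type} [Field K] {n N : ℕ}

/-- The linear forms `A` map the closed set `S = 0` to the closed set `S' = 0`, have no common zeros on it,
and for all extension fields `Ω` of `K` the map of the `Ω`-valued points is bijective, and a
homeomorphism for the Zariski topologies. (So it is a finite morphism, bijective and birational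
on all closed subvarieties.) -/
structure WEmb (S : Set (MvPolynomial (Fin (n + 1)) K)) (S' : Set (MvPolynomial (Fin (N + 1)) K))
    (A : Fin (N + 1) → MvPolynomial (Fin (n + 1)) K) : Prop where
  forms : ∀ F ∈ S, ∃ e, F.IsHomogeneous e
  forms' : ∀ F ∈ S', ∃ e, F.IsHomogeneous e
  lin : ∀ i, (A i).IsHomogeneous 1
  map : ∀ (Ω : Type) [Field Ω] [Algebra K Ω] (x : Fin (n + 1) → Ω), On S x → On S' (at' A x)
  zero : ∀ (Ω : Type) [Field Ω] [Algebra K Ω] (x : Fin (n + 1) → Ω), On S x → at' A x = 0 → x = 0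
  inj : ∀ (Ω : Type) [Field Ω] [Algebra K Ω] (x x' : Fin (n + 1) → Ω) (c : Ω), On S x → On S x' →
    at' A x' = c • at' A x → x' = c • x
  surj : ∀ (Ω : Type) [Field Ω] [Algebra K Ω] (z : Fin (N + 1) → Ω), z ≠ 0 → On S' z →
    ∃ x : Fin (n + 1) → Ω, x ≠ 0 ∧ On S x ∧ at' A x = z
  closed : ∀ T : Set (MvPolynomial (Fin (n + 1)) K), (∀ F ∈ T, ∃ e, F.IsHomogeneous e) →
    ∃ T' : Set (MvPolynomial (Fin (N + 1)) K), (∀ F ∈ T', ∃ e, F.IsHomogeneous e) ∧
      ∀ (Ω : Type) [Field Ω] [Algebra K Ω] (x : Fin (n + 1) → Ω), x ≠ 0 → On S x →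
        (On T x ↔ On T' (at' A x))

variable {S : Set (MvPolynomial (Fin (n + 1)) K)}
  {S' : Set (MvPolynomial (Fin (N + 1)) K)} {A : Fin (N + 1) → MvPolynomial (Fin (n + 1)) K}

/-- embeddings -/
theorem Emb.weak (hS : ∀ F ∈ S, ∃ e, F.IsHomogeneous e) (hS' : ∀ F ∈ S', ∃ e, F.IsHomogeneous e)
    (hE : Emb S S' A) : WEmb S S' A where
  forms := hS
  forms' := hS'
  lin := hE.lin
  map := hE.map
  zero := hE.zero
  inj := fun Ω _ _ x x' c hx hx' h => hE.uniq hx hx' h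
  surj := fun Ω _ _ z hz hzS => hE.preim hS hz hzS
  closed := by
    intro T hT
    refine ⟨{G | (∃ e, G.IsHomogeneous e) ∧ ∀ (Ω : Type) [Field Ω] [Algebra K Ω]
      (x : Fin (n + 1) → Ω), On S x → On T x → aeval (at' A x) G = 0}, fun G hG => hG.1, ?_⟩
    intro Ω _ _ x hx hxS
    constructor
    · intro hxT G hG
      exact hG.2 Ω x hxS hxT
    · intro h F hF
      obtain ⟨e, he⟩ := hT F hF
      obtain ⟨k, H, R, hH, hR, h0, -, h2⟩ := hE.inv Ω (at' A x) (hE.ne_zero hx hxS)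
        (hE.map Ω x hxS)
      have h3 := h (H * bind₁ R F) ⟨⟨_, hH.mul (bind_hom hR he)⟩, fun Ω' _ _ x' hx' hx'T => by
        rw [map_mul, bind_at, h2 Ω' x' hx', ev_smul he, hx'T F hF, mul_zero, mul_zero]⟩
      rw [map_mul, bind_at, h2 Ω x hxS, ev_smul he] at h3
      rcases mul_eq_zero.1 h3 with h4 | h4
      · exact absurd h4 h0
      · exact (mul_eq_zero.1 h4).resolve_left (pow_ne_zero _ h0)

theorem WEmb.ne_zero (hE : WEmb S S' A) {Ω : Type} [Field Ω] [Algebra K Ω] {x : Fin (n + 1) → Ω}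
    (hx : x ≠ 0) (hxS : On S x) : at' A x ≠ 0 := fun h => hx (hE.zero Ω x hxS h)

/-- the ideal of a holomorphic map -/
theorem prime_of [Algebra K ℂ] {U : Set ℂ} (hUo : IsOpen U) (hUc : IsPreconnected U)
    {g : ℂ → Fin (N + 1) → ℂ} (hg : DifferentiableOn ℂ g U) (hU : U.Nonempty) :
    ∃ 𝔭 : Ideal (MvPolynomial (Fin (N + 1)) K), 𝔭.IsPrime ∧
      ∀ P, P ∈ 𝔭 ↔ ∀ z ∈ U, aeval (g z) P = 0 := by
  refine ⟨{ carrier := {P | ∀ z ∈ U, aeval (g z) P = 0}
            add_mem' := fun {P Q} hP hQ z hz => by rw [map_add, hP z hz, hQ z hz, add_zero]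
            zero_mem' := fun z _ => map_zero _
            smul_mem' := fun c P hP z hz => by
              rw [smul_eq_mul, map_mul, hP z hz, mul_zero] }, ?_, fun P => Iff.rfl⟩
  rw [Ideal.isPrime_iff]
  constructor
  · rw [Ideal.ne_top_iff_one]
    intro h
    obtain ⟨z, hz⟩ := hU
    have h1 : (aeval (g z) (1 : MvPolynomial (Fin (N + 1)) K) : ℂ) = 0 := h z hz
    rw [map_one] at h1
    exact one_ne_zero h1
  · intro P Q hPQ
    by_contra hcon
    push Not at hcon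
    obtain ⟨hP, hQ⟩ := hcon
    have hP' : ∃ z ∈ U, (aeval (g z) P : ℂ) ≠ 0 := by
      by_contra h
      push Not at h
      exact hP h
    obtain ⟨z₀, hz₀, h0⟩ := hP'
    apply hQ
    have hdP := diff_aeval P hg
    have hdQ := diff_aeval Q hg
    have h1 : (fun z => (aeval (g z) Q : ℂ)) =ᶠ[𝓝 z₀] 0 := by
      have h2 : ContinuousAt (fun z => (aeval (g z) P : ℂ)) z₀ :=
        (hdP.differentiableAt (hUo.mem_nhds hz₀)).continuousAt
      filter_upwards [h2.eventually_ne h0, hUo.mem_nhds hz₀] with z hz1 hz2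
      have h3 : (aeval (g z) (P * Q) : ℂ) = 0 := hPQ z hz2
      rw [map_mul] at h3
      exact (mul_eq_zero.1 h3).resolve_left hz1
    intro z hz
    exact (hdQ.analyticOnNhd hUo).eqOn_zero_of_preconnected_of_eventuallyEq_zero hUc hz₀ h1 hz

/-- the inverse along a holomorphic map -/
theorem WEmb.along [Algebra K ℂ] (hE : WEmb S S' A) {U : Set ℂ} (hUo : IsOpen U)
    (hUc : IsPreconnected U) {g : ℂ → Fin (N + 1) → ℂ} (hg : DifferentiableOn ℂ g U)
    (hg0 : ∃ z ∈ U, g z ≠ 0) (hgS : ∀ z ∈ U, On S' (g z)) :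
    ∃ (r : Fin (n + 1) → MvPolynomial (Fin (N + 1)) K) (h : MvPolynomial (Fin (N + 1)) K),
      (∃ z ∈ U, aeval (g z) h ≠ 0) ∧ ∀ z ∈ U, On S (at' r (g z)) ∧
        at' A (at' r (g z)) = (aeval (g z) h : ℂ) • g z := by
  classical
  obtain ⟨z₁, hz₁, hgz₁⟩ := hg0
  obtain ⟨𝔭, h𝔭, hmem⟩ := prime_of (K := K) hUo hUc hg ⟨z₁, hz₁⟩
  let φ : MvPolynomial (Fin (N + 1)) K →ₐ[K] FractionRing (MvPolynomial (Fin (N + 1)) K ⧸ 𝔭) :=
    (IsScalarTower.toAlgHom K (MvPolynomial (Fin (N + 1)) K ⧸ 𝔭)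
      (FractionRing (MvPolynomial (Fin (N + 1)) K ⧸ 𝔭))).comp (Ideal.Quotient.mkₐ K 𝔭)
  have hφ : ∀ P, φ P = 0 ↔ P ∈ 𝔭 := by
    intro P
    change algebraMap (MvPolynomial (Fin (N + 1)) K ⧸ 𝔭)
      (FractionRing (MvPolynomial (Fin (N + 1)) K ⧸ 𝔭)) (Ideal.Quotient.mk 𝔭 P) = 0 ↔ _
    rw [FaithfulSMul.algebraMap_eq_zero_iff, Ideal.Quotient.eq_zero_iff_mem]
  have hφa : ∀ P, (aeval (fun j => φ (X j)) P :
      FractionRing (MvPolynomial (Fin (N + 1)) K ⧸ 𝔭)) = φ P := fun P =>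
    (congrArg (fun ψ => ψ P) (aeval_unique φ)).symm
  obtain ⟨y, hy⟩ : ∃ y : Fin (N + 1) → FractionRing (MvPolynomial (Fin (N + 1)) K ⧸ 𝔭),
    y = fun j => φ (X j) := ⟨_, rfl⟩
  rw [← hy] at hφa
  have hy0 : y ≠ 0 := by
    obtain ⟨a, ha⟩ := Function.ne_iff.1 hgz₁
    intro h0
    have h1 : φ (X a) = 0 := by
      rw [hy] at h0
      exact congrFun h0 a
    have h2 := (hmem _).1 ((hφ _).1 h1) z₁ hz₁
    rw [aeval_X] at h2
    exact ha h2
  have hyS : On S' y := by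
    intro F hF
    rw [hφa, hφ, hmem]
    exact fun z hz => hgS z hz F hF
  obtain ⟨x, hx0, hxS, hxA⟩ := hE.surj _ y hy0 hyS
  obtain ⟨b, hb⟩ := IsLocalization.exist_integer_multiples_of_finite
    (nonZeroDivisors (MvPolynomial (Fin (N + 1)) K ⧸ 𝔭)) x
  choose a ha using hb
  obtain ⟨h, hh⟩ := Ideal.Quotient.mk_surjective (b : MvPolynomial (Fin (N + 1)) K ⧸ 𝔭)
  choose r hr using fun j => Ideal.Quotient.mk_surjective (a j)
  have hφh : φ h ≠ 0 := by
    rw [Ne, hφ, ← Ideal.Quotient.eq_zero_iff_mem, hh]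
    exact nonZeroDivisors.ne_zero b.2
  have hφr : ∀ j, φ (r j) = φ h * x j := by
    intro j
    change algebraMap _ _ (Ideal.Quotient.mk 𝔭 (r j)) =
      algebraMap _ _ (Ideal.Quotient.mk 𝔭 h) * x j
    rw [hr, hh, ha]
    exact Algebra.smul_def (b : MvPolynomial (Fin (N + 1)) K ⧸ 𝔭) (x j)
  have hφb : ∀ P : MvPolynomial (Fin (n + 1)) K, φ (bind₁ r P) = aeval (φ h • x) P := by
    intro P
    rw [← hφa, bind_at]
    congr 2
    funext j
    unfold at'
    rw [hφa, hφr, Pi.smul_apply, smul_eq_mul]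
  refine ⟨r, h, ?_, fun z hz => ⟨?_, ?_⟩⟩
  · by_contra hcon
    push Not at hcon
    exact hφh ((hφ h).2 ((hmem h).2 hcon))
  · intro F hF
    obtain ⟨e, he⟩ := hE.forms F hF
    rw [← bind_at]
    refine (hmem _).1 ((hφ _).1 ?_) z hz
    rw [hφb, ev_smul he, hxS F hF, mul_zero]
  · funext i
    have h1 : bind₁ r (A i) - h * X i ∈ 𝔭 := by
      rw [← hφ, map_sub, hφb, ev_smul (hE.lin i), pow_one, map_mul]
      have h2 : (aeval x (A i) : FractionRing (MvPolynomial (Fin (N + 1)) K ⧸ 𝔭)) = y i :=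
        congrFun hxA i
      rw [h2, hy, sub_self]
    have h2 := (hmem _).1 h1 z hz
    rw [map_sub, map_mul, aeval_X, bind_at, sub_eq_zero] at h2
    exact h2

/-- holomorphic maps to the image can be lifted -/
theorem WEmb.lift_on [Algebra K ℂ] (hE : WEmb S S' A) {U : Set ℂ} (hU : IsOpen U)
    {g : ℂ → Fin (N + 1) → ℂ} (hg : DifferentiableOn ℂ g U) (hg0 : ∀ z ∈ U, g z ≠ 0)
    (hgS : ∀ z ∈ U, On S' (g z)) : ∃ f : ℂ → Fin (n + 1) → ℂ, DifferentiableOn ℂ f U ∧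
      ∀ z ∈ U, f z ≠ 0 ∧ On S (f z) ∧ at' A (f z) = g z := by
  classical
  choose! f hf0 hfS hfA using fun (z : ℂ) (hz : z ∈ U) => hE.surj ℂ _ (hg0 z hz) (hgS z hz)
  refine ⟨f, ?_, fun z hz => ⟨hf0 z hz, hfS z hz, hfA z hz⟩⟩
  intro z₀ hz₀
  obtain ⟨ε, hε, hball⟩ := Metric.isOpen_iff.1 hU z₀ hz₀
  obtain ⟨r, h, ⟨z₁, hz₁, hh⟩, hr⟩ := hE.along Metric.isOpen_ball
    (convex_ball z₀ ε).isPreconnected (hg.mono hball) ⟨z₀, Metric.mem_ball_self hε, hg0 z₀ hz₀⟩
    (fun z hz => hgS z (hball hz))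
  have hgb := hg.mono hball
  have hbn : Metric.ball z₀ ε ∈ 𝓝 z₀ := Metric.isOpen_ball.mem_nhds (Metric.mem_ball_self hε)
  -- the inverse along the map
  have hdr : AnalyticAt ℂ (fun z => at' r (g z)) z₀ :=
    (diff_at r hgb).analyticAt hbn
  have hdh : AnalyticAt ℂ (fun z => (aeval (g z) h : ℂ)) z₀ :=
    (diff_aeval h hgb).analyticAt hbn
  have hh0 : ¬ (∀ᶠ z in 𝓝 z₀, (aeval (g z) h : ℂ) = 0) := by
    intro h1
    exact hh (((diff_aeval h hgb).analyticOnNhd
      Metric.isOpen_ball).eqOn_zero_of_preconnected_of_eventuallyEq_zero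
        (convex_ball z₀ ε).isPreconnected (Metric.mem_ball_self hε) h1 hz₁)
  have hrel : ∀ z ∈ Metric.ball z₀ ε, at' r (g z) = (aeval (g z) h : ℂ) • f z := by
    intro z hz
    refine hE.inj ℂ (f z) _ _ (hfS z (hball hz)) (hr z hz).1 ?_
    rw [(hr z hz).2, hfA z (hball hz)]
  have hr0 : ¬ (∀ᶠ z in 𝓝 z₀, at' r (g z) = 0) := by
    intro h1
    apply hh0
    filter_upwards [h1, hbn] with z h2 h3
    rw [hrel z h3] at h2
    rcases smul_eq_zero.1 h2 with h4 | h4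
    · exact h4
    · exact absurd h4 (hf0 z (hball h3))
  obtain ⟨k, ρ, hρ, hρ0, hρe⟩ := (hdr.exists_eventuallyEq_pow_smul_nonzero_iff).2 hr0
  obtain ⟨l, η, hη, hη0, hηe⟩ := (hdh.exists_eventuallyEq_pow_smul_nonzero_iff).2 hh0
  -- the map `ρ` is in the closed set
  have hρS : ∀ᶠ z in 𝓝 z₀, On S (ρ z) := by
    have h1 : ∀ᶠ z in 𝓝[≠] z₀, On S (ρ z) := by
      filter_upwards [nhdsWithin_le_nhds hρe, nhdsWithin_le_nhds hbn, self_mem_nhdsWithin]
        with z h2 h3 h4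
      have h5 : (z - z₀) ^ k ≠ 0 := pow_ne_zero _ (sub_ne_zero.2 h4)
      refine on_of_smul hE.forms h5 ?_
      have h6 : at' r (g z) = (z - z₀) ^ k • ρ z := h2
      rw [← h6]
      exact (hr z h3).1
    rw [← nhdsNE_sup_pure z₀, Filter.eventually_sup]
    refine ⟨h1, ?_⟩
    rw [eventually_pure]
    intro F hF
    have h2 : ContinuousAt (fun z => (aeval (ρ z) F : ℂ)) z₀ := by
      have h3 := hρ.eventually_analyticAt
      obtain ⟨V, hV, hVo, hzV⟩ := _root_.eventually_nhds_iff.1 h3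
      have h4 : DifferentiableOn ℂ ρ V := fun w hw =>
        (hV w hw).differentiableAt.differentiableWithinAt
      exact ((diff_aeval F h4).differentiableAt (hVo.mem_nhds hzV)).continuousAt
    have h5 : Tendsto (fun z => (aeval (ρ z) F : ℂ)) (𝓝[≠] z₀) (𝓝 0) := by
      refine Tendsto.congr' ?_ tendsto_const_nhds
      filter_upwards [h1] with z hz
      exact (hz F hF).symm
    exact tendsto_nhds_unique (h2.tendsto.mono_left nhdsWithin_le_nhds) h5
  have hAρ : ContinuousAt (fun z => at' A (ρ z)) z₀ := by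
    have h3 := hρ.eventually_analyticAt
    obtain ⟨V, hV, hVo, hzV⟩ := _root_.eventually_nhds_iff.1 h3
    have h4 : DifferentiableOn ℂ ρ V := fun w hw =>
      (hV w hw).differentiableAt.differentiableWithinAt
    exact ((diff_at A h4).differentiableAt (hVo.mem_nhds hzV)).continuousAt
  have hAρ0 : at' A (ρ z₀) ≠ 0 := hE.ne_zero hρ0 hρS.self_of_nhds
  have hgc : ContinuousAt g z₀ := (hg.differentiableAt (hU.mem_nhds hz₀)).continuousAt
  have hmain : ∀ᶠ z in 𝓝 z₀, (z - z₀) ^ k • at' A (ρ z) = (z - z₀) ^ l • η z • g z := by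
    filter_upwards [hρe, hηe, hbn] with z h2 h3 h4
    have h5 : at' r (g z) = (z - z₀) ^ k • ρ z := h2
    have h6 : (aeval (g z) h : ℂ) = (z - z₀) ^ l • η z := h3
    have h7 := (hr z h4).2
    rw [h5, h6, lin_smul hE.lin, smul_assoc] at h7
    exact h7
  have hkl : k = l := by
    have hsc : ∀ (a b : ℕ) (u v : ℂ → Fin (N + 1) → ℂ), ContinuousAt u z₀ → ContinuousAt v z₀ →
        u z₀ ≠ 0 → (∀ᶠ z in 𝓝 z₀, (z - z₀) ^ a • u z = (z - z₀) ^ b • v z) → b ≤ a := by
      intro a b u v hu hv hu0 h1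
      by_contra hab
      push Not at hab
      apply hu0
      have h2 : ∀ᶠ z in 𝓝[≠] z₀, (z - z₀) ^ (b - a) • v z = u z := by
        filter_upwards [nhdsWithin_le_nhds h1, self_mem_nhdsWithin] with z h3 h4
        have h5 : (z - z₀) ^ a ≠ 0 := pow_ne_zero _ (sub_ne_zero.2 h4)
        have h6 : (z - z₀) ^ b = (z - z₀) ^ a * (z - z₀) ^ (b - a) := by
          rw [← pow_add]
          congr 1
          omega
        rw [h6, mul_smul] at h3
        exact (smul_right_injective _ h5 h3).symm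
      have h3 : Tendsto (fun z => (z - z₀) ^ (b - a) • v z) (𝓝[≠] z₀) (𝓝 0) := by
        have h4 : ContinuousAt (fun z => (z - z₀) ^ (b - a) • v z) z₀ := by fun_prop
        have h5 := h4.tendsto.mono_left (nhdsWithin_le_nhds (s := {z₀}ᶜ))
        rwa [sub_self, zero_pow (by omega), zero_smul] at h5
      exact tendsto_nhds_unique ((hu.tendsto.mono_left nhdsWithin_le_nhds).congr'
        (h2.mono fun z hz => hz.symm)) h3
    refine le_antisymm ?_ ?_
    · refine hsc l k (fun z => η z • g z) (fun z => at' A (ρ z))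
        (hη.continuousAt.smul hgc) hAρ (smul_ne_zero hη0 (hg0 z₀ hz₀)) ?_
      filter_upwards [hmain] with z h1
      exact h1.symm
    · exact hsc k l (fun z => at' A (ρ z)) (fun z => η z • g z) hAρ
        (hη.continuousAt.smul hgc) hAρ0 hmain
  subst hkl
  have heq0 : ∀ᶠ z in 𝓝 z₀, at' A (ρ z) = η z • g z := by
    have h1 : ∀ᶠ z in 𝓝[≠] z₀, at' A (ρ z) = η z • g z := by
      filter_upwards [nhdsWithin_le_nhds hmain, self_mem_nhdsWithin] with z h3 h4
      exact smul_right_injective _ (pow_ne_zero k (sub_ne_zero.2 h4)) h3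
    rw [← nhdsNE_sup_pure z₀, Filter.eventually_sup]
    refine ⟨h1, ?_⟩
    rw [eventually_pure]
    exact tendsto_nhds_unique (hAρ.tendsto.mono_left nhdsWithin_le_nhds)
      (((hη.continuousAt.smul hgc).tendsto.mono_left nhdsWithin_le_nhds).congr'
        (h1.mono fun z hz => hz.symm))
  have hfin : f =ᶠ[𝓝 z₀] fun z => (η z)⁻¹ • ρ z := by
    filter_upwards [heq0, hρS, hη.continuousAt.eventually_ne hη0, hU.mem_nhds hz₀]
      with z h1 h2 h3 h4
    have h5 := hE.inj ℂ (f z) (ρ z) (η z) (hfS z h4) h2 (by rw [h1, hfA z h4])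
    rw [h5, smul_smul, inv_mul_cancel₀ h3, one_smul]
  have h4 : DifferentiableAt ℂ (fun z => (η z)⁻¹ • ρ z) z₀ :=
    (hη.differentiableAt.fun_inv hη0).fun_smul hρ.differentiableAt
  exact (h4.congr_of_eventuallyEq hfin).differentiableWithinAt

/-- entire curves in the image can be lifted -/
theorem WEmb.lift [Algebra K ℂ] (hE : WEmb S S' A) {g : ℂ → Fin (N + 1) → ℂ}
    (hg : Differentiable ℂ g) (hg0 : ∀ z, g z ≠ 0) (hgS : ∀ z, On S' (g z)) :
    ∃ f : ℂ → Fin (n + 1) → ℂ, Differentiable ℂ f ∧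
      ∀ z, f z ≠ 0 ∧ On S (f z) ∧ at' A (f z) = g z := by
  obtain ⟨f, hf, h⟩ := hE.lift_on isOpen_univ hg.differentiableOn (fun z _ => hg0 z)
    (fun z _ => hgS z)
  exact ⟨f, differentiableOn_univ.1 hf, fun z => h z (Set.mem_univ z)⟩

end Pool.Agent.H911.EM
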